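import Pool.Agent.MycW.Defs
import Pool.Agent.Myc.NatA
import Pool.Agent.Myc.NatB
import Pool.Agent.Myc.SynA
import Pool.Agent.Myc.SemA

set_option autoImplicit false

/-! # MODULE ARA: arithmetical relations, closure properties, I -/

namespace Pool.Agent.MycW

open Pool.Agent.Myc Pool.Agent.Myc.Fm

theorem Ar.congr {k : ℕ} {R R' : Env → Prop} (h : Ar k R) (hR : ∀ e, R e ↔ R' e) : Ar k R' := by
  obtain ⟨ρ, h1, h2⟩ := h
  exact ⟨ρ, h1, fun e => (h2 e).trans (hR e)⟩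

theorem Ar.mono {k n : ℕ} {R : Env → Prop} (h : Ar k R) (hk : k ≤ n) : Ar n R := by
  obtain ⟨ρ, h1, h2⟩ := h
  exact ⟨ρ, h1.mono fun i hi => lt_of_lt_of_le hi hk, h2⟩

/-- An arithmetical relation depends only on the first `k` entries. -/
theorem Ar.ext {k : ℕ} {R : Env → Prop} (h : Ar k R) {e e' : Env} (he : ∀ i < k, e i = e' i) :
    R e ↔ R e' := by
  obtain ⟨ρ, h1, h2⟩ := h
  rw [← h2, ← h2]
  exact sat_congr NN h1 he

theorem Ar.map {k n : ℕ} {R : Env → Prop} (f : ℕ → ℕ) (hf : ∀ i < k, f i < n) (h : Ar k R) :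
    Ar n (fun e => R (fun i => e (f i))) := by
  obtain ⟨ρ, h1, h2⟩ := h
  refine ⟨rename f ρ, (FVs_rename _ _ _).2 (h1.mono hf), fun e => ?_⟩
  rw [sat_rename, h2]

theorem Ar.not {k : ℕ} {R : Env → Prop} (h : Ar k R) : Ar k (fun e => ¬ R e) := by
  obtain ⟨ρ, h1, h2⟩ := h
  refine ⟨neg ρ, (FVs_neg _ _).2 h1, fun e => ?_⟩
  rw [sat_neg, h2]

theorem Ar.and {k : ℕ} {R R' : Env → Prop} (h : Ar k R) (h' : Ar k R') :
    Ar k (fun e => R e ∧ R' e) := by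
  obtain ⟨ρ, h1, h2⟩ := h
  obtain ⟨ρ', h1', h2'⟩ := h'
  refine ⟨Fm.and ρ ρ', (FVs_and _ _ _).2 ⟨h1, h1'⟩, fun e => ?_⟩
  rw [sat_and, h2, h2']

theorem Ar.or {k : ℕ} {R R' : Env → Prop} (h : Ar k R) (h' : Ar k R') :
    Ar k (fun e => R e ∨ R' e) := by
  obtain ⟨ρ, h1, h2⟩ := h
  obtain ⟨ρ', h1', h2'⟩ := h'
  refine ⟨Fm.or ρ ρ', (FVs_or _ _ _).2 ⟨h1, h1'⟩, fun e => ?_⟩
  rw [sat_or, h2, h2']

theorem Ar.imp {k : ℕ} {R R' : Env → Prop} (h : Ar k R) (h' : Ar k R') :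
    Ar k (fun e => R e → R' e) := by
  obtain ⟨ρ, h1, h2⟩ := h
  obtain ⟨ρ', h1', h2'⟩ := h'
  refine ⟨Fm.imp ρ ρ', ?_, fun e => ?_⟩
  · simp only [FVs]
    exact ⟨h1, h1'⟩
  · rw [sat_imp, h2, h2']

theorem ARA_update (k x : ℕ) (e : Env) :
    (fun i => if i = k then x else e i) = Function.update e k x := by
  funext i
  by_cases hi : i = k
  · subst hi
    simp
  · rw [Function.update_of_ne hi, if_neg hi]

/-- Quantification over one number, put at the place `k`. -/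
theorem Ar.ex1 {k : ℕ} {R : Env → Prop} (h : Ar (k + 1) R) :
    Ar k (fun e => ∃ x : ℕ, R (fun i => if i = k then x else e i)) := by
  obtain ⟨ρ, h1, h2⟩ := h
  refine ⟨exN k ρ, (FVs_exN _ _ _).2 (h1.mono fun i hi => ?_), fun e => ?_⟩
  · show i = k ∨ i < k
    omega
  · rw [sat_exN]
    refine exists_congr fun x => ?_
    rw [ARA_update, h2]

theorem Ar.all1 {k : ℕ} {R : Env → Prop} (h : Ar (k + 1) R) :
    Ar k (fun e => ∀ x : ℕ, R (fun i => if i = k then x else e i)) := by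
  obtain ⟨ρ, h1, h2⟩ := h
  refine ⟨alN k ρ, (FVs_alN _ _ _).2 (h1.mono fun i hi => ?_), fun e => ?_⟩
  · show i = k ∨ i < k
    omega
  · rw [sat_alN]
    refine forall_congr' fun x => ?_
    rw [ARA_update, h2]

end Pool.Agent.MycW
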