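import Pool.Agent.MycW.ArA

set_option autoImplicit false

/-! # MODULE ARB: arithmetical relations, closure properties, II -/

namespace Pool.Agent.MycW

open Pool.Agent.Myc Pool.Agent.Myc.Fm

/-- Quantification over `n` numbers. -/
theorem Ar.ex {k n : ℕ} {R : Env → Prop} (h : Ar (k + n) R) :
    Ar k (fun e => ∃ w : Env, R (join k e w)) := by
  induction n generalizing R with
  | zero =>
    refine Ar.congr (R := R) h fun e => ?_
    have h1 : ∀ w : Env, R e ↔ R (join k e w) := fun w => Ar.ext h fun i hi => by
      show e i = if i < k then e i else w (i - k)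
      rw [if_pos (show i < k from hi)]
    exact ⟨fun he => ⟨e, (h1 e).1 he⟩, fun ⟨w, hw⟩ => (h1 w).2 hw⟩
  | succ n ih =>
    refine Ar.congr (ih (Ar.ex1 (k := k + n) h)) fun e => ?_
    constructor
    · rintro ⟨w, x, hx⟩
      refine ⟨fun i => if i = n then x else w i, ?_⟩
      convert hx using 1
      funext i
      show (if i < k then e i else if i - k = n then x else w (i - k)) =
        if i = k + n then x else if i < k then e i else w (i - k)
      by_cases h1 : i < k
      · rw [if_pos h1, if_neg (by omega), if_pos h1]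
      · rw [if_neg h1]
        by_cases h2 : i = k + n
        · rw [if_pos (by omega), if_pos h2]
        · rw [if_neg (by omega), if_neg h2, if_neg h1]
    · rintro ⟨w, hw⟩
      refine ⟨w, w n, ?_⟩
      convert hw using 1
      funext i
      show (if i = k + n then w n else if i < k then e i else w (i - k)) =
        if i < k then e i else w (i - k)
      by_cases h2 : i = k + n
      · rw [if_pos h2, if_neg (by omega), h2, Nat.add_sub_cancel_left]
      · rw [if_neg h2]

theorem Ar.all {k n : ℕ} {R : Env → Prop} (h : Ar (k + n) R) :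
    Ar k (fun e => ∀ w : Env, R (join k e w)) := by
  refine Ar.congr (Ar.not (Ar.ex (n := n) (Ar.not h))) fun e => ?_
  constructor
  · intro h1 w
    by_contra h2
    exact h1 ⟨w, h2⟩
  · rintro h1 ⟨w, hw⟩
    exact hw (h1 w)

theorem Ar.top {k : ℕ} : Ar k (fun _ => True) := by
  refine ⟨Fm.imp Fm.bot Fm.bot, ?_, fun e => ?_⟩
  · simp only [FVs, and_self]
  · exact ⟨fun _ => trivial, fun _ h => h⟩

theorem Ar.none {k : ℕ} : Ar k (fun _ => False) := by
  refine ⟨Fm.bot, ?_, fun e => Iff.rfl⟩
  simp only [FVs]

/-- For a proposition which does not depend on the numbers. -/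
theorem Ar.prop {k : ℕ} (p : Prop) : Ar k (fun _ => p) := by
  by_cases hp : p
  · exact Ar.congr Ar.top fun _ => ⟨fun _ => hp, fun _ => trivial⟩
  · exact Ar.congr Ar.none fun _ => ⟨fun h => h.elim, fun h => hp h⟩

theorem ARB_finset {k : ℕ} {ι : Type} {R : ι → Env → Prop} (h : ∀ m, Ar k (R m))
    (s : Finset ι) : Ar k (fun e => ∀ m ∈ s, R m e) := by
  classical
  induction s using Finset.induction_on with
  | empty =>
    refine Ar.congr Ar.top fun e => ⟨fun _ m hm => ?_, fun _ => trivial⟩
    exact absurd hm (Finset.notMem_empty m)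
  | insert a s ha ih =>
    refine Ar.congr (Ar.and (h a) ih) fun e => ?_
    rw [Finset.forall_mem_insert]

/-- Finite conjunctions. -/
theorem Ar.forallFin {k : ℕ} {ι : Type} [Fintype ι] {R : ι → Env → Prop} (h : ∀ m, Ar k (R m)) :
    Ar k (fun e => ∀ m, R m e) :=
  Ar.congr (ARB_finset h Finset.univ) fun _ =>
    ⟨fun h m => h m (Finset.mem_univ m), fun h m _ => h m⟩

end Pool.Agent.MycW
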