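import Pool.Agent.MycW.ArA
import Pool.Agent.Myc.StdB

set_option autoImplicit false

/-! # MODULE ARD: arithmetical relations, basic relations -/

namespace Pool.Agent.MycW

open Pool.Agent.Myc Pool.Agent.Myc.Fm

/-- The map which sends `0, 1, ...` to the elements of a list. -/
def ARD_f (l : List ℕ) : ℕ → ℕ := fun i => l.getD i 0

theorem ARD_base {n : ℕ} {ρ : AFm} {R : Env → Prop} (h : FVs (fun i => i < n) ρ)
    (hR : ∀ e, Sat NN ρ e ↔ R e) : Ar n R := ⟨ρ, h, hR⟩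

theorem ARD_one {k : ℕ} {ρ : AFm} {R : ℕ → Prop} (h : FVs (fun i => i < 1) ρ)
    (hR : ∀ e, Sat NN ρ e ↔ R (e 0)) (i : ℕ) (hi : i < k) : Ar k (fun e => R (e i)) := by
  have h1 : Ar 1 (fun e => R (e 0)) := ARD_base h hR
  exact (h1.map (n := k) (fun _ => i) (fun _ _ => hi))

theorem ARD_two {k : ℕ} {ρ : AFm} {R : ℕ → ℕ → Prop} (h : FVs (fun i => i < 2) ρ)
    (hR : ∀ e, Sat NN ρ e ↔ R (e 0) (e 1)) (i j : ℕ) (hi : i < k) (hj : j < k) :
    Ar k (fun e => R (e i) (e j)) := by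
  have h1 : Ar 2 (fun e => R (e 0) (e 1)) := ARD_base h hR
  exact (h1.map (n := k) (fun m => if m = 0 then i else j) (fun m _ => by
    split_ifs <;> assumption))

theorem ARD_three {k : ℕ} {ρ : AFm} {R : ℕ → ℕ → ℕ → Prop} (h : FVs (fun i => i < 3) ρ)
    (hR : ∀ e, Sat NN ρ e ↔ R (e 0) (e 1) (e 2)) (i j l : ℕ) (hi : i < k) (hj : j < k)
    (hl : l < k) : Ar k (fun e => R (e i) (e j) (e l)) := by
  have h1 : Ar 3 (fun e => R (e 0) (e 1) (e 2)) := ARD_base h hR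
  exact (h1.map (n := k) (fun m => if m = 0 then i else if m = 1 then j else l) (fun m _ => by
    split_ifs <;> assumption))

theorem ar_eqc {k : ℕ} (i c : ℕ) (hi : i < k) : Ar k (fun e => e i = c) :=
  ARD_one (R := fun x => x = c) (FVs_num c) (fun e => sat_num c e) i hi

theorem ar_eqv {k : ℕ} (i j : ℕ) (hi : i < k) (hj : j < k) : Ar k (fun e => e i = e j) :=
  ARD_two (ρ := eq 0 1) (R := fun x y => x = y) ⟨by norm_num, by norm_num⟩ (fun _ => Iff.rfl)
    i j hi hj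

theorem ar_succ {k : ℕ} (i j : ℕ) (hi : i < k) (hj : j < k) : Ar k (fun e => e i + 1 = e j) :=
  ARD_two (ρ := succA 0 1) (R := fun x y => x + 1 = y)
    ((StdB_succA _ 0 1).2 ⟨by norm_num, by norm_num⟩) (fun _ => Iff.rfl) i j hi hj

theorem ar_add {k : ℕ} (i j l : ℕ) (hi : i < k) (hj : j < k) (hl : l < k) :
    Ar k (fun e => e i + e j = e l) :=
  ARD_three (ρ := addA 0 1 2) (R := fun x y z => x + y = z)
    ((StdB_addA _ 0 1 2).2 ⟨by norm_num, by norm_num, by norm_num⟩) (fun _ => Iff.rfl)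
    i j l hi hj hl

theorem ar_mul {k : ℕ} (i j l : ℕ) (hi : i < k) (hj : j < k) (hl : l < k) :
    Ar k (fun e => e i * e j = e l) :=
  ARD_three (ρ := mulA 0 1 2) (R := fun x y z => x * y = z)
    ((StdB_mulA _ 0 1 2).2 ⟨by norm_num, by norm_num, by norm_num⟩) (fun _ => Iff.rfl)
    i j l hi hj hl

theorem ar_lt {k : ℕ} (i j : ℕ) (hi : i < k) (hj : j < k) : Ar k (fun e => e i < e j) :=
  ARD_two (R := fun x y => x < y) StdB_ltF sat_ltF i j hi hj

theorem ar_le {k : ℕ} (i j : ℕ) (hi : i < k) (hj : j < k) : Ar k (fun e => e i ≤ e j) :=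
  ARD_two (R := fun x y => x ≤ y) StdB_leF sat_leF i j hi hj

theorem ar_pair {k : ℕ} (i j l : ℕ) (hi : i < k) (hj : j < k) (hl : l < k) :
    Ar k (fun e => Nat.pair (e i) (e j) = e l) :=
  ARD_three (R := fun x y z => Nat.pair x y = z) StdB_pairF sat_pairF i j l hi hj hl

theorem ar_two_pow {k : ℕ} (i j : ℕ) (hi : i < k) (hj : j < k) :
    Ar k (fun e => e j = 2 ^ (e i)) :=
  ARD_two (R := fun x y => y = 2 ^ x) StdB_exp2F sat_exp2F i j hi hj

/-- Concatenation. -/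
theorem ar_cc {k : ℕ} (i j l : ℕ) (hi : i < k) (hj : j < k) (hl : l < k) :
    Ar k (fun e => Cc (e i) (e j) (e l)) :=
  ARD_three (R := fun x y z => Cc x y z) StdB_concF sat_concF i j l hi hj hl

end Pool.Agent.MycW
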