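import Pool.Agent.MycW.NumB

set_option autoImplicit false

/-! # MODULE CLOS1: closure properties of relations with short proofs, I -/

namespace Pool.Agent.MycW

open Pool.Agent.Myc Pool.Agent.Myc.Fm

/-- Polynomially bounded functions. -/
def PB (f : ℕ → ℕ) : Prop := ∃ c : ℕ, ∀ s, f s ≤ c * (s + 1) ^ c

theorem PB.mono {f g : ℕ → ℕ} (h : PB g) (hfg : ∀ s, f s ≤ g s) : PB f := by
  obtain ⟨c, hc⟩ := h
  exact ⟨c, fun s => (hfg s).trans (hc s)⟩

theorem PB.base (c : ℕ) : PB (fun s => c * (s + 1) ^ c) := ⟨c, fun _ => le_rfl⟩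

theorem PB.const (a : ℕ) : PB (fun _ => a) :=
  ⟨a, fun s => Nat.le_mul_of_pos_right a (Nat.pow_pos (Nat.succ_pos s))⟩

theorem PB.id : PB (fun s => s) := ⟨1, fun s => by
  show s ≤ 1 * (s + 1) ^ 1
  rw [pow_one, one_mul]
  exact Nat.le_succ s⟩

theorem CLOS1_pow {a b c s : ℕ} (ha : a ≤ c) (hb : b ≤ c) : a * (s + 1) ^ b ≤ c * (s + 1) ^ c :=
  Nat.mul_le_mul ha (Nat.pow_le_pow_right (Nat.succ_pos s) hb)

theorem PB.add {f g : ℕ → ℕ} (hf : PB f) (hg : PB g) : PB (fun s => f s + g s) := by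
  obtain ⟨a, ha⟩ := hf
  obtain ⟨b, hb⟩ := hg
  refine ⟨a + b, fun s => ?_⟩
  have h1 : a * (s + 1) ^ a ≤ a * (s + 1) ^ (a + b) :=
    Nat.mul_le_mul_left _ (Nat.pow_le_pow_right (Nat.succ_pos s) (Nat.le_add_right _ _))
  have h2 : b * (s + 1) ^ b ≤ b * (s + 1) ^ (a + b) :=
    Nat.mul_le_mul_left _ (Nat.pow_le_pow_right (Nat.succ_pos s) (Nat.le_add_left _ _))
  calc f s + g s ≤ a * (s + 1) ^ (a + b) + b * (s + 1) ^ (a + b) :=
        Nat.add_le_add ((ha s).trans h1) ((hb s).trans h2)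
    _ = (a + b) * (s + 1) ^ (a + b) := by ring

theorem PB.mul {f g : ℕ → ℕ} (hf : PB f) (hg : PB g) : PB (fun s => f s * g s) := by
  obtain ⟨a, ha⟩ := hf
  obtain ⟨b, hb⟩ := hg
  refine ⟨a * b + (a + b), fun s => ?_⟩
  calc f s * g s ≤ (a * (s + 1) ^ a) * (b * (s + 1) ^ b) := Nat.mul_le_mul (ha s) (hb s)
    _ = (a * b) * (s + 1) ^ (a + b) := by rw [pow_add]; ring
    _ ≤ (a * b + (a + b)) * (s + 1) ^ (a * b + (a + b)) :=
        CLOS1_pow (Nat.le_add_right _ _) (Nat.le_add_left _ _)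

theorem PB.pow {f : ℕ → ℕ} (hf : PB f) (n : ℕ) : PB (fun s => f s ^ n) := by
  induction n with
  | zero => exact (PB.const 1).mono fun s => by rw [pow_zero]
  | succ n ih => exact (ih.mul hf).mono fun s => by rw [pow_succ]

/-- Composition with a polynomially bounded function. -/
theorem PB.comp {f : ℕ → ℕ} (hf : PB f) (c : ℕ) : PB (fun s => c * (f s + 1) ^ c) :=
  (PB.const c).mul ((hf.add (PB.const 1)).pow c)

theorem CLOS1_trueL_cons {ψ : AFm} {Ax : List AFm} (h : Closed ψ) (h' : ∀ e, Sat NN ψ e)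
    (hA : TrueL Ax) : TrueL (ψ :: Ax) := by
  constructor
  · intro χ hχ
    rcases List.mem_cons.1 hχ with rfl | hχ
    · exact h
    · exact hA.1 χ hχ
  · intro χ hχ
    rcases List.mem_cons.1 hχ with rfl | hχ
    · exact h'
    · exact hA.2 χ hχ

theorem CLOS1_trueL_nil : TrueL [] := ⟨fun _ h => absurd h List.not_mem_nil,
  fun _ h => absurd h List.not_mem_nil⟩

theorem CLOS1_trueL_append {Ax Ax' : List AFm} (h : TrueL Ax) (h' : TrueL Ax') :
    TrueL (Ax ++ Ax') := by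
  constructor
  · intro χ hχ
    rcases List.mem_append.1 hχ with hχ | hχ
    · exact h.1 χ hχ
    · exact h'.1 χ hχ
  · intro χ hχ
    rcases List.mem_append.1 hχ with hχ | hχ
    · exact h.2 χ hχ
    · exact h'.2 χ hχ

theorem CLOS1_sat_alls {k : ℕ} {φ : AFm} (h : ∀ e, Sat NN φ e) : ∀ e, Sat NN (alls k φ) e :=
  (sat_alls NN k φ).2 h

/-- A general form of the following lemmas. -/
theorem PP.of_bd {k : ℕ} {R : Env → Prop} {D : Env → ℕ → Prop}
    (h : ∀ ρ : AFm, FVs (fun i => i < k) ρ → (∀ e, Sat NN ρ e ↔ R e) →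
      ∃ Ax : List AFm, TrueL Ax ∧ ∃ f : ℕ → ℕ, PB f ∧ ∀ T : Set AFm, (∀ ψ ∈ Ax, ψ ∈ T) →
        ∀ e s, D e s → Pv T (f s) (Gd k e ρ)) : PP k R D := by
  intro ρ h1 h2
  obtain ⟨Ax, hAx, f, ⟨c, hc⟩, hf⟩ := h ρ h1 h2
  exact ⟨Ax, hAx, c, fun T hT e s hs => (hf T hT e s hs).mono (hc s)⟩

/-- MODULE CLOS1. Consequences. HINT: choose `ρ₁` for `R₁`, add the axiom `alls k (ρ₁ → ρ₂)`,
`hstep`. -/
theorem PP.imp {k : ℕ} {R R' : Env → Prop} {D : Env → ℕ → Prop} (hA : Ar k R) (h : PP k R D)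
    (hR : ∀ e, R e → R' e) : PP k R' D := by
  refine PP.of_bd fun ρ' h1 h2 => ?_
  obtain ⟨ρ, h3, h4⟩ := hA
  obtain ⟨Ax, hAx, c, hc⟩ := h ρ h3 h4
  obtain ⟨C, hC⟩ := hstep k [ρ] ρ' (fun p hp => by rw [List.mem_singleton] at hp; rw [hp]; exact h3)
    h1
  refine ⟨alls k (Fm.imp ρ ρ') :: Ax, CLOS1_trueL_cons (closed_alls ?_) (CLOS1_sat_alls ?_) hAx,
    fun s => c * (s + 1) ^ c + C * (1 + c * (s + 1) ^ c),
    (PB.base c).add ((PB.const C).mul ((PB.const 1).add (PB.base c))), fun T hT e s hs => ?_⟩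
  · exact ⟨h3, h1⟩
  · intro e he
    exact (h2 e).2 (hR e ((h4 e).1 he))
  · have h5 := hc T (fun ψ hψ => hT ψ (List.mem_cons_of_mem _ hψ)) e s hs
    have h6 : SzE k e ≤ c * (s + 1) ^ c := (SzE_le_len_Gd k e ρ).trans h5.len_le
    have h7 := hC T e (fun _ => c * (s + 1) ^ c) (hT _ List.mem_cons_self) (fun p hp => by
      rw [List.mem_singleton] at hp; rw [hp]; exact h5)
    refine h7.mono ?_
    simp only [List.map_cons, List.map_nil, List.sum_cons, List.sum_nil, Nat.add_zero]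
    exact Nat.add_le_add_left (Nat.mul_le_mul_left _ (Nat.add_le_add_left h6 _)) _

/-- MODULE CLOS1. Change of the domain and of the measure. -/
theorem PP.dom {k : ℕ} {R : Env → Prop} {D D' : Env → ℕ → Prop} (h : PP k R D)
    (hD : ∃ C : ℕ, ∀ e s, D' e s → D e (C * (s + 1) ^ C)) : PP k R D' := by
  obtain ⟨C, hC⟩ := hD
  refine PP.of_bd fun ρ h1 h2 => ?_
  obtain ⟨Ax, hAx, c, hc⟩ := h ρ h1 h2
  exact ⟨Ax, hAx, fun s => c * (C * (s + 1) ^ C + 1) ^ c, (PB.base C).comp c,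
    fun T hT e s hs => hc T hT e _ (hC e s hs)⟩

/-- MODULE CLOS1. -/
theorem PP.and {k : ℕ} {R R' : Env → Prop} {D D' : Env → ℕ → Prop} (hA : Ar k R) (hA' : Ar k R')
    (h : PP k R D) (h' : PP k R' D') :
    PP k (fun e => R e ∧ R' e) (fun e s => D e s ∧ D' e s) := by
  refine PP.of_bd fun ρ h1 h2 => ?_
  obtain ⟨ρ₁, h3, h4⟩ := hA
  obtain ⟨ρ₂, h3', h4'⟩ := hA'
  obtain ⟨Ax, hAx, c, hc⟩ := h ρ₁ h3 h4
  obtain ⟨Ax', hAx', c', hc'⟩ := h' ρ₂ h3' h4'
  obtain ⟨C, hC⟩ := hstep k [ρ₁, ρ₂] ρ (fun p hp => by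
    rcases List.mem_cons.1 hp with hp | hp
    · rw [hp]; exact h3
    · rw [List.mem_singleton] at hp; rw [hp]; exact h3') h1
  have hPB : PB (fun s => c * (s + 1) ^ c + c' * (s + 1) ^ c') := (PB.base c).add (PB.base c')
  refine ⟨alls k (Fm.imp ρ₁ (Fm.imp ρ₂ ρ)) :: (Ax ++ Ax'),
    CLOS1_trueL_cons (closed_alls ?_) (CLOS1_sat_alls ?_) (CLOS1_trueL_append hAx hAx'),
    fun s => ((c * (s + 1) ^ c + c' * (s + 1) ^ c') + (c * (s + 1) ^ c + c' * (s + 1) ^ c')) +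
      C * (1 + (c * (s + 1) ^ c + c' * (s + 1) ^ c')),
    (hPB.add hPB).add ((PB.const C).mul ((PB.const 1).add hPB)), fun T hT e s hs => ?_⟩
  · exact ⟨h3, h3', h1⟩
  · intro e he he'
    exact (h2 e).2 ⟨(h4 e).1 he, (h4' e).1 he'⟩
  · have h5 := hc T (fun ψ hψ => hT ψ (List.mem_cons_of_mem _ (List.mem_append_left _ hψ)))
      e s hs.1
    have h5' := hc' T (fun ψ hψ => hT ψ (List.mem_cons_of_mem _ (List.mem_append_right _ hψ)))
      e s hs.2
    have h6 : SzE k e ≤ c * (s + 1) ^ c := (SzE_le_len_Gd k e ρ₁).trans h5.len_le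
    have h7 := hC T e (fun _ => c * (s + 1) ^ c + c' * (s + 1) ^ c')
      (hT _ List.mem_cons_self) (fun p hp => by
        rcases List.mem_cons.1 hp with hp | hp
        · rw [hp]; exact h5.mono (Nat.le_add_right _ _)
        · rw [List.mem_singleton] at hp; rw [hp]; exact h5'.mono (Nat.le_add_left _ _))
    refine h7.mono ?_
    simp only [List.map_cons, List.map_nil, List.sum_cons, List.sum_nil, Nat.add_zero]
    exact Nat.add_le_add_left (Nat.mul_le_mul_left _ (Nat.add_le_add_left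
      (h6.trans (Nat.le_add_right _ _)) _)) _

/-- MODULE CLOS1. -/
theorem PP.or {k : ℕ} {R : Env → Prop} {D D' : Env → ℕ → Prop}
    (h : PP k R D) (h' : PP k R D') : PP k R (fun e s => D e s ∨ D' e s) := by
  refine PP.of_bd fun ρ h1 h2 => ?_
  obtain ⟨Ax, hAx, c, hc⟩ := h ρ h1 h2
  obtain ⟨Ax', hAx', c', hc'⟩ := h' ρ h1 h2
  refine ⟨Ax ++ Ax', CLOS1_trueL_append hAx hAx', fun s => c * (s + 1) ^ c + c' * (s + 1) ^ c',
    (PB.base c).add (PB.base c'), fun T hT e s hs => ?_⟩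
  rcases hs with hs | hs
  · exact (hc T (fun ψ hψ => hT ψ (List.mem_append_left _ hψ)) e s hs).mono
      (Nat.le_add_right _ _)
  · exact (hc' T (fun ψ hψ => hT ψ (List.mem_append_right _ hψ)) e s hs).mono
      (Nat.le_add_left _ _)

/-- MODULE CLOS1. -/
theorem PP.single {k : ℕ} {R : Env → Prop} (e0 : Env) (h : R e0) :
    PP k R (fun e _ => ∀ i < k, e i = e0 i) := by
  refine PP.of_bd fun ρ h1 h2 => ?_
  refine ⟨[Gd k e0 ρ], CLOS1_trueL_cons (closed_Gd h1 e0)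
    (fun e => (sat_Gd h1 e0 e).2 ((h2 e0).2 h)) CLOS1_trueL_nil, fun _ => len (Gd k e0 ρ),
    PB.const _, fun T hT e s hs => ?_⟩
  rw [Gd_congr hs]
  exact Pv.hyp (hT _ List.mem_cons_self)

/-- MODULE CLOS1. -/
theorem PP.always {k : ℕ} {R : Env → Prop} (h : ∀ e, R e) :
    PP k R (fun e s => SzE k e ≤ s) := by
  refine PP.of_bd fun ρ h1 h2 => ?_
  obtain ⟨C, hC⟩ := hstep k [] ρ (fun p hp => absurd hp List.not_mem_nil) h1
  refine ⟨[alls k ρ], CLOS1_trueL_cons (closed_alls h1) (CLOS1_sat_alls fun e => (h2 e).2 (h e))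
    CLOS1_trueL_nil, fun s => C * (1 + s), (PB.const C).mul ((PB.const 1).add PB.id),
    fun T hT e s hs => ?_⟩
  have h7 := hC T e (fun _ => 0) (hT _ List.mem_cons_self)
    (fun p hp => absurd hp List.not_mem_nil)
  refine h7.mono ?_
  simp only [List.map_nil, List.sum_nil, Nat.zero_add]
  exact Nat.mul_le_mul_left _ (Nat.add_le_add_left hs _)

end Pool.Agent.MycW
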