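import Pool.Agent.MycW.Clos1

set_option autoImplicit false

/-! # MODULE CLOS2: closure properties of relations with short proofs, II -/

namespace Pool.Agent.MycW

open Pool.Agent.Myc Pool.Agent.Myc.Fm

/-- MODULE CLOS2. Substitution of variables. -/
theorem PP.map {k n : ℕ} {R : Env → Prop} {D : Env → ℕ → Prop} (f : ℕ → ℕ)
    (hf : ∀ i < k, f i < n) (hA : Ar k R) (h : PP k R D) :
    PP n (fun e => R (fun i => e (f i))) (fun e s => D (fun i => e (f i)) s ∧ SzE n e ≤ s) := by
  refine PP.of_bd fun ρ' h1 h2 => ?_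
  obtain ⟨ρ, h3, h4⟩ := hA
  obtain ⟨Ax, hAx, c, hc⟩ := h ρ h3 h4
  have h3' : FVs (fun i => i < n) (rename f ρ) := (FVs_rename _ _ _).2 (h3.mono hf)
  obtain ⟨C, hC⟩ := hmap k n f hf ρ h3
  obtain ⟨C', hC'⟩ := hstep n [rename f ρ] ρ'
    (fun p hp => by rw [List.mem_singleton] at hp; rw [hp]; exact h3') h1
  have hPB : PB (fun s => c * (s + 1) ^ c + C * (1 + s)) :=
    (PB.base c).add ((PB.const C).mul ((PB.const 1).add PB.id))
  refine ⟨alls n (Fm.imp (rename f ρ) ρ') :: Ax,
    CLOS1_trueL_cons (closed_alls ?_) (CLOS1_sat_alls ?_) hAx,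
    fun s => (c * (s + 1) ^ c + C * (1 + s)) + C' * (1 + s),
    hPB.add ((PB.const C').mul ((PB.const 1).add PB.id)), fun T hT e s hs => ?_⟩
  · exact ⟨h3', h1⟩
  · intro e he
    rw [sat_rename] at he
    exact (h2 e).2 ((h4 _).1 he)
  · have h5 := hc T (fun ψ hψ => hT ψ (List.mem_cons_of_mem _ hψ)) _ s hs.1
    have h6 := (hC T e _ h5).mono
      (Nat.add_le_add_left (Nat.mul_le_mul_left C (Nat.add_le_add_left hs.2 1)) _)
    have h7 := hC' T e (fun _ => c * (s + 1) ^ c + C * (1 + s)) (hT _ List.mem_cons_self)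
      (fun p hp => by rw [List.mem_singleton] at hp; rw [hp]; exact h6)
    refine h7.mono ?_
    simp only [List.map_cons, List.map_nil, List.sum_cons, List.sum_nil, Nat.add_zero]
    exact Nat.add_le_add_left (Nat.mul_le_mul_left _ (Nat.add_le_add_left hs.2 _)) _

/-- MODULE CLOS2. Existential quantification over `n` numbers. -/
theorem PP.ex {k n : ℕ} {R : Env → Prop} {D : Env → ℕ → Prop} (hA : Ar (k + n) R)
    (h : PP (k + n) R D) :
    PP k (fun e => ∃ w : Env, R (join k e w))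
      (fun e s => ∃ w : Env, D (join k e w) s ∧ SzE (k + n) (join k e w) ≤ s) := by
  refine PP.of_bd fun ρ' h1 h2 => ?_
  obtain ⟨ρ, h3, h4⟩ := hA
  obtain ⟨Ax, hAx, c, hc⟩ := h ρ h3 h4
  have h1' : FVs (fun i => i < k + n) ρ' := h1.mono fun i hi => Nat.lt_of_lt_of_le hi
    (Nat.le_add_right k n)
  obtain ⟨C, hC⟩ := hdrop k (k + n) (Nat.le_add_right k n) ρ' h1
  obtain ⟨C', hC'⟩ := hstep (k + n) [ρ] ρ'
    (fun p hp => by rw [List.mem_singleton] at hp; rw [hp]; exact h3) h1'
  obtain ⟨AxN, hAxN, d, hd⟩ := ex_num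
  have hPB : PB (fun s => c * (s + 1) ^ c + C' * (1 + s)) :=
    (PB.base c).add ((PB.const C').mul ((PB.const 1).add PB.id))
  refine ⟨alls (k + n) (Fm.imp ρ ρ') :: (Ax ++ AxN),
    CLOS1_trueL_cons (closed_alls ?_) (CLOS1_sat_alls ?_) (CLOS1_trueL_append hAx hAxN),
    fun s => ((c * (s + 1) ^ c + C' * (1 + s)) + n * (d * (s + 1) ^ d)) + C * (1 + s),
    (hPB.add ((PB.const n).mul (PB.base d))).add ((PB.const C).mul ((PB.const 1).add PB.id)),
    fun T hT e s hs => ?_⟩
  · exact ⟨h3, h1'⟩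
  · intro e he
    rw [h4] at he
    refine (h2 e).2 ⟨fun i => e (i + k), ?_⟩
    convert he using 1
    funext i
    unfold join
    by_cases hi : i < k
    · rw [if_pos hi]
    · rw [if_neg hi]
      show e (i - k + k) = e i
      rw [Nat.sub_add_cancel (Nat.le_of_not_lt hi)]
  · obtain ⟨w, hw, hsz⟩ := hs
    have h5 := hc T (fun ψ hψ => hT ψ (List.mem_cons_of_mem _ (List.mem_append_left _ hψ)))
      _ s hw
    have h7 := hC' T (join k e w) (fun _ => c * (s + 1) ^ c) (hT _ List.mem_cons_self)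
      (fun p hp => by rw [List.mem_singleton] at hp; rw [hp]; exact h5)
    have h7' : Pv T (c * (s + 1) ^ c + C' * (1 + s)) (Gd (k + n) (join k e w) ρ') := by
      refine h7.mono ?_
      simp only [List.map_cons, List.map_nil, List.sum_cons, List.sum_nil, Nat.add_zero]
      exact Nat.add_le_add_left (Nat.mul_le_mul_left _ (Nat.add_le_add_left hsz _)) _
    have h8 := hC T (join k e w) _ (fun _ => d * (s + 1) ^ d) h7' (fun i _ hi =>
      hd T (fun ψ hψ => hT ψ (List.mem_cons_of_mem _ (List.mem_append_right _ hψ))) _ s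
        ((size_le_SzE hi (join k e w)).trans hsz))
    have h9 : Gd k (join k e w) ρ' = Gd k e ρ' := Gd_congr (fun i hi => by
      unfold join
      rw [if_pos hi]) ρ'
    rw [h9] at h8
    refine h8.mono ?_
    rw [Finset.sum_const, Nat.card_Ico, smul_eq_mul, Nat.add_sub_cancel_left]
    exact Nat.add_le_add_left (Nat.mul_le_mul_left _ (Nat.add_le_add_left hsz _)) _

end Pool.Agent.MycW
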