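import Pool.Agent.MycW.NumB

set_option autoImplicit false

/-! # MODULE CLOS3: recursion -/

namespace Pool.Agent.MycW

open Pool.Agent.Myc Pool.Agent.Myc.Fm

/-! ### Polynomial bounds -/

/-- Polynomially bounded functions. -/
def CLOS3_PB (f : ℕ → ℕ) : Prop := ∃ c : ℕ, ∀ s, f s ≤ c * (s + 1) ^ c

theorem CLOS3_PB.const (c : ℕ) : CLOS3_PB (fun _ => c) :=
  ⟨c, fun s => Nat.le_mul_of_pos_right _ (Nat.pow_pos (Nat.succ_pos s))⟩

theorem CLOS3_PB.poly (c : ℕ) : CLOS3_PB (fun s => c * (s + 1) ^ c) := ⟨c, fun _ => le_rfl⟩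

theorem CLOS3_PB.id : CLOS3_PB (fun s => s) :=
  ⟨1, fun s => by simp⟩

theorem CLOS3_PB.add {f g : ℕ → ℕ} (hf : CLOS3_PB f) (hg : CLOS3_PB g) :
    CLOS3_PB (fun s => f s + g s) := by
  obtain ⟨c, hc⟩ := hf
  obtain ⟨d, hd⟩ := hg
  refine ⟨c + d, fun s => ?_⟩
  have h1 : (s + 1) ^ c ≤ (s + 1) ^ (c + d) := Nat.pow_le_pow_right (Nat.succ_pos s) (by omega)
  have h2 : (s + 1) ^ d ≤ (s + 1) ^ (c + d) := Nat.pow_le_pow_right (Nat.succ_pos s) (by omega)
  calc f s + g s ≤ c * (s + 1) ^ (c + d) + d * (s + 1) ^ (c + d) :=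
        Nat.add_le_add ((hc s).trans (Nat.mul_le_mul_left _ h1))
          ((hd s).trans (Nat.mul_le_mul_left _ h2))
    _ = (c + d) * (s + 1) ^ (c + d) := by ring

theorem CLOS3_PB.mul {f g : ℕ → ℕ} (hf : CLOS3_PB f) (hg : CLOS3_PB g) :
    CLOS3_PB (fun s => f s * g s) := by
  obtain ⟨c, hc⟩ := hf
  obtain ⟨d, hd⟩ := hg
  refine ⟨c * d + (c + d), fun s => ?_⟩
  calc f s * g s ≤ (c * (s + 1) ^ c) * (d * (s + 1) ^ d) := Nat.mul_le_mul (hc s) (hd s)
    _ = (c * d) * (s + 1) ^ (c + d) := by ring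
    _ ≤ (c * d + (c + d)) * (s + 1) ^ (c * d + (c + d)) :=
        Nat.mul_le_mul (by omega) (Nat.pow_le_pow_right (Nat.succ_pos s) (by omega))

theorem CLOS3_PB.pow {f : ℕ → ℕ} (hf : CLOS3_PB f) (n : ℕ) : CLOS3_PB (fun s => f s ^ n) := by
  induction n with
  | zero => exact CLOS3_PB.const 1
  | succ n ih => exact ih.mul hf

theorem CLOS3_PB.comp {f : ℕ → ℕ} (hf : CLOS3_PB f) (c : ℕ) :
    CLOS3_PB (fun s => c * (f s + 1) ^ c) :=
  (CLOS3_PB.const c).mul ((hf.add (CLOS3_PB.const 1)).pow c)

/-! ### A rule -/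

/-- `hstep` with a list of lengths. -/
theorem CLOS3_hstep (n : ℕ) (ps : List AFm) (q : AFm) (hps : ∀ p ∈ ps, FVs (fun i => i < n) p)
    (hq : FVs (fun i => i < n) q) :
    ∃ C : ℕ, ∀ (T : Set AFm) (e : Env) (b : List ℕ), alls n (ps.foldr imp q) ∈ T →
      List.Forall₂ (fun p m => Pv T m (Gd n e p)) ps b →
      Pv T (b.sum + C * (1 + SzE n e)) (Gd n e q) := by
  classical
  obtain ⟨C, hC⟩ := hstep n ps q hps hq
  refine ⟨C, fun T e b hT hb => ?_⟩
  let a : AFm → ℕ := fun p => if hh : ∃ m, Pv T m (Gd n e p) then Nat.find hh else 0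
  have ha : ∀ p m, Pv T m (Gd n e p) → Pv T (a p) (Gd n e p) ∧ a p ≤ m := by
    intro p m hm
    have hh : ∃ m, Pv T m (Gd n e p) := ⟨m, hm⟩
    have e1 : a p = Nat.find hh := dif_pos hh
    rw [e1]
    exact ⟨Nat.find_spec hh, Nat.find_min' hh hm⟩
  have key : (∀ p ∈ ps, Pv T (a p) (Gd n e p)) ∧ (ps.map a).sum ≤ b.sum := by
    clear hC hT hps
    induction hb with
    | nil => exact ⟨fun p hp => by simp at hp, le_rfl⟩
    | @cons p m ps b h1 h2 ih =>
      obtain ⟨h3, h4⟩ := ha p m h1
      refine ⟨fun p' hp' => ?_, ?_⟩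
      · rcases List.mem_cons.1 hp' with rfl | hp'
        · exact h3
        · exact ih.1 p' hp'
      · simp only [List.map_cons, List.sum_cons]
        exact Nat.add_le_add h4 ih.2
  exact (hC T e a hT key.1).mono (Nat.add_le_add_right key.2 _)

/-- `hmap` for a list of maps. -/
theorem CLOS3_hmap (k n : ℕ) (fs : List (ℕ → ℕ)) (hfs : ∀ f ∈ fs, ∀ i < k, f i < n) (q : AFm)
    (hq : FVs (fun i => i < k) q) :
    ∃ C : ℕ, ∀ (T : Set AFm) (e : Env) (b : List ℕ),
      List.Forall₂ (fun f m => Pv T m (Gd k (fun i => e (f i)) q)) fs b →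
      ∃ b' : List ℕ, List.Forall₂ (fun p m => Pv T m (Gd n e p)) (fs.map fun f => rename f q) b' ∧
        b'.sum ≤ b.sum + C * (1 + SzE n e) := by
  induction fs with
  | nil =>
    refine ⟨0, fun T e b hb => ?_⟩
    rw [List.forall₂_nil_left_iff] at hb
    subst hb
    exact ⟨[], List.Forall₂.nil, by simp⟩
  | cons f fs ih =>
    obtain ⟨C, hC⟩ := ih fun f' hf' => hfs f' (List.mem_cons_of_mem _ hf')
    obtain ⟨C', hC'⟩ := hmap k n f (hfs f List.mem_cons_self) q hq
    refine ⟨C' + C, fun T e b hb => ?_⟩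
    rw [List.forall₂_cons_left_iff] at hb
    obtain ⟨m, b, h1, h2, rfl⟩ := hb
    obtain ⟨b', h3, h4⟩ := hC T e b h2
    refine ⟨(m + C' * (1 + SzE n e)) :: b', ?_, ?_⟩
    · rw [List.map_cons]
      exact List.Forall₂.cons (hC' T e m h1) h3
    · rw [List.sum_cons, List.sum_cons]
      nlinarith

/-- Apply a rule with the side condition `σ` and the premises `ρ` for the numbers `e (f i)`. -/
theorem CLOS3_rule (k n : ℕ) (hk : k ≤ n) (ρ σ : AFm) (hρ : FVs (fun i => i < k) ρ)
    (hσ : FVs (fun i => i < n) σ) (fs : List (ℕ → ℕ)) (hfs : ∀ f ∈ fs, ∀ i < k, f i < n) :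
    ∃ C : ℕ, ∀ (T : Set AFm) (e : Env) (a : ℕ) (b : List ℕ) (x : ℕ),
      alls n ((σ :: fs.map fun f => rename f ρ).foldr imp ρ) ∈ T →
      Pv T a (Gd n e σ) →
      List.Forall₂ (fun f m => Pv T m (Gd k (fun i => e (f i)) ρ)) fs b →
      (∀ i < n, Pv T x (ex (num (e i)))) →
      Pv T (b.sum + (a + C * x + C * (1 + SzE n e))) (Gd k e ρ) := by
  have hρn : FVs (fun i => i < n) ρ := hρ.mono fun i hi => lt_of_lt_of_le hi hk
  obtain ⟨C1, hC1⟩ := CLOS3_hmap k n fs hfs ρ hρ
  obtain ⟨C2, hC2⟩ := CLOS3_hstep n (σ :: fs.map fun f => rename f ρ) ρ (by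
    intro p hp
    rcases List.mem_cons.1 hp with rfl | hp
    · exact hσ
    · obtain ⟨f, hf, rfl⟩ := List.mem_map.1 hp
      rw [FVs_rename]
      exact hρ.mono fun i hi => hfs f hf i hi) hρn
  obtain ⟨C3, hC3⟩ := hdrop k n hk ρ hρ
  refine ⟨C1 + C2 + C3 + n, fun T e a b x hT ha hb hx => ?_⟩
  obtain ⟨b', h1, h2⟩ := hC1 T e b hb
  have h3 := hC2 T e (a :: b') hT (List.Forall₂.cons ha h1)
  have h4 := hC3 T e _ (fun _ => x) h3 (fun i _ hi => hx i hi)
  refine h4.mono ?_
  rw [List.sum_cons, Finset.sum_const, Nat.card_Ico, smul_eq_mul]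
  have h5 : (n - k) * x ≤ n * x := Nat.mul_le_mul_right _ (by omega)
  nlinarith [Nat.zero_le (C1 * x), Nat.zero_le (C2 * x), Nat.zero_le (C3 * x),
    Nat.zero_le (n * SzE n e)]

theorem CLOS3_sat_foldr (ps : List AFm) (q : AFm) (e : Env) :
    Sat NN (ps.foldr imp q) e ↔ ((∀ p ∈ ps, Sat NN p e) → Sat NN q e) := by
  induction ps with
  | nil => simp
  | cons p ps ih =>
    rw [List.foldr_cons, sat_imp, ih]
    simp only [List.mem_cons, forall_eq_or_imp]
    tauto

theorem CLOS3_FVs_foldr {P : ℕ → Prop} {ps : List AFm}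
    {q : AFm} (h : ∀ p ∈ ps, FVs P p) (hq : FVs P q) : FVs P (ps.foldr imp q) := by
  induction ps with
  | nil => exact hq
  | cons p ps ih =>
    exact ⟨h p List.mem_cons_self, ih fun p' hp' => h p' (List.mem_cons_of_mem _ hp')⟩

theorem CLOS3_TrueL_append {A A' : List AFm} (h : TrueL A) (h' : TrueL A') : TrueL (A ++ A') := by
  constructor
  · intro ψ hψ
    rcases List.mem_append.1 hψ with h1 | h1
    · exact h.1 ψ h1
    · exact h'.1 ψ h1
  · intro ψ hψ
    rcases List.mem_append.1 hψ with h1 | h1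
    · exact h.2 ψ h1
    · exact h'.2 ψ h1

theorem CLOS3_TrueL_one {n : ℕ} {φ : AFm} (h : FVs (fun i => i < n) φ)
    (h' : ∀ e, Sat NN φ e) : TrueL [alls n φ] := by
  constructor
  · intro ψ hψ
    rw [List.mem_singleton] at hψ
    subst hψ
    exact closed_alls h
  · intro ψ hψ
    rw [List.mem_singleton] at hψ
    subst hψ
    exact (sat_alls NN n φ).2 h'

/-- MODULE CLOS3. Recursion. In the domain `D` an instance `e` of `R` is obtained from the base `B`,
or from one instance `e'` or from two instances `e'`, `e''` of `R` in the domain with the side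
conditions `S₁ (e, e')` or `S₂ (e, e', e'')`; the rank `rk` (superadditive) bounds the number of
steps. HINT: for a fixed `s` show `Pv T ((2 * rk e + 1) * B) (Gd k e ρ)` by strong induction on
`rk e`. -/
theorem PP.rec {k : ℕ} {R S₁ S₂ : Env → Prop} {D B D₁ D₂ : Env → ℕ → Prop} (hA : Ar k R)
    (hA₁ : Ar (k + k) S₁) (hA₂ : Ar (k + k + k) S₂)
    (hB : PP k R B) (h₁ : PP (k + k) S₁ D₁) (h₂ : PP (k + k + k) S₂ D₂)
    (s₁ : ∀ e e', S₁ (join k e e') → R e' → R e)
    (s₂ : ∀ e e' e'', S₂ (join (k + k) (join k e e') e'') → R e' → R e'' → R e)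
    (rk : Env → ℕ)
    (hD : ∃ C : ℕ, ∀ e s, D e s → SzE k e ≤ C * (s + 1) ^ C ∧
      (B e (C * (s + 1) ^ C) ∨
      (∃ e', D e' s ∧ rk e' < rk e ∧ D₁ (join k e e') (C * (s + 1) ^ C)) ∨
      ∃ e' e'', D e' s ∧ D e'' s ∧ rk e' + rk e'' < rk e ∧
        D₂ (join (k + k) (join k e e') e'') (C * (s + 1) ^ C))) :
    PP k R (fun e s => D e s ∧ rk e ≤ s) := by
  intro ρ hρ hρR
  obtain ⟨σ₁, hσ₁, hσ₁S⟩ := hA₁
  obtain ⟨σ₂, hσ₂, hσ₂S⟩ := hA₂
  obtain ⟨C, hD⟩ := hD
  obtain ⟨AxB, hAxB, cB, hcB⟩ := hB ρ hρ hρR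
  obtain ⟨Ax1, hAx1, c1, hc1⟩ := h₁ σ₁ hσ₁ hσ₁S
  obtain ⟨Ax2, hAx2, c2, hc2⟩ := h₂ σ₂ hσ₂ hσ₂S
  obtain ⟨AxE, hAxE, cE, hcE⟩ := ex_num
  let f1 : ℕ → ℕ := fun i => i + k
  let f2 : ℕ → ℕ := fun i => i + (k + k)
  obtain ⟨C1, hC1⟩ := CLOS3_rule k (k + k) (by omega) ρ σ₁ hρ hσ₁ [f1] (by
    intro f hf i hi
    rw [List.mem_singleton] at hf
    subst hf
    show i + k < _
    omega)
  obtain ⟨C2, hC2⟩ := CLOS3_rule k (k + k + k) (by omega) ρ σ₂ hρ hσ₂ [f1, f2] (by
    intro f hf i hi
    simp only [List.mem_cons, List.not_mem_nil, or_false] at hf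
    rcases hf with rfl | rfl
    · show i + k < _
      omega
    · show i + (k + k) < _
      omega)
  let φ1 : AFm := (σ₁ :: [f1].map fun f => rename f ρ).foldr imp ρ
  let φ2 : AFm := (σ₂ :: [f1, f2].map fun f => rename f ρ).foldr imp ρ
  have hφ1 : FVs (fun i => i < k + k) φ1 := by
    refine CLOS3_FVs_foldr ?_ (hρ.mono fun i hi => by omega)
    intro p hp
    simp only [List.map_cons, List.map_nil, List.mem_cons, List.not_mem_nil, or_false] at hp
    rcases hp with rfl | rfl
    · exact hσ₁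
    · rw [FVs_rename]
      exact hρ.mono fun i hi => by
        show i + k < _
        omega
  have hφ2 : FVs (fun i => i < k + k + k) φ2 := by
    refine CLOS3_FVs_foldr ?_ (hρ.mono fun i hi => by omega)
    intro p hp
    simp only [List.map_cons, List.map_nil, List.mem_cons, List.not_mem_nil, or_false] at hp
    rcases hp with rfl | rfl | rfl
    · exact hσ₂
    · rw [FVs_rename]
      exact hρ.mono fun i hi => by
        show i + k < _
        omega
    · rw [FVs_rename]
      exact hρ.mono fun i hi => by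
        show i + (k + k) < _
        omega
  have tφ1 : ∀ e, Sat NN φ1 e := by
    intro e
    rw [CLOS3_sat_foldr]
    intro h
    have g1 := h σ₁ List.mem_cons_self
    have g2 := h (rename f1 ρ) (by simp)
    rw [hσ₁S] at g1
    rw [sat_rename, hρR] at g2
    rw [hρR]
    refine s₁ e _ ?_ g2
    have : join k e (fun i => e (f1 i)) = e := by
      funext i
      unfold join
      by_cases hi : i < k
      · simp [hi]
      · have : f1 (i - k) = i := by
          show i - k + k = i
          omega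
        simp [hi, this]
    rw [this]
    exact g1
  have tφ2 : ∀ e, Sat NN φ2 e := by
    intro e
    rw [CLOS3_sat_foldr]
    intro h
    have g1 := h σ₂ List.mem_cons_self
    have g2 := h (rename f1 ρ) (by simp)
    have g3 := h (rename f2 ρ) (by simp)
    rw [hσ₂S] at g1
    rw [sat_rename, hρR] at g2 g3
    rw [hρR]
    refine s₂ e _ _ ?_ g2 g3
    have : join (k + k) (join k e (fun i => e (f1 i))) (fun i => e (f2 i)) = e := by
      funext i
      unfold join
      by_cases hi : i < k
      · have : i < k + k := by omega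
        simp [hi, this]
      · by_cases hi' : i < k + k
        · have : f1 (i - k) = i := by
            show i - k + k = i
            omega
          simp [hi, hi', this]
        · have : f2 (i - (k + k)) = i := by
            show i - (k + k) + (k + k) = i
            omega
          simp [hi', this]
    rw [this]
    exact g1
  -- the bounds
  let P : ℕ → ℕ := fun s => C * (s + 1) ^ C
  let X : ℕ → ℕ := fun s => cE * (P s + 1) ^ cE
  let Z : ℕ → ℕ := fun s => cB * (P s + 1) ^ cB + (c1 * (P s + 1) ^ c1 + C1 * X s +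
    C1 * (1 + 2 * P s)) + (c2 * (P s + 1) ^ c2 + C2 * X s + C2 * (1 + 3 * P s))
  have hP : CLOS3_PB P := CLOS3_PB.poly C
  have hX : CLOS3_PB X := hP.comp cE
  have hZ : CLOS3_PB Z := by
    refine CLOS3_PB.add (CLOS3_PB.add (hP.comp cB) ?_) ?_
    · exact ((hP.comp c1).add ((CLOS3_PB.const C1).mul hX)).add
        ((CLOS3_PB.const C1).mul ((CLOS3_PB.const 1).add ((CLOS3_PB.const 2).mul hP)))
    · exact ((hP.comp c2).add ((CLOS3_PB.const C2).mul hX)).add
        ((CLOS3_PB.const C2).mul ((CLOS3_PB.const 1).add ((CLOS3_PB.const 3).mul hP)))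
  have hW : CLOS3_PB (fun s => (2 * s + 1) * Z s) :=
    (((CLOS3_PB.const 2).mul CLOS3_PB.id).add (CLOS3_PB.const 1)).mul hZ
  obtain ⟨c, hc⟩ := hW
  refine ⟨AxB ++ (Ax1 ++ (Ax2 ++ (AxE ++ ([alls (k + k) φ1] ++ [alls (k + k + k) φ2])))), ?_, c,
    fun T hT e s hs => ?_⟩
  · exact CLOS3_TrueL_append hAxB (CLOS3_TrueL_append hAx1 (CLOS3_TrueL_append hAx2
      (CLOS3_TrueL_append hAxE (CLOS3_TrueL_append (CLOS3_TrueL_one hφ1 tφ1)
        (CLOS3_TrueL_one hφ2 tφ2)))))
  · have hTB : ∀ ψ ∈ AxB, ψ ∈ T := fun ψ hψ => hT ψ (by simp [hψ])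
    have hT1 : ∀ ψ ∈ Ax1, ψ ∈ T := fun ψ hψ => hT ψ (by simp [hψ])
    have hT2 : ∀ ψ ∈ Ax2, ψ ∈ T := fun ψ hψ => hT ψ (by simp [hψ])
    have hTE : ∀ ψ ∈ AxE, ψ ∈ T := fun ψ hψ => hT ψ (by simp [hψ])
    have hTφ1 : alls (k + k) φ1 ∈ T := hT _ (by simp)
    have hTφ2 : alls (k + k + k) φ2 ∈ T := hT _ (by simp)
    have key : ∀ r e, rk e = r → D e s → Pv T ((2 * r + 1) * Z s) (Gd k e ρ) := by
      intro r
      induction r using Nat.strong_induction_on with
      | _ r ih =>
        intro e hr he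
        obtain ⟨hsz, hcase⟩ := hD e s he
        have hZ1 : Z s ≤ (2 * r + 1) * Z s := Nat.le_mul_of_pos_left _ (by omega)
        rcases hcase with hb | ⟨e', h1, h2, h3⟩ | ⟨e', e'', h1, h1', h2, h3⟩
        · refine (hcB T hTB e _ hb).mono (le_trans ?_ hZ1)
          show cB * (P s + 1) ^ cB ≤ _
          show _ ≤ cB * (P s + 1) ^ cB + (c1 * (P s + 1) ^ c1 + C1 * X s +
            C1 * (1 + 2 * P s)) + (c2 * (P s + 1) ^ c2 + C2 * X s + C2 * (1 + 3 * P s))
          omega
        · have hsz' := (hD e' s h1).1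
          have hE : SzE (k + k) (join k e e') ≤ 2 * P s := by
            rw [SzE_join]
            show _ ≤ 2 * (C * (s + 1) ^ C)
            omega
          have g1 := ih (rk e') (by omega) e' rfl h1
          have g2 := hc1 T hT1 _ _ h3
          have g3 : ∀ i < k + k, Pv T (X s) (ex (num (join k e e' i))) := by
            intro i hi
            refine hcE T hTE _ (P s) ?_
            unfold join
            split_ifs with h4
            · exact (size_le_SzE h4 e).trans hsz
            · exact (size_le_SzE (by omega : i - k < k) e').trans hsz'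
          have g4 := hC1 T (join k e e') _ [(2 * rk e' + 1) * Z s] (X s) hTφ1 g2
            (List.Forall₂.cons (by
              have : Gd k (fun i => join k e e' (f1 i)) ρ = Gd k e' ρ := Gd_congr (fun i hi => by
                show join k e e' (i + k) = e' i
                simp [join]) ρ
              rw [this]
              exact g1) List.Forall₂.nil) g3
          have g5 : Gd k (join k e e') ρ = Gd k e ρ := Gd_congr (fun i hi => by
            simp [join, hi]) ρ
          rw [g5] at g4
          refine g4.mono ?_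
          have g6 : C1 * (1 + SzE (k + k) (join k e e')) ≤ C1 * (1 + 2 * P s) :=
            Nat.mul_le_mul_left _ (by omega)
          have g7 : c1 * (P s + 1) ^ c1 + C1 * X s + C1 * (1 + SzE (k + k) (join k e e')) ≤
              Z s := by
            show _ ≤ cB * (P s + 1) ^ cB + (c1 * (P s + 1) ^ c1 + C1 * X s +
              C1 * (1 + 2 * P s)) + (c2 * (P s + 1) ^ c2 + C2 * X s + C2 * (1 + 3 * P s))
            omega
          have g8 : (2 * rk e' + 1) * Z s + 2 * Z s ≤ (2 * r + 1) * Z s := by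
            have : (2 * rk e' + 1) * Z s + 2 * Z s = (2 * rk e' + 3) * Z s := by ring
            rw [this]
            exact Nat.mul_le_mul_right _ (by omega)
          have g9 : c1 * (C * (s + 1) ^ C + 1) ^ c1 = c1 * (P s + 1) ^ c1 := rfl
          simp only [List.sum_cons, List.sum_nil, add_zero]
          rw [g9]
          omega
        · have hsz' := (hD e' s h1).1
          have hsz'' := (hD e'' s h1').1
          have hE : SzE (k + k + k) (join (k + k) (join k e e') e'') ≤ 3 * P s := by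
            rw [SzE_join, SzE_join]
            show _ ≤ 3 * (C * (s + 1) ^ C)
            omega
          have g1 := ih (rk e') (by omega) e' rfl h1
          have g1' := ih (rk e'') (by omega) e'' rfl h1'
          have g2 := hc2 T hT2 _ _ h3
          have g3 : ∀ i < k + k + k,
              Pv T (X s) (ex (num (join (k + k) (join k e e') e'' i))) := by
            intro i hi
            refine hcE T hTE _ (P s) ?_
            unfold join
            split_ifs with h4 h5
            · exact (size_le_SzE h5 e).trans hsz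
            · exact (size_le_SzE (by omega : i - k < k) e').trans hsz'
            · exact (size_le_SzE (by omega : i - (k + k) < k) e'').trans hsz''
          have g4 := hC2 T (join (k + k) (join k e e') e'') _
            [(2 * rk e' + 1) * Z s, (2 * rk e'' + 1) * Z s] (X s) hTφ2 g2
            (List.Forall₂.cons (by
              have : Gd k (fun i => join (k + k) (join k e e') e'' (f1 i)) ρ = Gd k e' ρ :=
                Gd_congr (fun i hi => by
                  show join (k + k) (join k e e') e'' (i + k) = e' i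
                  have h4 : i + k < k + k := by omega
                  simp [join, h4, hi]) ρ
              rw [this]
              exact g1) (List.Forall₂.cons (by
              have : Gd k (fun i => join (k + k) (join k e e') e'' (f2 i)) ρ = Gd k e'' ρ :=
                Gd_congr (fun i hi => by
                  show join (k + k) (join k e e') e'' (i + (k + k)) = e'' i
                  simp [join]) ρ
              rw [this]
              exact g1') List.Forall₂.nil)) g3
          have g5 : Gd k (join (k + k) (join k e e') e'') ρ = Gd k e ρ := Gd_congr (fun i hi => by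
            have h4 : i < k + k := by omega
            simp [join, hi, h4]) ρ
          rw [g5] at g4
          refine g4.mono ?_
          have g6 : C2 * (1 + SzE (k + k + k) (join (k + k) (join k e e') e'')) ≤
              C2 * (1 + 3 * P s) := Nat.mul_le_mul_left _ (by omega)
          have g7 : c2 * (P s + 1) ^ c2 + C2 * X s +
              C2 * (1 + SzE (k + k + k) (join (k + k) (join k e e') e'')) ≤ Z s := by
            show _ ≤ cB * (P s + 1) ^ cB + (c1 * (P s + 1) ^ c1 + C1 * X s +
              C1 * (1 + 2 * P s)) + (c2 * (P s + 1) ^ c2 + C2 * X s + C2 * (1 + 3 * P s))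
            omega
          have g8 : (2 * rk e' + 1) * Z s + (2 * rk e'' + 1) * Z s + Z s ≤ (2 * r + 1) * Z s := by
            have : (2 * rk e' + 1) * Z s + (2 * rk e'' + 1) * Z s + Z s =
              (2 * (rk e' + rk e'') + 3) * Z s := by ring
            rw [this]
            exact Nat.mul_le_mul_right _ (by omega)
          have g9 : c2 * (C * (s + 1) ^ C + 1) ^ c2 = c2 * (P s + 1) ^ c2 := rfl
          simp only [List.sum_cons, List.sum_nil, add_zero]
          rw [g9]
          omega
    refine (key (rk e) e rfl hs.1).mono (le_trans ?_ (hc s))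
    exact Nat.mul_le_mul_right _ (by omega)

end Pool.Agent.MycW
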