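import Pool.Agent.MycW.Clos3
import Pool.Agent.MycW.ArB

set_option autoImplicit false

/-! # MODULE CLOS4: unary recursion; soundness -/

namespace Pool.Agent.MycW

open Pool.Agent.Myc Pool.Agent.Myc.Fm

theorem CLOS4_TrueL_nil : TrueL [] := ⟨fun _ h => absurd h (by simp), fun _ h => absurd h (by simp)⟩

theorem CLOS4_none (k : ℕ) : PP k (fun _ => False) (fun _ _ => False) := by
  intro ρ _ _
  exact ⟨[], CLOS4_TrueL_nil, 0, fun _ _ _ _ h => h.elim⟩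

/-- MODULE CLOS4. Unary recursion. -/
theorem PP.rec1 {k : ℕ} {R S : Env → Prop} {D B DS : Env → ℕ → Prop} (hA : Ar k R)
    (hAS : Ar (k + k) S) (hB : PP k R B) (hS : PP (k + k) S DS)
    (sound : ∀ e e', S (join k e e') → R e' → R e) (rk : Env → ℕ)
    (hD : ∃ C : ℕ, ∀ e s, D e s → SzE k e ≤ C * (s + 1) ^ C ∧
      (B e (C * (s + 1) ^ C) ∨
      ∃ e', D e' s ∧ rk e' < rk e ∧ DS (join k e e') (C * (s + 1) ^ C))) :
    PP k R (fun e s => D e s ∧ rk e ≤ s) := by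
  refine PP.rec (S₂ := fun _ => False) (D₂ := fun _ _ => False) hA hAS Ar.none hB hS
    (CLOS4_none (k + k + k)) sound (fun _ _ _ h _ _ => h.elim) rk ?_
  obtain ⟨C, hC⟩ := hD
  refine ⟨C, fun e s he => ⟨(hC e s he).1, ?_⟩⟩
  rcases (hC e s he).2 with h | h
  · exact Or.inl h
  · exact Or.inr (Or.inl h)

/-- MODULE CLOS4. The domain contains only instances. -/
theorem PP.sound {k : ℕ} {R : Env → Prop} {D : Env → ℕ → Prop} (hA : Ar k R) (h : PP k R D)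
    {e : Env} {s : ℕ} (hD : D e s) : R e := by
  obtain ⟨ρ, h1, h2⟩ := hA
  obtain ⟨Ax, ⟨_, hT⟩, c, hc⟩ := h ρ h1 h2
  obtain ⟨l, hl, _⟩ := hc {ψ | ψ ∈ Ax} (fun _ h => h) e s hD
  have h3 := soundness NN (T := {ψ | ψ ∈ Ax}) (fun φ hφ e => hT φ hφ e) hl (Gd k e ρ)
    List.mem_cons_self e
  exact (h2 e).1 ((sat_Gd h1 e e).1 h3)

/-- MODULE CLOS4. The measure bounds the number of bits. -/
theorem PP.size {k : ℕ} {R : Env → Prop} {D : Env → ℕ → Prop} (hA : Ar k R) (h : PP k R D) :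
    ∃ C : ℕ, ∀ e s, D e s → SzE k e ≤ C * (s + 1) ^ C := by
  obtain ⟨ρ, h1, h2⟩ := hA
  obtain ⟨Ax, _, c, hc⟩ := h ρ h1 h2
  refine ⟨c, fun e s hD => ?_⟩
  obtain ⟨l, _, hl⟩ := hc {ψ | ψ ∈ Ax} (fun _ h => h) e s hD
  refine (SzE_le_len_Gd k e ρ).trans (le_trans ?_ hl)
  unfold plen
  rw [List.map_cons, List.sum_cons]
  exact Nat.le_add_right _ _

end Pool.Agent.MycW
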