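import Pool.Agent.MycW.Clos1
import Pool.Agent.MycW.Clos2
import Pool.Agent.MycW.Clos4
import Pool.Agent.MycW.ArD
import Pool.Agent.MycW.ArB

set_option autoImplicit false

/-! # Closure properties for the standard domain -/

namespace Pool.Agent.MycW

open Pool.Agent.Myc Pool.Agent.Myc.Fm

/-- Put a value at the place `k`. -/
def upd (k : ℕ) (e : Env) (x : ℕ) : Env := fun i => if i = k then x else e i

theorem SzE_succ (k : ℕ) (e : Env) : SzE (k + 1) e = SzE k e + Nat.size (e k) := by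
  unfold SzE
  rw [Finset.sum_range_succ]

theorem SzE_upd (k : ℕ) (e : Env) (x : ℕ) : SzE (k + 1) (upd k e x) = SzE k e + Nat.size x := by
  rw [SzE_succ]
  congr 1
  · exact SzE_congr fun i hi => by simp [upd, Nat.ne_of_lt hi]
  · simp [upd]

theorem SzE_map_le {k n : ℕ} {f : ℕ → ℕ} (hf : ∀ i < k, f i < n) (e : Env) :
    SzE k (fun i => e (f i)) ≤ k * SzE n e := by
  unfold SzE
  have : ∀ i ∈ Finset.range k, Nat.size (e (f i)) ≤ SzE n e := fun i hi =>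
    size_le_SzE (hf i (Finset.mem_range.1 hi)) e
  calc ∑ i ∈ Finset.range k, Nat.size (e (f i)) ≤ ∑ _i ∈ Finset.range k, SzE n e :=
        Finset.sum_le_sum this
    _ = k * SzE n e := by simp

/-- Monotonicity in the domain. -/
theorem PP.sub {k : ℕ} {R : Env → Prop} {D D' : Env → ℕ → Prop} (h : PP k R D)
    (hD : ∀ e s, D' e s → D e s) : PP k R D' := by
  intro ρ h1 h2
  obtain ⟨Ax, h3, c, h4⟩ := h ρ h1 h2
  exact ⟨Ax, h3, c, fun T hT e s hs => h4 T hT e s (hD e s hs)⟩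

/-- Equivalent relations. -/
theorem PP.iff {k : ℕ} {R R' : Env → Prop} {D : Env → ℕ → Prop} (h : PP k R D)
    (hR : ∀ e, R e ↔ R' e) : PP k R' D := by
  intro ρ h1 h2
  exact h ρ h1 fun e => (h2 e).trans (hR e).symm

theorem P0.iff {k : ℕ} {R R' : Env → Prop} (h : P0 k R) (hR : ∀ e, R e ↔ R' e) : P0 k R' := by
  have : R = R' := funext fun e => propext (hR e)
  rwa [← this]

/-- Change of the measure. -/
theorem PP.msr {k : ℕ} {R : Env → Prop} {D D' : Env → ℕ → Prop} (C : ℕ) (h : PP k R D)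
    (hD : ∀ e s, D' e s → D e (C * (s + 1) ^ C)) : PP k R D' := h.dom ⟨C, hD⟩

/-- Substitution of variables. For a relation `fun e => R (e 0) (e 1) (e 2)` and
`f = fun i => [a, b, c].getD i 0` the result is `fun e => R (e a) (e b) (e c)`, by definition. -/
theorem P0.map {k n : ℕ} {R : Env → Prop} (hA : Ar k R) (h : P0 k R) (f : ℕ → ℕ)
    (hf : ∀ i < k, f i < n) : P0 n (fun e => R (fun i => e (f i))) := by
  refine (PP.map f hf hA h).msr (k + 1) ?_
  rintro e s ⟨h1, h2⟩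
  have h3 := SzE_map_le hf e
  have h4 : k * SzE n e ≤ (k + 1) * (s + 1) ^ (k + 1) :=
    Nat.mul_le_mul (Nat.le_succ k) (h2.trans ((Nat.le_succ s).trans
      (Nat.le_self_pow (Nat.succ_ne_zero k) _)))
  have h5 : SzE n e ≤ (k + 1) * (s + 1) ^ (k + 1) := by
    calc SzE n e ≤ (s + 1) ^ (k + 1) := h2.trans ((Nat.le_succ s).trans
          (Nat.le_self_pow (Nat.succ_ne_zero k) _))
      _ ≤ (k + 1) * (s + 1) ^ (k + 1) := Nat.le_mul_of_pos_left _ (Nat.succ_pos k)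
  exact ⟨⟨h1, h3.trans h4⟩, h5⟩

theorem P0.and {k : ℕ} {R R' : Env → Prop} (hA : Ar k R) (hA' : Ar k R') (h : P0 k R)
    (h' : P0 k R') : P0 k (fun e => R e ∧ R' e) :=
  (PP.and hA hA' h h').sub fun _ _ hs => ⟨⟨hs.1.1, hs.2⟩, ⟨hs.1.2, hs.2⟩⟩

/-- A relation which is the union of two relations with short proofs. -/
theorem P0.or {k : ℕ} {R R' : Env → Prop} (hA : Ar k R) (hA' : Ar k R') (h : P0 k R)
    (h' : P0 k R') : P0 k (fun e => R e ∨ R' e) :=
  ((h.imp hA fun _ hR => Or.inl hR).or (h'.imp hA' fun _ hR => Or.inr hR)).sub fun _ _ hs =>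
    hs.1.elim (fun h => Or.inl ⟨h, hs.2⟩) fun h => Or.inr ⟨h, hs.2⟩

/-- Quantification over one number, general domain. -/
theorem PP.ex1 {k : ℕ} {R : Env → Prop} {D : Env → ℕ → Prop} (hA : Ar (k + 1) R)
    (h : PP (k + 1) R D) :
    PP k (fun e => ∃ x : ℕ, R (upd k e x)) (fun e s => ∃ x : ℕ, D (upd k e x) s ∧
      SzE (k + 1) (upd k e x) ≤ s) := by
  have e1 : ∀ e w : Env, (∀ i < k + 1, join k e w i = upd k e (w 0) i) := by
    intro e w i hi
    unfold join upd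
    by_cases hik : i < k
    · simp [hik, Nat.ne_of_lt hik]
    · have : i = k := by omega
      subst this
      simp
  -- reduce the domain to one which depends only on the first `k + 1` entries
  have h' : PP (k + 1) R (fun e s => ∃ e', (∀ i < k + 1, e i = e' i) ∧ D e' s) := by
    intro ρ h1 h2
    obtain ⟨Ax, h3, c, h4⟩ := h ρ h1 h2
    refine ⟨Ax, h3, c, fun T hT e s hs => ?_⟩
    obtain ⟨e', he, hs⟩ := hs
    rw [Gd_congr he]
    exact h4 T hT e' s hs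
  refine ((PP.ex (n := 1) hA h').iff fun e => ?_).sub ?_
  · constructor
    · rintro ⟨w, hw⟩
      exact ⟨w 0, (hA.ext (e1 e w)).1 hw⟩
    · rintro ⟨x, hx⟩
      exact ⟨fun _ => x, (hA.ext (e1 e fun _ => x)).2 hx⟩
  · rintro e s ⟨x, hx, hs⟩
    refine ⟨fun _ => x, ⟨upd k e x, e1 e fun _ => x, hx⟩, ?_⟩
    rw [SzE_congr (e1 e fun _ => x)]
    exact hs

/-- Quantification over one number: the witness must be of polynomial size. -/
theorem P0.ex1 {k : ℕ} {R : Env → Prop} (hA : Ar (k + 1) R) (h : P0 (k + 1) R) (C : ℕ)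
    (hw : ∀ e x, R (upd k e x) → ∃ y, R (upd k e y) ∧ Nat.size y ≤ C * (SzE k e + 1) ^ C) :
    P0 k (fun e => ∃ x : ℕ, R (upd k e x)) := by
  refine (PP.ex1 hA h).msr (C + 1) ?_
  rintro e s ⟨⟨x, hx⟩, hs⟩
  obtain ⟨y, hy, hsz⟩ := hw e x hx
  have h1 : SzE (k + 1) (upd k e y) ≤ (C + 1) * (s + 1) ^ (C + 1) := by
    rw [SzE_upd]
    have h2 : C * (SzE k e + 1) ^ C ≤ C * (s + 1) ^ (C + 1) :=
      Nat.mul_le_mul_left _ ((Nat.pow_le_pow_left (Nat.succ_le_succ hs) C).trans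
        (Nat.pow_le_pow_right (Nat.succ_pos s) (Nat.le_succ C)))
    have h3 : s ≤ (s + 1) ^ (C + 1) := (Nat.le_succ s).trans
      (Nat.le_self_pow (Nat.succ_ne_zero C) _)
    have h4 : (C + 1) * (s + 1) ^ (C + 1) = C * (s + 1) ^ (C + 1) + (s + 1) ^ (C + 1) := by ring
    omega
  exact ⟨y, ⟨hy, h1⟩, h1⟩

/-- Recursion in one step, for the standard domain. -/
theorem P0.rec1 {k : ℕ} {R B S : Env → Prop} (hA : Ar k R) (hAB : Ar k B) (hAS : Ar (k + k) S)
    (hB : P0 k B) (hS : P0 (k + k) S) (hBR : ∀ e, B e → R e)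
    (sound : ∀ e e', S (join k e e') → R e' → R e) (rk : Env → ℕ) (C : ℕ)
    (hrk : ∀ e, R e → rk e ≤ C * (SzE k e + 1) ^ C)
    (hD : ∀ e, R e → B e ∨ ∃ e', R e' ∧ rk e' < rk e ∧ SzE k e' ≤ SzE k e ∧ S (join k e e')) :
    P0 k R := by
  have hB' : PP k R (Std k B) := hB.imp hAB hBR
  have key := PP.rec1 (D := Std k R) hA hAS hB' hS sound rk ⟨2, fun e s hs => ?_⟩
  · refine key.msr (C + 1) ?_
    rintro e s ⟨h1, h2⟩
    have h3 : s ≤ (C + 1) * (s + 1) ^ (C + 1) :=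
      calc s ≤ (s + 1) ^ (C + 1) := (Nat.le_succ s).trans
            (Nat.le_self_pow (Nat.succ_ne_zero C) _)
        _ ≤ (C + 1) * (s + 1) ^ (C + 1) := Nat.le_mul_of_pos_left _ (Nat.succ_pos C)
    refine ⟨⟨h1, h2.trans h3⟩, (hrk e h1).trans ?_⟩
    exact Nat.mul_le_mul (Nat.le_succ C) ((Nat.pow_le_pow_left (Nat.succ_le_succ h2) C).trans
      (Nat.pow_le_pow_right (Nat.succ_pos s) (Nat.le_succ C)))
  · obtain ⟨h1, h2⟩ := hs
    have h3 : s ≤ 2 * (s + 1) ^ 2 := by nlinarith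
    have h4 : s + s ≤ 2 * (s + 1) ^ 2 := by nlinarith
    refine ⟨h2.trans h3, ?_⟩
    rcases hD e h1 with hb | ⟨e', h5, h6, h7, h8⟩
    · exact Or.inl ⟨hb, h2.trans h3⟩
    · refine Or.inr ⟨e', ⟨h5, h7.trans h2⟩, h6, h8, ?_⟩
      rw [SzE_join]
      omega

/-- Recursion with at most two recursive premises, for the standard domain. -/
theorem P0.rec2 {k : ℕ} {R B S₁ S₂ : Env → Prop} (hA : Ar k R) (hAB : Ar k B)
    (hA₁ : Ar (k + k) S₁) (hA₂ : Ar (k + k + k) S₂)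
    (hB : P0 k B) (h₁ : P0 (k + k) S₁) (h₂ : P0 (k + k + k) S₂) (hBR : ∀ e, B e → R e)
    (s₁ : ∀ e e', S₁ (join k e e') → R e' → R e)
    (s₂ : ∀ e e' e'', S₂ (join (k + k) (join k e e') e'') → R e' → R e'' → R e)
    (rk : Env → ℕ) (C : ℕ) (hrk : ∀ e, R e → rk e ≤ C * (SzE k e + 1) ^ C)
    (hD : ∀ e, R e → B e ∨
      (∃ e', R e' ∧ rk e' < rk e ∧ SzE k e' ≤ SzE k e ∧ S₁ (join k e e')) ∨
      ∃ e' e'', R e' ∧ R e'' ∧ rk e' + rk e'' < rk e ∧ SzE k e' ≤ SzE k e ∧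
        SzE k e'' ≤ SzE k e ∧ S₂ (join (k + k) (join k e e') e'')) :
    P0 k R := by
  have hB' : PP k R (Std k B) := hB.imp hAB hBR
  have key := PP.rec (D := Std k R) hA hA₁ hA₂ hB' h₁ h₂ s₁ s₂ rk ⟨3, fun e s hs => ?_⟩
  · refine key.msr (C + 1) ?_
    rintro e s ⟨h1, h2⟩
    have h3 : s ≤ (C + 1) * (s + 1) ^ (C + 1) :=
      calc s ≤ (s + 1) ^ (C + 1) := (Nat.le_succ s).trans
            (Nat.le_self_pow (Nat.succ_ne_zero C) _)
        _ ≤ (C + 1) * (s + 1) ^ (C + 1) := Nat.le_mul_of_pos_left _ (Nat.succ_pos C)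
    refine ⟨⟨h1, h2.trans h3⟩, (hrk e h1).trans ?_⟩
    exact Nat.mul_le_mul (Nat.le_succ C) ((Nat.pow_le_pow_left (Nat.succ_le_succ h2) C).trans
      (Nat.pow_le_pow_right (Nat.succ_pos s) (Nat.le_succ C)))
  · obtain ⟨h1, h2⟩ := hs
    have h0 : s + 1 ≤ (s + 1) ^ 3 := Nat.le_self_pow (by norm_num) _
    have h3 : s ≤ 3 * (s + 1) ^ 3 := by omega
    have h4 : s + s + s ≤ 3 * (s + 1) ^ 3 := by omega
    refine ⟨h2.trans h3, ?_⟩
    rcases hD e h1 with hb | ⟨e', h5, h6, h7, h8⟩ | ⟨e', e'', h5, h5', h6, h7, h7', h8⟩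
    · exact Or.inl ⟨hb, h2.trans h3⟩
    · refine Or.inr (Or.inl ⟨e', ⟨h5, h7.trans h2⟩, h6, h8, ?_⟩)
      rw [SzE_join]
      omega
    · refine Or.inr (Or.inr ⟨e', e'', ⟨h5, h7.trans h2⟩, ⟨h5', h7'.trans h2⟩, h6, h8, ?_⟩)
      rw [SzE_join, SzE_join]
      omega

/-- A single instance. -/
theorem P0.one {k : ℕ} (e0 : Env) : P0 k (fun e => ∀ i < k, e i = e0 i) :=
  (PP.single e0 fun _ _ => rfl).sub fun _ _ hs => hs.1

/-! ### Bundled form -/

/-- `R` is arithmetical and all its instances have short proofs. -/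
structure SP (k : ℕ) (R : Env → Prop) : Prop where
  ar : Ar k R
  pp : P0 k R

theorem SP.iff {k : ℕ} {R R' : Env → Prop} (h : SP k R) (hR : ∀ e, R e ↔ R' e) : SP k R' :=
  ⟨h.ar.congr hR, h.pp.iff hR⟩

/-- Substitution of variables: `h.map (fun i => [a, b, c].getD i 0) (by decide)`. For
`R = fun e => P (e 0) (e 1) (e 2)` the result is `fun e => P (e a) (e b) (e c)`, by definition. -/
theorem SP.map {k n : ℕ} {R : Env → Prop} (h : SP k R) (f : ℕ → ℕ)
    (hf : ∀ i < k, f i < n) : SP n (fun e => R (fun i => e (f i))) :=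
  ⟨h.ar.map f hf, h.pp.map h.ar f hf⟩

/-- Substitution of variables, the variables given by a list. -/
theorem SP.v {k n : ℕ} {R : Env → Prop} (h : SP k R) (l : List ℕ)
    (hf : ∀ i < k, l.getD i 0 < n) : SP n (fun e => R (fun i => e (l.getD i 0))) :=
  h.map (fun i => l.getD i 0) hf

theorem SP.and {k : ℕ} {R R' : Env → Prop} (h : SP k R) (h' : SP k R') :
    SP k (fun e => R e ∧ R' e) :=
  ⟨h.ar.and h'.ar, h.pp.and h.ar h'.ar h'.pp⟩

theorem SP.or {k : ℕ} {R R' : Env → Prop} (h : SP k R) (h' : SP k R') :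
    SP k (fun e => R e ∨ R' e) :=
  ⟨h.ar.or h'.ar, h.pp.or h.ar h'.ar h'.pp⟩

/-- Quantification over one number, with a small witness. -/
theorem SP.ex1 {k : ℕ} {R : Env → Prop} (h : SP (k + 1) R) (C : ℕ)
    (hw : ∀ e x, R (upd k e x) → ∃ y, R (upd k e y) ∧ Nat.size y ≤ C * (SzE k e + 1) ^ C) :
    SP k (fun e => ∃ x : ℕ, R (upd k e x)) :=
  ⟨h.ar.ex1, h.pp.ex1 h.ar C hw⟩

/-- Quantification over one number, all witnesses being small. -/
theorem SP.ex {k : ℕ} {R : Env → Prop} (h : SP (k + 1) R) (C : ℕ)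
    (hw : ∀ e x, R (upd k e x) → Nat.size x ≤ C * (SzE k e + 1) ^ C) :
    SP k (fun e => ∃ x : ℕ, R (upd k e x)) :=
  h.ex1 C fun e x hx => ⟨x, hx, hw e x hx⟩

/-- The main tool: `R'` follows from `R` for the given numbers and `n` further numbers, and every
instance of `R'` is obtained in this way with `n` small further numbers. -/
theorem SP.of {k n : ℕ} {R R' : Env → Prop} (h : SP (k + n) R)
    (sound : ∀ e w : Env, R (join k e w) → R' e) (C : ℕ)
    (compl : ∀ e, R' e → ∃ w : Env, R (join k e w) ∧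
      ∀ i < n, Nat.size (w i) ≤ C * (SzE k e + 1) ^ C) : SP k R' := by
  have hiff : ∀ e, (∃ w : Env, R (join k e w)) ↔ R' e := fun e =>
    ⟨fun ⟨w, hw⟩ => sound e w hw, fun he => by
      obtain ⟨w, hw, _⟩ := compl e he
      exact ⟨w, hw⟩⟩
  refine ⟨(Ar.ex h.ar).congr hiff, ?_⟩
  refine ((PP.ex h.ar h.pp).iff hiff).msr (n * C + C + 1) ?_
  rintro e s ⟨h1, h2⟩
  obtain ⟨w, hw, hsz⟩ := compl e h1
  have h3 : SzE n w ≤ n * (C * (s + 1) ^ C) := by
    unfold SzE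
    calc ∑ i ∈ Finset.range n, Nat.size (w i) ≤ ∑ _i ∈ Finset.range n, C * (s + 1) ^ C := by
          refine Finset.sum_le_sum fun i hi => (hsz i (Finset.mem_range.1 hi)).trans ?_
          exact Nat.mul_le_mul_left _ (Nat.pow_le_pow_left (Nat.succ_le_succ h2) C)
      _ = n * (C * (s + 1) ^ C) := by simp
  have h4 : SzE (k + n) (join k e w) ≤ (n * C + C + 1) * (s + 1) ^ (n * C + C + 1) := by
    rw [SzE_join]
    have h5 : (s + 1) ^ C ≤ (s + 1) ^ (n * C + C + 1) :=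
      Nat.pow_le_pow_right (Nat.succ_pos s) (by omega)
    have h6 : s ≤ (s + 1) ^ (n * C + C + 1) := (Nat.le_succ s).trans
      (Nat.le_self_pow (Nat.succ_ne_zero _) _)
    calc SzE k e + SzE n w ≤ (s + 1) ^ (n * C + C + 1) + n * (C * (s + 1) ^ (n * C + C + 1)) :=
          Nat.add_le_add (h2.trans h6) (h3.trans (Nat.mul_le_mul_left _
            (Nat.mul_le_mul_left _ h5)))
      _ = (n * C + 1) * (s + 1) ^ (n * C + C + 1) := by ring
      _ ≤ (n * C + C + 1) * (s + 1) ^ (n * C + C + 1) := Nat.mul_le_mul_right _ (by omega)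
  exact ⟨w, ⟨hw, h4⟩, h4⟩

/-- Recursion with one recursive premise. -/
theorem SP.rec1 {k : ℕ} {R B S : Env → Prop} (hA : Ar k R) (hB : SP k B) (hS : SP (k + k) S)
    (hBR : ∀ e, B e → R e) (sound : ∀ e e', S (join k e e') → R e' → R e) (rk : Env → ℕ)
    (C : ℕ) (hrk : ∀ e, R e → rk e ≤ C * (SzE k e + 1) ^ C)
    (hD : ∀ e, R e → B e ∨ ∃ e', R e' ∧ rk e' < rk e ∧ SzE k e' ≤ SzE k e ∧ S (join k e e')) :
    SP k R :=
  ⟨hA, P0.rec1 hA hB.ar hS.ar hB.pp hS.pp hBR sound rk C hrk hD⟩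

/-- Recursion with one or two recursive premises. -/
theorem SP.rec2 {k : ℕ} {R B S₁ S₂ : Env → Prop} (hA : Ar k R) (hB : SP k B)
    (h₁ : SP (k + k) S₁) (h₂ : SP (k + k + k) S₂) (hBR : ∀ e, B e → R e)
    (s₁ : ∀ e e', S₁ (join k e e') → R e' → R e)
    (s₂ : ∀ e e' e'', S₂ (join (k + k) (join k e e') e'') → R e' → R e'' → R e)
    (rk : Env → ℕ) (C : ℕ) (hrk : ∀ e, R e → rk e ≤ C * (SzE k e + 1) ^ C)
    (hD : ∀ e, R e → B e ∨
      (∃ e', R e' ∧ rk e' < rk e ∧ SzE k e' ≤ SzE k e ∧ S₁ (join k e e')) ∨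
      ∃ e' e'', R e' ∧ R e'' ∧ rk e' + rk e'' < rk e ∧ SzE k e' ≤ SzE k e ∧
        SzE k e'' ≤ SzE k e ∧ S₂ (join (k + k) (join k e e') e'')) :
    SP k R :=
  ⟨hA, P0.rec2 hA hB.ar h₁.ar h₂.ar hB.pp h₁.pp h₂.pp hBR s₁ s₂ rk C hrk hD⟩

theorem SP.top {k : ℕ} {R : Env → Prop} (h : ∀ e, R e) : SP k R :=
  ⟨(Ar.top (k := k)).congr fun e => by simp [h e], (PP.always h).sub fun _ _ hs => hs.2⟩

/-- The empty relation. -/
theorem SP.none {k : ℕ} {R : Env → Prop} (h : ∀ e, ¬ R e) : SP k R := by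
  refine ⟨(Ar.none (k := k)).congr fun e => by simp [h e], fun ρ _ _ => ⟨[], ⟨by simp, by simp⟩,
    0, fun T _ e s hs => absurd hs.1 (h e)⟩⟩

/-- A constant. -/
theorem P0.const (c : ℕ) : P0 1 (fun e => e 0 = c) :=
  (P0.one (k := 1) fun _ => c).iff fun e => by simp

theorem sp_const (c : ℕ) : SP 1 (fun e => e 0 = c) :=
  ⟨ar_eqc 0 c (by norm_num), P0.const c⟩

theorem sp_dbl : SP 2 (fun e => e 1 = 2 * e 0) :=
  ⟨(ar_add (k := 2) 0 0 1 (by norm_num) (by norm_num) (by norm_num)).congr fun e => by omega,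
    P_dbl⟩

theorem sp_dbl1 : SP 2 (fun e => e 1 = 2 * e 0 + 1) := by
  refine ⟨?_, P_dbl1⟩
  have h := ((ar_add (k := 3) 0 0 2 (by norm_num) (by norm_num) (by norm_num)).and
    (ar_succ (k := 3) 2 1 (by norm_num) (by norm_num))).ex1
  refine h.congr fun e => ?_
  simp
  omega

end Pool.Agent.MycW
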