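import Pool.Agent.MycW.Ded
import Pool.Agent.Myc.Compl
import Pool.Agent.Myc.SemA

set_option autoImplicit false

/-! # MODULE CONJ: conjunctions of axioms -/

namespace Pool.Agent.MycW

open Pool.Agent.Myc Pool.Agent.Myc.Fm

/-- The conjunction of a list. -/
private def CONJ_and : List AFm → AFm
  | [] => neg bot
  | φ :: l => and φ (CONJ_and l)

private theorem CONJ_closed (l : List AFm) (h : ∀ ψ ∈ l, Closed ψ) : Closed (CONJ_and l) := by
  induction l with
  | nil => exact ⟨trivial, trivial⟩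
  | cons φ l ih =>
    show FVs _ (and φ (CONJ_and l))
    rw [FVs_and]
    exact ⟨h φ (by simp), ih fun ψ hψ => h ψ (by simp [hψ])⟩

private theorem CONJ_sat {M : Type} (S : Str AR arA M) (l : List AFm) (e : ℕ → M) :
    Sat S (CONJ_and l) e ↔ ∀ ψ ∈ l, Sat S ψ e := by
  induction l with
  | nil => simp [CONJ_and, sat_neg, Sat]
  | cons φ l ih => simp [CONJ_and, sat_and, ih]

private theorem CONJ_countable : Countable AR := by
  have h : Function.Injective (fun r : AR => match r with
      | .zero => (0 : ℕ) | .succ => 1 | .add => 2 | .mul => 3) := by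
    intro a b h
    cases a <;> cases b <;> simp_all
  exact h.countable

/-- MODULE CONJ. A finite set of true sentences as one sentence. HINT: the conjunction of the list;
`cut_list`. -/
theorem conj_ax (Ax : List AFm) (h : TrueL Ax) : ∃ θ : AFm, Closed θ ∧ (∀ e, Sat NN θ e) ∧
    ∃ C : ℕ, ∀ T : Set AFm, θ ∈ T → ∀ (m : ℕ) (φ : AFm), Pv (T ∪ {ψ | ψ ∈ Ax}) m φ →
      Pv T (m + C) φ := by
  have hc : Closed (CONJ_and Ax) := CONJ_closed Ax h.1
  have : Countable AR := CONJ_countable
  have key : ∀ ψ : AFm, ∃ m : ℕ, ψ ∈ Ax → Pv ({CONJ_and Ax} : Set AFm) m ψ := by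
    intro ψ
    by_cases hψ : ψ ∈ Ax
    · have h1 : Pvb ({CONJ_and Ax} : Set AFm) ψ := by
        refine completeness ?_ ?_
        · intro χ hχ
          rw [Set.mem_singleton_iff] at hχ
          rw [hχ]
          exact hc
        · intro M _ S hS e
          exact (CONJ_sat S Ax e).1 (hS _ rfl e) ψ hψ
      obtain ⟨m, hm⟩ := Pvb_iff.1 h1
      exact ⟨m, fun _ => hm⟩
    · exact ⟨0, fun h => absurd h hψ⟩
  choose a ha using key
  refine ⟨CONJ_and Ax, hc, fun e => (CONJ_sat NN Ax e).2 fun ψ hψ => h.2 ψ hψ e,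
    (Ax.map a).sum, fun T hT m φ hp => ?_⟩
  refine cut_list T Ax a m φ (fun ψ hψ => (ha ψ hψ).weaken ?_) hp
  intro χ hχ
  rw [Set.mem_singleton_iff] at hχ
  rw [hχ]
  exact hT

end Pool.Agent.MycW
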