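import Pool.Agent.MycW.Defs
import Pool.Agent.Myc.Compl
import Pool.Agent.Myc.Prv
import Pool.Agent.Myc.SynB
import Pool.Agent.Myc.SynC

set_option autoImplicit false

/-! # MODULE CUT: families of short derivations from given premises -/

namespace Pool.Agent.MycW

open Pool.Agent.Myc Pool.Agent.Myc.Fm

/-- one proof which contains all the formulas `f γ` -/
theorem CUT_collect {R : Type} {ar : R → ℕ} {T : Set AFm} (f : Fm R ar → AFm)
    (a : Fm R ar → ℕ) (Γ : List (Fm R ar)) (h : ∀ γ ∈ Γ, Pv T (a γ) (f γ)) :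
    ∃ l₀ : List AFm, IsProof T l₀ ∧ plen l₀ ≤ (Γ.map a).sum ∧ ∀ γ ∈ Γ, f γ ∈ l₀ := by
  induction Γ with
  | nil => exact ⟨[], .nil, by simp [plen], by simp⟩
  | cons γ Γ ih =>
    obtain ⟨l₀, h1, h2, h3⟩ := ih fun δ hδ => h δ (List.mem_cons_of_mem _ hδ)
    obtain ⟨l, h4, h5⟩ := h γ List.mem_cons_self
    refine ⟨(f γ :: l) ++ l₀, h4.append h1, ?_, ?_⟩
    · rw [Prv_plen_append, List.map_cons, List.sum_cons]
      exact Nat.add_le_add h5 h2
    · intro δ hδ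
      rcases List.mem_cons.1 hδ with rfl | hδ
      · exact List.mem_append_left _ List.mem_cons_self
      · exact List.mem_append_right _ (h3 δ hδ)

/-- replace the hypotheses by their proofs -/
theorem CUT_cut {R : Type} {ar : R → ℕ} {T : Set AFm} (f : Fm R ar → AFm)
    (a : Fm R ar → ℕ) (Γ : List (Fm R ar)) (h : ∀ γ ∈ Γ, Pv T (a γ) (f γ)) {b : ℕ} {χ : AFm}
    (hχ : Pv {ψ | ∃ γ ∈ Γ, ψ = f γ} b χ) : Pv T ((Γ.map a).sum + b) χ := by
  obtain ⟨l₀, h1, h2, h3⟩ := CUT_collect f a Γ h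
  obtain ⟨l, h4, h5⟩ := hχ
  obtain ⟨l₂, h6, h7, h8⟩ := h4.absorb (T := T) h1 (by
    rintro ψ ⟨γ, hγ, rfl⟩ _
    exact Or.inr (h3 γ hγ))
  obtain ⟨l', h9, h10⟩ := h6.of_mem (h8 χ List.mem_cons_self)
  refine ⟨l', h9, h10.trans ?_⟩
  rw [Prv_plen_append]
  omega

/-- If `φ` holds in all models of the sentences `Γ` then, for all substitutions, the image of `φ`
has a short proof from short proofs of the images of `Γ`. HINT: `schema` with the theory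
`{subst τ γ | γ ∈ Γ}`, then `IsProof.absorb` (or induction on `Γ` with `IsProof.absorb`), see the
end of `Pool/Agent/Myc/RepE.lean` for the pattern; `Pv.len_le`. -/
theorem cutS {R : Type} [Fintype R] {ar : R → ℕ} (Γ : List (Fm R ar)) (hΓ : ∀ γ ∈ Γ, Closed γ)
    (φ : Fm R ar)
    (h : ∀ (M : Type) [Nonempty M] (S : Str R ar M), (∀ γ ∈ Γ, ∀ e, Sat S γ e) →
      ∀ e, Sat S φ e) :
    ∃ C : ℕ, ∀ (τ : (r : R) → AFm), Good ar τ → ∀ (T : Set AFm) (a : Fm R ar → ℕ),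
      (∀ γ ∈ Γ, Pv T (a γ) (subst τ γ)) →
      Pv T ((Γ.map a).sum + C * (1 + ∑ r, len (τ r))) (subst τ φ) := by
  obtain ⟨C, hC⟩ := schema (T := {ψ | ψ ∈ Γ}) (R' := AR) (ar' := arA) hΓ (φ := φ)
    (fun M _ S hS => h M S hS)
  refine ⟨C, fun τ hτ T a ha => ?_⟩
  exact CUT_cut (fun γ => subst τ γ) a Γ ha
    (hC τ {ψ | ∃ γ ∈ Γ, ψ = subst τ γ} hτ (fun ψ hψ => ⟨ψ, hψ, rfl⟩))

end Pool.Agent.MycW
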