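import Pool.Agent.MycW.Defs
import Pool.Agent.Myc.Prv
import Pool.Agent.Myc.SynB
import Pool.Agent.Myc.SynC

set_option autoImplicit false

/-! # MODULE DED: the deduction theorem and cuts, with lengths -/

namespace Pool.Agent.MycW

open Pool.Agent.Myc Pool.Agent.Myc.Fm

theorem Ded_len_imp (φ ψ : AFm) : len (imp φ ψ) = len φ + len ψ + 4 := rfl

theorem Ded_len_all (φ : AFm) : len (all φ) = len φ + 4 := rfl

theorem Ded_step {T : Set AFm} {χ ψ : AFm} {l l' : List AFm} {m : ℕ} (hχ : Closed χ)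
    (hj : Just (insert χ T) l ψ) (hm : ∀ θ ∈ l, len θ ≤ m) (hψm : len ψ ≤ m)
    (h' : IsProof T l') (hl : ∀ θ ∈ l, imp χ θ ∈ l') :
    ∃ l'', IsProof T (imp χ ψ :: (l'' ++ l')) ∧
      plen (imp χ ψ :: (l'' ++ l')) ≤ plen l' + 1000 * (m + len χ + 1) := by
  have key : Just T l' ψ → ∃ l'', IsProof T (imp χ ψ :: (l'' ++ l')) ∧
      plen (imp χ ψ :: (l'' ++ l')) ≤ plen l' + 1000 * (m + len χ + 1) := by
    intro hjj
    refine ⟨[imp ψ (imp χ ψ), ψ], ?_, ?_⟩
    · refine .cons (.cons (.cons h' hjj) (.logic (.k ψ χ))) (.mp (φ := ψ) ?_ ?_)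
      · simp
      · simp
    · simp only [List.cons_append, List.nil_append, Prv_plen_cons, Ded_len_imp]
      omega
  cases hj with
  | hyp hh =>
    rcases hh with rfl | hh
    · refine ⟨[imp ψ (imp ψ ψ), imp (imp ψ (imp ψ ψ)) (imp ψ ψ),
        imp (imp ψ (imp (imp ψ ψ) ψ)) (imp (imp ψ (imp ψ ψ)) (imp ψ ψ)),
        imp ψ (imp (imp ψ ψ) ψ)], ?_, ?_⟩
      · refine .cons (.cons (.cons (.cons (.cons h' (.logic (.k _ _))) (.logic (.s _ _ _)))
          (.mp (φ := imp ψ (imp (imp ψ ψ) ψ)) ?_ ?_)) (.logic (.k _ _)))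
          (.mp (φ := imp ψ (imp ψ ψ)) ?_ ?_)
        · simp
        · simp
        · simp
        · simp
      · simp only [List.cons_append, List.nil_append, Prv_plen_cons, Ded_len_imp]
        omega
    · exact key (.hyp hh)
  | logic hh => exact key (.logic hh)
  | @mp φ _ h1 h2 =>
    have ha := hl _ h1
    have hb := hl _ h2
    have h3 := hm _ h1
    have h4 := hm _ h2
    rw [Ded_len_imp] at h4
    refine ⟨[imp (imp χ φ) (imp χ ψ), imp (imp χ (imp φ ψ)) (imp (imp χ φ) (imp χ ψ))], ?_, ?_⟩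
    · refine .cons (.cons (.cons h' (.logic (.s _ _ _))) (.mp (φ := imp χ (imp φ ψ)) ?_ ?_))
        (.mp (φ := imp χ φ) ?_ ?_)
      · simp [hb]
      · simp
      · simp [ha]
      · simp
    · simp only [List.cons_append, List.nil_append, Prv_plen_cons, Ded_len_imp]
      omega
  | @gen φ h1 =>
    have ha := hl _ h1
    have h3 := hm _ h1
    have hv : LogAx (imp χ (all χ)) := by
      have := LogAx.vac χ
      rwa [rename_closed hχ] at this
    refine ⟨[
      imp (imp χ (all χ)) (imp χ (all φ)),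
      imp (imp χ (imp (all χ) (all φ))) (imp (imp χ (all χ)) (imp χ (all φ))),
      imp χ (imp (all χ) (all φ)),
      imp (imp (all χ) (all φ)) (imp χ (imp (all χ) (all φ))),
      imp χ (all χ),
      imp (all χ) (all φ),
      imp (all (imp χ φ)) (imp (all χ) (all φ)),
      all (imp χ φ)], ?_, ?_⟩
    · refine .cons (.cons (.cons (.cons (.cons (.cons (.cons (.cons (.cons h' (.gen ha))
        (.logic (.dist _ _))) (.mp (φ := all (imp χ φ)) ?_ ?_)) (.logic hv))
        (.logic (.k _ _))) (.mp (φ := imp (all χ) (all φ)) ?_ ?_)) (.logic (.s _ _ _)))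
        (.mp (φ := imp χ (imp (all χ) (all φ))) ?_ ?_))
        (.mp (φ := imp χ (all χ)) ?_ ?_)
      all_goals simp
    · simp only [List.cons_append, List.nil_append, Prv_plen_cons, Ded_len_imp, Ded_len_all]
      omega

theorem Ded_all {T : Set AFm} {χ : AFm} {l : List AFm} {m : ℕ} (hχ : Closed χ)
    (h : IsProof (insert χ T) l) (hm : ∀ θ ∈ l, len θ ≤ m) :
    ∃ l', IsProof T l' ∧ (∀ θ ∈ l, imp χ θ ∈ l') ∧
      plen l' ≤ l.length * (1000 * (m + len χ + 1)) := by
  induction h with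
  | nil => exact ⟨[], .nil, by simp, by simp [plen]⟩
  | @cons l ψ h hψ ih =>
    obtain ⟨l', h1, h2, h3⟩ := ih fun θ hθ => hm θ (List.mem_cons_of_mem _ hθ)
    obtain ⟨l'', h4, h5⟩ := Ded_step hχ hψ (fun θ hθ => hm θ (List.mem_cons_of_mem _ hθ))
      (hm ψ List.mem_cons_self) h1 h2
    refine ⟨_, h4, ?_, ?_⟩
    · intro θ hθ
      rcases List.mem_cons.1 hθ with rfl | hθ
      · exact List.mem_cons_self
      · exact List.mem_cons_of_mem _ (List.mem_append_right _ (h2 θ hθ))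
    · refine h5.trans ?_
      rw [List.length_cons, add_mul, one_mul]
      omega

theorem Ded_len_le_plen {l : List AFm} {θ : AFm} (h : θ ∈ l) : len θ ≤ plen l := by
  induction l with
  | nil => simp at h
  | cons ψ l ih =>
    rw [Prv_plen_cons]
    rcases List.mem_cons.1 h with rfl | h
    · omega
    · have := ih h
      omega

theorem Ded_length_le (l : List AFm) : l.length ≤ plen l := by
  induction l with
  | nil => simp
  | cons ψ l ih =>
    rw [Prv_plen_cons, List.length_cons]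
    have := len_pos ψ
    omega

/-- Deduction theorem for a closed hypothesis. HINT: replace every line `ψ` of the proof by
`χ → ψ` (with a bounded number of auxiliary lines of length `O (len ψ + len χ)`; generalization:
`dist` and `vac`, using `rename_closed`). -/
theorem ded : ∃ C : ℕ, ∀ (T : Set AFm) (χ φ : AFm) (m : ℕ), Closed χ →
    Pv (insert χ T) m φ → Pv T (C * (m + len χ + 1) ^ 2) (imp χ φ) := by
  refine ⟨1000, fun T χ φ m hχ h => ?_⟩
  obtain ⟨l, h1, h2⟩ := h
  obtain ⟨l', h3, h4, h5⟩ := Ded_all (m := m) hχ h1 fun θ hθ => (Ded_len_le_plen hθ).trans h2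
  obtain ⟨l'', h6, h7⟩ := h3.of_mem (h4 φ List.mem_cons_self)
  refine ⟨l'', h6, h7.trans (h5.trans ?_)⟩
  have h8 : (φ :: l).length ≤ m + len χ + 1 := by
    have := Ded_length_le (φ :: l)
    omega
  calc (φ :: l).length * (1000 * (m + len χ + 1))
      ≤ (m + len χ + 1) * (1000 * (m + len χ + 1)) := Nat.mul_le_mul_right _ h8
    _ = 1000 * (m + len χ + 1) ^ 2 := by ring

/-- Proof by contradiction. HINT: `ded` and the axiom `dn`. -/
theorem by_contra : ∃ C : ℕ, ∀ (T : Set AFm) (χ : AFm) (m : ℕ), Closed χ →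
    Pv (insert (neg χ) T) m bot → Pv T (C * (m + len χ + 1) ^ 2) χ := by
  obtain ⟨C, hC⟩ := ded
  have h0 : len (bot : AFm) = 4 := rfl
  refine ⟨81 * C + 81 + 100, fun T χ m hχ h => ?_⟩
  have hc : Closed (neg χ) := ⟨hχ, trivial⟩
  have h1 := hC T (neg χ) bot m hc h
  have h2 : Pv T (len (imp (neg (neg χ)) χ)) (imp (neg (neg χ)) χ) := Pv.logic (.dn χ)
  refine (h2.mp h1).mono ?_
  have e1 : len (neg χ) = len χ + 8 := by
    simp only [neg, Ded_len_imp, h0]
  have e2 : len (imp (neg (neg χ)) χ) = 2 * len χ + 20 := by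
    simp only [neg, Ded_len_imp, h0]
    ring
  rw [e1, e2]
  set x := m + len χ + 1 with hx
  have h3 : m + (len χ + 8) + 1 ≤ 9 * x := by omega
  have h4 : (m + (len χ + 8) + 1) ^ 2 ≤ (9 * x) ^ 2 := Nat.pow_le_pow_left h3 2
  have h5 : len χ ≤ x := by omega
  have h6 : 1 ≤ x := by omega
  have h7 : x ≤ x ^ 2 := by nlinarith
  calc 2 * len χ + 20 + C * (m + (len χ + 8) + 1) ^ 2 + len χ
      ≤ 2 * x + 20 * x + C * (9 * x) ^ 2 + x := by
        have := Nat.mul_le_mul_left C h4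
        omega
    _ ≤ (81 * C + 81 + 100) * x ^ 2 := by nlinarith

theorem Ded_conc (T : Set AFm) (a : AFm → ℕ) (L : List AFm) (h : ∀ ψ ∈ L, Pv T (a ψ) ψ) :
    ∃ l, IsProof T l ∧ (∀ ψ ∈ L, ψ ∈ l) ∧ plen l ≤ (L.map a).sum := by
  induction L with
  | nil => exact ⟨[], .nil, by simp, by simp [plen]⟩
  | cons ψ L ih =>
    obtain ⟨l, h1, h2, h3⟩ := ih fun θ hθ => h θ (List.mem_cons_of_mem _ hθ)
    obtain ⟨l', h4, h5⟩ := h ψ List.mem_cons_self
    refine ⟨(ψ :: l') ++ l, h4.append h1, ?_, ?_⟩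
    · intro θ hθ
      rcases List.mem_cons.1 hθ with rfl | hθ
      · exact List.mem_append_left _ List.mem_cons_self
      · exact List.mem_append_right _ (h2 θ hθ)
    · rw [Prv_plen_append, List.map_cons, List.sum_cons]
      exact add_le_add h5 h3

/-- Replacing the axioms used in a proof by their proofs. HINT: `IsProof.absorb`. -/
theorem cut_list (T : Set AFm) (L : List AFm) (a : AFm → ℕ) (m : ℕ) (φ : AFm)
    (h : ∀ ψ ∈ L, Pv T (a ψ) ψ) (hp : Pv (T ∪ {ψ | ψ ∈ L}) m φ) :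
    Pv T (m + (L.map a).sum) φ := by
  obtain ⟨l₀, h0, h1, h2⟩ := Ded_conc T a L h
  obtain ⟨l, h3, h4⟩ := hp
  obtain ⟨l₂, h5, h6, h7⟩ := h3.absorb h0 fun ψ hψ _ => hψ.imp id fun hh => h1 ψ hh
  obtain ⟨l', h8, h9⟩ := h5.of_mem (h7 φ List.mem_cons_self)
  refine ⟨l', h8, h9.trans ?_⟩
  rw [Prv_plen_append]
  omega

end Pool.Agent.MycW
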