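import Pool.Agent.Myc.CodeDefs

set_option autoImplicit false

/-!
# Relations between numbers with short proofs of their instances: definitions
-/

namespace Pool.Agent.MycW

open Pool.Agent.Myc Pool.Agent.Myc.Fm

/-- Assignments of numbers to the variables. -/
abbrev Env : Type := ℕ → ℕ

/-- The first `k` entries of `e`, followed by `w`. -/
def join (k : ℕ) (e w : Env) : Env := fun i => if i < k then e i else w (i - k)

/-- The total number of bits of the first `k` entries. -/
def SzE (k : ℕ) (e : Env) : ℕ := ∑ i ∈ Finset.range k, Nat.size (e i)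

/-- `gds k e ρ` is: if every variable `i < k` is `e i` then `ρ`. -/
def gds : ℕ → Env → AFm → AFm
  | 0, _, ρ => ρ
  | k + 1, e, ρ => gds k e (imp (rename (fun _ => k) (num (e k))) ρ)

/-- The sentence saying that `ρ` holds for the numbers `e 0, ..., e (k - 1)` (universal form). -/
def Gd (k : ℕ) (e : Env) (ρ : AFm) : AFm := alls k (gds k e ρ)

/-- The sentence saying that `ρ` holds for the numbers `e 0, ..., e (k - 1)` (existential form);
the innermost quantifier belongs to the variable `0`. -/
def Bx : ℕ → Env → AFm → AFm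
  | 0, _, ρ => ρ
  | k + 1, e, ρ => ex (and (num (e k)) (Bx k e ρ))

/-- A finite set of true sentences. -/
def TrueL (Ax : List AFm) : Prop := (∀ ψ ∈ Ax, Closed ψ) ∧ ∀ ψ ∈ Ax, ∀ e, Sat NN ψ e

/-- The relation `R` between the first `k` entries is arithmetical. -/
def Ar (k : ℕ) (R : Env → Prop) : Prop :=
  ∃ ρ : AFm, FVs (fun i => i < k) ρ ∧ ∀ e, Sat NN ρ e ↔ R e

/-- A finite true theory proves all instances of `R` in the domain `D` by short proofs:
`D e s` means that `e` is in the domain and that `s` is a bound for its size. -/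
def PP (k : ℕ) (R : Env → Prop) (D : Env → ℕ → Prop) : Prop :=
  ∀ ρ : AFm, FVs (fun i => i < k) ρ → (∀ e, Sat NN ρ e ↔ R e) →
    ∃ Ax : List AFm, TrueL Ax ∧ ∃ c : ℕ, ∀ T : Set AFm, (∀ ψ ∈ Ax, ψ ∈ T) →
      ∀ e s, D e s → Pv T (c * (s + 1) ^ c) (Gd k e ρ)

/-- The standard domain: all instances, measured by the number of bits. -/
def Std (k : ℕ) (R : Env → Prop) : Env → ℕ → Prop := fun e s => R e ∧ SzE k e ≤ s

/-- All instances of `R` have short proofs. -/
def P0 (k : ℕ) (R : Env → Prop) : Prop := PP k R (Std k R)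

end Pool.Agent.MycW
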