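import Pool.Agent.MycW.Node

set_option autoImplicit false

/-! # MODULE DICH: the dichotomy -/

namespace Pool.Agent.MycW

open Pool.Agent.Myc Pool.Agent.Myc.Fm

/-- MODULE DICH. Either the node for `c` has a short `T₁`-proof or there is a configuration
which can be reached from `c` whose node has no short `T₁`-proof, but a rather short `T`-proof. HINT:
induction on `J`, with `node_pv`. -/
theorem dich : ∃ Ax : List AFm, TrueL Ax ∧ ∃ C : ℕ, ∀ T : Set AFm, (∀ ψ ∈ Ax, ψ ∈ T) →
    ∀ (T₁ : List AFm) (s J : ℕ) (c : Cfg),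
      (∀ ms : List Mv, ms.length ≤ J → (run ms c).L ≠ [] ∧ (run ms c).L.headD bot ≠ bot ∧
        SzE 9 (cenv (cd K) (cdL T₁) (J - ms.length) (run ms c)) ≤ s) →
      Pv {ψ | ψ ∈ T₁} s (Nd (cdL T₁) J c) ∨
      ∃ ms : List Mv, ms.length ≤ J ∧
        ¬ Pv {ψ | ψ ∈ T₁} s (Nd (cdL T₁) (J - ms.length) (run ms c)) ∧
        Pv T (C * (s + 1) ^ C) (Nd (cdL T₁) (J - ms.length) (run ms c)) := by
  obtain ⟨Ax, hAx, C, hC⟩ := node_pv
  refine ⟨Ax, hAx, C, fun T hT T₁ s J => ?_⟩
  induction J with
  | zero =>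
    intro c h
    by_cases hp : Pv {ψ | ψ ∈ T₁} s (Nd (cdL T₁) 0 c)
    · exact Or.inl hp
    · obtain ⟨h1, h2, h3⟩ := h [] (by simp)
      exact Or.inr ⟨[], by simp, hp, hC T hT T₁ c 0 s h1 h2 (Or.inl rfl) h3⟩
  | succ J ih =>
    intro c h
    by_cases hp : Pv {ψ | ψ ∈ T₁} s (Nd (cdL T₁) (J + 1) c)
    · exact Or.inl hp
    · right
      by_cases hall : ∀ m : Mv, Pv {ψ | ψ ∈ T₁} s (Nd (cdL T₁) J (step m c))
      · obtain ⟨h1, h2, h3⟩ := h [] (by simp)
        exact ⟨[], by simp, hp, hC T hT T₁ c (J + 1) s h1 h2 (Or.inr ⟨J, rfl, hall⟩) h3⟩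
      · push Not at hall
        obtain ⟨m, hm⟩ := hall
        have h' : ∀ ms : List Mv, ms.length ≤ J → (run ms (step m c)).L ≠ [] ∧
            (run ms (step m c)).L.headD bot ≠ bot ∧
            SzE 9 (cenv (cd K) (cdL T₁) (J - ms.length) (run ms (step m c))) ≤ s := by
          intro ms hms
          obtain ⟨h1, h2, h3⟩ := h (m :: ms) (by simpa using hms)
          refine ⟨h1, h2, ?_⟩
          have : J + 1 - (m :: ms).length = J - ms.length := by simp
          rw [this] at h3
          exact h3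
        rcases ih (step m c) h' with h1 | ⟨ms, h1, h2, h3⟩
        · exact absurd h1 hm
        · refine ⟨m :: ms, by simpa using h1, ?_, ?_⟩
          · have : J + 1 - (m :: ms).length = J - ms.length := by simp
            rw [this]
            exact h2
          · have : J + 1 - (m :: ms).length = J - ms.length := by simp
            rw [this]
            exact h3

end Pool.Agent.MycW
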