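import Pool.Agent.MycW.Defs
import Pool.Agent.Myc.NatA
import Pool.Agent.Myc.SynC
import Pool.Agent.Myc.SigA

set_option autoImplicit false

/-! # MODULE GDSEM: free variables, meaning and length of `Gd` and `Bx` -/

namespace Pool.Agent.MycW

open Pool.Agent.Myc Pool.Agent.Myc.Fm

theorem gds_congr {k : ℕ} {e e' : Env} (h : ∀ i < k, e i = e' i) (ρ : AFm) :
    gds k e ρ = gds k e' ρ := by
  induction k generalizing ρ with
  | zero => rfl
  | succ k ih =>
    rw [gds, gds, h k (Nat.lt_succ_self k)]
    exact ih (fun i hi => h i (Nat.lt_succ_of_lt hi)) _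

theorem Gd_congr {k : ℕ} {e e' : Env} (h : ∀ i < k, e i = e' i) (ρ : AFm) :
    Gd k e ρ = Gd k e' ρ := by
  unfold Gd
  rw [gds_congr h]

theorem Bx_congr {k : ℕ} {e e' : Env} (h : ∀ i < k, e i = e' i) (ρ : AFm) :
    Bx k e ρ = Bx k e' ρ := by
  induction k with
  | zero => rfl
  | succ k ih =>
    rw [Bx, Bx, h k (Nat.lt_succ_self k), ih (fun i hi => h i (Nat.lt_succ_of_lt hi))]

theorem GDSEM_FVs_gds {P : ℕ → Prop} {k : ℕ} (hP : ∀ i < k, P i) {ρ : AFm} (h : FVs P ρ)
    (e : Env) : FVs P (gds k e ρ) := by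
  induction k generalizing ρ with
  | zero => exact h
  | succ k ih =>
    rw [gds]
    refine ih (fun i hi => hP i (Nat.lt_succ_of_lt hi)) ?_
    refine ⟨?_, h⟩
    rw [FVs_rename]
    exact (FVs_num _).mono fun i _ => hP k (Nat.lt_succ_self k)

theorem closed_Gd {k : ℕ} {ρ : AFm} (h : FVs (fun i => i < k) ρ) (e : Env) :
    Closed (Gd k e ρ) :=
  closed_alls (GDSEM_FVs_gds (fun _ hi => hi) h e)

theorem GDSEM_FVs_Bx {k : ℕ} {P : ℕ → Prop} {ρ : AFm}
    (h : FVs (fun i => i < k ∨ (k ≤ i ∧ P (i - k))) ρ) (e : Env) : FVs P (Bx k e ρ) := by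
  induction k generalizing P with
  | zero =>
    rw [Bx]
    exact h.mono fun i hi => by simpa using hi
  | succ k ih =>
    rw [Bx, FVs_ex, FVs_and]
    refine ⟨(FVs_num _).mono fun i hi => Or.inl (by omega), ih (h.mono fun i hi => ?_)⟩
    rcases hi with hi | ⟨hi, hP⟩
    · by_cases h1 : i < k
      · exact Or.inl h1
      · exact Or.inr ⟨by omega, Or.inl (by omega)⟩
    · exact Or.inr ⟨by omega, Or.inr ⟨i - (k + 1), by omega, hP⟩⟩

theorem closed_Bx {k : ℕ} {ρ : AFm} (h : FVs (fun i => i < k) ρ) (e : Env) :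
    Closed (Bx k e ρ) :=
  GDSEM_FVs_Bx (h.mono fun _ hi => Or.inl hi) e

theorem GDSEM_sat_gds {k : ℕ} (e e' : Env) (ρ : AFm) :
    Sat NN (gds k e ρ) e' ↔ ((∀ i < k, e' i = e i) → Sat NN ρ e') := by
  induction k generalizing ρ with
  | zero =>
    rw [gds]
    exact ⟨fun h _ => h, fun h => h (fun i hi => absurd hi (Nat.not_lt_zero i))⟩
  | succ k ih =>
    rw [gds, ih]
    constructor
    · intro h h1
      have h2 := h (fun i hi => h1 i (Nat.lt_succ_of_lt hi))
      rw [sat_imp, sat_rename, sat_num] at h2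
      exact h2 (h1 k (Nat.lt_succ_self k))
    · intro h h1
      rw [sat_imp, sat_rename, sat_num]
      intro h2
      refine h fun i hi => ?_
      rcases Nat.lt_succ_iff_lt_or_eq.1 hi with h3 | rfl
      · exact h1 i h3
      · exact h2

theorem sat_Gd {k : ℕ} {ρ : AFm} (h : FVs (fun i => i < k) ρ) (e e' : Env) :
    Sat NN (Gd k e ρ) e' ↔ Sat NN ρ e := by
  have h1 : Sat NN (Gd k e ρ) e' ↔ ∀ e'', Sat NN (Gd k e ρ) e'' :=
    ⟨fun h2 e'' => (sat_congr NN (closed_Gd h e) (fun _ hi => hi.elim)).1 h2, fun h2 => h2 e'⟩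
  rw [h1]
  unfold Gd
  rw [sat_alls]
  constructor
  · intro h2
    exact (GDSEM_sat_gds e e ρ).1 (h2 e) fun _ _ => rfl
  · intro h2 e''
    rw [GDSEM_sat_gds]
    intro h3
    exact (sat_congr NN h h3).2 h2

theorem GDSEM_sat_Bx {k : ℕ} (e e' : Env) (ρ : AFm) :
    Sat NN (Bx k e ρ) e' ↔ Sat NN ρ (fun i => if i < k then e i else e' (i - k)) := by
  induction k generalizing e' with
  | zero =>
    rw [Bx]
    have : (fun i => if i < 0 then e i else e' (i - 0)) = e' := by
      funext i
      rw [if_neg (Nat.not_lt_zero i), Nat.sub_zero]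
    rw [this]
  | succ k ih =>
    rw [Bx, sat_ex]
    have key : (fun i => if i < k then e i else scons (e k) e' (i - k)) =
        fun i => if i < k + 1 then e i else e' (i - (k + 1)) := by
      funext i
      by_cases h1 : i < k
      · rw [if_pos h1, if_pos (Nat.lt_succ_of_lt h1)]
      · rw [if_neg h1]
        by_cases h2 : i = k
        · subst h2
          rw [if_pos (Nat.lt_succ_self i), Nat.sub_self]
          rfl
        · rw [if_neg (by omega)]
          have h3 : i - k = (i - (k + 1)) + 1 := by omega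
          rw [h3]
          rfl
    constructor
    · rintro ⟨a, ha⟩
      rw [sat_and, sat_num, ih] at ha
      obtain ⟨h1, h2⟩ := ha
      have h3 : a = e k := h1
      subst h3
      rwa [key] at h2
    · intro h1
      refine ⟨e k, ?_⟩
      rw [sat_and, sat_num, ih]
      refine ⟨rfl, ?_⟩
      rwa [key]

theorem sat_Bx {k : ℕ} {ρ : AFm} (h : FVs (fun i => i < k) ρ) (e e' : Env) :
    Sat NN (Bx k e ρ) e' ↔ Sat NN ρ e := by
  rw [GDSEM_sat_Bx]
  exact sat_congr NN h fun i hi => if_pos hi

theorem GDSEM_len_alls (k : ℕ) (φ : AFm) : len (alls k φ) = len φ + 4 * k := by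
  induction k with
  | zero => rfl
  | succ k ih =>
    rw [alls, len, ih]
    ring

theorem GDSEM_len_gds (K k : ℕ) (hk : k ≤ K) (e : Env) (ρ : AFm) :
    len (gds k e ρ) ≤ len ρ + 200 * (K + 1) * SzE k e + k * (200 * (K + 1) + 4) := by
  induction k generalizing ρ with
  | zero =>
    rw [gds]
    omega
  | succ k ih =>
    rw [gds]
    refine (ih (by omega) _).trans ?_
    have h1 : len (rename (fun _ => k) (num (e k))) ≤ (K + 1) * len (num (e k)) :=
      len_rename_le (fun i => by omega) _
    have h2 := len_num (e k)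
    have h3 : SzE (k + 1) e = SzE k e + Nat.size (e k) := by
      unfold SzE
      rw [Finset.sum_range_succ]
    have h4 : (K + 1) * len (num (e k)) ≤ (K + 1) * (200 * (Nat.size (e k) + 1)) :=
      Nat.mul_le_mul_left _ h2
    rw [h3]
    simp only [len]
    nlinarith

theorem len_Gd (k : ℕ) (ρ : AFm) : ∃ C : ℕ, ∀ e : Env, len (Gd k e ρ) ≤ C * (SzE k e + 1) := by
  refine ⟨len ρ + 200 * (k + 1) + k * (200 * (k + 1) + 4) + 4 * k, fun e => ?_⟩
  unfold Gd
  rw [GDSEM_len_alls]
  have h1 := GDSEM_len_gds k k le_rfl e ρ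
  nlinarith [Nat.zero_le (SzE k e), Nat.zero_le (len ρ * SzE k e),
    Nat.zero_le (k * (200 * (k + 1) + 4) * SzE k e), Nat.zero_le (k * SzE k e)]

theorem len_Bx (k : ℕ) (ρ : AFm) : ∃ C : ℕ, ∀ e : Env, len (Bx k e ρ) ≤ C * (SzE k e + 1) := by
  induction k with
  | zero =>
    refine ⟨len ρ, fun e => ?_⟩
    rw [Bx]
    nlinarith [Nat.zero_le (len ρ * SzE 0 e)]
  | succ k ih =>
    obtain ⟨C, hC⟩ := ih
    refine ⟨C + 500, fun e => ?_⟩
    have h2 := len_num (e k)
    have h3 : SzE (k + 1) e = SzE k e + Nat.size (e k) := by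
      unfold SzE
      rw [Finset.sum_range_succ]
    have h4 := hC e
    rw [Bx, h3]
    simp only [Fm.ex, Fm.and, Fm.neg, len]
    nlinarith [Nat.zero_le (C * Nat.size (e k)), Nat.zero_le (SzE k e)]

theorem size_le_len_num (n : ℕ) : Nat.size n ≤ len (num n) := by
  induction n using Nat.strong_induction_on with
  | _ n ih =>
    rcases Nat.eq_zero_or_pos n with rfl | hn
    · simp
    · have hs : Nat.size n ≤ Nat.size (n / 2) + 1 := by
        rw [Nat.size_le]
        have h2 : n / 2 < 2 ^ Nat.size (n / 2) := Nat.lt_size_self _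
        rw [pow_succ]
        omega
      have ih' := ih (n / 2) (Nat.div_lt_self hn (by norm_num))
      rcases Nat.even_or_odd' n with ⟨m, rfl | rfl⟩
      · have hm : 0 < m := by omega
        have h5 : 2 * m / 2 = m := by omega
        rw [h5] at hs ih'
        rw [num_even hm]
        simp only [Fm.ex, Fm.and, Fm.neg, len]
        omega
      · have h5 : (2 * m + 1) / 2 = m := by omega
        rw [h5] at hs ih'
        rw [num_odd]
        simp only [Fm.ex, Fm.and, Fm.neg, len]
        omega

/-- a renaming which does not decrease the free variables does not decrease the length -/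
theorem GDSEM_len_rename {P : ℕ → Prop} {φ : AFm} (h : FVs P φ) {f : ℕ → ℕ}
    (hf : ∀ i, P i → i ≤ f i) : len φ ≤ len (rename f φ) := by
  induction φ generalizing P f with
  | bot => exact le_rfl
  | eq i j =>
    simp only [FVs] at h
    have h1 := hf i h.1
    have h2 := hf j h.2
    simp only [rename, len]
    omega
  | rel r v =>
    simp only [FVs] at h
    simp only [rename, len]
    have h1 : ∑ k, (v k + 2) ≤ ∑ k, (f (v k) + 2) := by
      refine Finset.sum_le_sum fun k _ => ?_
      have := hf (v k) (h k)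
      omega
    omega
  | imp φ ψ h1 h2 =>
    simp only [FVs] at h
    have h3 := h1 h.1 hf
    have h4 := h2 h.2 hf
    simp only [rename, len]
    omega
  | all φ h1 =>
    simp only [FVs] at h
    have h3 := h1 h (f := up f) (by
      rintro i (rfl | ⟨k, rfl, hk⟩)
      · exact Nat.zero_le _
      · have := hf k hk
        show k + 1 ≤ f k + 1
        omega)
    simp only [rename, len]
    omega

theorem GDSEM_SzE_gds (k : ℕ) (e : Env) (ρ : AFm) : SzE k e + len ρ ≤ len (gds k e ρ) := by
  induction k generalizing ρ with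
  | zero =>
    rw [gds]
    simp [SzE]
  | succ k ih =>
    rw [gds]
    refine le_trans ?_ (ih _)
    have h3 : SzE (k + 1) e = SzE k e + Nat.size (e k) := by
      unfold SzE
      rw [Finset.sum_range_succ]
    have h4 := size_le_len_num (e k)
    have h5 : len (num (e k)) ≤ len (rename (fun _ => k) (num (e k))) :=
      GDSEM_len_rename (FVs_num _) fun i hi => by omega
    simp only [len]
    omega

theorem SzE_le_len_Gd (k : ℕ) (e : Env) (ρ : AFm) : SzE k e ≤ len (Gd k e ρ) := by
  unfold Gd
  rw [GDSEM_len_alls]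
  have := GDSEM_SzE_gds k e ρ
  omega

theorem SzE_le_len_Bx (k : ℕ) (e : Env) (ρ : AFm) : SzE k e ≤ len (Bx k e ρ) := by
  induction k with
  | zero => simp [SzE]
  | succ k ih =>
    have h3 : SzE (k + 1) e = SzE k e + Nat.size (e k) := by
      unfold SzE
      rw [Finset.sum_range_succ]
    have h4 := size_le_len_num (e k)
    rw [Bx, h3]
    simp only [Fm.ex, Fm.and, Fm.neg, len]
    omega

theorem SzE_congr {k : ℕ} {e e' : Env} (h : ∀ i < k, e i = e' i) : SzE k e = SzE k e' := by
  unfold SzE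
  exact Finset.sum_congr rfl fun i hi => by rw [h i (Finset.mem_range.1 hi)]

theorem SzE_join (k n : ℕ) (e w : Env) : SzE (k + n) (join k e w) = SzE k e + SzE n w := by
  unfold SzE
  rw [Finset.sum_range_add]
  congr 1
  · refine Finset.sum_congr rfl fun i hi => ?_
    rw [join, if_pos (Finset.mem_range.1 hi)]
  · refine Finset.sum_congr rfl fun i _ => ?_
    rw [join, if_neg (by omega), Nat.add_sub_cancel_left]

theorem size_le_SzE {k i : ℕ} (h : i < k) (e : Env) : Nat.size (e i) ≤ SzE k e := by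
  unfold SzE
  exact Finset.single_le_sum (f := fun i => Nat.size (e i)) (fun _ _ => Nat.zero_le _)
    (Finset.mem_range.2 h)

end Pool.Agent.MycW
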