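import Pool.Agent.MycW.Mach
import Pool.Agent.MycW.GdSem
import Pool.Agent.Myc.RepC

set_option autoImplicit false

/-! # MODULE MCODE: the size of the numbers of a node -/

namespace Pool.Agent.MycW

open Pool.Agent.Myc Pool.Agent.Myc.Fm

private theorem MCODE_size_le (n : ℕ) : Nat.size n ≤ n := by
  rw [Nat.size_le]
  exact Nat.lt_two_pow_self

/-- MODULE MCODE. HINT: `RepC_size_codeS`, `length_encode`. -/
theorem SzE_cenv (v t j : ℕ) (c : Cfg) :
    SzE 9 (cenv v t j c) ≤ Nat.size v + Nat.size t + Nat.size j + csz c + 10 := by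
  have h : SzE 9 (cenv v t j c) = Nat.size v + Nat.size t + Nat.size j + Nat.size (cdL c.L) +
      Nat.size (cdL c.W) + Nat.size (cd c.a) + Nat.size c.x + Nat.size c.y + Nat.size c.z := by
    unfold SzE
    simp only [Finset.sum_range_succ, Finset.sum_range_zero, cenv, ccode]
    omega
  rw [h, size_cdL, size_cdL, size_cd, csz]
  have h1 := MCODE_size_le c.x
  have h2 := MCODE_size_le c.y
  have h3 := MCODE_size_le c.z
  omega

end Pool.Agent.MycW
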