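import Pool.Agent.MycW.Mach
import Pool.Agent.MycW.GdSem
import Pool.Agent.Myc.SynC

set_option autoImplicit false

/-! # MODULE MSIZE: the size of configurations -/

namespace Pool.Agent.MycW

open Pool.Agent.Myc Pool.Agent.Myc.Fm

/-- Bounds for the parts of a configuration. -/
structure MSIZE_Bd (c : Cfg) (V w M N : ℕ) : Prop where
  hV : c.x + c.y + c.z ≤ V
  hw : plen c.W ≤ w
  hL : ∀ φ ∈ c.L, len φ ≤ M
  ha : len c.a ≤ M
  h4 : 4 ≤ M
  hN : c.L.length ≤ N

theorem MSIZE_plen_cons (φ : AFm) (l : List AFm) : plen (φ :: l) = len φ + plen l := by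
  simp [plen]

theorem MSIZE_plen_tail (l : List AFm) : plen l.tail ≤ plen l := by
  cases l with
  | nil => exact le_rfl
  | cons φ l =>
    rw [MSIZE_plen_cons]
    exact Nat.le_add_left _ _

theorem MSIZE_head (l : List AFm) : len (l.headD bot) + plen l.tail ≤ plen l + 4 := by
  cases l with
  | nil => simp [plen, len]
  | cons φ l =>
    rw [MSIZE_plen_cons]
    simp

theorem MSIZE_w (c : Cfg) : len c.w0 + len c.w1 + len c.w2 + plen c.W.tail.tail.tail ≤
    plen c.W + 12 := by
  have h1 := MSIZE_head c.W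
  have h2 := MSIZE_head c.W.tail
  have h3 := MSIZE_head c.W.tail.tail
  simp only [Cfg.w0, Cfg.w1, Cfg.w2]
  omega

theorem MSIZE_w01 (c : Cfg) : len c.w0 + len c.w1 + plen c.W.tail.tail ≤ plen c.W + 8 := by
  have h1 := MSIZE_head c.W
  have h2 := MSIZE_head c.W.tail
  simp only [Cfg.w0, Cfg.w1]
  omega

theorem MSIZE_hd {c : Cfg} {V w M N : ℕ} (h : MSIZE_Bd c V w M N) :
    len (c.L.headD bot) ≤ M := by
  cases hL : c.L with
  | nil => simpa [len] using h.h4
  | cons φ l =>
    refine h.hL _ ?_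
    rw [hL]
    exact List.mem_cons_self

theorem MSIZE_inst (j : ℕ) (φ : AFm) : len (rename (instMap j) φ) ≤ (j + 1) * len φ := by
  refine len_rename_le (fun i => ?_) φ
  cases i with
  | zero => show j ≤ 0 + j; omega
  | succ k => show k ≤ k + 1 + j; omega

theorem MSIZE_succ (φ : AFm) : len (rename Nat.succ φ) ≤ 2 * len φ :=
  len_rename_le (B := 1) (fun _ => le_rfl) φ

theorem MSIZE_cons {c c' : Cfg} {V w M N w' M' : ℕ} (h : MSIZE_Bd c V w M N) {φ : AFm}
    (hL : c'.L = φ :: c.L) (ha : c'.a = c.a) (hφ : len φ ≤ M') (hM : M ≤ M')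
    (hV : c'.x + c'.y + c'.z ≤ V) (hW : plen c'.W ≤ w') : MSIZE_Bd c' (V + 1) w' M' (N + 1) where
  hV := by omega
  hw := hW
  hL := by
    intro ψ hψ
    rw [hL] at hψ
    rcases List.mem_cons.1 hψ with rfl | hψ
    · exact hφ
    · exact (h.hL _ hψ).trans hM
  ha := by rw [ha]; exact h.ha.trans hM
  h4 := h.h4.trans hM
  hN := by rw [hL, List.length_cons]; exact Nat.succ_le_succ h.hN

theorem MSIZE_same {c c' : Cfg} {V w M N w' M' : ℕ} (h : MSIZE_Bd c V w M N)
    (hL : c'.L = c.L) (ha : c'.a = c.a) (hM : M ≤ M')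
    (hV : c'.x + c'.y + c'.z ≤ V + 1) (hW : plen c'.W ≤ w') :
    MSIZE_Bd c' (V + 1) w' M' (N + 1) where
  hV := by omega
  hw := hW
  hL := by
    intro ψ hψ
    rw [hL] at hψ
    exact (h.hL _ hψ).trans hM
  ha := by rw [ha]; exact h.ha.trans hM
  h4 := h.h4.trans hM
  hN := by rw [hL]; exact h.hN.trans (Nat.le_succ _)

theorem MSIZE_step {c : Cfg} {V w M N : ℕ} (h : MSIZE_Bd c V w M N) (m : Mv) :
    MSIZE_Bd (step m c) (V + 1) (w + V + 20) (M + 10 * (V + 1) * (w + 20)) (N + 1) := by
  have hV := h.hV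
  have hw := h.hw
  have h01 := MSIZE_w01 c
  have h012 := MSIZE_w c
  have ht := MSIZE_plen_tail c.W
  have ht2 := MSIZE_plen_tail c.W.tail
  have ht3 := MSIZE_plen_tail c.W.tail.tail
  have hh := MSIZE_hd h
  have hM : M ≤ M + 10 * (V + 1) * (w + 20) := Nat.le_add_right _ _
  have hP : 10 * (w + 20) ≤ 10 * (V + 1) * (w + 20) := by nlinarith
  have hb : ∀ {φ : AFm}, len φ ≤ 10 * (w + 20) → len φ ≤ M + 10 * (V + 1) * (w + 20) :=
    fun h => by omega
  cases m with
  | incr =>
    exact MSIZE_same h rfl rfl hM (show c.x + 1 + c.y + c.z ≤ V + 1 by omega)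
      (show plen c.W ≤ _ by omega)
  | shift =>
    exact MSIZE_same h rfl rfl hM (show 0 + c.x + c.y ≤ V + 1 by omega)
      (show plen c.W ≤ _ by omega)
  | mbot =>
    refine MSIZE_same h rfl rfl hM (show c.x + c.y + c.z ≤ V + 1 by omega)
      (show plen (bot :: c.W) ≤ _ from ?_)
    rw [MSIZE_plen_cons]
    simp only [len]
    omega
  | meq =>
    refine MSIZE_same h rfl rfl hM (show c.x + c.y + c.z ≤ V + 1 by omega)
      (show plen (eq c.x c.y :: c.W) ≤ _ from ?_)
    rw [MSIZE_plen_cons]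
    simp only [len]
    omega
  | mzero =>
    refine MSIZE_same h rfl rfl hM (show c.x + c.y + c.z ≤ V + 1 by omega)
      (show plen (zeroA c.x :: c.W) ≤ _ from ?_)
    rw [MSIZE_plen_cons]
    have : len (zeroA c.x) = c.x + 2 + 4 := by simp [zeroA, len, arA]
    omega
  | msucc =>
    refine MSIZE_same h rfl rfl hM (show c.x + c.y + c.z ≤ V + 1 by omega)
      (show plen (succA c.x c.y :: c.W) ≤ _ from ?_)
    rw [MSIZE_plen_cons]
    have : len (succA c.x c.y) = (c.x + 2) + (c.y + 2) + 4 := by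
      show (∑ k : Fin 2, ((![c.x, c.y] : Fin 2 → ℕ) k + 2)) + 4 = _
      rw [Fin.sum_univ_two]
      rfl
    omega
  | madd =>
    refine MSIZE_same h rfl rfl hM (show c.x + c.y + c.z ≤ V + 1 by omega)
      (show plen (addA c.x c.y c.z :: c.W) ≤ _ from ?_)
    rw [MSIZE_plen_cons]
    have : len (addA c.x c.y c.z) = (c.x + 2) + (c.y + 2) + (c.z + 2) + 4 := by
      show (∑ k : Fin 3, ((![c.x, c.y, c.z] : Fin 3 → ℕ) k + 2)) + 4 = _
      rw [Fin.sum_univ_three]
      rfl
    omega
  | mmul =>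
    refine MSIZE_same h rfl rfl hM (show c.x + c.y + c.z ≤ V + 1 by omega)
      (show plen (mulA c.x c.y c.z :: c.W) ≤ _ from ?_)
    rw [MSIZE_plen_cons]
    have : len (mulA c.x c.y c.z) = (c.x + 2) + (c.y + 2) + (c.z + 2) + 4 := by
      show (∑ k : Fin 3, ((![c.x, c.y, c.z] : Fin 3 → ℕ) k + 2)) + 4 = _
      rw [Fin.sum_univ_three]
      rfl
    omega
  | mimp =>
    refine MSIZE_same h rfl rfl hM (show c.x + c.y + c.z ≤ V + 1 by omega)
      (show plen (imp c.w1 c.w0 :: c.W.tail.tail) ≤ _ from ?_)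
    rw [MSIZE_plen_cons]
    simp only [len]
    omega
  | mall =>
    refine MSIZE_same h rfl rfl hM (show c.x + c.y + c.z ≤ V + 1 by omega)
      (show plen (all c.w0 :: c.W.tail) ≤ _ from ?_)
    rw [MSIZE_plen_cons]
    have h1 := MSIZE_head c.W
    simp only [len, Cfg.w0]
    omega
  | axk =>
    refine MSIZE_cons h rfl rfl (hb ?_) hM (show c.x + c.y + c.z ≤ V by omega)
      (show plen c.W.tail.tail ≤ _ by omega)
    simp only [len]
    omega
  | axs =>
    refine MSIZE_cons h rfl rfl (hb ?_) hM (show c.x + c.y + c.z ≤ V by omega)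
      (show plen c.W.tail.tail.tail ≤ _ by omega)
    simp only [len]
    omega
  | axdn =>
    refine MSIZE_cons h rfl rfl (hb ?_) hM (show c.x + c.y + c.z ≤ V by omega)
      (show plen c.W.tail ≤ _ by omega)
    simp only [len, neg]
    omega
  | axin =>
    refine MSIZE_cons h rfl rfl ?_ hM (show c.x + c.y + c.z ≤ V by omega)
      (show plen c.W.tail ≤ _ by omega)
    have h1 := MSIZE_inst c.x c.w0
    have h2 : (c.x + 1) * len c.w0 ≤ (V + 1) * (w + 20) :=
      Nat.mul_le_mul (by omega) (by omega)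
    simp only [len]
    nlinarith
  | axdi =>
    refine MSIZE_cons h rfl rfl (hb ?_) hM (show c.x + c.y + c.z ≤ V by omega)
      (show plen c.W.tail.tail ≤ _ by omega)
    simp only [len]
    omega
  | axva =>
    refine MSIZE_cons h rfl rfl (hb ?_) hM (show c.x + c.y + c.z ≤ V by omega)
      (show plen c.W.tail ≤ _ by omega)
    have h1 := MSIZE_succ c.w0
    simp only [len]
    omega
  | axre =>
    refine MSIZE_cons h rfl rfl ?_ hM (show c.x + c.y + c.z ≤ V by omega)
      (show plen c.W ≤ _ by omega)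
    simp only [len]
    nlinarith
  | axle =>
    refine MSIZE_cons h rfl rfl ?_ hM (show c.x + c.y + c.z ≤ V by omega)
      (show plen c.W.tail ≤ _ by omega)
    have h1 := MSIZE_inst c.x c.w0
    have h2 : (c.x + 1) * len c.w0 ≤ (V + 1) * (w + 20) :=
      Nat.mul_le_mul (by omega) (by omega)
    have h3 := MSIZE_inst c.y c.w0
    have h4 : (c.y + 1) * len c.w0 ≤ (V + 1) * (w + 20) :=
      Nat.mul_le_mul (by omega) (by omega)
    have h5 : (V + 1) * 20 ≤ (V + 1) * (w + 20) := Nat.mul_le_mul_left _ (by omega)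
    simp only [len]
    nlinarith
  | gen =>
    refine MSIZE_cons h rfl rfl ?_ hM (show c.x + c.y + c.z ≤ V by omega)
      (show plen c.W ≤ _ by omega)
    simp only [len]
    omega
  | rot =>
    refine ⟨show c.x + c.y + c.z ≤ V + 1 by omega, show plen c.W ≤ _ by omega, ?_,
      h.ha.trans hM, h.h4.trans hM, ?_⟩
    · intro φ hφ
      have hφ' : φ ∈ c.L.tail ++ [c.L.headD bot] := hφ
      rcases List.mem_append.1 hφ' with h1 | h1
      · exact (h.hL _ (List.mem_of_mem_tail h1)).trans hM
      · rw [List.mem_singleton.1 h1]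
        exact hh.trans hM
    · show (c.L.tail ++ [c.L.headD bot]).length ≤ N + 1
      have := h.hN
      simp only [List.length_append, List.length_tail, List.length_singleton]
      omega
  | ld =>
    exact ⟨show c.x + c.y + c.z ≤ V + 1 by omega, show plen c.W ≤ _ by omega,
      fun φ hφ => (h.hL φ hφ).trans hM, hh.trans hM, h.h4.trans hM, h.hN.trans (Nat.le_succ _)⟩
  | mp =>
    by_cases hc : c.a = imp (c.L.headD bot) c.w0
    · have hL : (step .mp c).L = c.w0 :: c.L := if_pos hc
      exact MSIZE_cons h hL rfl (hb (by omega)) hM (show c.x + c.y + c.z ≤ V by omega)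
        (show plen c.W.tail ≤ _ by omega)
    · have hL : (step .mp c).L = c.L := if_neg hc
      exact MSIZE_same h hL rfl hM (show c.x + c.y + c.z ≤ V + 1 by omega)
        (show plen c.W.tail ≤ _ by omega)

theorem MSIZE_mono {c : Cfg} {V w M N V' w' M' N' : ℕ} (h : MSIZE_Bd c V w M N) (hV : V ≤ V')
    (hw : w ≤ w') (hM : M ≤ M') (hN : N ≤ N') : MSIZE_Bd c V' w' M' N' :=
  ⟨h.hV.trans hV, h.hw.trans hw, fun φ hφ => (h.hL φ hφ).trans hM, h.ha.trans hM,
    h.h4.trans hM, h.hN.trans hN⟩

theorem MSIZE_run (ms : List Mv) : ∀ {c : Cfg} {V w M N : ℕ}, MSIZE_Bd c V w M N →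
    MSIZE_Bd (run ms c) (V + ms.length) (w + ms.length * (V + ms.length + 20))
      (M + ms.length * (10 * (V + ms.length + 1) *
        (w + ms.length * (V + ms.length + 20) + 20))) (N + ms.length) := by
  induction ms with
  | nil =>
    intro c V w M N h
    exact MSIZE_mono h (by simp) (by simp) (by simp) (by simp)
  | cons m ms ih =>
    intro c V w M N h
    have h1 := ih (MSIZE_step h m)
    have h2 : run (m :: ms) c = run ms (step m c) := rfl
    rw [h2]
    set n := ms.length with hn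
    have hl : (m :: ms).length = n + 1 := rfl
    rw [hl]
    have hw' : w + V + 20 + n * (V + 1 + n + 20) ≤ w + (n + 1) * (V + (n + 1) + 20) := by
      nlinarith
    refine MSIZE_mono h1 (by omega) hw' ?_ (by omega)
    have h3 : 10 * (V + 1) * (w + 20) ≤
        10 * (V + (n + 1) + 1) * (w + (n + 1) * (V + (n + 1) + 20) + 20) :=
      Nat.mul_le_mul (by omega) (by nlinarith)
    have h4 : 10 * (V + 1 + n + 1) * (w + V + 20 + n * (V + 1 + n + 20) + 20) ≤
        10 * (V + (n + 1) + 1) * (w + (n + 1) * (V + (n + 1) + 20) + 20) :=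
      Nat.mul_le_mul (by omega) (by omega)
    have h5 := Nat.mul_le_mul_left n h4
    calc M + 10 * (V + 1) * (w + 20) +
          n * (10 * (V + 1 + n + 1) * (w + V + 20 + n * (V + 1 + n + 20) + 20)) ≤
        M + 10 * (V + (n + 1) + 1) * (w + (n + 1) * (V + (n + 1) + 20) + 20) +
          n * (10 * (V + (n + 1) + 1) * (w + (n + 1) * (V + (n + 1) + 20) + 20)) := by omega
      _ = M + (n + 1) * (10 * (V + (n + 1) + 1) *
          (w + (n + 1) * (V + (n + 1) + 20) + 20)) := by ring

theorem MSIZE_length (l : List AFm) : l.length ≤ plen l := by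
  induction l with
  | nil => exact Nat.zero_le _
  | cons φ l ih =>
    rw [MSIZE_plen_cons, List.length_cons]
    have := len_pos φ
    omega

theorem MSIZE_mem {l : List AFm} {φ : AFm} (h : φ ∈ l) : len φ ≤ plen l := by
  induction l with
  | nil => cases h
  | cons ψ l ih =>
    rw [MSIZE_plen_cons]
    rcases List.mem_cons.1 h with rfl | h
    · exact Nat.le_add_right _ _
    · exact (ih h).trans (Nat.le_add_left _ _)

theorem MSIZE_plen_le {l : List AFm} {M : ℕ} (h : ∀ φ ∈ l, len φ ≤ M) :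
    plen l ≤ l.length * M := by
  induction l with
  | nil => simp [plen]
  | cons ψ l ih =>
    rw [MSIZE_plen_cons, List.length_cons, add_mul, one_mul, add_comm]
    exact add_le_add (ih fun φ hφ => h φ (List.mem_cons_of_mem _ hφ)) (h ψ List.mem_cons_self)

/-- MODULE MSIZE. HINT: the three variables are at most `csz c + ms.length`; one move increases
`plen c.W` by at most the sum of the variables plus a constant; the new element of the list has
length at most `10 * (x + y + 1) * (plen c.W + len of the head + 1)` (`len_rename_le`), and the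
number of elements increases by one, so bound first the length of the elements. -/
theorem run_size : ∃ C : ℕ, ∀ (ms : List Mv) (c : Cfg),
    csz (run ms c) ≤ C * (csz c + ms.length + 1) ^ C := by
  obtain ⟨C, hC⟩ : ∃ C : ℕ, 3000 ≤ C := ⟨3000, le_rfl⟩
  refine ⟨C, fun ms c => ?_⟩
  set S := csz c with hS
  have hcs : S = plen c.L + plen c.W + len c.a + c.x + c.y + c.z := rfl
  have h0 : MSIZE_Bd c S S S S :=
    ⟨by omega, by omega, fun φ hφ => (MSIZE_mem hφ).trans (by omega), by omega,
      by have := len_pos c.a; omega, (MSIZE_length c.L).trans (by omega)⟩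
  have h1 := MSIZE_run ms h0
  set n := ms.length with hn
  set s := S + n + 1 with hs
  have hs1 : 1 ≤ s := by omega
  have e1 : S + n ≤ s := by omega
  have s2 : s ≤ s ^ 2 := by nlinarith
  have s4 : s ^ 2 ≤ s ^ 4 := Nat.pow_le_pow_right hs1 (by norm_num)
  have s5 : s ^ 4 ≤ s ^ 5 := Nat.pow_le_pow_right hs1 (by norm_num)
  have e2 : S + n * (S + n + 20) ≤ 22 * s ^ 2 := by
    have h3 : n * (S + n + 20) ≤ s * (21 * s) := Nat.mul_le_mul (by omega) (by omega)
    nlinarith
  have e3 : S + n * (10 * (S + n + 1) * (S + n * (S + n + 20) + 20)) ≤ 421 * s ^ 4 := by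
    have h3 : n * (10 * (S + n + 1) * (S + n * (S + n + 20) + 20)) ≤
        s * (10 * s * (42 * s ^ 2)) := by
      refine Nat.mul_le_mul (by omega) (Nat.mul_le_mul (by omega) ?_)
      have : 1 ≤ s ^ 2 := Nat.one_le_pow _ _ hs1
      omega
    have h4 : s * (10 * s * (42 * s ^ 2)) = 420 * s ^ 4 := by ring
    omega
  have h2 := MSIZE_mono h1 e1 e2 e3 (e1 : S + n ≤ s)
  have h3 := MSIZE_plen_le h2.hL
  have h4 : (run ms c).L.length * (421 * s ^ 4) ≤ s * (421 * s ^ 4) :=
    Nat.mul_le_mul_right _ h2.hN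
  have h5 : s * (421 * s ^ 4) = 421 * s ^ 5 := by ring
  have h6 : csz (run ms c) ≤ 3000 * s ^ 5 := by
    have h7 := h2.hV
    have h8 := h2.hw
    have h9 := h2.ha
    have h10 : csz (run ms c) = plen (run ms c).L + plen (run ms c).W + len (run ms c).a +
      (run ms c).x + (run ms c).y + (run ms c).z := rfl
    omega
  exact h6.trans (Nat.mul_le_mul hC (Nat.pow_le_pow_right hs1 (by omega)))

end Pool.Agent.MycW
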