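import Pool.Agent.MycW.Mach
import Pool.Agent.MycW.GdSem
import Pool.Agent.Myc.Prv
import Pool.Agent.Myc.SemB

set_option autoImplicit false

/-! # MODULE MSOUND: soundness of the machine -/

namespace Pool.Agent.MycW

open Pool.Agent.Myc Pool.Agent.Myc.Fm

/-- The list is not empty, and its elements and the stored formula are provable. -/
def Sound (T : Set AFm) (c : Cfg) : Prop :=
  c.L ≠ [] ∧ (∀ φ ∈ c.L, Pvb T φ) ∧ Pvb T c.a

/-- MODULE MSOUND. -/
theorem sound_start (l : List AFm) (hl : l ≠ []) : Sound {ψ | ψ ∈ l} (start l) :=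
  ⟨hl, fun _ h => Pvb.hyp h, Pvb.logic (LogAx.refl 0)⟩

theorem MSOUND_head {T : Set AFm} {c : Cfg} (h : Sound T c) : Pvb T (c.L.headD bot) := by
  obtain ⟨h1, h2, -⟩ := h
  cases hL : c.L with
  | nil => exact absurd hL h1
  | cons φ l =>
    refine h2 _ ?_
    rw [hL]
    exact List.mem_cons_self

theorem MSOUND_tail {T : Set AFm} {c : Cfg} (h : Sound T c) :
    ∀ φ ∈ c.L.tail, Pvb T φ := fun φ hφ => h.2.1 φ (List.mem_of_mem_tail hφ)

theorem MSOUND_cons {T : Set AFm} {c : Cfg} (h : Sound T c) {φ : AFm} (hφ : Pvb T φ)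
    {c' : Cfg} (hL : c'.L = φ :: c.L) (ha : c'.a = c.a) : Sound T c' := by
  refine ⟨by rw [hL]; exact List.cons_ne_nil _ _, ?_, by rw [ha]; exact h.2.2⟩
  intro ψ hψ
  rw [hL] at hψ
  rcases List.mem_cons.1 hψ with rfl | hψ
  · exact hφ
  · exact h.2.1 _ hψ

theorem MSOUND_same {T : Set AFm} {c : Cfg} (h : Sound T c)
    {c' : Cfg} (hL : c'.L = c.L) (ha : c'.a = c.a) : Sound T c' := by
  refine ⟨by rw [hL]; exact h.1, ?_, by rw [ha]; exact h.2.2⟩
  intro ψ hψ
  rw [hL] at hψ
  exact h.2.1 _ hψ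

/-- MODULE MSOUND. -/
theorem sound_step {T : Set AFm} {c : Cfg} (h : Sound T c) (m : Mv) : Sound T (step m c) := by
  cases m with
  | incr => exact MSOUND_same h rfl rfl
  | shift => exact MSOUND_same h rfl rfl
  | mbot => exact MSOUND_same h rfl rfl
  | meq => exact MSOUND_same h rfl rfl
  | mzero => exact MSOUND_same h rfl rfl
  | msucc => exact MSOUND_same h rfl rfl
  | madd => exact MSOUND_same h rfl rfl
  | mmul => exact MSOUND_same h rfl rfl
  | mimp => exact MSOUND_same h rfl rfl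
  | mall => exact MSOUND_same h rfl rfl
  | axk => exact MSOUND_cons h (Pvb.logic (LogAx.k _ _)) rfl rfl
  | axs => exact MSOUND_cons h (Pvb.logic (LogAx.s _ _ _)) rfl rfl
  | axdn => exact MSOUND_cons h (Pvb.logic (LogAx.dn _)) rfl rfl
  | axin => exact MSOUND_cons h (Pvb.logic (LogAx.inst _ _)) rfl rfl
  | axdi => exact MSOUND_cons h (Pvb.logic (LogAx.dist _ _)) rfl rfl
  | axva => exact MSOUND_cons h (Pvb.logic (LogAx.vac _)) rfl rfl
  | axre => exact MSOUND_cons h (Pvb.logic (LogAx.refl _)) rfl rfl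
  | axle => exact MSOUND_cons h (Pvb.logic (LogAx.leib _ _ _)) rfl rfl
  | gen => exact MSOUND_cons h (MSOUND_head h).gen rfl rfl
  | rot =>
    refine ⟨?_, ?_, h.2.2⟩
    · show c.L.tail ++ [c.L.headD bot] ≠ []
      simp
    · intro φ hφ
      have hφ' : φ ∈ c.L.tail ++ [c.L.headD bot] := hφ
      rcases List.mem_append.1 hφ' with h1 | h1
      · exact MSOUND_tail h _ h1
      · rw [List.mem_singleton.1 h1]
        exact MSOUND_head h
  | ld => exact ⟨h.1, h.2.1, MSOUND_head h⟩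
  | mp =>
    by_cases hc : c.a = imp (c.L.headD bot) c.w0
    · have hL : (step .mp c).L = c.w0 :: c.L := if_pos hc
      have ha : Pvb T (imp (c.L.headD bot) c.w0) := hc ▸ h.2.2
      exact MSOUND_cons h (Pvb.mp ha (MSOUND_head h)) hL rfl
    · have hL : (step .mp c).L = c.L := if_neg hc
      exact MSOUND_same h hL rfl

/-- MODULE MSOUND. -/
theorem sound_run {T : Set AFm} {c : Cfg} (h : Sound T c) (ms : List Mv) :
    Sound T (run ms c) := by
  induction ms generalizing c with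
  | nil => exact h
  | cons m ms ih => exact ih (sound_step h m)

/-- MODULE MSOUND. -/
theorem sound_ne {T : Set AFm} {c : Cfg} (h : Sound T c) (hT : ∀ ψ ∈ T, ∀ e, Sat NN ψ e) :
    c.L.headD bot ≠ bot := by
  intro hb
  have h1 := MSOUND_head h
  rw [hb] at h1
  obtain ⟨l, hl⟩ := h1
  exact soundness NN hT hl bot List.mem_cons_self (fun _ => 0)

end Pool.Agent.MycW
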