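import Pool.Agent.MycW.MLine
import Pool.Agent.Myc.Prv

set_option autoImplicit false

/-! # MODULE MSIM: simulation of proofs -/

namespace Pool.Agent.MycW

open Pool.Agent.Myc Pool.Agent.Myc.Fm

theorem MSIM_plen_cons (φ : AFm) (l : List AFm) : plen (φ :: l) = len φ + plen l := by
  simp [plen]

theorem MSIM_length (l : List AFm) : l.length ≤ plen l := by
  induction l with
  | nil => exact Nat.zero_le _
  | cons φ l ih =>
    rw [MSIM_plen_cons, List.length_cons]
    have := len_pos φ
    omega

theorem MSIM_aux : ∃ C : ℕ, ∀ (T p : List AFm), IsProof {ψ | ψ ∈ T} p →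
    ∃ ms : List Mv, ms.length ≤ C * (p.length * (plen p + T.length + 1)) ∧
      (∀ ψ ∈ T, ψ ∈ (run ms (start T)).L) ∧ (∀ ψ ∈ p, ψ ∈ (run ms (start T)).L) ∧
      (run ms (start T)).L.length ≤ T.length + p.length := by
  obtain ⟨C, hC⟩ := sim_line
  refine ⟨C, fun T p hp => ?_⟩
  induction hp with
  | nil => exact ⟨[], Nat.zero_le _, fun ψ h => h, fun ψ h => absurd h List.not_mem_nil, le_rfl⟩
  | @cons p φ hp hφ ih =>
    obtain ⟨ms, h1, h2, h3, h4⟩ := ih
    obtain ⟨ms', k1, k2, k3, k4⟩ := hC T p φ (run ms (start T)) hφ h2 h3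
    have e1 : run (ms ++ ms') (start T) = run ms' (run ms (start T)) := by
      simp only [run, List.foldl_append]
    refine ⟨ms ++ ms', ?_, ?_, ?_, ?_⟩
    · have h5 := MSIM_length p
      rw [List.length_append, MSIM_plen_cons, List.length_cons]
      have h6 : C * (len φ + (run ms (start T)).L.length + 1) ≤
          C * (len φ + plen p + T.length + 1) := Nat.mul_le_mul_left _ (by omega)
      have h7 : C * (p.length * (plen p + T.length + 1)) ≤
          C * (p.length * (len φ + plen p + T.length + 1)) :=
        Nat.mul_le_mul_left _ (Nat.mul_le_mul_left _ (by omega))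
      calc ms.length + ms'.length ≤ C * (p.length * (len φ + plen p + T.length + 1)) +
            C * (len φ + plen p + T.length + 1) := by omega
        _ = C * ((p.length + 1) * (len φ + plen p + T.length + 1)) := by ring
    · intro ψ hψ
      rw [e1]
      exact k2 ψ (h2 ψ hψ)
    · intro ψ hψ
      rw [e1]
      rcases List.mem_cons.1 hψ with rfl | hψ
      · exact k3
      · exact k2 ψ (h3 ψ hψ)
    · rw [e1, List.length_cons]
      omega

/-- MODULE MSIM. HINT: induction on the proof with `sim_line`, then `rot_to` for `bot`. -/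
theorem simul : ∃ C : ℕ, ∀ (l : List AFm) (x : ℕ), Proves {ψ | ψ ∈ l} x bot →
    ∃ ms : List Mv, ms.length ≤ C * (x + l.length + 1) ^ 2 ∧
      (run ms (start l)).L.headD bot = bot := by
  obtain ⟨C, hC⟩ := MSIM_aux
  refine ⟨C + 1, fun l x hx => ?_⟩
  obtain ⟨p, h1, h2⟩ := (proves_iff _ _ _).1 hx
  obtain ⟨ms, k1, -, k3, k4⟩ := hC l _ h1
  obtain ⟨ms', L, e1, e2, e3, -, -⟩ := rot_to (run ms (start l)) bot (k3 _ List.mem_cons_self)
  have hr : run (ms ++ ms') (start l) = run ms' (run ms (start l)) := by
    simp only [run, List.foldl_append]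
  refine ⟨ms ++ ms', ?_, ?_⟩
  · have h5 := MSIM_length (bot :: p)
    set P := plen (bot :: p) with hP
    set n := (bot :: p).length with hn
    rw [List.length_append]
    have h6 : C * (n * (P + l.length + 1)) ≤ C * ((x + l.length + 1) ^ 2) := by
      refine Nat.mul_le_mul_left _ ?_
      rw [pow_two]
      exact Nat.mul_le_mul (by omega) (by omega)
    have h7 : ms'.length ≤ (x + l.length + 1) ^ 2 := by
      have : x + l.length + 1 ≤ (x + l.length + 1) ^ 2 := by
        rw [pow_two]
        exact Nat.le_mul_of_pos_left _ (by omega)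
      omega
    calc ms.length + ms'.length ≤ C * ((x + l.length + 1) ^ 2) + (x + l.length + 1) ^ 2 := by
          omega
      _ = (C + 1) * (x + l.length + 1) ^ 2 := by ring
  · rw [hr, e2]
    exact e3

end Pool.Agent.MycW
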