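import Pool.Agent.MycW.RSuc

set_option autoImplicit false

/-! # MODULE EQNE: equality and inequality -/

namespace Pool.Agent.MycW

open Pool.Agent.Myc Pool.Agent.Myc.Fm

/- HINT: see `RSuc.lean` for a complete example. The recursion is on the binary digits: `e'` has the
halves of the entries of `e`; the side condition `S` says `e i = 2 * e (k + i)` or
`e i = 2 * e (k + i) + 1`. -/

theorem EQNE_size_dbl1 (m : ℕ) : Nat.size (2 * m + 1) = Nat.size m + 1 := by
  have := Nat.size_bit (b := true) (n := m) (by simp [Nat.bit])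
  simpa [Nat.bit] using this

theorem EQNE_size_dbl {m : ℕ} (hm : m ≠ 0) : Nat.size (2 * m) = Nat.size m + 1 := by
  have := Nat.size_bit (b := false) (n := m) (by simp [Nat.bit, hm])
  simpa [Nat.bit] using this

theorem EQNE_size_dbl_le (m : ℕ) : Nat.size (2 * m) ≤ Nat.size m + 1 := by
  rcases Nat.eq_zero_or_pos m with rfl | h
  · simp
  · rw [EQNE_size_dbl h.ne']

theorem EQNE_size_half_le (n : ℕ) : Nat.size (n / 2) ≤ Nat.size n :=
  Nat.size_le_size (Nat.div_le_self n 2)

theorem EQNE_size_half_lt {n : ℕ} (hn : n ≠ 0) : Nat.size (n / 2) < Nat.size n := by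
  rcases Nat.even_or_odd' n with ⟨m, hm | hm⟩
  · have h1 : n / 2 = m := by omega
    rw [h1, hm, EQNE_size_dbl (by omega)]
    exact Nat.lt_succ_self _
  · have h1 : n / 2 = m := by omega
    rw [h1, hm, EQNE_size_dbl1]
    exact Nat.lt_succ_self _

/-- MODULE EQNE. -/
theorem sp_eq : SP 2 (fun e => e 0 = e 1) := by
  have h : SP (2 + 1) (fun e => e 2 = 2 * e 0 ∧ e 2 = 2 * e 1) :=
    (sp_dbl.v (n := 3) [0, 2] (by decide)).and (sp_dbl.v (n := 3) [1, 2] (by decide))
  refine h.of ?_ 2 ?_
  · intro e w hw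
    simp only [join] at hw
    norm_num at hw
    omega
  · intro e he
    refine ⟨fun _ => 2 * e 0, ?_, ?_⟩
    · simp only [join]
      norm_num
      exact he
    · intro i _
      have h1 := EQNE_size_dbl_le (e 0)
      have h2 := size_le_SzE (k := 2) (i := 0) (by norm_num) e
      have h3 : SzE 2 e + 1 ≤ (SzE 2 e + 1) ^ 2 := Nat.le_self_pow (by norm_num) _
      show Nat.size (2 * e 0) ≤ _
      omega

/-- the last binary digits are different -/
theorem EQNE_base : SP 2 (fun e => e 0 % 2 ≠ e 1 % 2) := by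
  have h : SP (2 + 2) (fun e => (e 0 = 2 * e 2 ∧ e 1 = 2 * e 3 + 1) ∨
      (e 0 = 2 * e 2 + 1 ∧ e 1 = 2 * e 3)) :=
    ((sp_dbl.v (n := 4) [2, 0] (by decide)).and (sp_dbl1.v (n := 4) [3, 1] (by decide))).or
      ((sp_dbl1.v (n := 4) [2, 0] (by decide)).and (sp_dbl.v (n := 4) [3, 1] (by decide)))
  refine h.of ?_ 1 ?_
  · intro e w hw
    simp only [join] at hw
    norm_num at hw
    omega
  · intro e he
    refine ⟨fun i => e i / 2, ?_, ?_⟩
    · simp only [join]
      norm_num
      omega
    · intro i hi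
      have h1 := EQNE_size_half_le (e i)
      have h2 := size_le_SzE (k := 2) hi e
      show Nat.size (e i / 2) ≤ _
      simp only [pow_one, one_mul]
      omega

/-- MODULE EQNE. HINT: base: the last digits are different (`sp_dbl`, `sp_dbl1`); recursion: the
last digits are equal and the halves are different. -/
theorem sp_ne : SP 2 (fun e => e 0 ≠ e 1) := by
  have hS : SP (2 + 2) (fun e => (e 0 = 2 * e 2 ∧ e 1 = 2 * e 3) ∨
      (e 0 = 2 * e 2 + 1 ∧ e 1 = 2 * e 3 + 1)) :=
    ((sp_dbl.v (n := 4) [2, 0] (by decide)).and (sp_dbl.v (n := 4) [3, 1] (by decide))).or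
      ((sp_dbl1.v (n := 4) [2, 0] (by decide)).and (sp_dbl1.v (n := 4) [3, 1] (by decide)))
  refine SP.rec1 (ar_eqv 0 1 (by norm_num) (by norm_num)).not EQNE_base hS ?_ ?_
    (fun e => SzE 2 e) 1 ?_ ?_
  · intro e h1 h2
    rw [h2] at h1
    exact h1 rfl
  · intro e e' h1 h2
    simp [join] at h1
    omega
  · intro e _
    simp only [pow_one, one_mul]
    omega
  · intro e he
    by_cases hb : e 0 % 2 = e 1 % 2
    · right
      have hsz : SzE 2 (fun i => e i / 2) < SzE 2 e := by
        simp only [SzE, Finset.sum_range_succ, Finset.sum_range_zero, zero_add]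
        have h0 := EQNE_size_half_le (e 0)
        have h1 := EQNE_size_half_le (e 1)
        rcases Nat.eq_zero_or_pos (e 0) with h2 | h2
        · have h3 := EQNE_size_half_lt (n := e 1) (by omega)
          omega
        · have h3 := EQNE_size_half_lt (n := e 0) (by omega)
          omega
      refine ⟨fun i => e i / 2, ?_, hsz, hsz.le, ?_⟩
      · show e 0 / 2 ≠ e 1 / 2
        omega
      · simp only [join]
        norm_num
        omega
    · exact Or.inl hb

end Pool.Agent.MycW
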