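import Pool.Agent.MycW.RLst

set_option autoImplicit false

/-! # MODULE LSTC: elements and length of lists -/

namespace Pool.Agent.MycW

open Pool.Agent.Myc Pool.Agent.Myc.Fm

/-- MODULE LSTC. HINT: `∃ A B u, LsR A ∧ FmR x ∧ LsR B ∧ Cc A x u ∧ Cc u B L`. -/
theorem sp_mm : SP 2 (fun e => MmR (e 0) (e 1)) := by
  have h : SP (2 + 3) (fun e => LsR (e 2) ∧ FmR (e 0) ∧ LsR (e 3) ∧ Cc (e 2) (e 0) (e 4) ∧
      Cc (e 4) (e 3) (e 1)) :=
    (sp_ls.v (n := 5) [2] (by decide)).and ((sp_fm.v (n := 5) [0] (by decide)).and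
      ((sp_ls.v (n := 5) [3] (by decide)).and ((sp_cc.v (n := 5) [2, 0, 4] (by decide)).and
        (sp_cc.v (n := 5) [4, 3, 1] (by decide)))))
  refine h.of ?_ 1 ?_
  · intro e w hw
    have hw' : LsR (w 0) ∧ FmR (e 0) ∧ LsR (w 1) ∧ Cc (w 0) (e 0) (w 2) ∧
      Cc (w 2) (w 1) (e 1) := hw
    obtain ⟨⟨A, h1⟩, ⟨φ, h2⟩, ⟨B, h3⟩, h4, h5⟩ := hw'
    rw [h1, h2] at h4
    have h6 := (LST_cc_iff' φ A _).1 h4
    rw [h6, h3] at h5
    have h7 : e 1 = codeS (encodeL (A ++ [φ]) ++ encodeL B) := (Cc_codeS _ _ _).1 h5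
    rw [← cdL_append] at h7
    exact ⟨φ, A ++ [φ] ++ B, h2, h7, by simp⟩
  · rintro e ⟨φ, l, h1, h2, h3⟩
    obtain ⟨A, B, rfl⟩ := List.append_of_mem h3
    have h9 : A ++ φ :: B = (A ++ [φ]) ++ B := by simp
    refine ⟨fun i => if i = 0 then cdL A else if i = 1 then cdL B else cdL (A ++ [φ]), ?_, ?_⟩
    · show LsR (cdL A) ∧ FmR (e 0) ∧ LsR (cdL B) ∧ Cc (cdL A) (e 0) (cdL (A ++ [φ])) ∧
        Cc (cdL (A ++ [φ])) (cdL B) (e 1)
      refine ⟨⟨A, rfl⟩, ⟨φ, h1⟩, ⟨B, rfl⟩, ?_, ?_⟩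
      · rw [h1]
        exact (LST_cc_iff' φ A _).2 rfl
      · refine (Cc_codeS _ _ _).2 ?_
        rw [← cdL_append, h2, h9]
    · have h4 := size_le_SzE (k := 2) (i := 1) (by norm_num) e
      rw [h2, size_cdL, Prv_plen_append, Prv_plen_cons] at h4
      intro i hi
      simp only [pow_one, one_mul]
      by_cases h : i = 0
      · rw [if_pos h, size_cdL]
        omega
      · rw [if_neg h]
        by_cases h' : i = 1
        · rw [if_pos h', size_cdL]
          omega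
        · rw [if_neg h', size_cdL, Prv_plen_append, Prv_plen_cons]
          have : plen ([] : List AFm) = 0 := rfl
          omega

/-- MODULE LSTC. HINT: induction on `n`: `∃ x M, LcR x M L ∧ LnR n M`. -/
theorem sp_ln (n : ℕ) : SP 1 (fun e => LnR n (e 0)) := by
  induction n with
  | zero =>
    refine (sp_const 1).iff fun e => ?_
    constructor
    · intro h
      exact ⟨[], h, rfl⟩
    · rintro ⟨l, h1, h2⟩
      rw [List.length_eq_zero_iff] at h2
      subst h2
      exact h1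
  | succ n ih =>
    have h : SP (1 + 2) (fun e => LcR (e 1) (e 2) (e 0) ∧ LnR n (e 2)) :=
      (sp_lc.v (n := 3) [1, 2, 0] (by decide)).and (ih.v (n := 3) [2] (by decide))
    refine h.of ?_ 1 ?_
    · intro e w hw
      have hw' : LcR (w 0) (w 1) (e 0) ∧ LnR n (w 1) := hw
      obtain ⟨⟨φ, l, h1, h2, h3⟩, ⟨l', h4, h5⟩⟩ := hw'
      have h8 : l' = l := cdL_inj (h4.symm.trans h2)
      subst h8
      exact ⟨φ :: l', h3, by simp [h5]⟩
    · rintro e ⟨l, h1, h2⟩
      rcases l with _ | ⟨φ, l⟩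
      · simp at h2
      · refine ⟨fun i => if i = 0 then cd φ else cdL l, ?_, ?_⟩
        · show LcR (cd φ) (cdL l) (e 0) ∧ LnR n (cdL l)
          exact ⟨⟨φ, l, rfl, rfl, h1⟩, ⟨l, rfl, by simpa using h2⟩⟩
        · have h3 := size_le_SzE (k := 1) (i := 0) (by norm_num) e
          rw [h1, size_cdL, Prv_plen_cons] at h3
          intro i hi
          simp only [pow_one, one_mul]
          by_cases h : i = 0
          · rw [if_pos h, size_cd]
            omega
          · rw [if_neg h, size_cdL]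
            omega

end Pool.Agent.MycW
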