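import Pool.Agent.MycW.RSuc

set_option autoImplicit false

/-! # MODULE LTLE: the order -/

namespace Pool.Agent.MycW

open Pool.Agent.Myc Pool.Agent.Myc.Fm

/- HINT: see `RSuc.lean` for a complete example. The recursion is on the binary digits: `e'` has the
halves of the entries of `e`; the side condition `S` says `e i = 2 * e (k + i)` or
`e i = 2 * e (k + i) + 1`. -/

private theorem LTLE_size_dbl1 (m : ℕ) : Nat.size (2 * m + 1) = Nat.size m + 1 := by
  have := Nat.size_bit (b := true) (n := m) (by simp [Nat.bit])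
  simpa [Nat.bit] using this

private theorem LTLE_size_dbl {m : ℕ} (hm : m ≠ 0) : Nat.size (2 * m) = Nat.size m + 1 := by
  have := Nat.size_bit (b := false) (n := m) (by simp [Nat.bit, hm])
  simpa [Nat.bit] using this

private theorem LTLE_size_half_le (n : ℕ) : Nat.size (n / 2) ≤ Nat.size n :=
  Nat.size_le_size (Nat.div_le_self n 2)

private theorem LTLE_size_half_lt {n : ℕ} (hn : n ≠ 0) : Nat.size (n / 2) < Nat.size n := by
  rcases Nat.even_or_odd' n with ⟨m, hm | hm⟩
  · have h1 : n / 2 = m := by omega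
    rw [h1, hm, LTLE_size_dbl (by omega)]
    exact Nat.lt_succ_self _
  · have h1 : n / 2 = m := by omega
    rw [h1, hm, LTLE_size_dbl1]
    exact Nat.lt_succ_self _

private theorem LTLE_base : SP 2 (fun e => ∃ m, e 0 = 2 * m ∧ e 1 = 2 * m + 1) := by
  refine ((sp_dbl.v (n := 3) [2, 0] (by decide)).and
    (sp_dbl1.v (n := 3) [2, 1] (by decide))).ex 1 ?_
  rintro e x ⟨h4, h5⟩
  have h6 : e 0 = 2 * x := h4
  have h8 := (Nat.size_le_size (show x ≤ e 0 by omega)).trans
    (size_le_SzE (k := 2) (by norm_num) e)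
  simp only [pow_one, one_mul]
  omega

/-- MODULE LTLE. HINT: recursion for `≤`: `(2 a + c, 2 b + d)` with `a < b`, or `a = b` and
`c ≤ d`; it may be easier to do `lt` by: `2 a + c < 2 b + d` if `a < b` (any digits), or `a = b`,
`c = 0`, `d = 1`. -/
theorem sp_lt : SP 2 (fun e => e 0 < e 1) := by
  have h0 : SP (2 + 2) (fun e => e 0 = 2 * e 2 ∨ e 0 = 2 * e 2 + 1) :=
    (sp_dbl.v (n := 4) [2, 0] (by decide)).or (sp_dbl1.v (n := 4) [2, 0] (by decide))
  have h1 : SP (2 + 2) (fun e => e 1 = 2 * e 3 ∨ e 1 = 2 * e 3 + 1) :=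
    (sp_dbl.v (n := 4) [3, 1] (by decide)).or (sp_dbl1.v (n := 4) [3, 1] (by decide))
  refine SP.rec1 (ar_lt 0 1 (by norm_num) (by norm_num)) LTLE_base (h0.and h1) ?_ ?_
    (fun e => SzE 2 e) 1 ?_ ?_
  · rintro e ⟨m, h2, h3⟩
    omega
  · intro e e' h2 h3
    simp [join] at h2
    omega
  · intro e _
    simp only [pow_one, one_mul]
    omega
  · intro e he
    by_cases hb : e 0 / 2 < e 1 / 2
    · right
      have hsz : SzE 2 (fun i => e i / 2) < SzE 2 e := by
        simp only [SzE, Finset.sum_range_succ, Finset.sum_range_zero, zero_add]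
        have h2 := LTLE_size_half_le (e 0)
        have h3 := LTLE_size_half_lt (n := e 1) (by omega)
        omega
      refine ⟨fun i => e i / 2, hb, hsz, hsz.le, ?_⟩
      simp only [join]
      norm_num
      omega
    · exact Or.inl ⟨e 0 / 2, by omega, by omega⟩

/-- MODULE LTLE. -/
theorem sp_le : SP 2 (fun e => e 0 ≤ e 1) := by
  have h : SP (2 + 1) (fun e => e 2 = 2 * e 0 ∧ e 2 = 2 * e 1) :=
    (sp_dbl.v (n := 3) [0, 2] (by decide)).and (sp_dbl.v (n := 3) [1, 2] (by decide))
  have heq : SP 2 (fun e => e 0 = e 1) := by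
    refine h.of ?_ 2 ?_
    · intro e w hw
      simp only [join] at hw
      norm_num at hw
      omega
    · intro e he
      refine ⟨fun _ => 2 * e 0, ?_, ?_⟩
      · simp only [join]
        norm_num
        exact he
      · intro i _
        have h1 : Nat.size (2 * e 0) ≤ Nat.size (e 0) + 1 := by
          rcases Nat.eq_zero_or_pos (e 0) with h2 | h2
          · rw [h2]
            simp
          · rw [LTLE_size_dbl h2.ne']
        have h2 := size_le_SzE (k := 2) (i := 0) (by norm_num) e
        have h3 : SzE 2 e + 1 ≤ (SzE 2 e + 1) ^ 2 := Nat.le_self_pow (by norm_num) _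
        show Nat.size (2 * e 0) ≤ _
        omega
  exact (sp_lt.or heq).iff fun e => Nat.le_iff_lt_or_eq.symm

end Pool.Agent.MycW
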