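import Pool.Agent.MycW.RSuc
import Pool.Agent.Myc.NatC
import Pool.Agent.Myc.RepC

set_option autoImplicit false

/-! # MODULE CCPOW: concatenation and powers of two -/

namespace Pool.Agent.MycW

open Pool.Agent.Myc Pool.Agent.Myc.Fm

/- HINT: see `RSuc.lean` for a complete example. The recursion is on the binary digits: `e'` has the
halves of the entries of `e`; the side condition `S` says `e i = 2 * e (k + i)` or
`e i = 2 * e (k + i) + 1`. -/

private theorem CCPOW_eq : SP 2 (fun e => e 0 = e 1) := by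
  have h : SP (2 + 1) (fun e => e 2 = 2 * e 0 ∧ e 2 = 2 * e 1) :=
    (sp_dbl.v (n := 3) [0, 2] (by decide)).and (sp_dbl.v (n := 3) [1, 2] (by decide))
  refine h.of ?_ 1 ?_
  · intro e w hw
    simp only [join] at hw
    norm_num at hw
    omega
  · intro e he
    refine ⟨fun _ => 2 * e 0, ?_, ?_⟩
    · simp [join]
      exact he
    · intro i _
      have h1 : Nat.size (2 * e 0) ≤ Nat.size (e 0) + 1 := by
        rw [Nat.size_le, pow_succ]
        have := Nat.lt_size_self (e 0)
        omega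
      have h2 := size_le_SzE (k := 2) (i := 0) (by norm_num) e
      simp only [pow_one, one_mul]
      omega

private theorem CCPOW_size_lt {n : ℕ} (h : 0 < n) : Nat.size (n / 2) < Nat.size n := by
  rw [Nat.lt_size]
  have h1 : Nat.size (n / 2) ≤ Nat.size n := Nat.size_le_size (Nat.div_le_self _ _)
  rcases Nat.eq_zero_or_pos (n / 2) with h0 | hpos
  · rw [h0]; simp; omega
  · obtain ⟨m, hm⟩ : ∃ m, Nat.size (n / 2) = m + 1 :=
      ⟨Nat.size (n / 2) - 1, by have := Nat.size_pos.2 hpos; omega⟩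
    have h2 : 2 ^ m ≤ n / 2 := by
      rw [← Nat.lt_size]; omega
    rw [hm, pow_succ]
    omega

/-- MODULE CCPOW. Concatenation. HINT: recursion on `e 1`: `Cc x 1 x` and
`Cc x (2 y + b) (2 z + b)` if `Cc x y z` (write `y` and `z` as `codeS`, `codeS_append_bit`). -/
theorem sp_cc : SP 3 (fun e => Cc (e 0) (e 1) (e 2)) := by
  have hB : SP 3 (fun e => e 1 = 1 ∧ e 0 = e 2) :=
    ((sp_const 1).v (n := 3) [1] (by decide)).and (CCPOW_eq.v (n := 3) [0, 2] (by decide))
  have hS : SP (3 + 3) (fun e => e 0 = e 3 ∧ ((e 1 = 2 * e 4 ∧ e 2 = 2 * e 5) ∨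
      (e 1 = 2 * e 4 + 1 ∧ e 2 = 2 * e 5 + 1))) :=
    (CCPOW_eq.v (n := 6) [0, 3] (by decide)).and
      (((sp_dbl.v (n := 6) [4, 1] (by decide)).and (sp_dbl.v (n := 6) [5, 2] (by decide))).or
        ((sp_dbl1.v (n := 6) [4, 1] (by decide)).and (sp_dbl1.v (n := 6) [5, 2] (by decide))))
  refine SP.rec1 (ar_cc 0 1 2 (by norm_num) (by norm_num) (by norm_num)) hB hS ?_ ?_
    (fun e => Nat.size (e 1)) 1 ?_ ?_
  · rintro e ⟨h1, h2⟩
    refine ⟨1, ⟨0, rfl⟩, by omega, by omega, ?_⟩
    rw [h1, h2]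
    ring
  · intro e e' h1 h2
    obtain ⟨q, ⟨k, hk⟩, h3, h4, h5⟩ := h2
    simp only [join] at h1
    norm_num at h1
    obtain ⟨h6, h7⟩ := h1
    have h8 : e 0 * (2 * q) = 2 * (e' 0 * q) := by rw [h6]; ring
    refine ⟨2 * q, ⟨k + 1, by rw [hk, pow_succ]; ring⟩, by omega, by omega, ?_⟩
    rw [h8]
    omega
  · intro e _
    have := size_le_SzE (k := 3) (i := 1) (by norm_num) e
    simp only [pow_one, one_mul]
    omega
  · intro e he
    obtain ⟨q, ⟨k, hk⟩, h3, h4, h5⟩ := he
    rcases Nat.eq_zero_or_pos k with h0 | hpos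
    · left
      rw [h0, pow_zero] at hk
      subst hk
      exact ⟨by omega, by omega⟩
    · right
      obtain ⟨m, rfl⟩ := Nat.exists_eq_succ_of_ne_zero hpos.ne'
      have hq : q = 2 * 2 ^ m := by rw [hk, Nat.succ_eq_add_one, pow_succ]; ring
      have h6 : e 0 * q = 2 * (e 0 * 2 ^ m) := by rw [hq]; ring
      have h7 : 0 < 2 ^ m := Nat.two_pow_pos m
      set P := e 0 * 2 ^ m with hP
      set Q := 2 ^ m with hQ
      refine ⟨fun i => if i = 0 then e 0 else e i / 2, ?_, ?_, ?_, ?_⟩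
      · refine ⟨Q, ⟨m, rfl⟩, ?_, ?_, ?_⟩
        · simp; omega
        · simp; omega
        · simp [← hP]; omega
      · simp
        exact CCPOW_size_lt (by omega)
      · have h8 : Nat.size (e 1 / 2) ≤ Nat.size (e 1) := Nat.size_le_size (Nat.div_le_self _ _)
        have h9 : Nat.size (e 2 / 2) ≤ Nat.size (e 2) := Nat.size_le_size (Nat.div_le_self _ _)
        simp [SzE, Finset.sum_range_succ]
        omega
      · simp [join]
        omega

/-- MODULE CCPOW. HINT: unary recursion on `e 0 < Nat.size (e 1)`. -/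
theorem sp_two_pow : SP 2 (fun e => e 1 = 2 ^ e 0) := by
  have hB : SP 2 (fun e => e 0 = 0 ∧ e 1 = 1) :=
    ((sp_const 0).v (n := 2) [0] (by decide)).and ((sp_const 1).v (n := 2) [1] (by decide))
  have hS : SP (2 + 2) (fun e => e 2 + 1 = e 0 ∧ e 1 = 2 * e 3) :=
    (sp_suc.v (n := 4) [2, 0] (by decide)).and (sp_dbl.v (n := 4) [3, 1] (by decide))
  refine SP.rec1 (ar_two_pow 0 1 (by norm_num) (by norm_num)) hB hS ?_ ?_
    (fun e => e 0) 1 ?_ ?_
  · rintro e ⟨h1, h2⟩
    rw [h1, h2, pow_zero]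
  · intro e e' h1 h2
    simp only [join] at h1
    norm_num at h1
    obtain ⟨h3, h4⟩ := h1
    show e 1 = 2 ^ e 0
    rw [h4, ← h3, pow_succ, h2]
    ring
  · intro e he
    have h1 := size_le_SzE (k := 2) (i := 1) (by norm_num) e
    have h2 : Nat.size (e 1) = e 0 + 1 := by
      rw [he]; exact Nat.size_pow
    simp only [pow_one, one_mul]
    omega
  · intro e he
    rcases Nat.eq_zero_or_pos (e 0) with h0 | hpos
    · left
      exact ⟨h0, by rw [he, h0, pow_zero]⟩
    · right
      obtain ⟨m, hm⟩ := Nat.exists_eq_succ_of_ne_zero hpos.ne'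
      rw [Nat.succ_eq_add_one] at hm
      have h5 : e 1 = 2 * 2 ^ m := by rw [he, hm, pow_succ]; ring
      refine ⟨fun i => if i = 0 then m else 2 ^ m, ?_, ?_, ?_, ?_⟩
      · simp
      · simp; omega
      · have h6 : Nat.size m ≤ Nat.size (e 0) := Nat.size_le_size (by omega)
        have h7 : Nat.size (2 ^ m) ≤ Nat.size (e 1) := Nat.size_le_size (by omega)
        simp [SzE, Finset.sum_range_succ]
        omega
      · simp [join]
        omega

end Pool.Agent.MycW
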