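import Pool.Agent.MycW.RAdd
import Pool.Agent.MycW.RCcPow

set_option autoImplicit false

/-! # MODULE POWR: pairs of powers of two -/

namespace Pool.Agent.MycW

open Pool.Agent.Myc Pool.Agent.Myc.Fm

/-- MODULE POWR. HINT: `∃ i i' i'', e 0 = 2 ^ i ∧ i + i = i' ∧ i' + f = i'' ∧ e 1 = 2 ^ i''`. -/
theorem sp_powr (f : ℕ) : SP 2 (fun e => ∃ i : ℕ, e 0 = 2 ^ i ∧ e 1 = 2 ^ (2 * i + f)) := by
  have h : SP (2 + 4) (fun e => e 0 = 2 ^ e 2 ∧ e 2 + e 2 = e 3 ∧ e 5 = f ∧ e 3 + e 5 = e 4 ∧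
      e 1 = 2 ^ e 4) :=
    (sp_two_pow.v (n := 6) [2, 0] (by decide)).and
      ((sp_add.v (n := 6) [2, 2, 3] (by decide)).and
      (((sp_const f).v (n := 6) [5] (by decide)).and
      ((sp_add.v (n := 6) [3, 5, 4] (by decide)).and
      (sp_two_pow.v (n := 6) [4, 1] (by decide)))))
  refine h.of ?_ 1 ?_
  · intro e w hw
    simp [join] at hw
    obtain ⟨h1, h2, h3, h4, h5⟩ := hw
    refine ⟨w 0, h1, ?_⟩
    rw [h5]
    congr 1
    omega
  · rintro e ⟨i, h1, h2⟩
    refine ⟨fun j => if j = 0 then i else if j = 1 then 2 * i else if j = 2 then 2 * i + f else f,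
      ?_, ?_⟩
    · simp [join, h1, h2]
      omega
    · have s0 := size_le_SzE (k := 2) (i := 0) (by norm_num) e
      have s1 := size_le_SzE (k := 2) (i := 1) (by norm_num) e
      have t0 : Nat.size i ≤ Nat.size (e 0) := by
        rw [h1]; exact Nat.size_le_size (Nat.lt_two_pow_self).le
      have t1 : Nat.size (2 * i + f) ≤ Nat.size (e 1) := by
        rw [h2]; exact Nat.size_le_size (Nat.lt_two_pow_self).le
      have t2 : Nat.size (2 * i) ≤ Nat.size (2 * i + f) := Nat.size_le_size (by omega)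
      have t3 : Nat.size f ≤ Nat.size (2 * i + f) := Nat.size_le_size (by omega)
      intro j hj
      simp only [pow_one, one_mul]
      split_ifs <;> omega

end Pool.Agent.MycW
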