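import Pool.Agent.MycW.NSound
import Pool.Agent.MycW.MSim
import Pool.Agent.MycW.RPowr
import Pool.Agent.MycW.Conj
import Pool.Agent.MycW.REqNe
import Pool.Agent.MycW.RLtLe
import Pool.Agent.MycW.RLstC
import Pool.Agent.MycW.ClosP
import Pool.Agent.Myc.SemB
import Pool.Agent.Myc.StdB
import Pool.Agent.Myc.NatF

set_option autoImplicit false

/-! # MODULE ROOT: the use of the root -/

namespace Pool.Agent.MycW

open Pool.Agent.Myc Pool.Agent.Myc.Fm

/-! ### Polynomial bounds -/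

private def RootP (f : ℕ → ℕ) : Prop := ∃ C : ℕ, ∀ s, f s ≤ C * (s + 1) ^ C

private theorem RootP_of {f : ℕ → ℕ} (a b : ℕ) (h : ∀ s, f s ≤ a * (s + 1) ^ b) : RootP f := by
  refine ⟨a + b, fun s => (h s).trans ?_⟩
  exact Nat.mul_le_mul (Nat.le_add_right _ _) (Nat.pow_le_pow_right (Nat.succ_pos s)
    (Nat.le_add_left _ _))

private theorem RootP_const (c : ℕ) : RootP (fun _ => c) :=
  RootP_of c 0 fun s => by simp

private theorem RootP_id : RootP (fun s => s) :=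
  RootP_of 1 1 fun s => by simp

private theorem RootP_add {f g : ℕ → ℕ} (hf : RootP f) (hg : RootP g) : RootP (fun s => f s + g s) := by
  obtain ⟨C, hC⟩ := hf
  obtain ⟨D, hD⟩ := hg
  refine RootP_of (C + D) (C + D) fun s => ?_
  have h1 : C * (s + 1) ^ C ≤ C * (s + 1) ^ (C + D) :=
    Nat.mul_le_mul_left _ (Nat.pow_le_pow_right (Nat.succ_pos s) (Nat.le_add_right _ _))
  have h2 : D * (s + 1) ^ D ≤ D * (s + 1) ^ (C + D) :=
    Nat.mul_le_mul_left _ (Nat.pow_le_pow_right (Nat.succ_pos s) (Nat.le_add_left _ _))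
  calc f s + g s ≤ C * (s + 1) ^ (C + D) + D * (s + 1) ^ (C + D) :=
        Nat.add_le_add ((hC s).trans h1) ((hD s).trans h2)
    _ = (C + D) * (s + 1) ^ (C + D) := by ring

private theorem RootP_mul {f g : ℕ → ℕ} (hf : RootP f) (hg : RootP g) : RootP (fun s => f s * g s) := by
  obtain ⟨C, hC⟩ := hf
  obtain ⟨D, hD⟩ := hg
  refine RootP_of (C * D) (C + D) fun s => ?_
  calc f s * g s ≤ (C * (s + 1) ^ C) * (D * (s + 1) ^ D) := Nat.mul_le_mul (hC s) (hD s)
    _ = (C * D) * (s + 1) ^ (C + D) := by ring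

private theorem RootP_pow {f : ℕ → ℕ} (hf : RootP f) (k : ℕ) : RootP (fun s => f s ^ k) := by
  induction k with
  | zero => simpa using RootP_const 1
  | succ k ih =>
    have := RootP_mul ih hf
    simpa [pow_succ] using this

private theorem RootP_comp {f : ℕ → ℕ} (hf : RootP f) (c : ℕ) :
    RootP (fun s => c * (f s + 1) ^ c) :=
  RootP_mul (RootP_const c) (RootP_pow (RootP_add hf (RootP_const 1)) c)

/-- The key step: from a proof of `p` for the numbers `e` and a true implication. -/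
private theorem Root_key (n k : ℕ) (hk : k ≤ n) {R : Env → Prop} (hR : SP n R) (p q : AFm)
    (hp : FVs (fun i => i < n) p) (hq : FVs (fun i => i < k) q)
    (ht : ∀ e, Sat NN p e → R e → Sat NN q e) :
    ∃ Ax : List AFm, TrueL Ax ∧ ∃ C : ℕ, ∀ T : Set AFm, (∀ ψ ∈ Ax, ψ ∈ T) →
      ∀ (e : Env) (s : ℕ), R e → SzE n e ≤ s → Pv T s (Gd n e p) →
        Pv T (C * (s + 1) ^ C) (Bx k e q) := by
  obtain ⟨ρ, hρ, hρR⟩ := hR.ar
  obtain ⟨Ax1, h1, c1, hc1⟩ := hR.pp ρ hρ hρR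
  have hq' : FVs (fun i => i < n) q := hq.mono fun i hi => lt_of_lt_of_le hi hk
  obtain ⟨C2, hC2⟩ := hstep n [p, ρ] q (by
    intro x hx
    simp only [List.mem_cons, List.not_mem_nil, or_false] at hx
    rcases hx with rfl | rfl
    · exact hp
    · exact hρ) hq'
  obtain ⟨C3, hC3⟩ := hdrop k n hk q hq
  obtain ⟨C4, hC4⟩ := bx_of_gd k q hq
  obtain ⟨Ax5, h5, c5, hc5⟩ := ex_num
  have hF : ∀ x ∈ [p, ρ], FVs (fun i => i < n) x := by
    intro x hx
    simp only [List.mem_cons, List.not_mem_nil, or_false] at hx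
    rcases hx with rfl | rfl
    · exact hp
    · exact hρ
  refine ⟨alls n ([p, ρ].foldr imp q) :: (Ax1 ++ Ax5), ⟨?_, ?_⟩, ?_⟩
  · intro ψ hψ
    simp only [List.mem_cons, List.mem_append] at hψ
    rcases hψ with rfl | hψ | hψ
    · exact closed_alls ⟨hp, hρ, hq'⟩
    · exact h1.1 ψ hψ
    · exact h5.1 ψ hψ
  · intro ψ hψ
    simp only [List.mem_cons, List.mem_append] at hψ
    rcases hψ with rfl | hψ | hψ
    · refine (sat_alls NN n _).2 fun e => ?_
      intro h3 h4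
      exact ht e h3 ((hρR e).1 h4)
    · exact h1.2 ψ hψ
    · exact h5.2 ψ hψ
  · -- the bound
    have hPB : RootP (fun s => (((s + c1 * (s + 1) ^ c1) + (s + c1 * (s + 1) ^ c1)) +
        C2 * (1 + s) + n * (c5 * (s + 1) ^ c5) + C3 * (1 + s)) + k * (c5 * (s + 1) ^ c5) +
        C4 * (1 + s)) := by
      have e1 := RootP_comp RootP_id c1
      have e5 := RootP_comp RootP_id c5
      have es := RootP_add (RootP_const 1) RootP_id
      have ea := RootP_add RootP_id e1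
      exact RootP_add (RootP_add (RootP_add (RootP_add (RootP_add (RootP_add ea ea)
        (RootP_mul (RootP_const C2) es)) (RootP_mul (RootP_const n) e5)) (RootP_mul (RootP_const C3) es))
        (RootP_mul (RootP_const k) e5)) (RootP_mul (RootP_const C4) es)
    obtain ⟨C, hC⟩ := hPB
    refine ⟨C, fun T hT e s hRe hs hp' => (?_ : Pv T _ _).mono (hC s)⟩
    have hT0 : alls n ([p, ρ].foldr imp q) ∈ T := hT _ (by simp)
    have hT1 : ∀ ψ ∈ Ax1, ψ ∈ T := fun ψ h => hT ψ (by simp [h])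
    have hT5 : ∀ ψ ∈ Ax5, ψ ∈ T := fun ψ h => hT ψ (by simp [h])
    have k1 : Pv T (c1 * (s + 1) ^ c1) (Gd n e ρ) := hc1 T hT1 e s ⟨hRe, hs⟩
    have k2 := hC2 T e (fun _ => s + c1 * (s + 1) ^ c1) hT0 (by
      intro x hx
      simp only [List.mem_cons, List.not_mem_nil, or_false] at hx
      rcases hx with rfl | rfl
      · exact hp'.mono (Nat.le_add_right _ _)
      · exact k1.mono (Nat.le_add_left _ _))
    have k3 := hC3 T e _ (fun _ => c5 * (s + 1) ^ c5) k2 (fun i _ hi =>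
      hc5 T hT5 (e i) s ((size_le_SzE hi e).trans hs))
    have k4 := hC4 T e _ (fun _ => c5 * (s + 1) ^ c5) k3 (fun i hi =>
      hc5 T hT5 (e i) s ((size_le_SzE (lt_of_lt_of_le hi hk) e).trans hs))
    refine k4.mono ?_
    have hs' : SzE k e ≤ SzE n e := by
      unfold SzE
      exact Finset.sum_le_sum_of_subset (Finset.range_mono hk)
    have m1 : C2 * (1 + SzE n e) ≤ C2 * (1 + s) := Nat.mul_le_mul_left _ (by omega)
    have m2 : C3 * (1 + SzE n e) ≤ C3 * (1 + s) := Nat.mul_le_mul_left _ (by omega)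
    have m3 : C4 * (1 + SzE k e) ≤ C4 * (1 + s) := Nat.mul_le_mul_left _ (by omega)
    have m4 : (∑ i ∈ Finset.Ico k n, c5 * (s + 1) ^ c5) ≤ n * (c5 * (s + 1) ^ c5) := by
      rw [Finset.sum_const, Nat.card_Ico, smul_eq_mul]
      exact Nat.mul_le_mul_right _ (Nat.sub_le _ _)
    have m5 : (∑ i ∈ Finset.range k, c5 * (s + 1) ^ c5) = k * (c5 * (s + 1) ^ c5) := by
      rw [Finset.sum_const, Finset.card_range, smul_eq_mul]
    simp only [List.map_cons, List.map_nil, List.sum_cons, List.sum_nil, Nat.add_zero]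
    rw [m5]
    omega

/-- The relation between the numbers. -/
private def RootR (n f : ℕ) (T₁ : List AFm) (e : Env) : Prop :=
  LnR n (e 1) ∧ e 0 = 16 ∧ e 3 = cd K ∧ e 4 = cdL T₁ ∧ e 6 = 1 ∧ e 7 = cd (eq 0 0 : AFm) ∧
    e 8 = 0 ∧ e 9 = 0 ∧ e 10 = 0 ∧ (∃ i : ℕ, e 11 = 2 ^ i ∧ e 5 = 2 ^ (2 * i + f)) ∧ e 2 ≤ e 11

private theorem sp_RootR (n f : ℕ) (T₁ : List AFm) : SP 12 (RootR n f T₁) := by
  have c (i x : ℕ) (hi : i < 12) : SP 12 (fun e => e i = x) :=
    (sp_const x).map (n := 12) (fun _ => i) (fun _ _ => hi)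
  have h1 : SP 12 (fun e => LnR n (e 1)) := (sp_ln n).v (n := 12) [1] (by decide)
  have h2 : SP 12 (fun e => ∃ i : ℕ, e 11 = 2 ^ i ∧ e 5 = 2 ^ (2 * i + f)) :=
    (sp_powr f).v (n := 12) [11, 5] (by decide)
  have h3 : SP 12 (fun e => e 2 ≤ e 11) := sp_le.v (n := 12) [2, 11] (by decide)
  exact h1.and ((c 0 16 (by norm_num)).and ((c 3 (cd K) (by norm_num)).and
    ((c 4 (cdL T₁) (by norm_num)).and ((c 6 1 (by norm_num)).and
    ((c 7 (cd (eq 0 0 : AFm)) (by norm_num)).and ((c 8 0 (by norm_num)).and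
    ((c 9 0 (by norm_num)).and ((c 10 0 (by norm_num)).and (h2.and h3)))))))))

/-- The position of the entries of the node. -/
private def rootF (i : ℕ) : ℕ := [3, 4, 5, 1, 6, 7, 8, 9, 10].getD i 0

/-- The numbers for the axiom. -/
private noncomputable def RootE (t : ℕ) (l : List AFm) (m i f : ℕ) : Env := fun k =>
  [16, cdL l, m, cd K, t, 2 ^ (2 * i + f), 1, cd (eq 0 0 : AFm), 0, 0, 0, 2 ^ i].getD k 0

/-- MODULE ROOT. The node of the start configuration for the axioms `l` implies that falsum has no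
proof of length `m` from `l`. HINT: choose `f` with `C * (n + 2) ^ 2 ≤ 2 ^ f` for the constant `C` of
`simul` and `n = T₁.length + 2`. The sentence `R` is the conjunction (`conj_ax`) of finitely many
axioms for the relations and of `alls 12 (ps.foldr imp q)` with `ps = [K, x₀ = cd K, x₁ = cdL T₁,
LnR n x₃, x₄ = 1, x₅ = cd (eq 0 0), x₆ = 0, x₇ = 0, x₈ = 0, powr f x₉ x₂, x₁₀ ≤ x₉, x₁₁ = 16]` and
`q = ¬ provF (x₃, x₁₀, x₁₁)`. It is true by `node_sound` and `simul`. -/
theorem root_use (T₁ : List AFm) (hT : TrueL T₁) : ∃ R : AFm, Closed R ∧ (∀ e, Sat NN R e) ∧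
    ∃ C f : ℕ, ∀ T' : Set AFm, R ∈ T' → ∀ (l : List AFm) (i m s : ℕ),
      l.length = T₁.length + 2 → m ≤ 2 ^ i →
      SzE 9 (cenv (cd K) (cdL T₁) (2 ^ (2 * i + f)) (start l)) ≤ s →
      Pv T' s (Nd (cdL T₁) (2 ^ (2 * i + f)) (start l)) →
      Pv T' (C * (s + 1) ^ C) (Con l m) := by
  obtain ⟨C0, hC0⟩ := simul
  set n : ℕ := T₁.length + 2 with hn
  set f : ℕ := C0 * (n + 2) ^ 2 with hf
  have hf2 : C0 * (n + 2) ^ 2 ≤ 2 ^ f := (Nat.lt_two_pow_self (n := C0 * (n + 2) ^ 2)).le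
  have hp : FVs (fun i => i < 12) (rename rootF K : AFm) := by
    rw [FVs_rename]
    refine K_fv.mono fun i hi => ?_
    interval_cases i <;> decide
  have hq : FVs (fun i => i < 3) (neg (ap provF [1, 2, 0]) : AFm) := by
    rw [FVs_neg]
    exact FVs_ap StdB_provF _ _ rfl (by simp)
  have ht : ∀ e, Sat NN (rename rootF K : AFm) e → RootR n f T₁ e →
      Sat NN (neg (ap provF [1, 2, 0])) e := by
    rintro e hp ⟨⟨l, hl, hln⟩, h0, h3, h4, h6, h7, h8, h9, h10, ⟨i, h11, h5⟩, h2⟩ hpr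
    rw [sat_rename] at hp
    rw [sat_ap, sat_provF] at hpr
    obtain ⟨T', φ, g1, g2, g3⟩ := hpr
    have e3 : T' = l := cdL_inj (g1.symm.trans hl)
    have e4 : φ = bot := cd_inj (g2.symm.trans (h0.trans cd_bot.symm))
    rw [e3, e4] at g3
    have g3' : Proves {ψ | ψ ∈ l} (e 2) bot := g3
    obtain ⟨ms, hms, hbot⟩ := hC0 l (e 2) g3'
    have hN : NodeR (cenv (cd K) (cdL T₁) (2 ^ (2 * i + f)) (start l)) := by
      rw [← K_sat]
      refine (sat_congr NN K_fv (fun k hk => ?_)).1 hp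
      interval_cases k
      · exact h3
      · exact h4
      · exact h5
      · exact hl
      · exact h6
      · exact h7
      · exact h8
      · exact h9
      · exact h10
    refine node_sound T₁ (fun ψ h => hT.2 ψ h) _ _ hN ms (hms.trans ?_) hbot
    rw [h11] at h2
    have a1 : e 2 + l.length + 1 ≤ (n + 2) * 2 ^ i := by
      have : 1 ≤ 2 ^ i := Nat.one_le_two_pow
      rw [hln]
      nlinarith
    calc C0 * (e 2 + l.length + 1) ^ 2 ≤ C0 * ((n + 2) * 2 ^ i) ^ 2 :=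
          Nat.mul_le_mul_left _ (Nat.pow_le_pow_left a1 2)
      _ = (C0 * (n + 2) ^ 2) * 2 ^ (2 * i) := by ring
      _ ≤ 2 ^ f * 2 ^ (2 * i) := Nat.mul_le_mul_right _ hf2
      _ = 2 ^ (2 * i + f) := by ring
  obtain ⟨Ax1, hAx1, C1, hC1⟩ := Root_key 12 3 (by norm_num) (sp_RootR n f T₁) _ _ hp hq ht
  obtain ⟨Ax2, hAx2, c2, hc2⟩ := un_num
  obtain ⟨R, h1, h2, C2, hC2⟩ := conj_ax (Ax1 ++ Ax2)
    ⟨fun ψ h => (List.mem_append.1 h).elim (hAx1.1 ψ) (hAx2.1 ψ),
      fun ψ h => (List.mem_append.1 h).elim (hAx1.2 ψ) (hAx2.2 ψ)⟩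
  obtain ⟨C3, hC3⟩ := gd_of_bx 9 K K_fv
  obtain ⟨C4, hC4⟩ := hmap 9 12 rootF (fun i hi => by interval_cases i <;> decide) K K_fv
  have hPB : RootP (fun s => C1 * (((5 + s + s + s + s) + (((s + 9 * (c2 * (s + 1) ^ c2)) +
      C3 * (1 + s)) + C4 * (1 + (5 + s + s + s + s)))) + 1) ^ C1 + C2) := by
    have es' := RootP_add (RootP_const 1) RootP_id
    have eB := RootP_add (RootP_add (RootP_add (RootP_add (RootP_const 5) RootP_id) RootP_id)
      RootP_id) RootP_id
    exact RootP_add (RootP_comp (RootP_add eB (RootP_add (RootP_add (RootP_add RootP_id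
      (RootP_mul (RootP_const 9) (RootP_comp RootP_id c2))) (RootP_mul (RootP_const C3) es'))
      (RootP_mul (RootP_const C4) (RootP_add (RootP_const 1) eB)))) C1) (RootP_const C2)
  obtain ⟨C, hC⟩ := hPB
  refine ⟨R, h1, h2, C, f, fun T' hR l i m s hl hm hs hN => ?_⟩
  set w : Env := cenv (cd K) (cdL T₁) (2 ^ (2 * i + f)) (start l) with hw
  set e : Env := RootE (cdL T₁) l m i f with he
  have hwe : ∀ k < 9, w k = e (rootF k) := by
    intro k hk
    interval_cases k <;> rfl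
  have sl : Nat.size (cdL l) ≤ s := (size_le_SzE (k := 9) (i := 3) (by norm_num) w).trans hs
  have s2 : Nat.size (2 ^ (2 * i + f)) ≤ s :=
    (size_le_SzE (k := 9) (i := 2) (by norm_num) w).trans hs
  have si : Nat.size (2 ^ i) ≤ s :=
    (Nat.size_le_size (Nat.pow_le_pow_right (by norm_num) (by omega))).trans s2
  have sm : Nat.size m ≤ s := (Nat.size_le_size hm).trans si
  have hse : SzE 12 e ≤ 5 + s + s + s + s := by
    have h5 : Nat.size 16 = 5 := by decide
    have e1 : SzE 12 e = Nat.size 16 + Nat.size (cdL l) + Nat.size m + Nat.size (cd K) +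
        Nat.size (cdL T₁) + Nat.size (2 ^ (2 * i + f)) + Nat.size 1 +
        Nat.size (cd (eq 0 0 : AFm)) + Nat.size 0 + Nat.size 0 + Nat.size 0 +
        Nat.size (2 ^ i) := by
      simp only [SzE, Finset.sum_range_succ, Finset.sum_range_zero, Nat.zero_add]
      rfl
    have e2 : SzE 9 w = Nat.size (cd K) + Nat.size (cdL T₁) + Nat.size (2 ^ (2 * i + f)) +
        Nat.size (cdL l) + Nat.size 1 + Nat.size (cd (eq 0 0 : AFm)) + Nat.size 0 +
        Nat.size 0 + Nat.size 0 := by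
      simp only [SzE, Finset.sum_range_succ, Finset.sum_range_zero, Nat.zero_add]
      rfl
    omega
  set T'' : Set AFm := T' ∪ {ψ | ψ ∈ Ax1 ++ Ax2} with hT''
  have hN' : Pv T'' s (Bx 9 w K) := hN.weaken (T' := T'') (fun ψ h => Or.inl h)
  have k1 := hC3 T'' w s (fun _ => c2 * (s + 1) ^ c2) hN' (fun k hk =>
    hc2 T'' (fun ψ h => Or.inr (List.mem_append.2 (Or.inr h))) (w k) s
      ((size_le_SzE hk w).trans hs))
  rw [Gd_congr (e' := fun k => e (rootF k)) hwe] at k1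
  have k2 := hC4 T'' e _ k1
  have hRR : RootR n f T₁ e :=
    ⟨⟨l, rfl, hl⟩, rfl, rfl, rfl, rfl, rfl, rfl, rfl, rfl, ⟨i, rfl, rfl⟩, hm⟩
  have k3 := hC1 T'' (fun ψ h => Or.inr (List.mem_append.2 (Or.inl h))) e
    ((5 + s + s + s + s) + (((s + 9 * (c2 * (s + 1) ^ c2)) +
      C3 * (1 + s)) + C4 * (1 + (5 + s + s + s + s)))) hRR (by omega) (k2.mono (by
        have m0 : (∑ i ∈ Finset.range 9, c2 * (s + 1) ^ c2) = 9 * (c2 * (s + 1) ^ c2) := by
          rw [Finset.sum_const, Finset.card_range, smul_eq_mul]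
        have m1 : C3 * (1 + SzE 9 w) ≤ C3 * (1 + s) := Nat.mul_le_mul_left _ (by omega)
        have m2 : C4 * (1 + SzE 12 e) ≤ C4 * (1 + (5 + s + s + s + s)) :=
          Nat.mul_le_mul_left _ (by omega)
        rw [m0]
        omega))
  have k4 := hC2 T' hR _ _ k3
  exact k4.mono (hC s)

end Pool.Agent.MycW
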