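import Pool.Agent.MycW.SigB

set_option autoImplicit false

/-! # MODULE SGN: the sentence follows from the negation of the node -/

namespace Pool.Agent.MycW

open Pool.Agent.Myc Pool.Agent.Myc.Fm

theorem SGN_size_pos (n : ℕ) (e : Env) (s : ℕ) (h : SzE n e ≤ s) (i : ℕ) (hi : i < n) :
    Nat.size (e i) ≤ s := (size_le_SzE hi e).trans h

theorem SGN_poly_add {a b s C D : ℕ} (ha : a ≤ C * (s + 1) ^ C) (hb : b ≤ D * (s + 1) ^ D) :
    a + b ≤ (C + D) * (s + 1) ^ (C + D) := by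
  have h1 : (s + 1) ^ C ≤ (s + 1) ^ (C + D) := Nat.pow_le_pow_right (Nat.succ_pos s) (by omega)
  have h2 : (s + 1) ^ D ≤ (s + 1) ^ (C + D) := Nat.pow_le_pow_right (Nat.succ_pos s) (by omega)
  calc a + b ≤ C * (s + 1) ^ (C + D) + D * (s + 1) ^ (C + D) :=
        Nat.add_le_add (ha.trans (Nat.mul_le_mul_left _ h1)) (hb.trans (Nat.mul_le_mul_left _ h2))
    _ = (C + D) * (s + 1) ^ (C + D) := by ring

theorem SGN_poly_mono {a s C D : ℕ} (ha : a ≤ C * (s + 1) ^ C) (h : C ≤ D) :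
    a ≤ D * (s + 1) ^ D :=
  ha.trans (Nat.mul_le_mul h (Nat.pow_le_pow_right (Nat.succ_pos s) h))

theorem SGN_poly_mul {a s C n : ℕ} (ha : a ≤ C * (s + 1) ^ C) :
    n * a ≤ (n * C + C) * (s + 1) ^ (n * C + C) := by
  have h1 : (s + 1) ^ C ≤ (s + 1) ^ (n * C + C) := Nat.pow_le_pow_right (Nat.succ_pos s) (by omega)
  calc n * a ≤ n * (C * (s + 1) ^ (n * C + C)) :=
        Nat.mul_le_mul_left _ (ha.trans (Nat.mul_le_mul_left _ h1))
    _ = n * C * (s + 1) ^ (n * C + C) := by ring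
    _ ≤ _ := Nat.mul_le_mul_right _ (by omega)

theorem SGN_poly_lin {a s C : ℕ} (ha : a ≤ C * (s + 1)) : a ≤ (C + 1) * (s + 1) ^ (C + 1) := by
  have h1 : s + 1 ≤ (s + 1) ^ (C + 1) := Nat.le_self_pow (Nat.succ_ne_zero C) _
  exact ha.trans (Nat.mul_le_mul (Nat.le_succ C) h1)

theorem SGN_poly_comp {a s t C D : ℕ} (ha : a ≤ C * (t + 1) ^ C) (ht : t ≤ D * (s + 1) ^ D) :
    a ≤ (C * (D + 1) ^ C + D * C) * (s + 1) ^ (C * (D + 1) ^ C + D * C) := by
  have h0 : 1 ≤ (s + 1) ^ D := Nat.one_le_pow _ _ (Nat.succ_pos s)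
  have h1 : t + 1 ≤ (D + 1) * (s + 1) ^ D := by nlinarith
  have h2 : (t + 1) ^ C ≤ (D + 1) ^ C * (s + 1) ^ (D * C) := by
    calc (t + 1) ^ C ≤ ((D + 1) * (s + 1) ^ D) ^ C := Nat.pow_le_pow_left h1 C
      _ = (D + 1) ^ C * (s + 1) ^ (D * C) := by rw [mul_pow, pow_mul]
  have h3 : (s + 1) ^ (D * C) ≤ (s + 1) ^ (C * (D + 1) ^ C + D * C) :=
    Nat.pow_le_pow_right (Nat.succ_pos s) (by omega)
  calc a ≤ C * ((D + 1) ^ C * (s + 1) ^ (D * C)) := ha.trans (Nat.mul_le_mul_left _ h2)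
    _ = C * (D + 1) ^ C * (s + 1) ^ (D * C) := by ring
    _ ≤ _ := Nat.mul_le_mul (by omega) h3

/-- MODULE SGN. The sentence follows from the negation of the node. HINT: the axiom
`alls 13 (¬ K (x₁, ..., x₉) → Ks)`. -/
theorem sg_of_neg : ∃ Ax : List AFm, TrueL Ax ∧ ∃ C : ℕ, ∀ T' : Set AFm,
    (∀ ψ ∈ Ax, ψ ∈ T') → ∀ (t j : ℕ) (c : Cfg) (N M r s : ℕ),
      SzE 13 (senv t j c N M r) ≤ s → neg (Nd t j c) ∈ T' →
      Pv T' (C * (s + 1) ^ C) (Sg t j c N M r) := by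
  obtain ⟨Axn, hAxn, cn, hn⟩ := ex_num
  obtain ⟨C1, h1⟩ := gd_of_neg_bx 9 K K_fv
  have hnK : FVs (fun i => i < 9) (neg K) := (FVs_neg _ _).2 K_fv
  obtain ⟨C2, h2⟩ := hmap 9 13 (fun i => i + 1) (fun i hi => by omega) (neg K) hnK
  have hp : ∀ p ∈ [rename (fun i => i + 1) (neg K)], FVs (fun i => i < 13) p := by
    intro p hp
    rw [List.mem_singleton] at hp
    subst hp
    rw [FVs_rename]
    exact hnK.mono fun i hi => by omega
  obtain ⟨C3, h3⟩ := hstep 13 [rename (fun i => i + 1) (neg K)] Ks hp Ks_fv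
  obtain ⟨C4, h4⟩ := bx_of_gd 13 Ks Ks_fv
  obtain ⟨C5, h5⟩ := len_Bx 9 K
  set Θ : AFm := alls 13 ([rename (fun i => i + 1) (neg K)].foldr imp Ks) with hΘ
  have hΘc : Closed Θ := closed_alls ⟨hp _ (List.mem_singleton.2 rfl), Ks_fv⟩
  have hΘt : ∀ e, Sat NN Θ e := by
    rw [hΘ, sat_alls]
    intro e
    show Sat NN (rename (fun i => i + 1) (neg K)) e → Sat NN Ks e
    intro hK
    rw [sat_rename, sat_neg, K_sat] at hK
    rw [Ks_sat]
    intro hN
    exact absurd hN hK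
  refine ⟨Θ :: Axn, ⟨?_, ?_⟩, 13 * cn + 9 * C5 + C5 + 8 + 10 * C1 + C2 + C3 + C4 + cn + 1, ?_⟩
  · intro ψ hψ
    rcases List.mem_cons.1 hψ with rfl | h
    · exact hΘc
    · exact hAxn.1 ψ h
  · intro ψ hψ
    rcases List.mem_cons.1 hψ with rfl | h
    · exact hΘt
    · exact hAxn.2 ψ h
  · intro T' hT' t j c N M r s hs hneg
    set e := senv t j c N M r with he
    have hΘT : Θ ∈ T' := hT' Θ (List.mem_cons.2 (Or.inl rfl))
    have hAT : ∀ ψ ∈ Axn, ψ ∈ T' := fun ψ h => hT' ψ (List.mem_cons.2 (Or.inr h))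
    have hce : ∀ i < 9, cenv (cd K) t j c i = (fun i => e (i + 1)) i := by
      intro i hi
      simp only [he, senv]
      rw [if_neg (by omega), if_pos (by omega)]
      rfl
    have hsz : SzE 9 (cenv (cd K) t j c) ≤ 9 * s := by
      rw [SzE_congr hce]
      exact (SzE_map_le (n := 13) (f := fun i => i + 1) (fun i hi => by omega) e).trans
        (Nat.mul_le_mul_left _ hs)
    have p0 : Pv T' (len (neg (Nd t j c))) (neg (Bx 9 (cenv (cd K) t j c) K)) := Pv.hyp hneg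
    have p1 := h1 T' (cenv (cd K) t j c) _ p0
    rw [Gd_congr hce] at p1
    have p2 := h2 T' e _ p1
    have p3 := h3 T' e (fun _ => _) hΘT (fun p hp => by
      rw [List.mem_singleton] at hp
      subst hp
      exact p2)
    have p4 := h4 T' e _ (fun _ => cn * (s + 1) ^ cn) p3 (fun i hi =>
      hn T' hAT (e i) s (SGN_size_pos 13 e s hs i hi))
    refine Pv.mono p4 ?_
    have l0 : len (neg (Nd t j c)) = len (Nd t j c) + 8 := by
      simp only [neg, len]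
    have l1 : len (Nd t j c) ≤ C5 * (9 * s + 1) := (h5 _).trans (Nat.mul_le_mul_left _ (by omega))
    simp only [List.map_cons, List.map_nil, List.sum_cons, List.sum_nil, add_zero,
      Finset.sum_const, Finset.card_range, smul_eq_mul]
    rw [l0]
    have l2 : C1 * (1 + SzE 9 (cenv (cd K) t j c)) ≤ C1 * (1 + 9 * s) :=
      Nat.mul_le_mul_left _ (by omega)
    have l3 : C2 * (1 + SzE 13 e) ≤ C2 * (1 + s) := Nat.mul_le_mul_left _ (by omega)
    have l4 : C3 * (1 + SzE 13 e) ≤ C3 * (1 + s) := Nat.mul_le_mul_left _ (by omega)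
    have l5 : C4 * (1 + SzE 13 e) ≤ C4 * (1 + s) := Nat.mul_le_mul_left _ (by omega)
    set E := 13 * cn + 9 * C5 + C5 + 8 + 10 * C1 + C2 + C3 + C4 + cn + 1 with hE
    have m1 : s + 1 ≤ (s + 1) ^ E := Nat.le_self_pow (by omega) _
    have m2 : (s + 1) ^ cn ≤ (s + 1) ^ E := Nat.pow_le_pow_right (Nat.succ_pos s) (by omega)
    have k1 : C5 * (9 * s + 1) + 8 + C1 * (1 + 9 * s) + C2 * (1 + s) + C3 * (1 + s) +
        C4 * (1 + s) ≤ (9 * C5 + C5 + 8 + 10 * C1 + C2 + C3 + C4) * (s + 1) := by nlinarith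
    have k2 : (9 * C5 + C5 + 8 + 10 * C1 + C2 + C3 + C4) * (s + 1) ≤
        (9 * C5 + C5 + 8 + 10 * C1 + C2 + C3 + C4) * (s + 1) ^ E := Nat.mul_le_mul_left _ m1
    have k3 : 13 * (cn * (s + 1) ^ cn) ≤ 13 * cn * (s + 1) ^ E := by
      rw [← mul_assoc]
      exact Nat.mul_le_mul_left _ m2
    have k4 : E * (s + 1) ^ E = 13 * cn * (s + 1) ^ E +
        (9 * C5 + C5 + 8 + 10 * C1 + C2 + C3 + C4) * (s + 1) ^ E + (cn + 1) * (s + 1) ^ E := by
      rw [hE]; ring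
    omega

end Pool.Agent.MycW
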