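import Pool.Agent.MycW.Xi
import Pool.Agent.MycW.SgN

set_option autoImplicit false

/-! # MODULE SAFE: safety -/

namespace Pool.Agent.MycW

open Pool.Agent.Myc Pool.Agent.Myc.Fm

theorem SAFE_size (t j : ℕ) (c : Cfg) (N M r : ℕ) :
    SzE 9 (cenv (cd K) t j c) ≤ SzE 13 (senv t j c N M r) := by
  unfold SzE
  have h1 : ∀ i ∈ Finset.range 9, Nat.size (cenv (cd K) t j c i) =
      Nat.size (senv t j c N M r (i + 1)) := by
    intro i hi
    rw [Finset.mem_range] at hi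
    have h2 : senv t j c N M r (i + 1) = cenv (cd K) t j c i := by
      unfold senv
      rw [if_neg (by omega), if_pos (by omega), Nat.add_sub_cancel]
    rw [h2]
  rw [Finset.sum_congr rfl h1]
  have h3 : ∑ i ∈ Finset.range 10, Nat.size (senv t j c N M r i) ≤
      ∑ i ∈ Finset.range 13, Nat.size (senv t j c N M r i) :=
    Finset.sum_le_sum_of_subset (Finset.range_subset_range.2 (by norm_num))
  rw [Finset.sum_range_succ' _ 9] at h3
  omega

/-- MODULE SAFE. Safety: a proof of falsum from `T + Sg + Con_{T + Sg} (q)` gives a proof of the node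
from `T + Ξ`. HINT: `by_contra`, `cut_list`, `conj_ax`, `xi_exists`, `sg_of_neg`. -/
theorem safe (T : List AFm) (hT : TrueL T) : ∃ Xi : AFm, Closed Xi ∧ (∀ e, Sat NN Xi e) ∧
    ∃ C : ℕ, ∀ T' : Set AFm, (∀ ψ ∈ T, ψ ∈ T') → Xi ∈ T' →
      ∀ (t j : ℕ) (c : Cfg) (N M q s : ℕ),
        SzE 13 (senv t j c N M (cdL T)) + Nat.size q ≤ s →
        Pv {ψ | ψ ∈ Con (Sg t j c N M (cdL T) :: T) q :: Sg t j c N M (cdL T) :: T} s bot →
        Pv T' (C * (s + 1) ^ C) (Nd t j c) := by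
  obtain ⟨Xi1, hXc, hXt, C1, h1⟩ := xi_exists T hT
  obtain ⟨Ax, hAx, C2, h2⟩ := sg_of_neg
  obtain ⟨θ, hθc, hθt, C3, h3⟩ := conj_ax (Xi1 :: Ax) ⟨by
    intro ψ hψ
    rcases List.mem_cons.1 hψ with rfl | hψ
    · exact hXc
    · exact hAx.1 ψ hψ, by
    intro ψ hψ
    rcases List.mem_cons.1 hψ with rfl | hψ
    · exact hXt
    · exact hAx.2 ψ hψ⟩
  obtain ⟨C4, h4⟩ := Pool.Agent.MycW.by_contra
  obtain ⟨C5, h5⟩ := len_Bx 9 K
  set E := C1 + C2 + 1 with hE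
  set A := 2 + 2 * C1 + 2 * C2 + 2 * C3 + C5 with hA
  refine ⟨θ, hθc, hθt, C4 * A ^ 2 + 2 * E, ?_⟩
  intro T' hTT' hθ t j c N M q s hs hp
  set χ := Nd t j c with hχ
  set S := Sg t j c N M (cdL T) with hS
  set B := Con (S :: T) q with hB
  set T1 := insert (neg χ) T' with hT1
  have e1 : Pv (T1 ∪ {ψ | ψ ∈ Xi1 :: Ax}) (C1 * (s + 1) ^ C1) B :=
    h1 _ (Or.inr List.mem_cons_self) t j c N M q s hs (Or.inl (Set.mem_insert _ _))
  have e2 : Pv (T1 ∪ {ψ | ψ ∈ Xi1 :: Ax}) (C2 * (s + 1) ^ C2) S :=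
    h2 _ (fun ψ hψ => Or.inr (List.mem_cons_of_mem _ hψ)) t j c N M (cdL T) s
      (by omega) (Or.inl (Set.mem_insert _ _))
  have hθ1 : θ ∈ T1 := Set.mem_insert_of_mem _ hθ
  have e3 := h3 T1 hθ1 _ _ e1
  have e4 := h3 T1 hθ1 _ _ e2
  set a := C1 * (s + 1) ^ C1 + C2 * (s + 1) ^ C2 + C3 with ha
  have e5 : ∀ ψ ∈ [B, S], Pv T1 a ψ := by
    intro ψ hψ
    rcases List.mem_cons.1 hψ with rfl | hψ
    · exact e3.mono (by omega)
    · rw [List.mem_singleton] at hψ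
      subst hψ
      exact e4.mono (by omega)
  have e6 : Pv (T1 ∪ {ψ | ψ ∈ [B, S]}) s bot := by
    refine hp.weaken ?_
    intro ψ hψ
    have hψ' : ψ ∈ B :: S :: T := hψ
    rcases List.mem_cons.1 hψ' with rfl | hψ'
    · exact Or.inr List.mem_cons_self
    · rcases List.mem_cons.1 hψ' with rfl | hψ'
      · exact Or.inr (List.mem_cons_of_mem _ List.mem_cons_self)
      · exact Or.inl (Set.mem_insert_of_mem _ (hTT' ψ hψ'))
  have e7 := cut_list T1 [B, S] (fun _ => a) s bot e5 e6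
  have e8 : s + ((([B, S] : List AFm).map (fun _ => a)).sum) = s + 2 * a := by
    simp only [List.map_cons, List.map_nil, List.sum_cons, List.sum_nil]
    ring
  rw [e8] at e7
  have e9 := h4 T' χ (s + 2 * a) (closed_Nd t j c) e7
  refine e9.mono ?_
  have hlen : len χ ≤ C5 * (s + 1) := by
    refine (h5 _).trans (Nat.mul_le_mul_left _ ?_)
    have := SAFE_size t j c N M (cdL T)
    omega
  have hpow : ∀ n ≤ E, (s + 1) ^ n ≤ (s + 1) ^ E := fun n hn =>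
    Nat.pow_le_pow_right (by omega) hn
  have p1 := hpow C1 (by omega)
  have p2 := hpow C2 (by omega)
  have p3 : s + 1 ≤ (s + 1) ^ E := by
    have := hpow 1 (by omega)
    rwa [pow_one] at this
  have p4 : 1 ≤ (s + 1) ^ E := Nat.one_le_pow _ _ (by omega)
  have hmain : s + 2 * a + len χ + 1 ≤ A * (s + 1) ^ E := by
    have q1 : C1 * (s + 1) ^ C1 ≤ C1 * (s + 1) ^ E := Nat.mul_le_mul_left _ p1
    have q2 : C2 * (s + 1) ^ C2 ≤ C2 * (s + 1) ^ E := Nat.mul_le_mul_left _ p2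
    have q3 : C5 * (s + 1) ≤ C5 * (s + 1) ^ E := Nat.mul_le_mul_left _ p3
    have q4 : C3 * 1 ≤ C3 * (s + 1) ^ E := Nat.mul_le_mul_left _ p4
    have : A * (s + 1) ^ E = 2 * (s + 1) ^ E + 2 * (C1 * (s + 1) ^ E) + 2 * (C2 * (s + 1) ^ E) +
        2 * (C3 * (s + 1) ^ E) + C5 * (s + 1) ^ E := by rw [hA]; ring
    rw [this]
    omega
  calc C4 * (s + 2 * a + len χ + 1) ^ 2 ≤ C4 * (A * (s + 1) ^ E) ^ 2 :=
        Nat.mul_le_mul_left _ (Nat.pow_le_pow_left hmain 2)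
    _ = (C4 * A ^ 2) * (s + 1) ^ (2 * E) := by rw [mul_pow, ← pow_mul, mul_comm E 2, mul_assoc]
    _ ≤ (C4 * A ^ 2 + 2 * E) * (s + 1) ^ (C4 * A ^ 2 + 2 * E) :=
        Nat.mul_le_mul (by omega) (Nat.pow_le_pow_right (by omega) (by omega))

end Pool.Agent.MycW
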