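import Pool.Agent.MycW.SigB
import Pool.Agent.MycW.SgN
import Pool.Agent.Myc.NatF
import Pool.Agent.Myc.FamA

set_option autoImplicit false

/-! # MODULE USE: the use of a safe sentence -/

namespace Pool.Agent.MycW

open Pool.Agent.Myc Pool.Agent.Myc.Fm

/-- The relation for the numbers. -/
def USE_R (e : Env) : Prop := e 16 = 2 ^ e 13 ∧ BrR (fun i => e (i + 3)) (e 17) ∧
  ClR (e 17) (e 16) (e 1) ∧ e 2 ≤ e 14 ∧ e 0 = 16

theorem USE_BrR_congr {e e' : Env} (h : ∀ i < 13, e i = e' i) (b : ℕ) : BrR e b ↔ BrR e' b := by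
  unfold BrR
  rw [h 0 (by norm_num), h 12 (by norm_num)]
  simp only [Bx_congr h]

theorem USE_sp : SP 18 USE_R := by
  have h1 : SP 18 (fun e => e 16 = 2 ^ e 13) := sp_two_pow.v (n := 18) [13, 16] (by decide)
  have h2 : SP 18 (fun e => BrR (fun i => e (i + 3)) (e 17)) := by
    refine (sp_br.map (n := 18) (fun i => if i = 13 then 17 else i + 3) (by
      intro i hi
      show (if i = 13 then 17 else i + 3) < 18
      split_ifs <;> omega)).iff ?_
    intro e
    refine (USE_BrR_congr (fun i hi => ?_) _)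
    show e (if i = 13 then 17 else i + 3) = e (i + 3)
    rw [if_neg (by omega)]
  have h3 : SP 18 (fun e => ClR (e 17) (e 16) (e 1)) :=
    sp_cl.v (n := 18) [17, 16, 1] (by decide)
  have h4 : SP 18 (fun e => e 2 ≤ e 14) := sp_le.v (n := 18) [2, 14] (by decide)
  have h5 : SP 18 (fun e => e 0 = 16) := (sp_const 16).v (n := 18) [0] (by decide)
  exact h1.and (h2.and (h3.and (h4.and h5)))

/-- The numbers. -/
def USE_env (b' m : ℕ) (e : Env) (p b : ℕ) : Env := fun i =>
  if i = 0 then 16 else if i = 1 then b' else if i = 2 then m else if i < 16 then e (i - 3)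
  else if i = 16 then p else b

theorem USE_SzE (b' m : ℕ) (e : Env) (p b : ℕ) :
    SzE 18 (USE_env b' m e p b) =
      5 + Nat.size b' + Nat.size m + SzE 13 e + Nat.size p + Nat.size b := by
  have h16 : Nat.size 16 = 5 := by decide
  simp only [SzE, Finset.sum_range_succ, Finset.sum_range_zero, USE_env]
  norm_num
  rw [h16]
  ring

theorem USE_Con (B : List AFm) (q : ℕ) (e : Env) (h0 : e 0 = 16) (h1 : e 1 = cdL B)
    (h2 : e 2 = q) : Bx 3 e (neg (ap provF [1, 2, 0])) = Con B q := by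
  have h16 : (16 : ℕ) = codeS (encode bot) := by decide
  simp only [Bx, Myc.Con, h0, h1, h2]
  rw [← h16]
  rfl

theorem USE_q_fv (n : ℕ) (hn : 3 ≤ n) : FVs (fun i => i < n) (neg (ap provF [1, 2, 0])) := by
  rw [FVs_neg]
  refine FVs_ap provF_fv _ _ rfl ?_
  intro x hx
  simp only [List.mem_cons, List.not_mem_nil, or_false] at hx
  omega

theorem USE_sat_q (e : ℕ → ℕ) : Sat NN (neg (ap provF [1, 2, 0])) e ↔
    ¬ PrR (e 1) (e 2) (e 0) := by
  rw [sat_neg, sat_ap, sat_provF]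
  rfl

theorem USE_PrR_mono {a x x' y : ℕ} (h : x ≤ x') (hp : PrR a x y) : PrR a x' y := by
  obtain ⟨T, φ, h1, h2, l, h3, h4⟩ := hp
  exact ⟨T, φ, h1, h2, l, h3, h4.trans h⟩

/-- MODULE USE. The use of a safe sentence, if the node is provable. HINT: the axiom
`alls 18 (ps.foldr imp q)` with `ps = [Ks, K (x₁, ..., x₉), x₁₃ = 2 ^ x₁₀, BrR (x₀, ..., x₁₂, x₁₄),
ClR x₁₄ x₁₃ x₁₅, x₁₆ ≤ x₁₁, x₁₇ = 16]` and `q = ¬ provF (x₁₅, x₁₆, x₁₇)`. The numbers `2 ^ N`, `b`,
`b'` have a polynomial number of bits in terms of `s`. The axioms and the constant do not depend on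
`T`. -/
theorem sg_use : ∃ Ax : List AFm, TrueL Ax ∧ ∃ C : ℕ, ∀ (T : List AFm) (T' : Set AFm),
    (∀ ψ ∈ Ax, ψ ∈ T') → ∀ (t j : ℕ) (c : Cfg) (N M m s : ℕ),
      SzE 13 (senv t j c N M (cdL T)) + N ≤ s → m ≤ M → Pv T' s (Nd t j c) →
      Sg t j c N M (cdL T) ∈ T' →
      Pv T' (C * (s + 1) ^ C)
        (Con (Con (Sg t j c N M (cdL T) :: T) (2 ^ N) :: Sg t j c N M (cdL T) :: T) m) := by
  obtain ⟨Axn, hAxn, cn, hn⟩ := ex_num
  obtain ⟨Axu, hAxu, cu, hu⟩ := un_num
  obtain ⟨ρ, hρfv, hρ⟩ := USE_sp.ar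
  obtain ⟨Axr, hAxr, cr, hr⟩ := USE_sp.pp ρ hρfv hρ
  obtain ⟨C1, g1⟩ := gd_of_bx 13 Ks Ks_fv
  obtain ⟨C2, g2⟩ := hmap 13 18 (fun i => i + 3) (fun i hi => by omega) Ks Ks_fv
  obtain ⟨C3, g3⟩ := gd_of_bx 9 K K_fv
  obtain ⟨C4, g4⟩ := hmap 9 18 (fun i => i + 4) (fun i hi => by omega) K K_fv
  set p1 : AFm := rename (fun i => i + 3) Ks with hp1
  set p2 : AFm := rename (fun i => i + 4) K with hp2
  set q : AFm := neg (ap provF [1, 2, 0]) with hq
  have hps : ∀ p ∈ [p1, p2, ρ], FVs (fun i => i < 18) p := by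
    intro p hp
    simp only [List.mem_cons, List.not_mem_nil, or_false] at hp
    rcases hp with rfl | rfl | rfl
    · rw [hp1, FVs_rename]
      exact Ks_fv.mono fun i hi => by omega
    · rw [hp2, FVs_rename]
      exact K_fv.mono fun i hi => by omega
    · exact hρfv
  obtain ⟨C6, g6⟩ := hstep 18 [p1, p2, ρ] q hps (USE_q_fv 18 (by norm_num))
  obtain ⟨C7, g7⟩ := hdrop 3 18 (by norm_num) q (USE_q_fv 3 le_rfl)
  obtain ⟨C8, g8⟩ := bx_of_gd 3 q (USE_q_fv 3 le_rfl)
  obtain ⟨C9, g9⟩ := len_Bx 13 Ks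
  obtain ⟨C10, g10⟩ := len_Bx 3 q
  set Θ : AFm := alls 18 ([p1, p2, ρ].foldr imp q) with hΘ
  have hΘc : Closed Θ := closed_alls ⟨hps p1 (by simp), hps p2 (by simp), hps ρ (by simp),
    USE_q_fv 18 (by norm_num)⟩
  have hΘt : ∀ e, Sat NN Θ e := by
    rw [hΘ, sat_alls]
    intro e
    show Sat NN p1 e → Sat NN p2 e → Sat NN ρ e → Sat NN q e
    intro a1 a2 a3
    rw [hp1, sat_rename, Ks_sat] at a1
    rw [hp2, sat_rename, K_sat] at a2
    rw [hρ] at a3
    rw [hq, USE_sat_q]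
    obtain ⟨b1, b2, b3, b4, b5⟩ := a3
    rw [b5]
    intro b6
    exact a1 a2 (e 16) (e 17) (e 1) b1 b2 b3 (USE_PrR_mono b4 b6)
  -- the bound for the sizes
  obtain ⟨D, hD⟩ : ∃ D : ℕ, D = 20 + 2 * C9 + C10 * (C9 + 9) := ⟨_, rfl⟩
  obtain ⟨E, hE⟩ : ∃ E : ℕ, E = 3 * C9 + 66 * cu + 3 * C1 + 3 * C2 + 3 + 30 * C3 + 3 * C4 +
    3 * cr + C6 + C7 + 18 * cn + C8 + 1 := ⟨_, rfl⟩
  refine ⟨Θ :: (Axn ++ Axu ++ Axr), ⟨?_, ?_⟩,
    E * (D + 1 + 1) ^ E + (D + 1) * E, ?_⟩
  · intro ψ hψ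
    simp only [List.mem_cons, List.mem_append] at hψ
    rcases hψ with rfl | (h | h) | h
    · exact hΘc
    · exact hAxn.1 ψ h
    · exact hAxu.1 ψ h
    · exact hAxr.1 ψ h
  · intro ψ hψ
    simp only [List.mem_cons, List.mem_append] at hψ
    rcases hψ with rfl | (h | h) | h
    · exact hΘt
    · exact hAxn.2 ψ h
    · exact hAxu.2 ψ h
    · exact hAxr.2 ψ h
  · intro T T' hT' t j c N M m s hs hm hNd hSg
    have hΘT : Θ ∈ T' := hT' Θ (by simp)
    have hnT : ∀ ψ ∈ Axn, ψ ∈ T' := fun ψ h => hT' ψ (by simp [h])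
    have huT : ∀ ψ ∈ Axu, ψ ∈ T' := fun ψ h => hT' ψ (by simp [h])
    have hrT : ∀ ψ ∈ Axr, ψ ∈ T' := fun ψ h => hT' ψ (by simp [h])
    set e := senv t j c N M (cdL T) with he
    have hSg' : Sg t j c N M (cdL T) = Bx 13 e Ks := rfl
    set B : List AFm := Sg t j c N M (cdL T) :: T with hB
    set B' : List AFm := Con B (2 ^ N) :: B with hB'
    set e' := USE_env (cdL B') m e (2 ^ N) (cdL B) with he'
    -- entries
    have e0 : e' 0 = 16 := rfl
    have e1 : e' 1 = cdL B' := rfl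
    have e2 : e' 2 = m := rfl
    have e16 : e' 16 = 2 ^ N := rfl
    have e17 : e' 17 = cdL B := rfl
    have e3 : ∀ i < 13, e i = (fun i => e' (i + 3)) i := by
      intro i hi
      show e i = USE_env (cdL B') m e (2 ^ N) (cdL B) (i + 3)
      unfold USE_env
      rw [if_neg (by omega), if_neg (by omega), if_neg (by omega), if_pos (by omega)]
      rfl
    have e4 : ∀ i < 9, cenv (cd K) t j c i = (fun i => e' (i + 4)) i := by
      intro i hi
      have h1 := e3 (i + 1) (by omega)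
      show _ = e' (i + 1 + 3)
      rw [← show e (i + 1) = e' (i + 1 + 3) from h1]
      simp only [he, senv]
      rw [if_neg (by omega), if_pos (by omega)]
      rfl
    have eN : e 10 = N := rfl
    have eM : e 11 = M := rfl
    have eT : e 12 = cdL T := rfl
    have eK : e 0 = cd Ks := rfl
    have hs13 : SzE 13 e ≤ s := by omega
    -- sizes
    have z1 : Nat.size M ≤ s := by
      have := size_le_SzE (k := 13) (i := 11) (by norm_num) e
      rw [eM] at this
      omega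
    have z2 : plen T + 1 ≤ s := by
      have := size_le_SzE (k := 13) (i := 12) (by norm_num) e
      rw [eT, size_cdL] at this
      omega
    have z3 : Nat.size m ≤ s := (Nat.size_le_size hm).trans z1
    have z4 : len (Sg t j c N M (cdL T)) ≤ C9 * (s + 1) := by
      rw [hSg']
      exact (g9 e).trans (Nat.mul_le_mul_left _ (by omega))
    have z5 : plen B ≤ C9 * (s + 1) + s := by
      rw [hB, Prv_plen_cons]
      omega
    have z6 : Nat.size (2 ^ N) = N + 1 := Nat.size_pow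
    have z7 : len (Con B (2 ^ N)) ≤ C10 * (C9 * (s + 1) + s + 1 + 5 + (N + 1) + 1) := by
      rw [← USE_Con B (2 ^ N) (fun i => if i = 0 then 16 else if i = 1 then cdL B else 2 ^ N)
        rfl rfl rfl]
      refine (g10 _).trans (Nat.mul_le_mul_left _ ?_)
      have h16 : Nat.size 16 = 5 := by decide
      simp only [SzE, Finset.sum_range_succ, Finset.sum_range_zero]
      norm_num
      rw [h16, size_cdL]
      have : Nat.size (2 ^ N) = N + 1 := z6
      omega
    have z8 : SzE 18 e' ≤ D * (s + 1) := by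
      rw [he', USE_SzE, size_cdL, size_cdL, z6, hB', Prv_plen_cons, hD]
      have w1 : C10 * (C9 * (s + 1) + s + 1 + 5 + (N + 1) + 1) ≤ C10 * (C9 + 9) * (s + 1) := by
        rw [mul_assoc]
        refine Nat.mul_le_mul_left _ ?_
        have : (C9 + 9) * (s + 1) = C9 * (s + 1) + 9 * (s + 1) := by ring
        omega
      have w2 : (20 + 2 * C9 + C10 * (C9 + 9)) * (s + 1) =
        20 * (s + 1) + 2 * (C9 * (s + 1)) + C10 * (C9 + 9) * (s + 1) := by ring
      omega
    obtain ⟨S, hS⟩ : ∃ S, S = s + D * (s + 1) := ⟨_, rfl⟩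
    have zS : SzE 18 e' ≤ S := by omega
    have zs : s ≤ S := by omega
    have z9 : SzE 9 (cenv (cd K) t j c) ≤ 9 * S := by
      rw [SzE_congr e4]
      exact (SzE_map_le (n := 18) (f := fun i => i + 4) (fun i hi => by omega) e').trans
        (Nat.mul_le_mul_left _ zS)
    -- the relation
    have hR : USE_R e' := by
      refine ⟨?_, ?_, ?_, ?_, e0⟩
      · rw [e16]
        have : e' 13 = N := by
          have h1 := e3 10 (by norm_num)
          exact h1.symm.trans eN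
        rw [this]
      · refine (USE_BrR_congr e3 _).1 ?_
        refine ⟨Ks, T, eK, eT, ?_⟩
        rw [e17, hB, hSg']
      · rw [e17, e16, e1]
        exact ⟨B, rfl, rfl⟩
      · rw [e2]
        have : e' 14 = M := by
          have h1 := e3 11 (by norm_num)
          exact h1.symm.trans eM
        rw [this]
        exact hm
    have szi : ∀ i < 18, Nat.size (e' i) ≤ S := fun i hi => (size_le_SzE hi e').trans zS
    -- the proofs
    have q1 := g1 T' e _ (fun _ => cu * (S + 1) ^ cu) (Pv.hyp (show Bx 13 e Ks ∈ T' from hSg))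
      (fun i hi => hu T' huT (e i) S ((size_le_SzE hi e).trans (hs13.trans zs)))
    rw [Gd_congr e3] at q1
    have q2 := g2 T' e' _ q1
    have q3 := g3 T' (cenv (cd K) t j c) _ (fun _ => cu * (S + 1) ^ cu)
      (show Pv T' s (Bx 9 (cenv (cd K) t j c) K) from hNd)
      (fun i hi => hu T' huT (cenv (cd K) t j c i) S (by
        rw [e4 i hi]
        exact szi (i + 4) (by omega)))
    rw [Gd_congr e4] at q3
    have q4 := g4 T' e' _ q3
    have q5 := hr T' hrT e' S ⟨hR, zS⟩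
    obtain ⟨A, hA⟩ : ∃ A : ℕ, A = (len (Bx 13 e Ks) + ∑ i ∈ Finset.range 13, cu * (S + 1) ^ cu +
      C1 * (1 + SzE 13 e) + C2 * (1 + SzE 18 e')) + (s + ∑ i ∈ Finset.range 9,
      cu * (S + 1) ^ cu + C3 * (1 + SzE 9 (cenv (cd K) t j c)) + C4 * (1 + SzE 18 e')) +
      cr * (S + 1) ^ cr := ⟨_, rfl⟩
    have q6 := g6 T' e' (fun _ => A) hΘT (by
      intro p hp
      simp only [List.mem_cons, List.not_mem_nil, or_false] at hp
      rcases hp with rfl | rfl | rfl
      · exact q2.mono (by omega)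
      · exact q4.mono (by omega)
      · exact q5.mono (by omega))
    have q7 := g7 T' e' _ (fun _ => cn * (S + 1) ^ cn) q6 (fun i _ hi =>
      hn T' hnT (e' i) S (szi i hi))
    have q8 := g8 T' e' _ (fun _ => cn * (S + 1) ^ cn) q7 (fun i hi =>
      hn T' hnT (e' i) S (szi i (by omega)))
    rw [USE_Con B' m e' e0 e1 e2] at q8
    refine q8.mono ?_
    -- the bound
    have t0 : S ≤ (D + 1) * (s + 1) ^ (D + 1) := by
      have h1 : s + 1 ≤ (s + 1) ^ (D + 1) := Nat.le_self_pow (Nat.succ_ne_zero D) _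
      have h2 : S ≤ (D + 1) * (s + 1) := by
        have h3 : (D + 1) * (s + 1) = D * (s + 1) + (s + 1) := by ring
        omega
      exact h2.trans (Nat.mul_le_mul_left _ h1)
    refine SGN_poly_comp (C := E) (t := S) ?_ t0
    have x1 : S + 1 ≤ (S + 1) ^ E := Nat.le_self_pow (by omega) _
    have x2 : (S + 1) ^ cu ≤ (S + 1) ^ E := Nat.pow_le_pow_right (Nat.succ_pos S) (by omega)
    have x3 : (S + 1) ^ cn ≤ (S + 1) ^ E := Nat.pow_le_pow_right (Nat.succ_pos S) (by omega)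
    have x4 : (S + 1) ^ cr ≤ (S + 1) ^ E := Nat.pow_le_pow_right (Nat.succ_pos S) (by omega)
    obtain ⟨X, hX⟩ : ∃ X, X = (S + 1) ^ E := ⟨_, rfl⟩
    rw [← hX] at x1 x2 x3 x4 ⊢
    have y1 : len (Bx 13 e Ks) ≤ C9 * X := z4.trans (Nat.mul_le_mul_left _ (by omega))
    have y2 : cu * (S + 1) ^ cu ≤ cu * X := Nat.mul_le_mul_left _ x2
    have y3 : cn * (S + 1) ^ cn ≤ cn * X := Nat.mul_le_mul_left _ x3
    have y4 : cr * (S + 1) ^ cr ≤ cr * X := Nat.mul_le_mul_left _ x4
    have y5 : C1 * (1 + SzE 13 e) ≤ C1 * X := Nat.mul_le_mul_left _ (by omega)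
    have y6 : C2 * (1 + SzE 18 e') ≤ C2 * X := Nat.mul_le_mul_left _ (by omega)
    have y7 : C3 * (1 + SzE 9 (cenv (cd K) t j c)) ≤ C3 * (10 * X) :=
      Nat.mul_le_mul_left _ (by omega)
    have y8 : C4 * (1 + SzE 18 e') ≤ C4 * X := Nat.mul_le_mul_left _ (by omega)
    have y9 : C6 * (1 + SzE 18 e') ≤ C6 * X := Nat.mul_le_mul_left _ (by omega)
    have y10 : C7 * (1 + SzE 18 e') ≤ C7 * X := Nat.mul_le_mul_left _ (by omega)
    have y11 : C8 * (1 + SzE 3 e') ≤ C8 * X := by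
      refine Nat.mul_le_mul_left _ ?_
      have : SzE 3 e' ≤ SzE 18 e' := by
        unfold SzE
        exact Finset.sum_le_sum_of_subset (Finset.range_subset_range.2 (by norm_num))
      omega
    simp only [List.map_cons, List.map_nil, List.sum_cons, List.sum_nil, add_zero,
      Finset.sum_const, Finset.card_range, Nat.card_Ico, smul_eq_mul] at hA ⊢
    have z10 : E * X = 3 * (C9 * X) + 66 * (cu * X) + 3 * (C1 * X) + 3 * (C2 * X) + 3 * X +
        3 * (C3 * (10 * X)) + 3 * (C4 * X) + 3 * (cr * X) + C6 * X + C7 * X + 18 * (cn * X) +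
        C8 * X + X := by
      rw [hE]; ring
    omega

end Pool.Agent.MycW
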