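import Pool.Agent.MycW.SigB

set_option autoImplicit false

/-! # MODULE SGT: the truth of safe sentences -/

namespace Pool.Agent.MycW

open Pool.Agent.Myc Pool.Agent.Myc.Fm

/-- MODULE SGT. If the node is true and the theory `b'` does not prove falsum in length `M` then the
sentence is true. HINT: `cd_inj`, `cdL_inj`; all numbers are determined. -/
theorem Sg_true (t j : ℕ) (c : Cfg) (N M : ℕ) (T : List AFm)
    (h : NodeR (cenv (cd K) t j c) →
      ¬ Proves {ψ | ψ ∈ Con (Sg t j c N M (cdL T) :: T) (2 ^ N) :: Sg t j c N M (cdL T) :: T} M bot)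
    (e : Env) : Sat NN (Sg t j c N M (cdL T)) e := by
  rw [sat_Sg]
  rintro hn q b b' hq ⟨ψ, T', h1, h2, h3⟩ ⟨T'', h4, h5⟩ ⟨T''', φ, h6, h7, h8⟩
  have hn' : NodeR (cenv (cd K) t j c) := by
    refine (Ar_node.ext fun i hi => ?_).1 hn
    simp only [senv, Nat.succ_ne_zero, if_false, Nat.add_sub_cancel]
    rw [if_pos (by omega)]
  refine h hn' ?_
  have e1 : ψ = Ks := cd_inj (by rw [← h1]; rfl)
  have e2 : T' = T := cdL_inj (by rw [← h2]; rfl)
  subst e1 e2
  have e3 : T'' = Sg t j c N M (cdL T') :: T' := cdL_inj (by rw [← h4, h3]; rfl)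
  subst e3
  have e4 : T''' = Con (Sg t j c N M (cdL T') :: T') q :: Sg t j c N M (cdL T') :: T' :=
    cdL_inj (by rw [← h6, h5])
  subst e4
  have e5 : φ = bot := cd_inj (by rw [← h7]; rfl)
  subst e5
  have e6 : q = 2 ^ N := hq
  rw [← e6]
  exact h8

end Pool.Agent.MycW
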