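import Pool.Agent.MycW.Dich
import Pool.Agent.MycW.Root
import Pool.Agent.MycW.Safe
import Pool.Agent.MycW.SigT
import Pool.Agent.MycW.SgUse
import Pool.Agent.MycW.MSound
import Pool.Agent.MycW.MSize
import Pool.Agent.MycW.MCode
import Pool.Agent.Myc.FinC

set_option autoImplicit false

/-! # MODULE FIN: the theorem -/

namespace Pool.Agent.MycW

open Pool.Agent.Myc Pool.Agent.Myc.Fm

/-! ### Polynomial bounds -/

/-- `f` is bounded by a power of `x`. -/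
def FPB {ι : Type} (x : ι → ℕ) (f : ι → ℕ) : Prop := ∃ c : ℕ, ∀ i, f i ≤ x i ^ c

section FPB

variable {ι : Type} {x : ι → ℕ} {f g : ι → ℕ}

theorem FPB.mono (h : FPB x g) (hf : ∀ i, f i ≤ g i) : FPB x f := by
  obtain ⟨c, hc⟩ := h
  exact ⟨c, fun i => (hf i).trans (hc i)⟩

theorem FPB.const (hx : ∀ i, 2 ≤ x i) (a : ℕ) : FPB x (fun _ => a) :=
  ⟨a, fun i => (Nat.lt_two_pow_self (n := a)).le.trans (Nat.pow_le_pow_left (hx i) a)⟩

theorem FPB.self : FPB x x := ⟨1, fun i => by simp⟩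

theorem FPB.add (hx : ∀ i, 2 ≤ x i) (hf : FPB x f) (hg : FPB x g) : FPB x (fun i => f i + g i) := by
  obtain ⟨a, ha⟩ := hf
  obtain ⟨b, hb⟩ := hg
  refine ⟨a + b + 1, fun i => ?_⟩
  have h1 : x i ^ a ≤ x i ^ (a + b) := Nat.pow_le_pow_right (by have := hx i; omega) (by omega)
  have h2 : x i ^ b ≤ x i ^ (a + b) := Nat.pow_le_pow_right (by have := hx i; omega) (by omega)
  have h3 : 2 * x i ^ (a + b) ≤ x i ^ (a + b + 1) := by
    rw [pow_succ, mul_comm]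
    exact Nat.mul_le_mul_left _ (hx i)
  have := ha i
  have := hb i
  show f i + g i ≤ x i ^ (a + b + 1)
  omega

theorem FPB.mul (hf : FPB x f) (hg : FPB x g) : FPB x (fun i => f i * g i) := by
  obtain ⟨a, ha⟩ := hf
  obtain ⟨b, hb⟩ := hg
  refine ⟨a + b, fun i => ?_⟩
  rw [pow_add]
  exact Nat.mul_le_mul (ha i) (hb i)

theorem FPB.pow (hf : FPB x f) (k : ℕ) : FPB x (fun i => f i ^ k) := by
  obtain ⟨a, ha⟩ := hf
  refine ⟨a * k, fun i => ?_⟩
  rw [pow_mul]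
  exact Nat.pow_le_pow_left (ha i) k

theorem FPB.poly (hx : ∀ i, 2 ≤ x i) (hf : FPB x f) (C : ℕ) :
    FPB x (fun i => C * (f i + 1) ^ C) :=
  (FPB.const hx C).mul (((hf.add hx (FPB.const hx 1))).pow C)

end FPB

/-! ### Sizes -/

theorem FIN_len_Con (T : List AFm) : ∃ c, ∀ n : ℕ, len (Con T (2 ^ n)) ≤ c * (n + 1) := by
  refine ⟨400 + ((encode (num (codeS (encodeL T)))).length + conS.length), fun n => ?_⟩
  rw [← length_encode, encode_Con, List.length_append, List.length_append,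
    length_encode (num (2 ^ n))]
  have h1 := len_num (2 ^ n)
  rw [Nat.size_pow] at h1
  have h2 : (encode (num (codeS (encodeL T)))).length + conS.length ≤
      ((encode (num (codeS (encodeL T)))).length + conS.length) * (n + 1) :=
    Nat.le_mul_of_pos_right _ (by omega)
  rw [add_mul]
  omega

theorem FIN_senv (t j : ℕ) (c : Cfg) (N M r : ℕ) :
    SzE 13 (senv t j c N M r) = Nat.size (cd Ks) + SzE 9 (cenv (cd K) t j c) + Nat.size N +
      Nat.size M + Nat.size r := by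
  simp [SzE, Finset.sum_range_succ, senv]
  ring

theorem FIN_size_pow (N k : ℕ) : Nat.size (N ^ k) ≤ k * Nat.size N + 1 := by
  rw [Nat.size_le]
  calc N ^ k ≤ (2 ^ Nat.size N) ^ k := Nat.pow_le_pow_left (Nat.lt_size_self N).le k
    _ = 2 ^ (k * Nat.size N) := by rw [← pow_mul, mul_comm]
    _ < 2 ^ (k * Nat.size N + 1) := Nat.pow_lt_pow_right (by norm_num) (by omega)

theorem FIN_size_le (n : ℕ) : Nat.size n ≤ n := Nat.size_le.2 Nat.lt_two_pow_self

theorem FIN_clog (x : ℕ) : 2 ^ Nat.clog 2 x ≤ 2 * x + 1 := by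
  rcases Nat.lt_or_ge 1 x with h | h
  · have h1 := Nat.pow_pred_clog_lt_self (b := 2) (by norm_num) h
    have h2 : 0 < Nat.clog 2 x := Nat.clog_pos (by norm_num) h
    obtain ⟨m, hm⟩ := Nat.exists_eq_succ_of_ne_zero h2.ne'
    rw [hm] at h1 ⊢
    simp only [Nat.pred_succ, Nat.succ_eq_add_one] at h1
    rw [pow_succ]
    omega
  · rw [Nat.clog_of_right_le_one h]
    simp

/-- The theorem. -/
theorem winwin : ∃ A : List AFm, (∀ φ ∈ Q, φ ∈ A) ∧ TrueL A ∧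
    ∀ T : List AFm, (∀ φ ∈ A, φ ∈ T) → TrueL T → ∃ S₀ : List AFm, TrueL S₀ ∧
      ∀ k : ℕ, ∃ c' : ℕ, ∀ k' : ℕ, ∃ c : ℕ, ∀ n N : ℕ,
        (∀ m ≤ n ^ k, Pv {ψ | ψ ∈ S₀ ++ T} ((n + N + 2) ^ c)
          (Con (Con (S₀ ++ T) (2 ^ n) :: (S₀ ++ T)) m)) ∨
        ∃ σ : AFm, Closed σ ∧ (∀ e, Sat NN σ e) ∧ len σ ≤ c * (n + Nat.size N + 2) ^ c' ∧
          ∀ m ≤ N ^ k', Pv {ψ | ψ ∈ σ :: T} ((n + N + 2) ^ c)
            (Con (Con (σ :: T) (2 ^ N) :: σ :: T) m) := by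
  obtain ⟨AxD, hAxD, CD, hD⟩ := dich
  obtain ⟨AxU, hAxU, CU, hU⟩ := sg_use
  obtain ⟨AQ, hQ1, hQ2, hQ3, -, -⟩ := Myc.main
  refine ⟨AQ ++ AxD ++ AxU, fun φ hφ => by simp [hQ1 φ hφ], ⟨?_, ?_⟩, ?_⟩
  · intro ψ hψ
    simp only [List.mem_append] at hψ
    rcases hψ with (h | h) | h
    · exact hQ2 ψ h
    · exact hAxD.1 ψ h
    · exact hAxU.1 ψ h
  · intro ψ hψ
    simp only [List.mem_append] at hψ
    rcases hψ with (h | h) | h
    · exact hQ3 ψ h
    · exact hAxD.2 ψ h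
    · exact hAxU.2 ψ h
  intro T hAT hT
  obtain ⟨Xi, hXc, hXt, CS, hS⟩ := safe T hT
  have hT1 : TrueL (Xi :: T) := ⟨fun ψ hψ => (List.mem_cons.1 hψ).elim (fun h => h ▸ hXc)
    (hT.1 ψ), fun ψ hψ => (List.mem_cons.1 hψ).elim (fun h => h ▸ hXt) (hT.2 ψ)⟩
  obtain ⟨R, hRc, hRt, CR, f, hR⟩ := root_use (Xi :: T) hT1
  have hA0 : TrueL (R :: Xi :: T) := ⟨fun ψ hψ => (List.mem_cons.1 hψ).elim (fun h => h ▸ hRc)
    (hT1.1 ψ), fun ψ hψ => (List.mem_cons.1 hψ).elim (fun h => h ▸ hRt) (hT1.2 ψ)⟩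
  refine ⟨[R, Xi], ⟨fun ψ hψ => hA0.1 ψ (by
    simp only [List.mem_cons, List.not_mem_nil, or_false] at hψ ⊢
    tauto), fun ψ hψ => hA0.2 ψ (by
    simp only [List.mem_cons, List.not_mem_nil, or_false] at hψ ⊢
    tauto)⟩, fun k => ?_⟩
  change ∃ c' : ℕ, ∀ k' : ℕ, ∃ c : ℕ, ∀ n N : ℕ,
        (∀ m ≤ n ^ k, Pv {ψ | ψ ∈ R :: Xi :: T} ((n + N + 2) ^ c)
          (Con (Con (R :: Xi :: T) (2 ^ n) :: (R :: Xi :: T)) m)) ∨
        ∃ σ : AFm, Closed σ ∧ (∀ e, Sat NN σ e) ∧ len σ ≤ c * (n + Nat.size N + 2) ^ c' ∧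
          ∀ m ≤ N ^ k', Pv {ψ | ψ ∈ σ :: T} ((n + N + 2) ^ c)
            (Con (Con (σ :: T) (2 ^ N) :: σ :: T) m)
  set T₁ := Xi :: T with hT₁
  set A₀ := R :: T₁ with hA₀
  obtain ⟨cC, hcC⟩ := FIN_len_Con A₀
  obtain ⟨cR, hcR⟩ := run_size
  obtain ⟨cB, hcB⟩ := len_Bx 13 Ks
  -- the data which depend on `n`
  let l : ℕ → List AFm := fun n => Con A₀ (2 ^ n) :: A₀
  let i : ℕ → ℕ := fun n => Nat.clog 2 (n ^ k)
  let J : ℕ → ℕ := fun n => 2 ^ (2 * i n + f)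
  -- the bound for the sizes of the numbers of the nodes
  let z0 : ℕ → ℕ := fun n => cC * (n + 1) + plen A₀ + 100
  let J' : ℕ → ℕ := fun n => 2 ^ f * (2 * n ^ k + 1) ^ 2
  let B₁ : ℕ → ℕ := fun n => Nat.size (cd K) + Nat.size (cdL T₁) + J' n +
    cR * (z0 n + J' n + 1) ^ cR + 10
  have hJ : ∀ n, J n ≤ J' n := by
    intro n
    have h1 := FIN_clog (n ^ k)
    have h2 : J n = 2 ^ f * (2 ^ i n) ^ 2 := by
      simp only [J]
      rw [pow_add, mul_comm 2 (i n), pow_mul, mul_comm]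
    rw [h2]
    exact Nat.mul_le_mul_left _ (Nat.pow_le_pow_left h1 2)
  have hcsz0 : ∀ n, csz (start (l n)) ≤ z0 n := by
    intro n
    have h1 := hcC n
    have h2 : csz (start (l n)) = len (Con A₀ (2 ^ n)) + plen A₀ + 8 := by
      simp [csz, start, l, plen, len]
    rw [h2]
    simp only [z0]
    omega
  have hB₁ : ∀ n (ms : List Mv), ms.length ≤ J n →
      SzE 9 (cenv (cd K) (cdL T₁) (J n - ms.length) (run ms (start (l n)))) ≤ B₁ n := by
    intro n ms hms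
    have h1 := SzE_cenv (cd K) (cdL T₁) (J n - ms.length) (run ms (start (l n)))
    have h2 := hcR ms (start (l n))
    have h3 : cR * (csz (start (l n)) + ms.length + 1) ^ cR ≤
        cR * (z0 n + J' n + 1) ^ cR :=
      Nat.mul_le_mul_left _ (Nat.pow_le_pow_left (by
        have := hcsz0 n
        have := hJ n
        omega) _)
    have h4 := FIN_size_le (J n - ms.length)
    have h5 := hJ n
    simp only [B₁]
    omega
  -- polynomial bounds in `n`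
  have hx1 : ∀ n : ℕ, 2 ≤ n + 2 := fun n => by omega
  have hn : FPB (fun n : ℕ => n + 2) (fun n => n) := FPB.self.mono fun n => by simp
  have hJp : FPB (fun n : ℕ => n + 2) J' :=
    (FPB.const hx1 _).mul (((((FPB.const hx1 2).mul (hn.pow k))).add hx1 (FPB.const hx1 1)).pow 2)
  have hz0 : FPB (fun n : ℕ => n + 2) z0 :=
    ((((FPB.const hx1 cC).mul (hn.add hx1 (FPB.const hx1 1)))).add hx1 (FPB.const hx1 _)).add hx1
      (FPB.const hx1 _)
  have hB₁p : FPB (fun n : ℕ => n + 2) B₁ :=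
    ((((FPB.const hx1 _).add hx1 (FPB.const hx1 _)).add hx1 hJp).add hx1
      ((hz0.add hx1 hJp).poly hx1 cR)).add hx1 (FPB.const hx1 10)
  obtain ⟨c₁, hc₁⟩ := hB₁p
  refine ⟨c₁ + 1, fun k' => ?_⟩
  -- the data which depend on `n` and `N`
  let B₂ : ℕ × ℕ → ℕ := fun p => Nat.size (cd Ks) + B₁ p.1 + Nat.size p.2 +
    (k' * Nat.size p.2 + 1) + Nat.size (cdL T)
  let s₀ : ℕ × ℕ → ℕ := fun p => B₂ p + (p.2 + 1) + p.2 ^ k'
  let s : ℕ × ℕ → ℕ := fun p => B₁ p.1 + CS * (s₀ p + 1) ^ CS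
  let s₂ : ℕ × ℕ → ℕ := fun p => CD * (s p + 1) ^ CD + (B₂ p + p.2)
  let r₁ : ℕ × ℕ → ℕ := fun p => CR * (s p + 1) ^ CR
  let r₂ : ℕ × ℕ → ℕ := fun p => CU * (s₂ p + 1) ^ CU
  have hx : ∀ p : ℕ × ℕ, 2 ≤ p.1 + p.2 + 2 := fun p => by omega
  have hp1 : FPB (fun p : ℕ × ℕ => p.1 + p.2 + 2) (fun p => p.1) := FPB.self.mono fun p => by
    show p.1 ≤ p.1 + p.2 + 2
    omega
  have hp2 : FPB (fun p : ℕ × ℕ => p.1 + p.2 + 2) (fun p => p.2) := FPB.self.mono fun p => by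
    show p.2 ≤ p.1 + p.2 + 2
    omega
  have hsz2 : FPB (fun p : ℕ × ℕ => p.1 + p.2 + 2) (fun p => Nat.size p.2) :=
    hp2.mono fun p => FIN_size_le p.2
  have hb1 : FPB (fun p : ℕ × ℕ => p.1 + p.2 + 2) (fun p => B₁ p.1) :=
    ⟨c₁, fun p => (hc₁ p.1).trans (Nat.pow_le_pow_left (by
      show p.1 + 2 ≤ p.1 + p.2 + 2
      omega) _)⟩
  have hb2 : FPB (fun p : ℕ × ℕ => p.1 + p.2 + 2) B₂ :=
    ((((FPB.const hx _).add hx hb1).add hx hsz2).add hx
      (((FPB.const hx k').mul hsz2).add hx (FPB.const hx 1))).add hx (FPB.const hx _)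
  have hs0 : FPB (fun p : ℕ × ℕ => p.1 + p.2 + 2) s₀ :=
    (hb2.add hx (hp2.add hx (FPB.const hx 1))).add hx (hp2.pow k')
  have hs : FPB (fun p : ℕ × ℕ => p.1 + p.2 + 2) s := hb1.add hx (hs0.poly hx CS)
  have hs2 : FPB (fun p : ℕ × ℕ => p.1 + p.2 + 2) s₂ :=
    (hs.poly hx CD).add hx (hb2.add hx hp2)
  obtain ⟨d₁, hd₁⟩ := hs.poly hx CR
  obtain ⟨d₂, hd₂⟩ := hs2.poly hx CU
  -- the constant for the length of the sentence
  let e₀ : ℕ := Nat.size (cd Ks) + 1 + (k' + 1) + Nat.size (cdL T) + 1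
  refine ⟨d₁ + d₂ + cB * (e₀ + 1), fun n N => ?_⟩
  have hd1 : r₁ (n, N) ≤ (n + N + 2) ^ (d₁ + d₂ + cB * (e₀ + 1)) :=
    (hd₁ (n, N)).trans (Nat.pow_le_pow_right (by
      show 0 < n + N + 2
      omega) (by omega))
  have hd2 : r₂ (n, N) ≤ (n + N + 2) ^ (d₁ + d₂ + cB * (e₀ + 1)) :=
    (hd₂ (n, N)).trans (Nat.pow_le_pow_right (by
      show 0 < n + N + 2
      omega) (by omega))
  -- reachable configurations
  have hTl : TrueL (l n) := ⟨fun ψ hψ => (List.mem_cons.1 hψ).elim (fun h => by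
      rw [h]
      exact Con_closed _ _) (hA0.1 ψ), fun ψ hψ e => (List.mem_cons.1 hψ).elim (fun h => by
      rw [h, sat_Con]
      exact consistent_of_model NN (T := {ψ | ψ ∈ A₀}) hA0.2 _) (fun h => hA0.2 ψ h e)⟩
  have hreach : ∀ ms : List Mv, ms.length ≤ J n →
      (run ms (start (l n))).L ≠ [] ∧ (run ms (start (l n))).L.headD bot ≠ bot ∧
        SzE 9 (cenv (cd K) (cdL T₁) (J n - ms.length) (run ms (start (l n)))) ≤ s (n, N) := by
    intro ms hms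
    have h1 := sound_run (sound_start (l n) (by simp [l])) ms
    refine ⟨h1.1, sound_ne h1 hTl.2, (hB₁ n ms hms).trans ?_⟩
    exact Nat.le_add_right _ _
  rcases hD {ψ | ψ ∈ T} (fun ψ hψ => hAT ψ (by simp [hψ])) T₁ (s (n, N)) (J n) (start (l n))
    hreach with h | ⟨ms, hms, hno, hyes⟩
  · -- the root is provable
    left
    intro m hm
    have h1 := hR {ψ | ψ ∈ A₀} (by simp [hA₀]) (l n) (i n) m (s (n, N)) (by simp [l, hA₀])
      (hm.trans (Nat.le_pow_clog (by norm_num) _)) (by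
        have := (hreach [] (Nat.zero_le _)).2.2
        simpa [run] using this) (h.weaken fun ψ hψ => by
          simp only [Set.mem_ofPred_eq, hA₀, List.mem_cons] at hψ ⊢
          exact Or.inr hψ)
    exact h1.mono hd1
  · -- a safe sentence
    right
    set t := cdL T₁ with ht
    set j := J n - ms.length with hj
    set c := run ms (start (l n)) with hc
    have hsz : SzE 13 (senv t j c N (N ^ k') (cdL T)) ≤ B₂ (n, N) := by
      rw [FIN_senv]
      have h1 : SzE 9 (cenv (cd K) t j c) ≤ B₁ n := hB₁ n ms hms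
      have h2 := FIN_size_pow N k'
      simp only [B₂]
      omega
    have hsafe : ¬ Proves {ψ | ψ ∈ Con (Sg t j c N (N ^ k') (cdL T) :: T) (2 ^ N) ::
        Sg t j c N (N ^ k') (cdL T) :: T} (N ^ k') bot := by
      intro hp
      rw [proves_iff] at hp
      have h1 := hS {ψ | ψ ∈ T₁} (fun ψ hψ => by simp [hT₁, hψ]) (by simp [hT₁]) t j c N (N ^ k')
        (2 ^ N) (s₀ (n, N)) (by
          rw [Nat.size_pow]
          simp only [s₀]
          omega) (hp.mono (by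
          simp only [s₀]
          omega))
      exact hno (h1.mono (Nat.le_add_left _ _))
    refine ⟨Sg t j c N (N ^ k') (cdL T), closed_Sg _ _ _ _ _ _,
      Sg_true t j c N (N ^ k') T fun _ => hsafe, ?_, ?_⟩
    · have h1 := hcB (senv t j c N (N ^ k') (cdL T))
      have h2 : B₁ n ≤ (n + Nat.size N + 2) ^ (c₁ + 1) :=
        (hc₁ n).trans ((Nat.pow_le_pow_left (show n + 2 ≤ n + Nat.size N + 2 by omega) _).trans
          (Nat.pow_le_pow_right (by omega) (Nat.le_succ _)))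
      have h3 : Nat.size N + 1 ≤ (n + Nat.size N + 2) ^ (c₁ + 1) :=
        (show Nat.size N + 1 ≤ n + Nat.size N + 2 by omega).trans
          (Nat.le_self_pow (Nat.succ_ne_zero _) _)
      have h4 : 1 ≤ (n + Nat.size N + 2) ^ (c₁ + 1) := Nat.one_le_pow _ _ (by omega)
      set X := (n + Nat.size N + 2) ^ (c₁ + 1) with hX
      have h5 : B₂ (n, N) + 1 ≤ (e₀ + 1) * X := by
        have h6 : Nat.size (cd Ks) ≤ Nat.size (cd Ks) * X := Nat.le_mul_of_pos_right _ h4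
        have h7 : Nat.size (cdL T) ≤ Nat.size (cdL T) * X := Nat.le_mul_of_pos_right _ h4
        have h8 : (k' + 1) * (Nat.size N + 1) ≤ (k' + 1) * X := Nat.mul_le_mul_left _ h3
        simp only [B₂, e₀]
        nlinarith
      calc len (Sg t j c N (N ^ k') (cdL T)) ≤ cB * (SzE 13 (senv t j c N (N ^ k') (cdL T)) + 1) :=
            h1
        _ ≤ cB * ((e₀ + 1) * X) := Nat.mul_le_mul_left _ ((Nat.succ_le_succ hsz).trans h5)
        _ = (cB * (e₀ + 1)) * X := by ring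
        _ ≤ _ := Nat.mul_le_mul_right _ (by omega)
    · intro m hm
      have h1 := hU T {ψ | ψ ∈ Sg t j c N (N ^ k') (cdL T) :: T} (fun ψ hψ => by
          simp only [Set.mem_ofPred_eq, List.mem_cons]
          exact Or.inr (hAT ψ (by simp [hψ]))) t j c N (N ^ k') m (s₂ (n, N)) (by
          simp only [s₂]
          omega) hm ((hyes.weaken fun ψ hψ => by
            simp only [Set.mem_ofPred_eq, List.mem_cons] at hψ ⊢
            exact Or.inr hψ).mono (Nat.le_add_right _ _)) (by simp)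
      exact h1.mono hd2

end Pool.Agent.MycW
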