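import Pool.Agent.MycW.Fin

set_option autoImplicit false

/-! # Two consequences of the theorem -/

namespace Pool.Agent.MycW

open Pool.Agent.Myc Pool.Agent.Myc.Fm

/-- The theory `T` proves `Con_{T + Con_T (2 ^ n)} (m)` in length `(n + 2) ^ c`, for all
`m ≤ n ^ k`. -/
def Works (T : List AFm) (n k c : ℕ) : Prop :=
  ∀ m ≤ n ^ k, Proves {ψ | ψ ∈ T} ((n + 2) ^ c) (Con (Con T (2 ^ n) :: T) m)

theorem Works.mono {T : List AFm} {n k c d : ℕ} (h : Works T n k c) (hd : c ≤ d) :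
    Works T n k d := by
  intro m hm
  obtain ⟨l, h1, h2⟩ := h m hm
  exact ⟨l, h1, h2.trans (Nat.pow_le_pow_right (by omega) hd)⟩

theorem FIN_works_a {T : List AFm} {n N k c q : ℕ} (hN : N ≤ (n + 1) ^ q)
    (h : ∀ m ≤ n ^ k, Pv {ψ | ψ ∈ T} ((n + N + 2) ^ c) (Con (Con T (2 ^ n) :: T) m)) :
    Works T n k ((q + 2) * c) := by
  intro m hm
  rw [proves_iff]
  refine (h m hm).mono ?_
  rw [pow_mul]
  refine Nat.pow_le_pow_left ?_ c
  have h1 : (n + 1) ^ q ≤ (n + 2) ^ q := Nat.pow_le_pow_left (by omega) q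
  have h2 : 1 ≤ (n + 2) ^ q := Nat.one_le_pow _ _ (by omega)
  have h3 : (n + 1) * 1 ≤ (n + 1) * (n + 2) ^ q := Nat.mul_le_mul_left _ h2
  have h4 : (n + 2) ^ (q + 2) = (n + 2) * ((n + 2) ^ q + (n + 1) * (n + 2) ^ q) := by ring
  have h5 : 2 * ((n + 2) ^ q + (n + 1) * (n + 2) ^ q) ≤
      (n + 2) * ((n + 2) ^ q + (n + 1) * (n + 2) ^ q) := Nat.mul_le_mul_right _ (by omega)
  rw [h4]
  omega

theorem FIN_works_b {T : List AFm} {n N k c : ℕ} (hn : n ≤ N + 1)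
    (h : ∀ m ≤ N ^ k, Pv {ψ | ψ ∈ T} ((n + N + 2) ^ c) (Con (Con T (2 ^ N) :: T) m)) :
    Works T N k (2 * c) := by
  intro m hm
  rw [proves_iff]
  refine (h m hm).mono ?_
  rw [pow_mul]
  refine Nat.pow_le_pow_left ?_ c
  nlinarith

/-- The `q`-th root. -/
theorem FIN_root (q N : ℕ) (hq : 0 < q) : ∃ n, n ^ q ≤ N ∧ N < (n + 1) ^ q := by
  induction N with
  | zero => exact ⟨0, by simp [hq.ne'], by simp⟩
  | succ N ih =>
    obtain ⟨n, h1, h2⟩ := ih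
    rcases Nat.lt_or_ge (N + 1) ((n + 1) ^ q) with h | h
    · exact ⟨n, by omega, h⟩
    · refine ⟨n + 1, h, ?_⟩
      have h3 : (n + 1) ^ q < (n + 1 + 1) ^ q := Nat.pow_lt_pow_left (by omega) hq.ne'
      omega

theorem FIN_size (n q : ℕ) : Nat.size ((n + 1) ^ q) ≤ q * (n + 1) + 1 :=
  (FIN_size_pow (n + 1) q).trans (by
    have := FIN_size_le (n + 1)
    have := Nat.mul_le_mul_left q this
    omega)

/-- For large `n` a polynomial of degree `d` is at most `n ^ (d + 1)`. -/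
theorem FIN_large (c a d : ℕ) : ∃ n₀, ∀ n ≥ n₀, c * (a * (n + 2)) ^ d ≤ n ^ (d + 1) := by
  refine ⟨c * (a * 3) ^ d + 1, fun n hn => ?_⟩
  have h1 : n + 2 ≤ 3 * n := by omega
  calc c * (a * (n + 2)) ^ d ≤ c * (a * (3 * n)) ^ d :=
        Nat.mul_le_mul_left _ (Nat.pow_le_pow_left (Nat.mul_le_mul_left _ h1) _)
    _ = (c * (a * 3) ^ d) * n ^ d := by rw [← mul_assoc a, mul_pow, ← mul_assoc]
    _ ≤ n * n ^ d := Nat.mul_le_mul_right _ (by omega)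
    _ = n ^ (d + 1) := by ring

theorem FIN_pow (n d : ℕ) : (n + 2) ^ d ≤ 2 ^ d * 2 ^ d * (n ^ (d + 1) + 1) := by
  have h1 : (n + 2) ^ d ≤ 2 ^ d * (n + 1) ^ d := by
    rw [← mul_pow]
    exact Nat.pow_le_pow_left (by omega) d
  have h2 : (n + 1) ^ d ≤ 2 ^ d * (n ^ (d + 1) + 1) := by
    rcases Nat.eq_zero_or_pos n with rfl | hn
    · simp [Nat.one_le_two_pow]
    · calc (n + 1) ^ d ≤ (2 * n) ^ d := Nat.pow_le_pow_left (by omega) d
        _ = 2 ^ d * n ^ d := mul_pow _ _ _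
        _ ≤ 2 ^ d * (n ^ (d + 1) + 1) := Nat.mul_le_mul_left _
            ((Nat.pow_le_pow_right hn (Nat.le_succ d)).trans (Nat.le_succ _))
  calc (n + 2) ^ d ≤ 2 ^ d * (n + 1) ^ d := h1
    _ ≤ 2 ^ d * (2 ^ d * (n ^ (d + 1) + 1)) := Nat.mul_le_mul_left _ h2
    _ = _ := by ring

theorem FIN_two_pow_size (N : ℕ) : 2 ^ Nat.size N ≤ 2 * N + 1 := by
  rcases Nat.eq_zero_or_pos N with rfl | hN
  · simp
  · have h1 : 0 < Nat.size N := Nat.size_pos.2 hN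
    obtain ⟨m, hm⟩ := Nat.exists_eq_succ_of_ne_zero h1.ne'
    have h2 : 2 ^ m ≤ N := Nat.lt_size.1 (by omega)
    rw [hm, Nat.succ_eq_add_one, pow_succ]
    omega

theorem FIN_pow_le_two_pow (d s : ℕ) : s ^ d ≤ (d + 1) ^ d * 2 ^ s := by
  rcases Nat.eq_zero_or_pos d with rfl | hd
  · simp [Nat.one_le_two_pow]
  · have h1 : s ≤ (d + 1) * 2 ^ (s / d) := by
      have h2 : s < d * (s / d + 1) := Nat.lt_mul_div_succ s hd
      have h3 : s / d + 1 ≤ 2 ^ (s / d) := Nat.lt_two_pow_self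
      calc s ≤ d * (s / d + 1) := h2.le
        _ ≤ (d + 1) * 2 ^ (s / d) := Nat.mul_le_mul (Nat.le_succ d) h3
    calc s ^ d ≤ ((d + 1) * 2 ^ (s / d)) ^ d := Nat.pow_le_pow_left h1 d
      _ = (d + 1) ^ d * 2 ^ (s / d * d) := by rw [mul_pow, ← pow_mul]
      _ ≤ (d + 1) ^ d * 2 ^ s := Nat.mul_le_mul_left _ (Nat.pow_le_pow_right (by norm_num)
          (Nat.div_mul_le_self s d))

theorem FIN_add_pow (x y d : ℕ) : (x + y) ^ d ≤ 2 ^ d * (x ^ d + y ^ d) := by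
  rcases le_total x y with h | h
  · calc (x + y) ^ d ≤ (2 * y) ^ d := Nat.pow_le_pow_left (by omega) d
      _ = 2 ^ d * y ^ d := mul_pow _ _ _
      _ ≤ _ := Nat.mul_le_mul_left _ (Nat.le_add_left _ _)
  · calc (x + y) ^ d ≤ (2 * x) ^ d := Nat.pow_le_pow_left (by omega) d
      _ = 2 ^ d * x ^ d := mul_pow _ _ _
      _ ≤ _ := Nat.mul_le_mul_left _ (Nat.le_add_right _ _)

theorem FIN_mix (d : ℕ) : ∃ C, ∀ n N : ℕ, n ^ (d + 1) ≤ N →
    (n + Nat.size N + 2) ^ d ≤ C * (N + 1) := by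
  refine ⟨2 ^ d * (2 ^ d * 2 ^ d + (d + 1) ^ d * 4), fun n N h => ?_⟩
  have h1 : (n + 2) ^ d ≤ 2 ^ d * 2 ^ d * (N + 1) :=
    (FIN_pow n d).trans (Nat.mul_le_mul_left _ (Nat.succ_le_succ h))
  have h2 : (Nat.size N) ^ d ≤ (d + 1) ^ d * (4 * (N + 1)) :=
    (FIN_pow_le_two_pow d _).trans (Nat.mul_le_mul_left _ ((FIN_two_pow_size N).trans (by omega)))
  calc (n + Nat.size N + 2) ^ d = (n + 2 + Nat.size N) ^ d := by ring_nf
    _ ≤ 2 ^ d * ((n + 2) ^ d + (Nat.size N) ^ d) := FIN_add_pow _ _ _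
    _ ≤ 2 ^ d * (2 ^ d * 2 ^ d * (N + 1) + (d + 1) ^ d * (4 * (N + 1))) :=
        Nat.mul_le_mul_left _ (Nat.add_le_add h1 h2)
    _ = _ := by ring

/-- The form of the theorem with `n ^ q ≤ N`. -/
theorem final2 : ∃ A : List AFm, (∀ φ ∈ Q, φ ∈ A) ∧ TrueL A ∧
    ∀ T : List AFm, (∀ φ ∈ A, φ ∈ T) → TrueL T →
    ∃ T₀ : List AFm, (∀ φ ∈ T, φ ∈ T₀) ∧ TrueL T₀ ∧
      ∀ k r : ℕ, ∃ c q : ℕ, ∀ n N : ℕ, n ^ q ≤ N →
        (∀ m ≤ n ^ k, Proves {ψ | ψ ∈ T₀} ((N + 2) ^ c) (Con (Con T₀ (2 ^ n) :: T₀) m)) ∨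
        ∃ σ : AFm, Closed σ ∧ (∀ e, Sat NN σ e) ∧ (encode σ).length ^ r ≤ c * (N + 1) ∧
          ∀ m ≤ N ^ k, Proves {ψ | ψ ∈ σ :: T} ((N + 2) ^ c)
            (Con (Con (σ :: T) (2 ^ N) :: σ :: T) m) := by
  obtain ⟨A, h1, h2, h3⟩ := winwin
  refine ⟨A, h1, h2, fun T hA hT => ?_⟩
  obtain ⟨S₀, hS₀, h4⟩ := h3 T hA hT
  refine ⟨S₀ ++ T, fun φ hφ => by simp [hφ], ⟨fun ψ hψ => (List.mem_append.1 hψ).elim (hS₀.1 ψ)
    (hT.1 ψ), fun ψ hψ => (List.mem_append.1 hψ).elim (hS₀.2 ψ) (hT.2 ψ)⟩, fun k r => ?_⟩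
  obtain ⟨c', h5⟩ := h4 k
  obtain ⟨c, h6⟩ := h5 k
  obtain ⟨C, hC⟩ := FIN_mix (c' * r)
  have hle : ∀ n N : ℕ, n ^ (c' * r + 1) ≤ N → (n + N + 2) ^ c ≤ (N + 2) ^ (2 * c + c ^ r * C) := by
    intro n N hnN
    have h7 : n ≤ N := (Nat.le_self_pow (by omega) n).trans hnN
    calc (n + N + 2) ^ c ≤ ((N + 2) ^ 2) ^ c := Nat.pow_le_pow_left (by nlinarith) c
      _ = (N + 2) ^ (2 * c) := by rw [← pow_mul]
      _ ≤ _ := Nat.pow_le_pow_right (by omega) (by omega)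
  refine ⟨2 * c + c ^ r * C, c' * r + 1, fun n N hnN => ?_⟩
  rcases h6 n N with ha | ⟨σ, hσ1, hσ2, hσ3, hσ4⟩
  · left
    intro m hm
    rw [proves_iff]
    exact (ha m hm).mono (hle n N hnN)
  · right
    refine ⟨σ, hσ1, hσ2, ?_, fun m hm => ?_⟩
    · rw [length_encode]
      calc len σ ^ r ≤ (c * (n + Nat.size N + 2) ^ c') ^ r := Nat.pow_le_pow_left hσ3 r
        _ = c ^ r * (n + Nat.size N + 2) ^ (c' * r) := by rw [mul_pow, ← pow_mul]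
        _ ≤ c ^ r * (C * (N + 1)) := Nat.mul_le_mul_left _ (hC n N hnN)
        _ = (c ^ r * C) * (N + 1) := by ring
        _ ≤ _ := Nat.mul_le_mul_right _ (by omega)
    · rw [proves_iff]
      exact (hσ4 m hm).mono (hle n N hnN)

theorem final : ∃ A : List AFm, (∀ φ ∈ Q, φ ∈ A) ∧ TrueL A ∧
    ∀ T : List AFm, (∀ φ ∈ A, φ ∈ T) → TrueL T → ∃ S₀ : List AFm, TrueL S₀ ∧
      ∀ k r : ℕ,
        ((∃ c, ∀ n₀, ∃ n ≥ n₀, Works (S₀ ++ T) n k c) ∨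
          ∃ c n₀, ∀ n ≥ n₀, ∃ σ : AFm, TrueL [σ] ∧ (encode σ).length ^ r ≤ n ∧
            Works (σ :: T) n k c) ∧
        ∃ c q, 0 < q ∧ ∀ n, ∃ N, (N = n ∨ N = n ^ q) ∧ ∃ S : List AFm, TrueL S ∧
          (encodeL S).length ^ r ≤ c * (N + 1) ∧ Works (S ++ T) N k c := by
  obtain ⟨A, h1, h2, h3⟩ := winwin
  refine ⟨A, h1, h2, fun T hA hT => ?_⟩
  obtain ⟨S₀, hS₀, h4⟩ := h3 T hA hT
  refine ⟨S₀, hS₀, fun k r => ?_⟩
  obtain ⟨c', h5⟩ := h4 k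
  obtain ⟨c, h6⟩ := h5 k
  set q := c' * r + 1 with hq
  constructor
  · by_contra hcon
    push Not at hcon
    obtain ⟨hc1, hc2⟩ := hcon
    obtain ⟨n₁, hn₁⟩ := hc1 ((q + 2) * c)
    obtain ⟨n₂, hn₂⟩ := FIN_large (c ^ r) (q + 3) (c' * r)
    obtain ⟨N, hN, hno⟩ := hc2 (2 * c) ((n₁ + n₂ + 1) ^ q)
    obtain ⟨n, hn1, hn2⟩ := FIN_root q N (by omega)
    have hn3 : n₁ + n₂ ≤ n := by
      by_contra hlt
      have : (n + 1) ^ q ≤ (n₁ + n₂ + 1) ^ q := Nat.pow_le_pow_left (by omega) q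
      omega
    rcases h6 n N with ha | ⟨σ, hσ1, hσ2, hσ3, hσ4⟩
    · exact hn₁ n (by omega) (FIN_works_a hn2.le ha)
    · refine hno σ ⟨by simpa using hσ1, by simpa using hσ2⟩ ?_ (FIN_works_b ?_ hσ4)
      · rw [length_encode]
        have hsz : Nat.size N ≤ q * (n + 1) + 1 :=
          (Nat.size_le_size hn2.le).trans (FIN_size n q)
        have h7 : n + Nat.size N + 2 ≤ (q + 3) * (n + 2) := by
          nlinarith
        calc len σ ^ r ≤ (c * (n + Nat.size N + 2) ^ c') ^ r := Nat.pow_le_pow_left hσ3 r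
          _ ≤ (c * ((q + 3) * (n + 2)) ^ c') ^ r :=
              Nat.pow_le_pow_left (Nat.mul_le_mul_left _ (Nat.pow_le_pow_left h7 _)) r
          _ = c ^ r * ((q + 3) * (n + 2)) ^ (c' * r) := by rw [mul_pow, ← pow_mul]
          _ ≤ n ^ (c' * r + 1) := hn₂ n (by omega)
          _ ≤ N := hn1
      · have : n ≤ n ^ q := Nat.le_self_pow (by omega) n
        omega
  · refine ⟨(q + 2) * c + 2 * c + (encodeL S₀).length ^ r + c ^ r * (2 * (q + 3)) ^ (c' * r) *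
      2 ^ (c' * r), q, by omega, fun n => ?_⟩
    rcases h6 n (n ^ q) with ha | ⟨σ, hσ1, hσ2, hσ3, hσ4⟩
    · refine ⟨n, Or.inl rfl, S₀, hS₀, ?_, (FIN_works_a (Nat.pow_le_pow_left (by omega) q) ha).mono
        (by omega)⟩
      calc (encodeL S₀).length ^ r ≤ (encodeL S₀).length ^ r * (n + 1) :=
            Nat.le_mul_of_pos_right _ (Nat.succ_pos n)
        _ ≤ _ := Nat.mul_le_mul_right _ (by omega)
    · refine ⟨n ^ q, Or.inr rfl, [σ], ⟨by simpa using hσ1, by simpa using hσ2⟩, ?_,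
        (FIN_works_b ?_ hσ4).mono (by omega)⟩
      · have e1 : (encodeL [σ]).length = len σ := by simp [encodeL, length_encode]
        rw [e1]
        have hsz : Nat.size (n ^ q) ≤ q * (n + 1) + 1 :=
          (Nat.size_le_size (Nat.pow_le_pow_left (Nat.le_succ n) q)).trans (FIN_size n q)
        have h7 : n + Nat.size (n ^ q) + 2 ≤ (q + 3) * (n + 2) := by
          nlinarith
        have h8 : (n + 2) ^ (c' * r) ≤ 2 ^ (c' * r) * 2 ^ (c' * r) * (n ^ q + 1) :=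
          FIN_pow n (c' * r)
        calc len σ ^ r ≤ (c * (n + Nat.size (n ^ q) + 2) ^ c') ^ r := Nat.pow_le_pow_left hσ3 r
          _ ≤ (c * ((q + 3) * (n + 2)) ^ c') ^ r :=
              Nat.pow_le_pow_left (Nat.mul_le_mul_left _ (Nat.pow_le_pow_left h7 _)) r
          _ = c ^ r * ((q + 3) * (n + 2)) ^ (c' * r) := by rw [mul_pow, ← pow_mul]
          _ = c ^ r * (q + 3) ^ (c' * r) * (n + 2) ^ (c' * r) := by rw [mul_pow, mul_assoc]
          _ ≤ c ^ r * (q + 3) ^ (c' * r) * (2 ^ (c' * r) * 2 ^ (c' * r) * (n ^ q + 1)) :=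
              Nat.mul_le_mul_left _ h8
          _ = (c ^ r * (2 * (q + 3)) ^ (c' * r) * 2 ^ (c' * r)) * (n ^ q + 1) := by
              rw [mul_pow]; ring
          _ ≤ _ := Nat.mul_le_mul_right _ (by omega)
      · have : n ≤ n ^ q := Nat.le_self_pow (by omega) n
        omega

end Pool.Agent.MycW
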