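import Pool.Agent.MycW.Mach

set_option autoImplicit false

/-! # MODULE MBUILD: building formulas; rotations -/

namespace Pool.Agent.MycW

open Pool.Agent.Myc Pool.Agent.Myc.Fm

theorem MBUILD_append (ms ms' : List Mv) (c : Cfg) : run (ms ++ ms') c = run ms' (run ms c) := by
  unfold run
  rw [List.foldl_append]

theorem MBUILD_incr (n : ℕ) (c : Cfg) :
    run (List.replicate n Mv.incr) c = { c with x := c.x + n } := by
  induction n generalizing c with
  | zero => rfl
  | succ n ih =>
    rw [List.replicate_succ]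
    change run (List.replicate n Mv.incr) (step Mv.incr c) = _
    rw [ih]
    change ({ c with x := c.x + 1 + n } : Cfg) = { c with x := c.x + (n + 1) }
    rw [show c.x + 1 + n = c.x + (n + 1) by omega]

/-- Set the variables. -/
theorem MBUILD_set (c : Cfg) (p q r : ℕ) : ∃ ms : List Mv, ms.length = p + q + r + 3 ∧
    run ms c = { c with x := p, y := q, z := r } := by
  refine ⟨[Mv.shift] ++ (List.replicate r Mv.incr ++ ([Mv.shift] ++ (List.replicate q Mv.incr ++
    ([Mv.shift] ++ List.replicate p Mv.incr)))), ?_, ?_⟩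
  · simp only [List.length_append, List.length_replicate, List.length_singleton]
    omega
  · rw [MBUILD_append, MBUILD_append, MBUILD_append, MBUILD_append, MBUILD_append, MBUILD_incr,
      MBUILD_incr, MBUILD_incr]
    simp only [run, List.foldl_cons, List.foldl_nil, step, Nat.zero_add]

theorem MBUILD_rel (c : Cfg) (p q r : ℕ) (m : Mv) (φ : AFm)
    (hm : ∀ c' : Cfg, c'.x = p → c'.y = q → c'.z = r → step m c' = { c' with W := φ :: c'.W }) :
    ∃ (ms : List Mv) (x y z : ℕ), ms.length = p + q + r + 4 ∧
      run ms c = { c with W := φ :: c.W, x := x, y := y, z := z } := by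
  obtain ⟨ms, h1, h2⟩ := MBUILD_set c p q r
  refine ⟨ms ++ [m], p, q, r, ?_, ?_⟩
  · rw [List.length_append, h1, List.length_singleton]
  · rw [MBUILD_append, h2]
    change step m _ = _
    rw [hm _ rfl rfl rfl]

/-- MODULE MBUILD. Any formula can be put on the top of the stack. HINT: induction on `φ`; first
set the variables (`shift` and `incr`). -/
theorem build (φ : AFm) (c : Cfg) : ∃ (ms : List Mv) (x y z : ℕ), ms.length ≤ 4 * len φ ∧
    run ms c = { c with W := φ :: c.W, x := x, y := y, z := z } := by
  induction φ generalizing c with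
  | bot => exact ⟨[Mv.mbot], c.x, c.y, c.z, by simp [len], rfl⟩
  | eq i j =>
    obtain ⟨ms, x, y, z, h1, h2⟩ := MBUILD_rel c i j 0 Mv.meq (eq i j) (by
      intro c' hx hy _
      simp only [step, hx, hy])
    refine ⟨ms, x, y, z, ?_, h2⟩
    rw [h1]
    simp only [len]
    omega
  | rel r v =>
    cases r with
    | zero =>
      have hv : (rel AR.zero v : AFm) = zeroA (v (0 : Fin 1)) := by
        unfold zeroA
        congr 1
        funext k
        fin_cases k
        rfl
      obtain ⟨ms, x, y, z, h1, h2⟩ := MBUILD_rel c (v (0 : Fin 1)) 0 0 Mv.mzero (rel AR.zero v) (by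
        intro c' hx _ _
        simp only [step, hx, hv])
      refine ⟨ms, x, y, z, ?_, h2⟩
      rw [h1]
      have : len (rel AR.zero v : AFm) = (∑ k : Fin 1, (v k + 2)) + 4 := rfl
      rw [this, Fin.sum_univ_one]
      omega
    | succ =>
      have hv : (rel AR.succ v : AFm) = succA (v (0 : Fin 2)) (v (1 : Fin 2)) := by
        unfold succA
        congr 1
        funext k
        fin_cases k <;> rfl
      obtain ⟨ms, x, y, z, h1, h2⟩ := MBUILD_rel c (v (0 : Fin 2)) (v (1 : Fin 2)) 0 Mv.msucc
        (rel AR.succ v) (by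
        intro c' hx hy _
        simp only [step, hx, hy, hv])
      refine ⟨ms, x, y, z, ?_, h2⟩
      rw [h1]
      have : len (rel AR.succ v : AFm) = (∑ k : Fin 2, (v k + 2)) + 4 := rfl
      rw [this, Fin.sum_univ_two]
      omega
    | add =>
      have hv : (rel AR.add v : AFm) = addA (v (0 : Fin 3)) (v (1 : Fin 3)) (v (2 : Fin 3)) := by
        unfold addA
        congr 1
        funext k
        fin_cases k <;> rfl
      obtain ⟨ms, x, y, z, h1, h2⟩ := MBUILD_rel c (v (0 : Fin 3)) (v (1 : Fin 3)) (v (2 : Fin 3))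
        Mv.madd (rel AR.add v) (by
        intro c' hx hy hz
        simp only [step, hx, hy, hz, hv])
      refine ⟨ms, x, y, z, ?_, h2⟩
      rw [h1]
      have : len (rel AR.add v : AFm) = (∑ k : Fin 3, (v k + 2)) + 4 := rfl
      rw [this, Fin.sum_univ_three]
      omega
    | mul =>
      have hv : (rel AR.mul v : AFm) = mulA (v (0 : Fin 3)) (v (1 : Fin 3)) (v (2 : Fin 3)) := by
        unfold mulA
        congr 1
        funext k
        fin_cases k <;> rfl
      obtain ⟨ms, x, y, z, h1, h2⟩ := MBUILD_rel c (v (0 : Fin 3)) (v (1 : Fin 3)) (v (2 : Fin 3))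
        Mv.mmul (rel AR.mul v) (by
        intro c' hx hy hz
        simp only [step, hx, hy, hz, hv])
      refine ⟨ms, x, y, z, ?_, h2⟩
      rw [h1]
      have : len (rel AR.mul v : AFm) = (∑ k : Fin 3, (v k + 2)) + 4 := rfl
      rw [this, Fin.sum_univ_three]
      omega
  | imp φ ψ ih1 ih2 =>
    obtain ⟨ms, x, y, z, h1, h2⟩ := ih1 c
    obtain ⟨ms', x', y', z', h1', h2'⟩ := ih2 (run ms c)
    refine ⟨ms ++ (ms' ++ [Mv.mimp]), x', y', z', ?_, ?_⟩
    · simp only [List.length_append, List.length_singleton, len]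
      omega
    · rw [MBUILD_append, MBUILD_append, h2', h2]
      rfl
  | all φ ih =>
    obtain ⟨ms, x, y, z, h1, h2⟩ := ih c
    refine ⟨ms ++ [Mv.mall], x, y, z, ?_, ?_⟩
    · simp only [List.length_append, List.length_singleton, len]
      omega
    · rw [MBUILD_append, h2]
      rfl

theorem MBUILD_rot (n : ℕ) (c : Cfg) (h : c.L ≠ []) :
    run (List.replicate n Mv.rot) c = { c with L := c.L.rotate n } := by
  induction n generalizing c with
  | zero => 
    rw [List.rotate_zero]
    rfl
  | succ n ih =>
    rw [List.replicate_succ]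
    change run (List.replicate n Mv.rot) (step Mv.rot c) = _
    obtain ⟨L, W, a, x, y, z⟩ := c
    cases L with
    | nil => exact absurd rfl h
    | cons b t =>
      rw [ih]
      · change (⟨(t ++ [b]).rotate n, W, a, x, y, z⟩ : Cfg) = ⟨(b :: t).rotate (n + 1), W, a, x, y, z⟩
        rw [List.rotate_cons_succ]
      · change t ++ [b] ≠ []
        simp

/-- MODULE MROT. Any element of the list can be made its head. -/
theorem rot_to (c : Cfg) (φ : AFm) (h : φ ∈ c.L) : ∃ (ms : List Mv) (L : List AFm),
    ms.length ≤ c.L.length ∧ run ms c = { c with L := L } ∧ L.headD bot = φ ∧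
      L.length = c.L.length ∧ ∀ ψ, ψ ∈ L ↔ ψ ∈ c.L := by
  obtain ⟨l1, l2, hl⟩ := List.append_of_mem h
  have hne : c.L ≠ [] := List.ne_nil_of_mem h
  refine ⟨List.replicate l1.length Mv.rot, c.L.rotate l1.length, ?_, MBUILD_rot _ c hne, ?_, ?_, ?_⟩
  · rw [List.length_replicate, hl, List.length_append]
    omega
  · rw [hl, List.rotate_append_length_eq]
    rfl
  · exact List.length_rotate _ _
  · intro ψ
    exact List.mem_rotate

end Pool.Agent.MycW
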