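import Pool.Agent.MycW.MBuild
import Pool.Agent.Myc.SynC

set_option autoImplicit false

/-! # MODULE MLINE: one line of a proof -/

namespace Pool.Agent.MycW

open Pool.Agent.Myc Pool.Agent.Myc.Fm

theorem MLINE_run_append (ms ms' : List Mv) (c : Cfg) :
    run (ms ++ ms') c = run ms' (run ms c) := by
  simp only [run, List.foldl_append]

theorem MLINE_run_cons (m : Mv) (ms : List Mv) (c : Cfg) :
    run (m :: ms) c = run ms (step m c) := rfl

theorem MLINE_incr (j : ℕ) (c : Cfg) :
    run (List.replicate j Mv.incr) c = { c with x := c.x + j } := by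
  induction j generalizing c with
  | zero => rfl
  | succ j ih =>
    rw [List.replicate_succ, MLINE_run_cons, ih]
    show ({ c with x := c.x + 1 + j } : Cfg) = _
    congr 1
    omega

/-- Set the first variable. -/
theorem MLINE_setx (j : ℕ) (c : Cfg) :
    run (Mv.shift :: List.replicate j Mv.incr) c = { c with x := j, y := c.x, z := c.y } := by
  rw [MLINE_run_cons, MLINE_incr]
  show ({ c with x := 0 + j, y := c.x, z := c.y } : Cfg) = _
  rw [Nat.zero_add]

/-- One formula on the stack. -/
theorem MLINE_b1 (φ : AFm) (c : Cfg) : ∃ ms : List Mv, ms.length ≤ 4 * len φ ∧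
    (run ms c).W = φ :: c.W ∧ (run ms c).L = c.L ∧ (run ms c).a = c.a := by
  obtain ⟨ms, x, y, z, h1, h2⟩ := build φ c
  exact ⟨ms, h1, by rw [h2], by rw [h2], by rw [h2]⟩

theorem MLINE_b2 (φ ψ : AFm) (c : Cfg) : ∃ ms : List Mv, ms.length ≤ 4 * (len φ + len ψ) ∧
    (run ms c).W = ψ :: φ :: c.W ∧ (run ms c).L = c.L := by
  obtain ⟨ms, h1, h2, h3, -⟩ := MLINE_b1 φ c
  obtain ⟨ms', k1, k2, k3, -⟩ := MLINE_b1 ψ (run ms c)
  refine ⟨ms ++ ms', ?_, ?_, ?_⟩
  · rw [List.length_append]; omega
  · rw [MLINE_run_append, k2, h2]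
  · rw [MLINE_run_append, k3, h3]

theorem MLINE_b3 (φ ψ χ : AFm) (c : Cfg) :
    ∃ ms : List Mv, ms.length ≤ 4 * (len φ + len ψ + len χ) ∧
    (run ms c).W = χ :: ψ :: φ :: c.W ∧ (run ms c).L = c.L := by
  obtain ⟨ms, h1, h2, h3⟩ := MLINE_b2 φ ψ c
  obtain ⟨ms', k1, k2, k3, -⟩ := MLINE_b1 χ (run ms c)
  refine ⟨ms ++ ms', ?_, ?_, ?_⟩
  · rw [List.length_append]; omega
  · rw [MLINE_run_append, k2, h2]
  · rw [MLINE_run_append, k3, h3]

/-- The conclusion, if a formula is added to the list. -/
theorem MLINE_fin {φ : AFm} {c : Cfg} {C : ℕ} {ms : List Mv} {L : List AFm}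
    (hms : ms.length ≤ C * (len φ + c.L.length + 1)) (hL : (run ms c).L = φ :: L)
    (h1 : L.length = c.L.length) (h2 : ∀ ψ ∈ c.L, ψ ∈ L) :
    ∃ ms : List Mv, ms.length ≤ C * (len φ + c.L.length + 1) ∧
      (∀ ψ ∈ c.L, ψ ∈ (run ms c).L) ∧ φ ∈ (run ms c).L ∧
      (run ms c).L.length ≤ c.L.length + 1 := by
  refine ⟨ms, hms, ?_, ?_, ?_⟩
  · intro ψ hψ
    rw [hL]
    exact List.mem_cons_of_mem _ (h2 ψ hψ)
  · rw [hL]
    exact List.mem_cons_self
  · rw [hL, List.length_cons, h1]

/-- A schema. -/
theorem MLINE_schema {φ : AFm} {c : Cfg} {ms : List Mv} {m : Mv}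
    (hms : ms.length ≤ 19 * (len φ + c.L.length + 1))
    (hL : (step m (run ms c)).L = φ :: c.L) :
    ∃ ms : List Mv, ms.length ≤ 20 * (len φ + c.L.length + 1) ∧
      (∀ ψ ∈ c.L, ψ ∈ (run ms c).L) ∧ φ ∈ (run ms c).L ∧
      (run ms c).L.length ≤ c.L.length + 1 := by
  refine MLINE_fin (ms := ms ++ [m]) (L := c.L) ?_ ?_ rfl (fun ψ h => h)
  · rw [List.length_append, List.length_singleton]
    omega
  · rw [MLINE_run_append]
    exact hL

theorem MLINE_inst_or {ρ σ : ℕ → ℕ} {j : ℕ} (h : ∀ i, ρ i = σ i ∨ j ≤ ρ i) (φ : AFm) :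
    rename ρ φ = rename σ φ ∨ j ≤ len (rename ρ φ) := by
  induction φ generalizing ρ σ with
  | bot => exact Or.inl rfl
  | eq a b =>
    simp only [rename, len]
    rcases h a with h1 | h1
    · rcases h b with h2 | h2
      · exact Or.inl (by rw [h1, h2])
      · exact Or.inr (by omega)
    · exact Or.inr (by omega)
  | rel r v =>
    simp only [rename, len]
    by_cases hv : ∀ k, ρ (v k) = σ (v k)
    · exact Or.inl (by simp only [hv])
    · push Not at hv
      obtain ⟨k, hk⟩ := hv
      refine Or.inr ?_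
      have h1 := (h (v k)).resolve_left hk
      have h2 : ρ (v k) + 2 ≤ ∑ k, (ρ (v k) + 2) :=
        Finset.single_le_sum (f := fun k => ρ (v k) + 2) (fun _ _ => Nat.zero_le _)
          (Finset.mem_univ k)
      omega
  | imp φ ψ h1 h2 =>
    simp only [rename, len]
    rcases h1 h with h1 | h1
    · rcases h2 h with h2 | h2
      · exact Or.inl (by rw [h1, h2])
      · exact Or.inr (by omega)
    · exact Or.inr (by omega)
  | all φ h1 =>
    simp only [rename, len]
    have h2 : ∀ i, up ρ i = up σ i ∨ j ≤ up ρ i := by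
      intro i
      cases i with
      | zero => exact Or.inl rfl
      | succ k =>
        rcases h k with h3 | h3
        · exact Or.inl (by show ρ k + 1 = σ k + 1; rw [h3])
        · exact Or.inr (by show j ≤ ρ k + 1; omega)
    rcases h1 h2 with h1 | h1
    · exact Or.inl (by rw [h1])
    · exact Or.inr (by omega)

theorem MLINE_inst (j : ℕ) (φ : AFm) :
    ∃ i, rename (instMap i) φ = rename (instMap j) φ ∧
      i ≤ len (rename (instMap j) φ) := by
  have h : ∀ i, instMap j i = instMap 0 i ∨ j ≤ instMap j i := by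
    intro i
    cases i with
    | zero => exact Or.inr le_rfl
    | succ k => exact Or.inl rfl
  rcases MLINE_inst_or h φ with h1 | h1
  · exact ⟨0, h1.symm, Nat.zero_le _⟩
  · exact ⟨j, rfl, h1⟩

theorem MLINE_len_le {ρ : ℕ → ℕ} (h : ∀ i, i ≤ ρ i + 1) (φ : AFm) :
    len φ ≤ 2 * len (rename ρ φ) := by
  induction φ generalizing ρ with
  | bot => simp only [rename, len]; omega
  | eq a b =>
    have h1 := h a
    have h2 := h b
    simp only [rename, len]
    omega
  | rel r v =>
    simp only [rename, len]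
    have h1 : ∑ k, (v k + 2) ≤ ∑ k, 2 * (ρ (v k) + 2) := by
      refine Finset.sum_le_sum fun k _ => ?_
      have := h (v k)
      omega
    rw [← Finset.mul_sum] at h1
    omega
  | imp φ ψ h1 h2 =>
    have h1 := h1 h
    have h2 := h2 h
    simp only [rename, len]
    omega
  | all φ h1 =>
    have h1 := h1 (ρ := up ρ) (by
      intro i
      cases i with
      | zero => exact Nat.zero_le _
      | succ k =>
        have := h k
        show k + 1 ≤ ρ k + 1 + 1
        omega)
    simp only [rename, len]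
    omega

theorem MLINE_len_inst (j : ℕ) (φ : AFm) : len φ ≤ 2 * len (rename (instMap j) φ) := by
  refine MLINE_len_le (fun i => ?_) φ
  cases i with
  | zero => exact Nat.zero_le _
  | succ k => exact le_rfl

/-- MODULE MLINE. One more line of a proof. The new line is at the head if it was not an axiom.
HINT: by cases in `Just`. If `φ` is a logical axiom: `build` its parameters, set the variables (for
`inst` see the remark in MODULE LOGAX), apply the schema; `mp`: `rot_to` the implication, `ld`,
`rot_to` the premise, `build φ`, `mp`; `gen`: `rot_to`, `gen`. -/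
theorem sim_line : ∃ C : ℕ, ∀ (T : List AFm) (l : List AFm) (φ : AFm) (c : Cfg),
    Just {ψ | ψ ∈ T} l φ → (∀ ψ ∈ T, ψ ∈ c.L) → (∀ ψ ∈ l, ψ ∈ c.L) →
    ∃ ms : List Mv, ms.length ≤ C * (len φ + c.L.length + 1) ∧
      (∀ ψ ∈ c.L, ψ ∈ (run ms c).L) ∧ φ ∈ (run ms c).L ∧
      (run ms c).L.length ≤ c.L.length + 1 := by
  refine ⟨20, fun T l φ c hφ hT hl => ?_⟩
  cases hφ with
  | hyp h =>
    exact ⟨[], Nat.zero_le _, fun ψ h => h, hT _ h, Nat.le_succ _⟩
  | logic h =>
    cases h with
    | k φ ψ =>
      obtain ⟨ms, h1, h2, h3⟩ := MLINE_b2 φ ψ c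
      refine MLINE_schema (ms := ms) (m := .axk) ?_ ?_
      · simp only [len]; omega
      · simp only [step, Cfg.w0, Cfg.w1, h2, h3, List.headD_cons, List.tail_cons]
    | s φ ψ χ =>
      obtain ⟨ms, h1, h2, h3⟩ := MLINE_b3 φ ψ χ c
      refine MLINE_schema (ms := ms) (m := .axs) ?_ ?_
      · simp only [len]; omega
      · simp only [step, Cfg.w0, Cfg.w1, Cfg.w2, h2, h3, List.headD_cons, List.tail_cons]
    | dn φ =>
      obtain ⟨ms, h1, h2, h3, -⟩ := MLINE_b1 φ c
      refine MLINE_schema (ms := ms) (m := .axdn) ?_ ?_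
      · simp only [len, neg]; omega
      · simp only [step, Cfg.w0, h2, h3, List.headD_cons]
    | inst j φ =>
      obtain ⟨i, hi, hi'⟩ := MLINE_inst j φ
      obtain ⟨ms, h1, h2, h3, -⟩ := MLINE_b1 φ c
      refine MLINE_schema (ms := ms ++ (Mv.shift :: List.replicate i Mv.incr)) (m := .axin) ?_ ?_
      · simp only [len, List.length_append, List.length_cons, List.length_replicate]
        omega
      · rw [MLINE_run_append, MLINE_setx]
        simp only [step, Cfg.w0, h2, h3, List.headD_cons, hi]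
    | dist φ ψ =>
      obtain ⟨ms, h1, h2, h3⟩ := MLINE_b2 φ ψ c
      refine MLINE_schema (ms := ms) (m := .axdi) ?_ ?_
      · simp only [len]; omega
      · simp only [step, Cfg.w0, Cfg.w1, h2, h3, List.headD_cons, List.tail_cons]
    | vac φ =>
      obtain ⟨ms, h1, h2, h3, -⟩ := MLINE_b1 φ c
      refine MLINE_schema (ms := ms) (m := .axva) ?_ ?_
      · simp only [len]; omega
      · simp only [step, Cfg.w0, h2, h3, List.headD_cons]
    | refl i =>
      refine MLINE_schema (ms := Mv.shift :: List.replicate i Mv.incr) (m := .axre) ?_ ?_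
      · simp only [len, List.length_cons, List.length_replicate]; omega
      · rw [MLINE_setx]
        simp only [step]
    | leib i j φ =>
      obtain ⟨ms, h1, h2, h3, -⟩ := MLINE_b1 φ c
      have h4 := MLINE_len_inst i φ
      refine MLINE_schema (ms := ms ++ ((Mv.shift :: List.replicate j Mv.incr) ++
        (Mv.shift :: List.replicate i Mv.incr))) (m := .axle) ?_ ?_
      · simp only [len, List.length_append, List.length_cons, List.length_replicate]
        omega
      · rw [MLINE_run_append, MLINE_run_append, MLINE_setx, MLINE_setx]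
        simp only [step, Cfg.w0, h2, h3, List.headD_cons]
  | @mp χ φ ha hb =>
    obtain ⟨m1, L1, a1, b1, c1, d1, e1⟩ := rot_to c (imp χ φ) (hl _ hb)
    obtain ⟨m2, L2, a2, b2, c2, d2, e2⟩ := rot_to (step .ld (run m1 c)) χ (by
      rw [b1]
      exact (e1 χ).2 (hl _ ha))
    obtain ⟨m3, a3, b3, c3, d3⟩ := MLINE_b1 φ (run m2 (step .ld (run m1 c)))
    refine MLINE_fin (ms := m1 ++ (Mv.ld :: (m2 ++ (m3 ++ [Mv.mp])))) (L := L2) ?_ ?_ ?_ ?_
    · have hL1 : (step .ld (run m1 c)).L.length = c.L.length := by rw [b1]; exact d1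
      rw [hL1] at a2
      simp only [List.length_append, List.length_cons, List.length_nil]
      omega
    · rw [MLINE_run_append, MLINE_run_cons, MLINE_run_append, MLINE_run_append]
      have hW : (run m3 (run m2 (step .ld (run m1 c)))).w0 = φ := by
        simp only [Cfg.w0, b3, List.headD_cons]
      have hL : (run m3 (run m2 (step .ld (run m1 c)))).L = L2 := by rw [c3, b2]
      have ha : (run m3 (run m2 (step .ld (run m1 c)))).a = imp χ φ := by
        rw [d3, b2]
        show (run m1 c).L.headD bot = _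
        rw [b1]
        exact c1
      generalize run m3 (run m2 (step .ld (run m1 c))) = c' at hW hL ha
      show (step .mp c').L = φ :: L2
      have hif : c'.a = imp (c'.L.headD bot) c'.w0 := by rw [hW, hL, ha, c2]
      have h5 : (step .mp c').L = c'.w0 :: c'.L := if_pos hif
      rw [h5, hW, hL]
    · rw [d2, b1]
      exact d1
    · intro ψ h
      refine (e2 ψ).2 ?_
      show ψ ∈ (run m1 c).L
      rw [b1]
      exact (e1 ψ).2 h
  | @gen χ h =>
    obtain ⟨m1, L1, a1, b1, c1, d1, e1⟩ := rot_to c χ (hl _ h)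
    refine MLINE_fin (ms := m1 ++ [Mv.gen]) (L := L1) ?_ ?_ d1 (fun ψ h => (e1 ψ).2 h)
    · simp only [List.length_append, List.length_singleton]
      omega
    · rw [MLINE_run_append, b1]
      show all (L1.headD bot) :: L1 = _
      rw [c1]

end Pool.Agent.MycW
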