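import Pool.Agent.MycW.Rel

set_option autoImplicit false

/-! # The machine which searches for proofs -/

namespace Pool.Agent.MycW

open Pool.Agent.Myc Pool.Agent.Myc.Fm

/-- Configurations: a list `L` of theorems, a stack `W` of formulas, a theorem `a` and three
variables. -/
structure Cfg where
  L : List AFm
  W : List AFm
  a : AFm
  x : ℕ
  y : ℕ
  z : ℕ

/-- The moves. -/
inductive Mv : Type
  | incr | shift | mbot | meq | mzero | msucc | madd | mmul | mimp | mall
  | axk | axs | axdn | axin | axdi | axva | axre | axle | gen | rot | ld | mp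
  deriving DecidableEq, Fintype

/-- The three formulas on the top of the stack. -/
def Cfg.w0 (c : Cfg) : AFm := c.W.headD bot
def Cfg.w1 (c : Cfg) : AFm := c.W.tail.headD bot
def Cfg.w2 (c : Cfg) : AFm := c.W.tail.tail.headD bot

open Classical in
/-- One step. -/
noncomputable def step (m : Mv) (c : Cfg) : Cfg :=
  match m with
  | .incr => { c with x := c.x + 1 }
  | .shift => { c with x := 0, y := c.x, z := c.y }
  | .mbot => { c with W := bot :: c.W }
  | .meq => { c with W := eq c.x c.y :: c.W }
  | .mzero => { c with W := zeroA c.x :: c.W }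
  | .msucc => { c with W := succA c.x c.y :: c.W }
  | .madd => { c with W := addA c.x c.y c.z :: c.W }
  | .mmul => { c with W := mulA c.x c.y c.z :: c.W }
  | .mimp => { c with W := imp c.w1 c.w0 :: c.W.tail.tail }
  | .mall => { c with W := all c.w0 :: c.W.tail }
  | .axk => { c with L := imp c.w1 (imp c.w0 c.w1) :: c.L, W := c.W.tail.tail }
  | .axs => { c with
      L := imp (imp c.w2 (imp c.w1 c.w0)) (imp (imp c.w2 c.w1) (imp c.w2 c.w0)) :: c.L,
      W := c.W.tail.tail.tail }
  | .axdn => { c with L := imp (neg (neg c.w0)) c.w0 :: c.L, W := c.W.tail }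
  | .axin => { c with L := imp (all c.w0) (rename (instMap c.x) c.w0) :: c.L, W := c.W.tail }
  | .axdi => { c with
      L := imp (all (imp c.w1 c.w0)) (imp (all c.w1) (all c.w0)) :: c.L, W := c.W.tail.tail }
  | .axva => { c with L := imp c.w0 (all (rename Nat.succ c.w0)) :: c.L, W := c.W.tail }
  | .axre => { c with L := eq c.x c.x :: c.L }
  | .axle => { c with
      L := imp (eq c.x c.y) (imp (rename (instMap c.x) c.w0) (rename (instMap c.y) c.w0)) :: c.L,
      W := c.W.tail }
  | .gen => { c with L := all (c.L.headD bot) :: c.L }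
  | .rot => { c with L := c.L.tail ++ [c.L.headD bot] }
  | .ld => { c with a := c.L.headD bot }
  | .mp => { c with L := if c.a = imp (c.L.headD bot) c.w0 then c.w0 :: c.L else c.L,
                    W := c.W.tail }

/-- A run. -/
noncomputable def run (ms : List Mv) (c : Cfg) : Cfg := ms.foldl (fun c m => step m c) c

/-- The initial configuration. -/
def start (l : List AFm) : Cfg := ⟨l, [], eq 0 0, 0, 0, 0⟩

/-- The size of a configuration. -/
def csz (c : Cfg) : ℕ := plen c.L + plen c.W + len c.a + c.x + c.y + c.z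

/-- The numbers of a configuration. -/
def ccode (c : Cfg) : Env := fun i => match i with
  | 0 => cdL c.L
  | 1 => cdL c.W
  | 2 => cd c.a
  | 3 => c.x
  | 4 => c.y
  | 5 => c.z
  | _ => 0

/-- The numbers of a node: the code `v` of the formula, the theory `t`, the depth `j` and the
configuration. -/
def cenv (v t j : ℕ) (c : Cfg) : Env := fun i => match i with
  | 0 => v
  | 1 => t
  | 2 => j
  | i + 3 => ccode c i

/-- `e 0, ..., e 5` is a configuration with a nonempty list and `e 6, ..., e 11` is the
configuration after the move `m`. -/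
def StR (m : Mv) (e : Env) : Prop := ∃ c : Cfg, c.L ≠ [] ∧ (∀ i < 6, e i = ccode c i) ∧
  ∀ i < 6, e (6 + i) = ccode (step m c) i

/-- `e 9` is the code of the node for the configuration after the move `m`. -/
def ChR (m : Mv) (e : Env) : Prop := ∃ (ψ : AFm) (c : Cfg), c.L ≠ [] ∧
  (∀ i < 9, e i = cenv (cd ψ) (e 1) (e 2) c i) ∧
  e 9 = cd (Bx 9 (cenv (cd ψ) (e 1) (e 2) (step m c)) ψ)

/-- The meaning of a node: the configuration does not show falsum, and if its depth is `j + 1` then
all nodes of the depth `j` after one move are provable in `t`. -/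
def NodeR (e : Env) : Prop := ∃ (ψ : AFm) (c : Cfg), c.L ≠ [] ∧ c.L.headD bot ≠ bot ∧
  (∀ i < 9, e i = cenv (cd ψ) (e 1) (e 2) c i) ∧
  (e 2 = 0 ∨ ∃ j, e 2 = j + 1 ∧ ∀ m : Mv,
    ThR (e 1) (cd (Bx 9 (cenv (cd ψ) (e 1) j (step m c)) ψ)))

end Pool.Agent.MycW
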