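import Pool.Agent.MycW.RLst
import Pool.Agent.MycW.REqNe

set_option autoImplicit false

/-! # MODULE LSTB: operations with lists -/

namespace Pool.Agent.MycW

open Pool.Agent.Myc Pool.Agent.Myc.Fm

/-- MODULE LSTB. HINT: `L = 1`, `x = 16`, `L' = 1`, or `LcR x L' L`. -/
theorem sp_pop : SP 3 (fun e => PopR (e 0) (e 1) (e 2)) := by
  refine ((((sp_const 1).v (n := 3) [0] (by decide)).and
    (((sp_const 16).v (n := 3) [1] (by decide)).and ((sp_const 1).v (n := 3) [2] (by decide)))).or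
      (sp_lc.v (n := 3) [1, 2, 0] (by decide))).iff fun e => ?_
  show ((e 0 = 1 ∧ e 1 = 16 ∧ e 2 = 1) ∨ LcR (e 1) (e 2) (e 0)) ↔ PopR (e 0) (e 1) (e 2)
  constructor
  · rintro (⟨h1, h2, h3⟩ | ⟨φ, l, h1, h2, h3⟩)
    · exact ⟨[], h1, h2, h3⟩
    · exact ⟨φ :: l, h3, h1, h2⟩
  · rintro ⟨l, h1, h2, h3⟩
    rcases l with _ | ⟨φ, l⟩
    · exact Or.inl ⟨h1, h2, h3⟩
    · exact Or.inr ⟨φ, l, h2, h3, h1⟩

/-- MODULE LSTB. HINT: `∃ x M, LcR x M L ∧ SnR M x L'`. -/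
theorem sp_rot : SP 2 (fun e => RotR (e 0) (e 1)) := by
  have h : SP (2 + 2) (fun e => LcR (e 2) (e 3) (e 0) ∧ SnR (e 3) (e 2) (e 1)) :=
    (sp_lc.v (n := 4) [2, 3, 0] (by decide)).and (sp_sn.v (n := 4) [3, 2, 1] (by decide))
  refine h.of ?_ 1 ?_
  · intro e w hw
    have hw' : LcR (w 0) (w 1) (e 0) ∧ SnR (w 1) (w 0) (e 1) := hw
    obtain ⟨⟨φ, l, h1, h2, h3⟩, ⟨φ', l', h4, h5, h6⟩⟩ := hw'
    have h7 : φ' = φ := cd_inj (h4.symm.trans h1)
    have h8 : l' = l := cdL_inj (h5.symm.trans h2)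
    subst h7 h8
    exact ⟨φ', l', h3, h6⟩
  · rintro e ⟨φ, l, h1, h2⟩
    refine ⟨fun i => if i = 0 then cd φ else cdL l, ?_, ?_⟩
    · show LcR (cd φ) (cdL l) (e 0) ∧ SnR (cdL l) (cd φ) (e 1)
      exact ⟨⟨φ, l, rfl, rfl, h1⟩, ⟨φ, l, rfl, rfl, h2⟩⟩
    · have h3 := size_le_SzE (k := 2) (i := 0) (by norm_num) e
      rw [h1, size_cdL, Prv_plen_cons] at h3
      intro i hi
      simp only [pow_one, one_mul]
      by_cases h : i = 0
      · rw [if_pos h, size_cd]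
        omega
      · rw [if_neg h, size_cdL]
        omega

/-- MODULE LSTB. HINT: `∃ x M, LcR x M L ∧ x ≠ 16`; `cd_inj`, `cd_bot`. -/
theorem sp_nb : SP 1 (fun e => NbR (e 0)) := by
  have h : SP (1 + 3) (fun e => LcR (e 1) (e 2) (e 0) ∧ e 3 = 16 ∧ e 1 ≠ e 3) :=
    (sp_lc.v (n := 4) [1, 2, 0] (by decide)).and (((sp_const 16).v (n := 4) [3] (by decide)).and
      (sp_ne.v (n := 4) [1, 3] (by decide)))
  refine h.of ?_ 5 ?_
  · intro e w hw
    have hw' : LcR (w 0) (w 1) (e 0) ∧ w 2 = 16 ∧ w 0 ≠ w 2 := hw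
    obtain ⟨⟨φ, l, h1, h2, h3⟩, h4, h5⟩ := hw'
    refine ⟨φ, l, h3, ?_⟩
    rintro rfl
    exact h5 (h1.trans (cd_bot.trans h4.symm))
  · rintro e ⟨φ, l, h1, h2⟩
    refine ⟨fun i => if i = 0 then cd φ else if i = 1 then cdL l else 16, ?_, ?_⟩
    · show LcR (cd φ) (cdL l) (e 0) ∧ 16 = 16 ∧ cd φ ≠ 16
      refine ⟨⟨φ, l, rfl, rfl, h1⟩, rfl, fun h => h2 (cd_inj (h.trans cd_bot.symm))⟩
    · have h3 := size_le_SzE (k := 1) (i := 0) (by norm_num) e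
      rw [h1, size_cdL, Prv_plen_cons] at h3
      have h4 : SzE 1 e + 1 ≤ (SzE 1 e + 1) ^ 5 := Nat.le_self_pow (by norm_num) _
      have h5 : Nat.size 16 = 5 := by decide
      intro i hi
      show Nat.size (if i = 0 then cd φ else if i = 1 then cdL l else 16) ≤ _
      by_cases h : i = 0
      · rw [if_pos h, size_cd]
        omega
      · rw [if_neg h]
        by_cases h' : i = 1
        · rw [if_pos h', size_cdL]
          omega
        · rw [if_neg h', h5]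
          omega

end Pool.Agent.MycW
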