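import Pool.Agent.MycW.Mach
import Pool.Agent.MycW.RLstB

set_option autoImplicit false

/-! # MODULE MV1: moves -/

namespace Pool.Agent.MycW

open Pool.Agent.Myc Pool.Agent.Myc.Fm

/- HINT for all moves: `StR m e` says: `e 0` is a nonempty list (`∃ x M, LcR x M (e 0)`), `e 1` is a
list, `e 2` is a formula, and the new entries are obtained from the old ones; for the unchanged
entries use `sp_eq`, for the top of the stack `sp_pop` (once or several times). All auxiliary numbers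
are parts of the given ones. -/

theorem MV1_plen_cons (φ : AFm) (l : List AFm) : plen (φ :: l) = len φ + plen l := by
  simp [plen]

theorem MV1_len_head (l : List AFm) : len (l.headD bot) ≤ plen l + 4 := by
  cases l with
  | nil => simp [len]
  | cons φ l => simp only [List.headD_cons, MV1_plen_cons]; omega

theorem MV1_plen_tail (l : List AFm) : plen l.tail ≤ plen l := by
  cases l with
  | nil => simp
  | cons φ l => simp only [List.tail_cons, MV1_plen_cons]; omega

theorem MV1_lc {φ : AFm} {l : List AFm} {z : ℕ} :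
    LcR (cd φ) (cdL l) z ↔ z = cdL (φ :: l) := by
  constructor
  · rintro ⟨ψ, l', h1, h2, h3⟩
    rw [cd_inj h1, cdL_inj h2]
    exact h3
  · intro h
    exact ⟨φ, l, rfl, rfl, h⟩

theorem MV1_pop {l : List AFm} {x z : ℕ} :
    PopR (cdL l) x z ↔ x = cd (l.headD bot) ∧ z = cdL l.tail := by
  constructor
  · rintro ⟨l', h1, h2, h3⟩
    rw [cdL_inj h1]
    exact ⟨h2, h3⟩
  · rintro ⟨h1, h2⟩
    exact ⟨l, rfl, h1, h2⟩

theorem MV1_im {φ ψ : AFm} {z : ℕ} : ImR (cd φ) (cd ψ) z ↔ z = cd (imp φ ψ) := by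
  constructor
  · rintro ⟨φ', ψ', h1, h2, h3⟩
    rw [cd_inj h1, cd_inj h2]
    exact h3
  · intro h
    exact ⟨φ, ψ, rfl, rfl, h⟩

theorem MV1_al {φ : AFm} {z : ℕ} : AlR (cd φ) z ↔ z = cd (all φ) := by
  constructor
  · rintro ⟨φ', h1, h3⟩
    rw [cd_inj h1]
    exact h3
  · intro h
    exact ⟨φ, rfl, h⟩

/-- The nonempty lists. -/
theorem MV1_nl : SP 1 (fun e => ∃ (φ : AFm) (l : List AFm), e 0 = cdL (φ :: l)) := by
  have h : SP (1 + 2) (fun e => LcR (e 1) (e 2) (e 0)) := sp_lc.v [1, 2, 0] (by decide)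
  refine h.of ?_ 1 ?_
  · rintro e w ⟨φ, l, -, -, h3⟩
    exact ⟨φ, l, h3⟩
  · rintro e ⟨φ, l, h1⟩
    refine ⟨fun i => if i = 0 then cd φ else cdL l, ⟨φ, l, rfl, rfl, h1⟩, ?_⟩
    have h2 : Nat.size (e 0) = len φ + plen l + 1 := by
      rw [h1, size_cdL, MV1_plen_cons]
    have h3 := size_le_SzE (k := 1) (i := 0) (by norm_num) e
    intro i hi
    have : i = 0 ∨ i = 1 := by omega
    rcases this with rfl | rfl
    · simp only [↓reduceIte, size_cd, pow_one, one_mul]
      omega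
    · simp only [one_ne_zero, ↓reduceIte, size_cdL, pow_one, one_mul]
      omega

/-- The common frame of all moves. -/
theorem MV1_of {m : Mv} {n : ℕ} {R : Env → Prop} (h : SP (12 + n) R) (aux : Cfg → List ℕ)
    (sound : ∀ (c : Cfg) (e : Env), c.L ≠ [] → e 0 = cdL c.L → e 1 = cdL c.W → e 2 = cd c.a →
      e 3 = c.x → e 4 = c.y → e 5 = c.z → R e →
      e 6 = cdL (step m c).L ∧ e 7 = cdL (step m c).W ∧ e 8 = cd (step m c).a ∧
        e 9 = (step m c).x ∧ e 10 = (step m c).y ∧ e 11 = (step m c).z)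
    (compl : ∀ (c : Cfg) (e : Env), c.L ≠ [] → e 0 = cdL c.L → e 1 = cdL c.W → e 2 = cd c.a →
      e 3 = c.x → e 4 = c.y → e 5 = c.z →
      e 6 = cdL (step m c).L → e 7 = cdL (step m c).W → e 8 = cd (step m c).a →
      e 9 = (step m c).x → e 10 = (step m c).y → e 11 = (step m c).z →
      (∀ i < n, e (12 + i) = (aux c).getD i 0) → R e)
    (hsz : ∀ c : Cfg, c.L ≠ [] → ∀ v ∈ aux c,
      Nat.size v ≤ 10 + plen c.L + plen c.W + plen (step m c).L + plen (step m c).W) :
    SP 12 (StR m) := by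
  have hb : SP (12 + n) (fun e => (∃ (φ : AFm) (l : List AFm), e 0 = cdL (φ :: l)) ∧
      LsR (e 1) ∧ FmR (e 2)) := by
    refine (MV1_nl.v (n := 12 + n) [0] ?_).and ((sp_ls.v (n := 12 + n) [1] ?_).and
      (sp_fm.v (n := 12 + n) [2] ?_))
    all_goals
      intro i hi
      have : i = 0 := by omega
      subst this
      simp only [List.getD_cons_zero]
      omega
  refine (hb.and h).of ?_ 10 ?_
  · rintro e w ⟨⟨⟨φ, l, h0⟩, ⟨W, h1⟩, ⟨a, h2⟩⟩, hR⟩
    have h0' : e 0 = cdL (φ :: l) := h0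
    have h1' : e 1 = cdL W := h1
    have h2' : e 2 = cd a := h2
    obtain ⟨k0, k1, k2, k3, k4, k5⟩ := sound ⟨φ :: l, W, a, e 3, e 4, e 5⟩ (join 12 e w) (by simp)
      h0 h1 h2 rfl rfl rfl hR
    refine ⟨⟨φ :: l, W, a, e 3, e 4, e 5⟩, by simp, ?_, ?_⟩
    · intro i hi
      interval_cases i
      exacts [h0', h1', h2', rfl, rfl, rfl]
    · intro i hi
      interval_cases i
      exacts [k0, k1, k2, k3, k4, k5]
  · rintro e ⟨c, hc, h1, h2⟩
    have g0 : e 0 = cdL c.L := h1 0 (by norm_num)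
    have g1 : e 1 = cdL c.W := h1 1 (by norm_num)
    have g2 : e 2 = cd c.a := h1 2 (by norm_num)
    have g6 : e 6 = cdL (step m c).L := h2 0 (by norm_num)
    have g7 : e 7 = cdL (step m c).W := h2 1 (by norm_num)
    refine ⟨fun i => (aux c).getD i 0, ⟨⟨?_, ⟨c.W, g1⟩, ⟨c.a, g2⟩⟩, ?_⟩, ?_⟩
    · obtain ⟨φ, l, hl⟩ := List.exists_cons_of_ne_nil hc
      exact ⟨φ, l, by rw [← hl]; exact g0⟩
    · refine compl c _ hc (h1 0 (by norm_num)) (h1 1 (by norm_num)) (h1 2 (by norm_num))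
        (h1 3 (by norm_num)) (h1 4 (by norm_num)) (h1 5 (by norm_num)) (h2 0 (by norm_num))
        (h2 1 (by norm_num)) (h2 2 (by norm_num)) (h2 3 (by norm_num)) (h2 4 (by norm_num))
        (h2 5 (by norm_num)) ?_
      intro i hi
      show (if 12 + i < 12 then e (12 + i) else (aux c).getD (12 + i - 12) 0) = _
      rw [if_neg (by omega), Nat.add_sub_cancel_left]
    · intro i hi
      have key : Nat.size ((aux c).getD i 0) ≤
          10 + plen c.L + plen c.W + plen (step m c).L + plen (step m c).W := by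
        by_cases hi' : i < (aux c).length
        · rw [List.getD_eq_getElem _ _ hi']
          exact hsz c hc _ (List.getElem_mem hi')
        · rw [List.getD_eq_default _ _ (by omega)]
          simp
      have s0 : Nat.size (e 0) = plen c.L + 1 := by rw [g0, size_cdL]
      have s1 : Nat.size (e 1) = plen c.W + 1 := by rw [g1, size_cdL]
      have s6 : Nat.size (e 6) = plen (step m c).L + 1 := by rw [g6, size_cdL]
      have s7 : Nat.size (e 7) = plen (step m c).W + 1 := by rw [g7, size_cdL]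
      have hS : Nat.size (e 0) + Nat.size (e 1) + Nat.size (e 6) + Nat.size (e 7) ≤ SzE 12 e := by
        simp only [SzE, Finset.sum_range_succ, Finset.sum_range_zero]
        omega
      have h3 : SzE 12 e + 1 ≤ (SzE 12 e + 1) ^ 10 := Nat.le_self_pow (by norm_num) _
      show Nat.size ((aux c).getD i 0) ≤ _
      omega

/-- MODULE MV1. -/
theorem sp_st_incr : SP 12 (StR .incr) := by
  have h : SP (12 + 0) (fun e => e 0 = e 6 ∧ e 1 = e 7 ∧ e 2 = e 8 ∧ e 3 + 1 = e 9 ∧
      e 4 = e 10 ∧ e 5 = e 11) :=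
    (sp_eq.v [0, 6] (by decide)).and ((sp_eq.v [1, 7] (by decide)).and
      ((sp_eq.v [2, 8] (by decide)).and ((sp_suc.v [3, 9] (by decide)).and
        ((sp_eq.v [4, 10] (by decide)).and (sp_eq.v [5, 11] (by decide))))))
  refine MV1_of h (fun _ => []) ?_ ?_ ?_
  · rintro c e hc h0 h1 h2 h3 h4 h5 ⟨p0, p1, p2, p3, p4, p5⟩
    simp only [step]
    exact ⟨p0 ▸ h0, p1 ▸ h1, p2 ▸ h2, by omega, by omega, by omega⟩
  · intro c e hc h0 h1 h2 h3 h4 h5 h6 h7 h8 h9 h10 h11 _
    simp only [step] at h6 h7 h8 h9 h10 h11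
    exact ⟨by rw [h0, h6], by rw [h1, h7], by rw [h2, h8], by omega, by omega, by omega⟩
  · intro c hc v hv
    simp at hv

/-- MODULE MV1. -/
theorem sp_st_shift : SP 12 (StR .shift) := by
  have h : SP (12 + 0) (fun e => e 0 = e 6 ∧ e 1 = e 7 ∧ e 2 = e 8 ∧ e 9 = 0 ∧
      e 3 = e 10 ∧ e 4 = e 11) :=
    (sp_eq.v [0, 6] (by decide)).and ((sp_eq.v [1, 7] (by decide)).and
      ((sp_eq.v [2, 8] (by decide)).and (((sp_const 0).v [9] (by decide)).and
        ((sp_eq.v [3, 10] (by decide)).and (sp_eq.v [4, 11] (by decide))))))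
  refine MV1_of h (fun _ => []) ?_ ?_ ?_
  · rintro c e hc h0 h1 h2 h3 h4 h5 ⟨p0, p1, p2, p3, p4, p5⟩
    simp only [step]
    exact ⟨p0 ▸ h0, p1 ▸ h1, p2 ▸ h2, by omega, by omega, by omega⟩
  · intro c e hc h0 h1 h2 h3 h4 h5 h6 h7 h8 h9 h10 h11 _
    simp only [step] at h6 h7 h8 h9 h10 h11
    exact ⟨by rw [h0, h6], by rw [h1, h7], by rw [h2, h8], by omega, by omega, by omega⟩
  · intro c hc v hv
    simp at hv

/-- A move which puts a formula with the number `u` on the stack. -/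
theorem MV1_push {m : Mv} {Q : Env → Prop} (h : SP (12 + 1) Q) (f : Cfg → AFm)
    (hf : ∀ c, step m c = { c with W := f c :: c.W })
    (hQ : ∀ (c : Cfg) (e : Env), e 3 = c.x → e 4 = c.y → e 5 = c.z → (Q e ↔ e 12 = cd (f c))) :
    SP 12 (StR m) := by
  have h : SP (12 + 1) (fun e => Q e ∧ LcR (e 12) (e 1) (e 7) ∧ e 0 = e 6 ∧ e 2 = e 8 ∧
      e 3 = e 9 ∧ e 4 = e 10 ∧ e 5 = e 11) :=
    h.and ((sp_lc.v [12, 1, 7] (by decide)).and ((sp_eq.v [0, 6] (by decide)).and
      ((sp_eq.v [2, 8] (by decide)).and ((sp_eq.v [3, 9] (by decide)).and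
        ((sp_eq.v [4, 10] (by decide)).and (sp_eq.v [5, 11] (by decide)))))))
  refine MV1_of h (fun c => [cd (f c)]) ?_ ?_ ?_
  · rintro c e hc h0 h1 h2 h3 h4 h5 ⟨q, p, p0, p2, p3, p4, p5⟩
    rw [hQ c e h3 h4 h5] at q
    rw [q, h1, MV1_lc] at p
    rw [hf]
    exact ⟨p0 ▸ h0, p, p2 ▸ h2, by simp only; omega, by simp only; omega, by simp only; omega⟩
  · intro c e hc h0 h1 h2 h3 h4 h5 h6 h7 h8 h9 h10 h11 ha
    rw [hf] at h6 h7 h8 h9 h10 h11
    simp only at h6 h7 h8 h9 h10 h11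
    have a0 : e 12 = cd (f c) := ha 0 (by norm_num)
    refine ⟨(hQ c e h3 h4 h5).2 a0, ?_, by rw [h0, h6], by rw [h2, h8], by omega, by omega,
      by omega⟩
    rw [a0, h1, h7, MV1_lc]
  · intro c hc v hv
    rw [List.mem_singleton] at hv
    rw [hv, size_cd, hf]
    simp only [MV1_plen_cons]
    omega

/-- MODULE MV1. -/
theorem sp_st_mbot : SP 12 (StR .mbot) := by
  refine MV1_push (Q := fun e => e 12 = 16) ((sp_const 16).v [12] (by decide)) (fun _ => bot)
    (fun c => rfl) ?_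
  intro c e _ _ _
  rw [cd_bot]

end Pool.Agent.MycW
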