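import Pool.Agent.MycW.Mach
import Pool.Agent.MycW.RLstB
import Pool.Agent.MycW.Mv1

set_option autoImplicit false

/-! # MODULE MV2: moves -/

namespace Pool.Agent.MycW

open Pool.Agent.Myc Pool.Agent.Myc.Fm

/-- MODULE MV2. -/
theorem sp_st_meq : SP 12 (StR .meq) := by
  refine MV1_push (Q := fun e => e 12 = cd (Fm.eq (e 3) (e 4) : AFm))
    (sp_aeq.v [3, 4, 12] (by decide)) (fun c => eq c.x c.y) (fun c => rfl) ?_
  intro c e h3 h4 h5
  rw [h3, h4]

/-- MODULE MV2. -/
theorem sp_st_mzero : SP 12 (StR .mzero) := by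
  refine MV1_push (Q := fun e => e 12 = cd (zeroA (e 3)))
    (sp_azero.v [3, 12] (by decide)) (fun c => zeroA c.x) (fun c => rfl) ?_
  intro c e h3 h4 h5
  rw [h3]

/-- MODULE MV2. -/
theorem sp_st_msucc : SP 12 (StR .msucc) := by
  refine MV1_push (Q := fun e => e 12 = cd (succA (e 3) (e 4)))
    (sp_asucc.v [3, 4, 12] (by decide)) (fun c => succA c.x c.y) (fun c => rfl) ?_
  intro c e h3 h4 h5
  rw [h3, h4]

end Pool.Agent.MycW
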