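import Pool.Agent.MycW.Mach
import Pool.Agent.MycW.RLstB
import Pool.Agent.MycW.Mv1

set_option autoImplicit false

/-! # MODULE MV3: moves -/

namespace Pool.Agent.MycW

open Pool.Agent.Myc Pool.Agent.Myc.Fm

/-- MODULE MV3. -/
theorem sp_st_madd : SP 12 (StR .madd) := by
  refine MV1_push (Q := fun e => e 12 = cd (addA (e 3) (e 4) (e 5)))
    (sp_aadd.v [3, 4, 5, 12] (by decide)) (fun c => addA c.x c.y c.z) (fun c => rfl) ?_
  intro c e h3 h4 h5
  rw [h3, h4, h5]

/-- MODULE MV3. -/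
theorem sp_st_mmul : SP 12 (StR .mmul) := by
  refine MV1_push (Q := fun e => e 12 = cd (mulA (e 3) (e 4) (e 5)))
    (sp_amul.v [3, 4, 5, 12] (by decide)) (fun c => mulA c.x c.y c.z) (fun c => rfl) ?_
  intro c e h3 h4 h5
  rw [h3, h4, h5]

end Pool.Agent.MycW
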