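import Pool.Agent.MycW.RFmla

set_option autoImplicit false

/-! # MODULE IMAL: implication, quantification, negation -/

namespace Pool.Agent.MycW

open Pool.Agent.Myc Pool.Agent.Myc.Fm

/-- MODULE IMAL. -/
theorem sp_im : SP 3 (fun e => ImR (e 0) (e 1) (e 2)) := by
  have h : SP (3 + 2) (fun e => FmR (e 0) ∧ FmR (e 1) ∧ Cc (e 0) (e 1) (e 3) ∧
      e 4 = 22 ∧ Cc (e 3) (e 4) (e 2)) :=
    (sp_fm.v [0] (by decide)).and ((sp_fm.v [1] (by decide)).and
      ((sp_cc.v [0, 1, 3] (by decide)).and (((sp_const 22).v [4] (by decide)).and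
        (sp_cc.v [3, 4, 2] (by decide)))))
  have key : ∀ φ ψ : AFm, cd (imp φ ψ) =
      codeS ((encode φ ++ encode ψ) ++ [false, true, true, false]) := fun φ ψ => rfl
  refine h.of ?_ 5 ?_
  · intro e w hw
    simp only [join] at hw
    norm_num at hw
    obtain ⟨⟨φ, h1⟩, ⟨ψ, h2⟩, h3, h4, h5⟩ := hw
    rw [h1, h2] at h3
    have h6 := (Cc_codeS (encode φ) (encode ψ) _).1 h3
    rw [h6, h4] at h5
    refine ⟨φ, ψ, h1, h2, ?_⟩
    rw [key]
    exact (Cc_codeS _ [false, true, true, false] _).1 h5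
  · rintro e ⟨φ, ψ, h1, h2, h3⟩
    refine ⟨fun i => [codeS (encode φ ++ encode ψ), 22].getD i 0, ?_, ?_⟩
    · simp only [join]
      norm_num
      refine ⟨⟨φ, h1⟩, ⟨ψ, h2⟩, ?_, ?_⟩
      · rw [h1, h2]
        exact (Cc_codeS (encode φ) (encode ψ) _).2 rfl
      · rw [h3, key]
        exact (Cc_codeS _ [false, true, true, false] _).2 rfl
    · have h5 : Nat.size (e 2) = (encode φ).length + (encode ψ).length + 5 := by
        rw [h3, key, RepC_size_codeS]
        simp
        ring
      have h6 := size_le_SzE (k := 3) (i := 2) (by norm_num) e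
      have h7 : SzE 3 e + 1 ≤ (SzE 3 e + 1) ^ 5 := Nat.le_self_pow (by norm_num) _
      have h4 : Nat.size 22 = 5 := by decide
      intro i hi
      have : i = 0 ∨ i = 1 := by omega
      rcases this with rfl | rfl
      · simp only [List.getD_cons_zero]
        rw [RepC_size_codeS]
        simp
        omega
      · simp only [List.getD_cons_succ, List.getD_cons_zero]
        omega

/-- MODULE IMAL. -/
theorem sp_al : SP 2 (fun e => AlR (e 0) (e 1)) := by
  have h : SP (2 + 1) (fun e => FmR (e 0) ∧ e 2 = 23 ∧ Cc (e 0) (e 2) (e 1)) :=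
    (sp_fm.v [0] (by decide)).and (((sp_const 23).v [2] (by decide)).and
      (sp_cc.v [0, 2, 1] (by decide)))
  have key : ∀ φ : AFm, cd (all φ) =
      codeS (encode φ ++ [false, true, true, true]) := fun φ => rfl
  refine h.of ?_ 5 ?_
  · intro e w hw
    simp only [join] at hw
    norm_num at hw
    obtain ⟨⟨φ, h1⟩, h2, h3⟩ := hw
    rw [h1, h2] at h3
    refine ⟨φ, h1, ?_⟩
    rw [key]
    exact (Cc_codeS (encode φ) [false, true, true, true] _).1 h3
  · rintro e ⟨φ, h1, h3⟩
    refine ⟨fun i => [23].getD i 0, ?_, ?_⟩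
    · simp only [join]
      norm_num
      refine ⟨⟨φ, h1⟩, ?_⟩
      rw [h1, h3, key]
      exact (Cc_codeS (encode φ) [false, true, true, true] _).2 rfl
    · have h7 : SzE 2 e + 1 ≤ (SzE 2 e + 1) ^ 5 := Nat.le_self_pow (by norm_num) _
      have h4 : Nat.size 23 = 5 := by decide
      intro i hi
      have : i = 0 := by omega
      subst this
      simp only [List.getD_cons_zero]
      omega

/-- MODULE IMAL. -/
theorem sp_ng : SP 2 (fun e => NgR (e 0) (e 1)) := by
  have h : SP (2 + 1) (fun e => e 2 = 16 ∧ ImR (e 0) (e 2) (e 1)) :=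
    ((sp_const 16).v [2] (by decide)).and (sp_im.v [0, 2, 1] (by decide))
  have hb : cd (bot : AFm) = 16 := by decide
  refine h.of ?_ 5 ?_
  · intro e w hw
    simp only [join] at hw
    norm_num at hw
    obtain ⟨h1, φ, ψ, h2, h3, h4⟩ := hw
    rw [h1, ← hb] at h3
    have h5 : bot = ψ := cd_inj h3
    refine ⟨φ, h2, ?_⟩
    rw [h4, ← h5]
    rfl
  · rintro e ⟨φ, h1, h3⟩
    refine ⟨fun i => [16].getD i 0, ?_, ?_⟩
    · simp only [join]
      norm_num
      exact ⟨φ, bot, h1, hb.symm, h3⟩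
    · have h7 : SzE 2 e + 1 ≤ (SzE 2 e + 1) ^ 5 := Nat.le_self_pow (by norm_num) _
      have h4 : Nat.size 16 = 5 := by decide
      intro i hi
      have : i = 0 := by omega
      subst this
      simp only [List.getD_cons_zero]
      omega

end Pool.Agent.MycW
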