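import Pool.Agent.MycW.Mach
import Pool.Agent.MycW.RLstB
import Pool.Agent.MycW.RImAl
import Pool.Agent.MycW.Mv1

set_option autoImplicit false

/-! # MODULE MV4: moves -/

namespace Pool.Agent.MycW

open Pool.Agent.Myc Pool.Agent.Myc.Fm

/-- MODULE MV4. -/
theorem sp_st_mimp : SP 12 (StR .mimp) := by
  have h : SP (12 + 5) (fun e => PopR (e 1) (e 12) (e 13) ∧ PopR (e 13) (e 14) (e 15) ∧
      ImR (e 14) (e 12) (e 16) ∧ LcR (e 16) (e 15) (e 7) ∧ e 0 = e 6 ∧ e 2 = e 8 ∧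
      e 3 = e 9 ∧ e 4 = e 10 ∧ e 5 = e 11) :=
    (sp_pop.v [1, 12, 13] (by decide)).and ((sp_pop.v [13, 14, 15] (by decide)).and
      ((sp_im.v [14, 12, 16] (by decide)).and
      ((sp_lc.v [16, 15, 7] (by decide)).and ((sp_eq.v [0, 6] (by decide)).and
      ((sp_eq.v [2, 8] (by decide)).and ((sp_eq.v [3, 9] (by decide)).and
        ((sp_eq.v [4, 10] (by decide)).and (sp_eq.v [5, 11] (by decide)))))))))
  refine MV1_of h (fun c => [cd c.w0, cdL c.W.tail, cd c.w1, cdL c.W.tail.tail,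
    cd (imp c.w1 c.w0)]) ?_ ?_ ?_
  · rintro c e hc h0 h1 h2 h3 h4 h5 ⟨q1, q2, q3, p, p0, p2, p3, p4, p5⟩
    rw [h1, MV1_pop] at q1
    rw [q1.2, MV1_pop] at q2
    rw [q1.1, q2.1, MV1_im] at q3
    rw [q3, q2.2, MV1_lc] at p
    simp only [step]
    exact ⟨p0 ▸ h0, p, p2 ▸ h2, by omega, by omega, by omega⟩
  · intro c e hc h0 h1 h2 h3 h4 h5 h6 h7 h8 h9 h10 h11 ha
    simp only [step] at h6 h7 h8 h9 h10 h11
    have a0 : e 12 = cd c.w0 := ha 0 (by norm_num)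
    have a1 : e 13 = cdL c.W.tail := ha 1 (by norm_num)
    have a2 : e 14 = cd c.w1 := ha 2 (by norm_num)
    have a3 : e 15 = cdL c.W.tail.tail := ha 3 (by norm_num)
    have a4 : e 16 = cd (imp c.w1 c.w0) := ha 4 (by norm_num)
    refine ⟨?_, ?_, ?_, ?_, by rw [h0, h6], by rw [h2, h8], by omega, by omega, by omega⟩
    · rw [h1, MV1_pop, a0, a1]
      exact ⟨rfl, rfl⟩
    · rw [a1, MV1_pop, a2, a3]
      exact ⟨rfl, rfl⟩
    · rw [a2, a0, MV1_im, a4]
    · rw [a4, a3, MV1_lc, h7]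
  · intro c hc v hv
    simp only [List.mem_cons, List.not_mem_nil, or_false] at hv
    have t0 := MV1_len_head c.W
    have t1 := MV1_len_head c.W.tail
    have t2 := MV1_plen_tail c.W
    have t3 := MV1_plen_tail c.W.tail
    simp only [step, MV1_plen_cons, Cfg.w0, Cfg.w1] at hv ⊢
    rcases hv with rfl | rfl | rfl | rfl | rfl
    · rw [size_cd]; omega
    · rw [size_cdL]; omega
    · rw [size_cd]; omega
    · rw [size_cdL]; omega
    · rw [size_cd]; omega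

/-- MODULE MV4. -/
theorem sp_st_mall : SP 12 (StR .mall) := by
  have h : SP (12 + 3) (fun e => PopR (e 1) (e 12) (e 13) ∧
      AlR (e 12) (e 14) ∧ LcR (e 14) (e 13) (e 7) ∧ e 0 = e 6 ∧ e 2 = e 8 ∧
      e 3 = e 9 ∧ e 4 = e 10 ∧ e 5 = e 11) :=
    (sp_pop.v [1, 12, 13] (by decide)).and
      ((sp_al.v [12, 14] (by decide)).and
      ((sp_lc.v [14, 13, 7] (by decide)).and ((sp_eq.v [0, 6] (by decide)).and
      ((sp_eq.v [2, 8] (by decide)).and ((sp_eq.v [3, 9] (by decide)).and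
        ((sp_eq.v [4, 10] (by decide)).and (sp_eq.v [5, 11] (by decide))))))))
  refine MV1_of h (fun c => [cd c.w0, cdL c.W.tail, cd (all c.w0)]) ?_ ?_ ?_
  · rintro c e hc h0 h1 h2 h3 h4 h5 ⟨q1, q3, p, p0, p2, p3, p4, p5⟩
    rw [h1, MV1_pop] at q1
    rw [q1.1, MV1_al] at q3
    rw [q3, q1.2, MV1_lc] at p
    simp only [step]
    exact ⟨p0 ▸ h0, p, p2 ▸ h2, by omega, by omega, by omega⟩
  · intro c e hc h0 h1 h2 h3 h4 h5 h6 h7 h8 h9 h10 h11 ha
    simp only [step] at h6 h7 h8 h9 h10 h11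
    have a0 : e 12 = cd c.w0 := ha 0 (by norm_num)
    have a1 : e 13 = cdL c.W.tail := ha 1 (by norm_num)
    have a2 : e 14 = cd (all c.w0) := ha 2 (by norm_num)
    refine ⟨?_, ?_, ?_, by rw [h0, h6], by rw [h2, h8], by omega, by omega, by omega⟩
    · rw [h1, MV1_pop, a0, a1]
      exact ⟨rfl, rfl⟩
    · rw [a0, MV1_al, a2]
    · rw [a2, a1, MV1_lc, h7]
  · intro c hc v hv
    simp only [List.mem_cons, List.not_mem_nil, or_false] at hv
    have t0 := MV1_len_head c.W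
    have t2 := MV1_plen_tail c.W
    simp only [step, MV1_plen_cons, Cfg.w0] at hv ⊢
    rcases hv with rfl | rfl | rfl
    · rw [size_cd]; omega
    · rw [size_cdL]; omega
    · rw [size_cd]; omega

end Pool.Agent.MycW
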