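import Pool.Agent.MycW.RImAl

set_option autoImplicit false

/-! # MODULE AXA: the axioms K, S, DN -/

namespace Pool.Agent.MycW

open Pool.Agent.Myc Pool.Agent.Myc.Fm

theorem AXA_sz {k r : ℕ} (hr : r < k) {e : Env} {φ ψ : AFm} (h : e r = cd ψ)
    (hl : len φ ≤ len ψ) : Nat.size (cd φ) ≤ 1 * (SzE k e + 1) ^ 1 := by
  have h1 := size_le_SzE hr e
  rw [h, size_cd] at h1
  rw [size_cd, pow_one, one_mul]
  omega

theorem AXA_im {φ ψ : AFm} {z : ℕ} : ImR (cd φ) (cd ψ) z ↔ z = cd (imp φ ψ) := by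
  constructor
  · rintro ⟨φ', ψ', h1, h2, h3⟩
    rw [h3, cd_inj h1, cd_inj h2]
  · intro h
    exact ⟨φ, ψ, rfl, rfl, h⟩

theorem AXA_al {φ : AFm} {z : ℕ} : AlR (cd φ) z ↔ z = cd (all φ) := by
  constructor
  · rintro ⟨φ', h1, h3⟩
    rw [h3, cd_inj h1]
  · intro h
    exact ⟨φ, rfl, h⟩

theorem AXA_ng {φ : AFm} {z : ℕ} : NgR (cd φ) z ↔ z = cd (neg φ) := by
  constructor
  · rintro ⟨φ', h1, h3⟩
    rw [h3, cd_inj h1]
  · intro h
    exact ⟨φ, rfl, h⟩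

/-- MODULE AXA. HINT for all: composition of `sp_im`, `sp_al`, `sp_ng`, `sp_lf`, `sp_inr`,
`sp_aeq`; all witnesses are subformulas of `r`. -/
theorem sp_axK : SP 3 (fun e => AxK (e 0) (e 1) (e 2)) := by
  have h : SP (3 + 1) (fun e => ImR (e 1) (e 0) (e 3) ∧ ImR (e 0) (e 3) (e 2)) :=
    (sp_im.v [1, 0, 3] (by decide)).and (sp_im.v [0, 3, 2] (by decide))
  refine h.of ?_ 1 ?_
  · intro e w hw
    simp only [join] at hw
    norm_num at hw
    obtain ⟨⟨ψ, φ, h1, h2, h3⟩, h4⟩ := hw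
    rw [h2, h3, AXA_im] at h4
    exact ⟨φ, ψ, h2, h1, h4⟩
  · rintro e ⟨φ, ψ, h1, h2, h3⟩
    refine ⟨fun _ => cd (imp ψ φ), ?_, ?_⟩
    · simp only [join]
      norm_num
      rw [h1, h2, AXA_im, AXA_im]
      exact ⟨rfl, h3⟩
    · intro i _
      refine AXA_sz (r := 2) (by norm_num) h3 ?_
      simp only [len]
      omega

/-- MODULE AXA. -/
theorem sp_axS : SP 4 (fun e => AxS (e 0) (e 1) (e 2) (e 3)) := by
  have h : SP (4 + 5) (fun e => ImR (e 1) (e 2) (e 4) ∧ ImR (e 0) (e 4) (e 5) ∧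
      ImR (e 0) (e 1) (e 6) ∧ ImR (e 0) (e 2) (e 7) ∧ ImR (e 6) (e 7) (e 8) ∧
      ImR (e 5) (e 8) (e 3)) :=
    (sp_im.v [1, 2, 4] (by decide)).and ((sp_im.v [0, 4, 5] (by decide)).and
      ((sp_im.v [0, 1, 6] (by decide)).and ((sp_im.v [0, 2, 7] (by decide)).and
        ((sp_im.v [6, 7, 8] (by decide)).and (sp_im.v [5, 8, 3] (by decide))))))
  refine h.of ?_ 1 ?_
  · intro e w hw
    simp only [join] at hw
    norm_num at hw
    obtain ⟨⟨ψ, χ, h1, h2, h3⟩, h4, h5, h6, h7, h8⟩ := hw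
    rw [h3] at h4
    obtain ⟨φ, ψ', h9, _, h10⟩ := h4
    have h11 : ψ' = imp ψ χ := by
      rename_i h12
      exact (cd_inj h12).symm
    subst h11
    rw [h9, h1, AXA_im] at h5
    rw [h9, h2, AXA_im] at h6
    rw [h5, h6, AXA_im] at h7
    rw [h10, h7, AXA_im] at h8
    exact ⟨φ, ψ, χ, h9, h1, h2, h8⟩
  · rintro e ⟨φ, ψ, χ, h1, h2, h3, h4⟩
    refine ⟨fun i => [cd (imp ψ χ), cd (imp φ (imp ψ χ)), cd (imp φ ψ), cd (imp φ χ),
      cd (imp (imp φ ψ) (imp φ χ))].getD i 0, ?_, ?_⟩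
    · simp only [join]
      norm_num
      rw [h1, h2, h3, AXA_im, AXA_im, AXA_im, AXA_im, AXA_im, AXA_im]
      exact ⟨rfl, rfl, rfl, rfl, rfl, h4⟩
    · intro i hi
      have : i = 0 ∨ i = 1 ∨ i = 2 ∨ i = 3 ∨ i = 4 := by omega
      rcases this with rfl | rfl | rfl | rfl | rfl <;>
        simp only [List.getD_cons_succ, List.getD_cons_zero] <;>
        refine AXA_sz (r := 3) (by norm_num) h4 ?_ <;>
        simp only [len] <;>
        omega

/-- MODULE AXA. -/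
theorem sp_axDn : SP 2 (fun e => AxDn (e 0) (e 1)) := by
  have h : SP (2 + 2) (fun e => NgR (e 0) (e 2) ∧ NgR (e 2) (e 3) ∧ ImR (e 3) (e 0) (e 1)) :=
    (sp_ng.v [0, 2] (by decide)).and ((sp_ng.v [2, 3] (by decide)).and
      (sp_im.v [3, 0, 1] (by decide)))
  refine h.of ?_ 1 ?_
  · intro e w hw
    simp only [join] at hw
    norm_num at hw
    obtain ⟨⟨φ, h1, h2⟩, h3, h4⟩ := hw
    rw [h2, AXA_ng] at h3
    rw [h3, h1, AXA_im] at h4
    exact ⟨φ, h1, h4⟩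
  · rintro e ⟨φ, h1, h2⟩
    refine ⟨fun i => [cd (neg φ), cd (neg (neg φ))].getD i 0, ?_, ?_⟩
    · simp only [join]
      norm_num
      rw [h1, AXA_ng, AXA_ng, AXA_im]
      exact ⟨rfl, rfl, h2⟩
    · intro i hi
      have : i = 0 ∨ i = 1 := by omega
      rcases this with rfl | rfl <;>
        simp only [List.getD_cons_succ, List.getD_cons_zero] <;>
        refine AXA_sz (r := 1) (by norm_num) h2 ?_ <;>
        simp only [len, neg] <;>
        omega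

end Pool.Agent.MycW
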