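import Pool.Agent.MycW.Mach
import Pool.Agent.MycW.RLstB
import Pool.Agent.MycW.RAxA
import Pool.Agent.MycW.Mv1

set_option autoImplicit false

/-! # MODULE MV5: moves -/

namespace Pool.Agent.MycW

open Pool.Agent.Myc Pool.Agent.Myc.Fm

theorem MV5_axK {φ ψ : AFm} {r : ℕ} : AxK (cd φ) (cd ψ) r ↔ r = cd (imp φ (imp ψ φ)) := by
  constructor
  · rintro ⟨φ', ψ', h1, h2, h3⟩
    rw [cd_inj h1, cd_inj h2]
    exact h3
  · intro h
    exact ⟨φ, ψ, rfl, rfl, h⟩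

theorem MV5_axS {φ ψ χ : AFm} {r : ℕ} : AxS (cd φ) (cd ψ) (cd χ) r ↔
    r = cd (imp (imp φ (imp ψ χ)) (imp (imp φ ψ) (imp φ χ))) := by
  constructor
  · rintro ⟨φ', ψ', χ', h1, h2, h3, h4⟩
    rw [cd_inj h1, cd_inj h2, cd_inj h3]
    exact h4
  · intro h
    exact ⟨φ, ψ, χ, rfl, rfl, rfl, h⟩

theorem MV5_axDn {φ : AFm} {r : ℕ} : AxDn (cd φ) r ↔ r = cd (imp (neg (neg φ)) φ) := by
  constructor
  · rintro ⟨φ', h1, h3⟩
    rw [cd_inj h1]
    exact h3
  · intro h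
    exact ⟨φ, rfl, h⟩

/-- A move which takes one formula from the stack and puts an axiom on the list. -/
theorem MV5_ax1 {m : Mv} {Q : Env → Prop} (h : SP (12 + 2) Q) (f : Cfg → AFm)
    (hf : ∀ c, step m c = { c with L := f c :: c.L, W := c.W.tail })
    (hQ : ∀ (c : Cfg) (e : Env), e 3 = c.x → e 4 = c.y → e 5 = c.z → e 12 = cd c.w0 →
      (Q e ↔ e 13 = cd (f c))) :
    SP 12 (StR m) := by
  have h : SP (12 + 2) (fun e => PopR (e 1) (e 12) (e 7) ∧ Q e ∧ LcR (e 13) (e 0) (e 6) ∧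
      e 2 = e 8 ∧ e 3 = e 9 ∧ e 4 = e 10 ∧ e 5 = e 11) :=
    (sp_pop.v [1, 12, 7] (by decide)).and (h.and ((sp_lc.v [13, 0, 6] (by decide)).and
      ((sp_eq.v [2, 8] (by decide)).and ((sp_eq.v [3, 9] (by decide)).and
        ((sp_eq.v [4, 10] (by decide)).and (sp_eq.v [5, 11] (by decide)))))))
  refine MV1_of h (fun c => [cd c.w0, cd (f c)]) ?_ ?_ ?_
  · rintro c e hc h0 h1 h2 h3 h4 h5 ⟨q1, q, p, p2, p3, p4, p5⟩
    rw [h1, MV1_pop] at q1
    rw [hQ c e h3 h4 h5 q1.1] at q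
    rw [q, h0, MV1_lc] at p
    rw [hf]
    exact ⟨p, q1.2, p2 ▸ h2, by simp only; omega, by simp only; omega, by simp only; omega⟩
  · intro c e hc h0 h1 h2 h3 h4 h5 h6 h7 h8 h9 h10 h11 ha
    rw [hf] at h6 h7 h8 h9 h10 h11
    simp only at h6 h7 h8 h9 h10 h11
    have a0 : e 12 = cd c.w0 := ha 0 (by norm_num)
    have a1 : e 13 = cd (f c) := ha 1 (by norm_num)
    refine ⟨?_, (hQ c e h3 h4 h5 a0).2 a1, ?_, by rw [h2, h8], by omega, by omega, by omega⟩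
    · rw [h1, MV1_pop, a0, h7]
      exact ⟨rfl, rfl⟩
    · rw [a1, h0, h6, MV1_lc]
  · intro c hc v hv
    simp only [List.mem_cons, List.not_mem_nil, or_false] at hv
    have t0 := MV1_len_head c.W
    rw [hf]
    simp only [MV1_plen_cons]
    rcases hv with rfl | rfl
    · rw [size_cd, Cfg.w0]; omega
    · rw [size_cd]; omega

/-- A move which takes two formulas from the stack and puts an axiom on the list. -/
theorem MV5_ax2 {m : Mv} {Q : Env → Prop} (h : SP (12 + 4) Q) (f : Cfg → AFm)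
    (hf : ∀ c, step m c = { c with L := f c :: c.L, W := c.W.tail.tail })
    (hQ : ∀ (c : Cfg) (e : Env), e 3 = c.x → e 4 = c.y → e 5 = c.z → e 12 = cd c.w0 →
      e 14 = cd c.w1 → (Q e ↔ e 15 = cd (f c))) :
    SP 12 (StR m) := by
  have h : SP (12 + 4) (fun e => PopR (e 1) (e 12) (e 13) ∧ PopR (e 13) (e 14) (e 7) ∧ Q e ∧
      LcR (e 15) (e 0) (e 6) ∧ e 2 = e 8 ∧ e 3 = e 9 ∧ e 4 = e 10 ∧ e 5 = e 11) :=
    (sp_pop.v [1, 12, 13] (by decide)).and ((sp_pop.v [13, 14, 7] (by decide)).and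
      (h.and ((sp_lc.v [15, 0, 6] (by decide)).and
      ((sp_eq.v [2, 8] (by decide)).and ((sp_eq.v [3, 9] (by decide)).and
        ((sp_eq.v [4, 10] (by decide)).and (sp_eq.v [5, 11] (by decide))))))))
  refine MV1_of h (fun c => [cd c.w0, cdL c.W.tail, cd c.w1, cd (f c)]) ?_ ?_ ?_
  · rintro c e hc h0 h1 h2 h3 h4 h5 ⟨q1, q2, q, p, p2, p3, p4, p5⟩
    rw [h1, MV1_pop] at q1
    rw [q1.2, MV1_pop] at q2
    rw [hQ c e h3 h4 h5 q1.1 q2.1] at q
    rw [q, h0, MV1_lc] at p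
    rw [hf]
    exact ⟨p, q2.2, p2 ▸ h2, by simp only; omega, by simp only; omega, by simp only; omega⟩
  · intro c e hc h0 h1 h2 h3 h4 h5 h6 h7 h8 h9 h10 h11 ha
    rw [hf] at h6 h7 h8 h9 h10 h11
    simp only at h6 h7 h8 h9 h10 h11
    have a0 : e 12 = cd c.w0 := ha 0 (by norm_num)
    have a1 : e 13 = cdL c.W.tail := ha 1 (by norm_num)
    have a2 : e 14 = cd c.w1 := ha 2 (by norm_num)
    have a3 : e 15 = cd (f c) := ha 3 (by norm_num)
    refine ⟨?_, ?_, (hQ c e h3 h4 h5 a0 a2).2 a3, ?_, by rw [h2, h8], by omega, by omega,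
      by omega⟩
    · rw [h1, MV1_pop, a0, a1]
      exact ⟨rfl, rfl⟩
    · rw [a1, MV1_pop, a2, h7]
      exact ⟨rfl, rfl⟩
    · rw [a3, h0, h6, MV1_lc]
  · intro c hc v hv
    simp only [List.mem_cons, List.not_mem_nil, or_false] at hv
    have t0 := MV1_len_head c.W
    have t1 := MV1_len_head c.W.tail
    have t2 := MV1_plen_tail c.W
    rw [hf]
    simp only [MV1_plen_cons]
    rcases hv with rfl | rfl | rfl | rfl
    · rw [size_cd, Cfg.w0]; omega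
    · rw [size_cdL]; omega
    · rw [size_cd, Cfg.w1]; omega
    · rw [size_cd]; omega

/-- MODULE MV5. -/
theorem sp_st_axk : SP 12 (StR .axk) := by
  refine MV5_ax2 (Q := fun e => AxK (e 14) (e 12) (e 15)) (sp_axK.v [14, 12, 15] (by decide))
    (fun c => imp c.w1 (imp c.w0 c.w1)) (fun c => rfl) ?_
  intro c e _ _ _ a0 a2
  rw [a0, a2, MV5_axK]

/-- MODULE MV5. -/
theorem sp_st_axs : SP 12 (StR .axs) := by
  have h : SP (12 + 6) (fun e => PopR (e 1) (e 12) (e 13) ∧ PopR (e 13) (e 14) (e 15) ∧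
      PopR (e 15) (e 16) (e 7) ∧ AxS (e 16) (e 14) (e 12) (e 17) ∧
      LcR (e 17) (e 0) (e 6) ∧ e 2 = e 8 ∧ e 3 = e 9 ∧ e 4 = e 10 ∧ e 5 = e 11) :=
    (sp_pop.v [1, 12, 13] (by decide)).and ((sp_pop.v [13, 14, 15] (by decide)).and
      ((sp_pop.v [15, 16, 7] (by decide)).and ((sp_axS.v [16, 14, 12, 17] (by decide)).and
      ((sp_lc.v [17, 0, 6] (by decide)).and
      ((sp_eq.v [2, 8] (by decide)).and ((sp_eq.v [3, 9] (by decide)).and
        ((sp_eq.v [4, 10] (by decide)).and (sp_eq.v [5, 11] (by decide)))))))))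
  refine MV1_of h (fun c => [cd c.w0, cdL c.W.tail, cd c.w1, cdL c.W.tail.tail, cd c.w2,
    cd (imp (imp c.w2 (imp c.w1 c.w0)) (imp (imp c.w2 c.w1) (imp c.w2 c.w0)))]) ?_ ?_ ?_
  · rintro c e hc h0 h1 h2 h3 h4 h5 ⟨q1, q2, q3, q, p, p2, p3, p4, p5⟩
    rw [h1, MV1_pop] at q1
    rw [q1.2, MV1_pop] at q2
    rw [q2.2, MV1_pop] at q3
    rw [q1.1, q2.1, q3.1, MV5_axS] at q
    rw [q, h0, MV1_lc] at p
    simp only [step]
    exact ⟨p, q3.2, p2 ▸ h2, by omega, by omega, by omega⟩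
  · intro c e hc h0 h1 h2 h3 h4 h5 h6 h7 h8 h9 h10 h11 ha
    simp only [step] at h6 h7 h8 h9 h10 h11
    have a0 : e 12 = cd c.w0 := ha 0 (by norm_num)
    have a1 : e 13 = cdL c.W.tail := ha 1 (by norm_num)
    have a2 : e 14 = cd c.w1 := ha 2 (by norm_num)
    have a3 : e 15 = cdL c.W.tail.tail := ha 3 (by norm_num)
    have a4 : e 16 = cd c.w2 := ha 4 (by norm_num)
    have a5 : e 17 = cd (imp (imp c.w2 (imp c.w1 c.w0)) (imp (imp c.w2 c.w1) (imp c.w2 c.w0))) :=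
      ha 5 (by norm_num)
    refine ⟨?_, ?_, ?_, ?_, ?_, by rw [h2, h8], by omega, by omega, by omega⟩
    · rw [h1, MV1_pop, a0, a1]
      exact ⟨rfl, rfl⟩
    · rw [a1, MV1_pop, a2, a3]
      exact ⟨rfl, rfl⟩
    · rw [a3, MV1_pop, a4, h7]
      exact ⟨rfl, rfl⟩
    · rw [a0, a2, a4, MV5_axS, a5]
    · rw [a5, h0, h6, MV1_lc]
  · intro c hc v hv
    simp only [List.mem_cons, List.not_mem_nil, or_false] at hv
    have t0 := MV1_len_head c.W
    have t1 := MV1_len_head c.W.tail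
    have t4 := MV1_len_head c.W.tail.tail
    have t2 := MV1_plen_tail c.W
    have t3 := MV1_plen_tail c.W.tail
    simp only [step, MV1_plen_cons]
    rcases hv with rfl | rfl | rfl | rfl | rfl | rfl
    · rw [size_cd, Cfg.w0]; omega
    · rw [size_cdL]; omega
    · rw [size_cd, Cfg.w1]; omega
    · rw [size_cdL]; omega
    · rw [size_cd, Cfg.w2]; omega
    · rw [size_cd]; omega

/-- MODULE MV5. -/
theorem sp_st_axdn : SP 12 (StR .axdn) := by
  refine MV5_ax1 (Q := fun e => AxDn (e 12) (e 13)) (sp_axDn.v [12, 13] (by decide))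
    (fun c => imp (neg (neg c.w0)) c.w0) (fun c => rfl) ?_
  intro c e _ _ _ a0
  rw [a0, MV5_axDn]

end Pool.Agent.MycW
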