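import Pool.Agent.MycW.RRn

set_option autoImplicit false

/-! # MODULE LFIN: lifting and instances -/

namespace Pool.Agent.MycW

open Pool.Agent.Myc Pool.Agent.Myc.Fm

/-- MODULE LFIN. HINT: `RnR 0 0 x y`. -/
theorem sp_lf : SP 2 (fun e => LfR (e 0) (e 1)) := by
  have h : SP (2 + 1) (fun e => e 2 = 0 ∧ RnR (e 2) (e 2) (e 0) (e 1)) :=
    ((sp_const 0).v (n := 3) [2] (by decide)).and (sp_rn.v (n := 3) [2, 2, 0, 1] (by decide))
  refine h.of ?_ 1 ?_
  · intro e w hw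
    have hw' : w 0 = 0 ∧ RnR (w 0) (w 0) (e 0) (e 1) := hw
    obtain ⟨h1, h2⟩ := hw'
    rw [h1] at h2
    exact h2
  · intro e he
    refine ⟨fun _ => 0, ?_, ?_⟩
    · show (0 : ℕ) = 0 ∧ RnR 0 0 (e 0) (e 1)
      exact ⟨rfl, he⟩
    · intro i _
      simp

/-- MODULE LFIN. HINT: `RnR (j + 1) 0 x y`. -/
theorem sp_inr : SP 3 (fun e => InR (e 0) (e 1) (e 2)) := by
  have h : SP (3 + 2) (fun e => e 3 = 0 ∧ e 0 + 1 = e 4 ∧ RnR (e 4) (e 3) (e 1) (e 2)) :=
    ((sp_const 0).v (n := 5) [3] (by decide)).and ((sp_suc.v (n := 5) [0, 4] (by decide)).and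
      (sp_rn.v (n := 5) [4, 3, 1, 2] (by decide)))
  refine h.of ?_ 1 ?_
  · intro e w hw
    have hw' : w 0 = 0 ∧ e 0 + 1 = w 1 ∧ RnR (w 1) (w 0) (e 1) (e 2) := hw
    obtain ⟨h1, h2, h3⟩ := hw'
    rw [h1, ← h2] at h3
    exact h3
  · intro e he
    refine ⟨fun i => if i = 0 then 0 else e 0 + 1, ?_, ?_⟩
    · show (0 : ℕ) = 0 ∧ e 0 + 1 = e 0 + 1 ∧ RnR (e 0 + 1) 0 (e 1) (e 2)
      exact ⟨rfl, rfl, he⟩
    · intro i _
      have h3 := size_le_SzE (k := 3) (i := 0) (by norm_num) e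
      simp only [pow_one, one_mul]
      by_cases h : i = 0
      · rw [if_pos h]
        simp
      · rw [if_neg h]
        have h4 : Nat.size (e 0 + 1) ≤ Nat.size (e 0) + 1 := by
          rw [Nat.size_le]
          have h5 := Nat.lt_size_self (e 0)
          rw [pow_succ]
          omega
        omega

end Pool.Agent.MycW
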