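import Pool.Agent.MycW.RImAl
import Pool.Agent.MycW.RLfIn

set_option autoImplicit false

/-! # MODULE AXB: the axioms for quantifiers -/

namespace Pool.Agent.MycW

open Pool.Agent.Myc Pool.Agent.Myc.Fm

theorem AXB_sz {k r : ℕ} (hr : r < k) {e : Env} {φ ψ : AFm} (h : e r = cd ψ)
    (hl : len φ ≤ len ψ) : Nat.size (cd φ) ≤ 1 * (SzE k e + 1) ^ 1 := by
  have h1 := size_le_SzE hr e
  rw [h, size_cd] at h1
  rw [size_cd, pow_one, one_mul]
  omega

theorem AXB_im {φ ψ : AFm} {z : ℕ} : ImR (cd φ) (cd ψ) z ↔ z = cd (imp φ ψ) := by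
  constructor
  · rintro ⟨φ', ψ', h1, h2, h3⟩
    rw [h3, cd_inj h1, cd_inj h2]
  · intro h
    exact ⟨φ, ψ, rfl, rfl, h⟩

theorem AXB_al {φ : AFm} {z : ℕ} : AlR (cd φ) z ↔ z = cd (all φ) := by
  constructor
  · rintro ⟨φ', h1, h3⟩
    rw [h3, cd_inj h1]
  · intro h
    exact ⟨φ, rfl, h⟩

theorem AXB_in {j : ℕ} {φ : AFm} {z : ℕ} :
    InR j (cd φ) z ↔ z = cd (rename (instMap j) φ) := by
  constructor
  · rintro ⟨φ', h1, h3⟩
    rw [h3, cd_inj h1]
  · intro h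
    exact ⟨φ, rfl, h⟩

theorem AXB_lf {φ : AFm} {z : ℕ} : LfR (cd φ) z ↔ z = cd (rename Nat.succ φ) := by
  constructor
  · rintro ⟨φ', h1, h3⟩
    rw [h3, cd_inj h1]
  · intro h
    exact ⟨φ, rfl, h⟩

/-- MODULE AXB. -/
theorem sp_axIn : SP 3 (fun e => AxIn (e 0) (e 1) (e 2)) := by
  have h : SP (3 + 2) (fun e => AlR (e 1) (e 3) ∧ InR (e 0) (e 1) (e 4) ∧
      ImR (e 3) (e 4) (e 2)) :=
    (sp_al.v [1, 3] (by decide)).and ((sp_inr.v [0, 1, 4] (by decide)).and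
      (sp_im.v [3, 4, 2] (by decide)))
  refine h.of ?_ 1 ?_
  · intro e w hw
    simp only [join] at hw
    norm_num at hw
    obtain ⟨⟨φ, h1, h2⟩, h3, h4⟩ := hw
    rw [h1, AXB_in] at h3
    rw [h2, h3, AXB_im] at h4
    exact ⟨φ, h1, h4⟩
  · rintro e ⟨φ, h1, h2⟩
    refine ⟨fun i => [cd (all φ), cd (rename (instMap (e 0)) φ)].getD i 0, ?_, ?_⟩
    · simp only [join]
      norm_num
      rw [h1, AXB_al, AXB_in, AXB_im]
      exact ⟨rfl, rfl, h2⟩
    · intro i hi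
      have : i = 0 ∨ i = 1 := by omega
      rcases this with rfl | rfl <;>
        simp only [List.getD_cons_succ, List.getD_cons_zero] <;>
        refine AXB_sz (r := 2) (by norm_num) h2 ?_ <;>
        simp only [len] <;>
        omega

/-- MODULE AXB. -/
theorem sp_axDi : SP 3 (fun e => AxDi (e 0) (e 1) (e 2)) := by
  have h : SP (3 + 5) (fun e => ImR (e 0) (e 1) (e 3) ∧ AlR (e 3) (e 4) ∧ AlR (e 0) (e 5) ∧
      AlR (e 1) (e 6) ∧ ImR (e 5) (e 6) (e 7) ∧ ImR (e 4) (e 7) (e 2)) :=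
    (sp_im.v [0, 1, 3] (by decide)).and ((sp_al.v [3, 4] (by decide)).and
      ((sp_al.v [0, 5] (by decide)).and ((sp_al.v [1, 6] (by decide)).and
        ((sp_im.v [5, 6, 7] (by decide)).and (sp_im.v [4, 7, 2] (by decide))))))
  refine h.of ?_ 1 ?_
  · intro e w hw
    simp only [join] at hw
    norm_num at hw
    obtain ⟨⟨φ, ψ, h1, h2, h3⟩, h4, h5, h6, h7, h8⟩ := hw
    rw [h3, AXB_al] at h4
    rw [h1, AXB_al] at h5
    rw [h2, AXB_al] at h6
    rw [h5, h6, AXB_im] at h7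
    rw [h4, h7, AXB_im] at h8
    exact ⟨φ, ψ, h1, h2, h8⟩
  · rintro e ⟨φ, ψ, h1, h2, h3⟩
    refine ⟨fun i => [cd (imp φ ψ), cd (all (imp φ ψ)), cd (all φ), cd (all ψ),
      cd (imp (all φ) (all ψ))].getD i 0, ?_, ?_⟩
    · simp only [join]
      norm_num
      rw [h1, h2, AXB_im, AXB_al, AXB_al, AXB_al, AXB_im, AXB_im]
      exact ⟨rfl, rfl, rfl, rfl, rfl, h3⟩
    · intro i hi
      have : i = 0 ∨ i = 1 ∨ i = 2 ∨ i = 3 ∨ i = 4 := by omega
      rcases this with rfl | rfl | rfl | rfl | rfl <;>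
        simp only [List.getD_cons_succ, List.getD_cons_zero] <;>
        refine AXB_sz (r := 2) (by norm_num) h3 ?_ <;>
        simp only [len] <;>
        omega

/-- MODULE AXB. -/
theorem sp_axVa : SP 2 (fun e => AxVa (e 0) (e 1)) := by
  have h : SP (2 + 2) (fun e => LfR (e 0) (e 2) ∧ AlR (e 2) (e 3) ∧ ImR (e 0) (e 3) (e 1)) :=
    (sp_lf.v [0, 2] (by decide)).and ((sp_al.v [2, 3] (by decide)).and
      (sp_im.v [0, 3, 1] (by decide)))
  refine h.of ?_ 1 ?_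
  · intro e w hw
    simp only [join] at hw
    norm_num at hw
    obtain ⟨⟨φ, h1, h2⟩, h3, h4⟩ := hw
    rw [h2, AXB_al] at h3
    rw [h1, h3, AXB_im] at h4
    exact ⟨φ, h1, h4⟩
  · rintro e ⟨φ, h1, h2⟩
    refine ⟨fun i => [cd (rename Nat.succ φ), cd (all (rename Nat.succ φ))].getD i 0, ?_, ?_⟩
    · simp only [join]
      norm_num
      rw [h1, AXB_lf, AXB_al, AXB_im]
      exact ⟨rfl, rfl, h2⟩
    · intro i hi
      have : i = 0 ∨ i = 1 := by omega
      rcases this with rfl | rfl <;>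
        simp only [List.getD_cons_succ, List.getD_cons_zero] <;>
        refine AXB_sz (r := 1) (by norm_num) h2 ?_ <;>
        simp only [len] <;>
        omega

end Pool.Agent.MycW
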