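import Pool.Agent.MycW.Mach
import Pool.Agent.MycW.RLstB
import Pool.Agent.MycW.RAxB
import Pool.Agent.MycW.Mv5

set_option autoImplicit false

/-! # MODULE MV6: moves -/

namespace Pool.Agent.MycW

open Pool.Agent.Myc Pool.Agent.Myc.Fm

theorem MV6_axIn {φ : AFm} {j r : ℕ} : AxIn j (cd φ) r ↔
    r = cd (imp (all φ) (rename (instMap j) φ)) := by
  constructor
  · rintro ⟨φ', h1, h3⟩
    rw [cd_inj h1]
    exact h3
  · intro h
    exact ⟨φ, rfl, h⟩

theorem MV6_axDi {φ ψ : AFm} {r : ℕ} : AxDi (cd φ) (cd ψ) r ↔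
    r = cd (imp (all (imp φ ψ)) (imp (all φ) (all ψ))) := by
  constructor
  · rintro ⟨φ', ψ', h1, h2, h3⟩
    rw [cd_inj h1, cd_inj h2]
    exact h3
  · intro h
    exact ⟨φ, ψ, rfl, rfl, h⟩

theorem MV6_axVa {φ : AFm} {r : ℕ} : AxVa (cd φ) r ↔
    r = cd (imp φ (all (rename Nat.succ φ))) := by
  constructor
  · rintro ⟨φ', h1, h3⟩
    rw [cd_inj h1]
    exact h3
  · intro h
    exact ⟨φ, rfl, h⟩

/-- MODULE MV6. -/
theorem sp_st_axin : SP 12 (StR .axin) := by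
  refine MV5_ax1 (Q := fun e => AxIn (e 3) (e 12) (e 13)) (sp_axIn.v [3, 12, 13] (by decide))
    (fun c => imp (all c.w0) (rename (instMap c.x) c.w0)) (fun c => rfl) ?_
  intro c e h3 _ _ a0
  rw [a0, h3, MV6_axIn]

/-- MODULE MV6. -/
theorem sp_st_axdi : SP 12 (StR .axdi) := by
  refine MV5_ax2 (Q := fun e => AxDi (e 14) (e 12) (e 15)) (sp_axDi.v [14, 12, 15] (by decide))
    (fun c => imp (all (imp c.w1 c.w0)) (imp (all c.w1) (all c.w0))) (fun c => rfl) ?_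
  intro c e _ _ _ a0 a2
  rw [a0, a2, MV6_axDi]

/-- MODULE MV6. -/
theorem sp_st_axva : SP 12 (StR .axva) := by
  refine MV5_ax1 (Q := fun e => AxVa (e 12) (e 13)) (sp_axVa.v [12, 13] (by decide))
    (fun c => imp c.w0 (all (rename Nat.succ c.w0))) (fun c => rfl) ?_
  intro c e h3 _ _ a0
  rw [a0, MV6_axVa]

end Pool.Agent.MycW
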