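import Pool.Agent.MycW.RImAl
import Pool.Agent.MycW.RLfIn

set_option autoImplicit false

/-! # MODULE AXC: the axioms for equality -/

namespace Pool.Agent.MycW

open Pool.Agent.Myc Pool.Agent.Myc.Fm

theorem AXC_sz {k r : ℕ} (hr : r < k) {e : Env} {φ ψ : AFm} (h : e r = cd ψ)
    (hl : len φ ≤ len ψ) : Nat.size (cd φ) ≤ 1 * (SzE k e + 1) ^ 1 := by
  have h1 := size_le_SzE hr e
  rw [h, size_cd] at h1
  rw [size_cd, pow_one, one_mul]
  omega

theorem AXC_im {φ ψ : AFm} {z : ℕ} : ImR (cd φ) (cd ψ) z ↔ z = cd (imp φ ψ) := by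
  constructor
  · rintro ⟨φ', ψ', h1, h2, h3⟩
    rw [h3, cd_inj h1, cd_inj h2]
  · intro h
    exact ⟨φ, ψ, rfl, rfl, h⟩

theorem AXC_in {j : ℕ} {φ : AFm} {z : ℕ} :
    InR j (cd φ) z ↔ z = cd (rename (instMap j) φ) := by
  constructor
  · rintro ⟨φ', h1, h3⟩
    rw [h3, cd_inj h1]
  · intro h
    exact ⟨φ, rfl, h⟩

/-- MODULE AXC. -/
theorem sp_axRe : SP 2 (fun e => AxRe (e 0) (e 1)) :=
  sp_aeq.v (n := 2) [0, 0, 1] (by decide)

/-- MODULE AXC. -/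
theorem sp_axLe : SP 4 (fun e => AxLe (e 0) (e 1) (e 2) (e 3)) := by
  have h : SP (4 + 4) (fun e => e 4 = cd (Fm.eq (e 0) (e 1) : AFm) ∧ InR (e 0) (e 2) (e 5) ∧
      InR (e 1) (e 2) (e 6) ∧ ImR (e 5) (e 6) (e 7) ∧ ImR (e 4) (e 7) (e 3)) :=
    (sp_aeq.v [0, 1, 4] (by decide)).and ((sp_inr.v [0, 2, 5] (by decide)).and
      ((sp_inr.v [1, 2, 6] (by decide)).and ((sp_im.v [5, 6, 7] (by decide)).and
        (sp_im.v [4, 7, 3] (by decide)))))
  refine h.of ?_ 1 ?_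
  · intro e w hw
    simp only [join] at hw
    norm_num at hw
    obtain ⟨h1, ⟨φ, h2, h3⟩, h4, h5, h6⟩ := hw
    rw [h2, AXC_in] at h4
    rw [h3, h4, AXC_im] at h5
    rw [h1, h5, AXC_im] at h6
    exact ⟨φ, h2, h6⟩
  · rintro e ⟨φ, h1, h2⟩
    refine ⟨fun i => [cd (Fm.eq (e 0) (e 1) : AFm), cd (rename (instMap (e 0)) φ),
      cd (rename (instMap (e 1)) φ),
      cd (imp (rename (instMap (e 0)) φ) (rename (instMap (e 1)) φ))].getD i 0, ?_, ?_⟩
    · simp only [join]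
      norm_num
      rw [h1, AXC_in, AXC_in, AXC_im, AXC_im]
      exact ⟨rfl, rfl, rfl, h2⟩
    · intro i hi
      have : i = 0 ∨ i = 1 ∨ i = 2 ∨ i = 3 := by omega
      rcases this with rfl | rfl | rfl | rfl <;>
        simp only [List.getD_cons_succ, List.getD_cons_zero] <;>
        refine AXC_sz (r := 3) (by norm_num) h2 ?_ <;>
        simp only [len] <;>
        omega

end Pool.Agent.MycW
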