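import Pool.Agent.MycW.Mach
import Pool.Agent.MycW.RLstB
import Pool.Agent.MycW.RAxC
import Pool.Agent.MycW.Mv5

set_option autoImplicit false

/-! # MODULE MV7: moves -/

namespace Pool.Agent.MycW

open Pool.Agent.Myc Pool.Agent.Myc.Fm

theorem MV7_axLe {φ : AFm} {i j r : ℕ} : AxLe i j (cd φ) r ↔
    r = cd (imp (eq i j) (imp (rename (instMap i) φ) (rename (instMap j) φ))) := by
  constructor
  · rintro ⟨φ', h1, h3⟩
    rw [cd_inj h1]
    exact h3
  · intro h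
    exact ⟨φ, rfl, h⟩

/-- MODULE MV7. -/
theorem sp_st_axre : SP 12 (StR .axre) := by
  have h : SP (12 + 1) (fun e => AxRe (e 3) (e 12) ∧
      LcR (e 12) (e 0) (e 6) ∧ e 1 = e 7 ∧ e 2 = e 8 ∧ e 3 = e 9 ∧ e 4 = e 10 ∧ e 5 = e 11) :=
    (sp_axRe.v [3, 12] (by decide)).and
      ((sp_lc.v [12, 0, 6] (by decide)).and ((sp_eq.v [1, 7] (by decide)).and
      ((sp_eq.v [2, 8] (by decide)).and ((sp_eq.v [3, 9] (by decide)).and
        ((sp_eq.v [4, 10] (by decide)).and (sp_eq.v [5, 11] (by decide)))))))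
  refine MV1_of h (fun c => [cd (eq c.x c.x : AFm)]) ?_ ?_ ?_
  · rintro c e hc h0 h1 h2 h3 h4 h5 ⟨q, p, p1, p2, p3, p4, p5⟩
    have q' : e 12 = cd (eq (e 3) (e 3) : AFm) := q
    rw [q', h0, MV1_lc, h3] at p
    simp only [step]
    exact ⟨p, p1 ▸ h1, p2 ▸ h2, by omega, by omega, by omega⟩
  · intro c e hc h0 h1 h2 h3 h4 h5 h6 h7 h8 h9 h10 h11 ha
    simp only [step] at h6 h7 h8 h9 h10 h11
    have a0 : e 12 = cd (eq c.x c.x : AFm) := ha 0 (by norm_num)
    refine ⟨?_, ?_, by rw [h1, h7], by rw [h2, h8], by omega, by omega, by omega⟩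
    · show e 12 = cd (eq (e 3) (e 3) : AFm)
      rw [a0, h3]
    · rw [a0, h0, h6, MV1_lc]
  · intro c hc v hv
    simp only [List.mem_cons, List.not_mem_nil, or_false] at hv
    simp only [step, MV1_plen_cons]
    rw [hv, size_cd]
    omega

/-- MODULE MV7. -/
theorem sp_st_axle : SP 12 (StR .axle) := by
  refine MV5_ax1 (Q := fun e => AxLe (e 3) (e 4) (e 12) (e 13))
    (sp_axLe.v [3, 4, 12, 13] (by decide))
    (fun c => imp (eq c.x c.y) (imp (rename (instMap c.x) c.w0) (rename (instMap c.y) c.w0)))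
    (fun c => rfl) ?_
  intro c e h3 h4 _ a0
  rw [a0, h3, h4, MV7_axLe]

/-- MODULE MV7. -/
theorem sp_st_gen : SP 12 (StR .gen) := by
  have h : SP (12 + 3) (fun e => PopR (e 0) (e 12) (e 13) ∧ AlR (e 12) (e 14) ∧
      LcR (e 14) (e 0) (e 6) ∧ e 1 = e 7 ∧ e 2 = e 8 ∧ e 3 = e 9 ∧ e 4 = e 10 ∧ e 5 = e 11) :=
    (sp_pop.v [0, 12, 13] (by decide)).and ((sp_al.v [12, 14] (by decide)).and
      ((sp_lc.v [14, 0, 6] (by decide)).and ((sp_eq.v [1, 7] (by decide)).and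
      ((sp_eq.v [2, 8] (by decide)).and ((sp_eq.v [3, 9] (by decide)).and
        ((sp_eq.v [4, 10] (by decide)).and (sp_eq.v [5, 11] (by decide))))))))
  refine MV1_of h (fun c => [cd (c.L.headD bot), cdL c.L.tail, cd (all (c.L.headD bot))]) ?_ ?_ ?_
  · rintro c e hc h0 h1 h2 h3 h4 h5 ⟨q1, q, p, p1, p2, p3, p4, p5⟩
    rw [h0, MV1_pop] at q1
    rw [q1.1, MV1_al] at q
    rw [q, h0, MV1_lc] at p
    simp only [step]
    exact ⟨p, p1 ▸ h1, p2 ▸ h2, by omega, by omega, by omega⟩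
  · intro c e hc h0 h1 h2 h3 h4 h5 h6 h7 h8 h9 h10 h11 ha
    simp only [step] at h6 h7 h8 h9 h10 h11
    have a0 : e 12 = cd (c.L.headD bot) := ha 0 (by norm_num)
    have a1 : e 13 = cdL c.L.tail := ha 1 (by norm_num)
    have a2 : e 14 = cd (all (c.L.headD bot)) := ha 2 (by norm_num)
    refine ⟨?_, ?_, ?_, by rw [h1, h7], by rw [h2, h8], by omega, by omega, by omega⟩
    · rw [h0, MV1_pop, a0, a1]
      exact ⟨rfl, rfl⟩
    · rw [a0, MV1_al, a2]
    · rw [a2, h0, h6, MV1_lc]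
  · intro c hc v hv
    simp only [List.mem_cons, List.not_mem_nil, or_false] at hv
    have t0 := MV1_len_head c.L
    have t2 := MV1_plen_tail c.L
    simp only [step, MV1_plen_cons]
    rcases hv with rfl | rfl | rfl
    · rw [size_cd]; omega
    · rw [size_cdL]; omega
    · rw [size_cd]; omega

end Pool.Agent.MycW
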