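import Pool.Agent.MycW.Mach
import Pool.Agent.MycW.RLstB
import Pool.Agent.MycW.RImAl
import Pool.Agent.MycW.Mv1

set_option autoImplicit false

/-! # MODULE MV8: moves -/

namespace Pool.Agent.MycW

open Pool.Agent.Myc Pool.Agent.Myc.Fm

theorem MV8_rot {l : List AFm} (hl : l ≠ []) {z : ℕ} :
    RotR (cdL l) z ↔ z = cdL (l.tail ++ [l.headD bot]) := by
  obtain ⟨φ, l, rfl⟩ := List.exists_cons_of_ne_nil hl
  constructor
  · rintro ⟨ψ, l', h1, h2⟩
    have h3 := cdL_inj h1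
    rw [List.cons.injEq] at h3
    rw [h2, List.tail_cons, List.headD_cons, h3.1, h3.2]
  · intro h
    exact ⟨φ, l, rfl, h⟩

/-- MODULE MV8. -/
theorem sp_st_rot : SP 12 (StR .rot) := by
  have h : SP (12 + 0) (fun e => RotR (e 0) (e 6) ∧
      e 1 = e 7 ∧ e 2 = e 8 ∧ e 3 = e 9 ∧ e 4 = e 10 ∧ e 5 = e 11) :=
    (sp_rot.v [0, 6] (by decide)).and ((sp_eq.v [1, 7] (by decide)).and
      ((sp_eq.v [2, 8] (by decide)).and ((sp_eq.v [3, 9] (by decide)).and
        ((sp_eq.v [4, 10] (by decide)).and (sp_eq.v [5, 11] (by decide))))))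
  refine MV1_of h (fun _ => []) ?_ ?_ ?_
  · rintro c e hc h0 h1 h2 h3 h4 h5 ⟨q, p1, p2, p3, p4, p5⟩
    rw [h0, MV8_rot hc] at q
    simp only [step]
    exact ⟨q, p1 ▸ h1, p2 ▸ h2, by omega, by omega, by omega⟩
  · intro c e hc h0 h1 h2 h3 h4 h5 h6 h7 h8 h9 h10 h11 _
    simp only [step] at h6 h7 h8 h9 h10 h11
    refine ⟨?_, by rw [h1, h7], by rw [h2, h8], by omega, by omega, by omega⟩
    rw [h0, MV8_rot hc, h6]
  · intro c hc v hv
    simp at hv

/-- MODULE MV8. -/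
theorem sp_st_ld : SP 12 (StR .ld) := by
  have h : SP (12 + 1) (fun e => PopR (e 0) (e 8) (e 12) ∧ e 0 = e 6 ∧
      e 1 = e 7 ∧ e 3 = e 9 ∧ e 4 = e 10 ∧ e 5 = e 11) :=
    (sp_pop.v [0, 8, 12] (by decide)).and ((sp_eq.v [0, 6] (by decide)).and
      ((sp_eq.v [1, 7] (by decide)).and ((sp_eq.v [3, 9] (by decide)).and
        ((sp_eq.v [4, 10] (by decide)).and (sp_eq.v [5, 11] (by decide))))))
  refine MV1_of h (fun c => [cdL c.L.tail]) ?_ ?_ ?_
  · rintro c e hc h0 h1 h2 h3 h4 h5 ⟨q, p0, p1, p3, p4, p5⟩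
    rw [h0, MV1_pop] at q
    simp only [step]
    exact ⟨p0 ▸ h0, p1 ▸ h1, q.1, by omega, by omega, by omega⟩
  · intro c e hc h0 h1 h2 h3 h4 h5 h6 h7 h8 h9 h10 h11 ha
    simp only [step] at h6 h7 h8 h9 h10 h11
    have a0 : e 12 = cdL c.L.tail := ha 0 (by norm_num)
    refine ⟨?_, by rw [h0, h6], by rw [h1, h7], by omega, by omega, by omega⟩
    rw [h0, MV1_pop, h8, a0]
    exact ⟨rfl, rfl⟩
  · intro c hc v hv
    simp only [List.mem_cons, List.not_mem_nil, or_false] at hv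
    have t2 := MV1_plen_tail c.L
    rw [hv, size_cdL]
    omega

/-- MODULE MV8. HINT: two cases: `e 2 = u` or `e 2 ≠ u` (`sp_ne`) for the number `u` of the
implication from the head of the list to the top of the stack. -/
theorem sp_st_mp : SP 12 (StR .mp) := by
  have h : SP (12 + 4) (fun e => PopR (e 0) (e 12) (e 13) ∧ PopR (e 1) (e 14) (e 7) ∧
      ImR (e 12) (e 14) (e 15) ∧
      ((e 2 = e 15 ∧ LcR (e 14) (e 0) (e 6)) ∨ (e 2 ≠ e 15 ∧ e 0 = e 6)) ∧
      e 2 = e 8 ∧ e 3 = e 9 ∧ e 4 = e 10 ∧ e 5 = e 11) :=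
    (sp_pop.v [0, 12, 13] (by decide)).and ((sp_pop.v [1, 14, 7] (by decide)).and
      ((sp_im.v [12, 14, 15] (by decide)).and
      ((((sp_eq.v [2, 15] (by decide)).and (sp_lc.v [14, 0, 6] (by decide))).or
        ((sp_ne.v [2, 15] (by decide)).and (sp_eq.v [0, 6] (by decide)))).and
      ((sp_eq.v [2, 8] (by decide)).and ((sp_eq.v [3, 9] (by decide)).and
        ((sp_eq.v [4, 10] (by decide)).and (sp_eq.v [5, 11] (by decide))))))))
  refine MV1_of h (fun c => [cd (c.L.headD bot), cdL c.L.tail, cd c.w0,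
    cd (imp (c.L.headD bot) c.w0)]) ?_ ?_ ?_
  · rintro c e hc h0 h1 h2 h3 h4 h5 ⟨q0, q1, q, r, p2, p3, p4, p5⟩
    rw [h0, MV1_pop] at q0
    rw [h1, MV1_pop] at q1
    rw [q0.1, q1.1, MV1_im] at q
    have key : e 6 = cdL (step .mp c).L := by
      simp only [step]
      by_cases hca : c.a = imp (c.L.headD bot) c.w0
      · rw [if_pos hca]
        rcases r with ⟨-, r⟩ | ⟨r, -⟩
        · rw [q1.1, h0, MV1_lc] at r
          exact r
        · exact absurd (by rw [h2, q, hca]; rfl) r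
      · rw [if_neg hca]
        rcases r with ⟨r, -⟩ | ⟨-, r⟩
        · rw [h2, q] at r
          exact absurd (cd_inj r) hca
        · exact r ▸ h0
    refine ⟨key, ?_⟩
    simp only [step]
    exact ⟨q1.2, p2 ▸ h2, by omega, by omega, by omega⟩
  · intro c e hc h0 h1 h2 h3 h4 h5 h6 h7 h8 h9 h10 h11 ha
    simp only [step] at h6 h7 h8 h9 h10 h11
    have a0 : e 12 = cd (c.L.headD bot) := ha 0 (by norm_num)
    have a1 : e 13 = cdL c.L.tail := ha 1 (by norm_num)
    have a2 : e 14 = cd c.w0 := ha 2 (by norm_num)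
    have a3 : e 15 = cd (imp (c.L.headD bot) c.w0) := ha 3 (by norm_num)
    refine ⟨?_, ?_, ?_, ?_, by rw [h2, h8], by omega, by omega, by omega⟩
    · rw [h0, MV1_pop, a0, a1]
      exact ⟨rfl, rfl⟩
    · rw [h1, MV1_pop, a2, h7]
      exact ⟨rfl, rfl⟩
    · rw [a0, a2, MV1_im, a3]
    · by_cases hca : c.a = imp (c.L.headD bot) c.w0
      · rw [if_pos hca] at h6
        left
        refine ⟨by rw [h2, a3, hca], ?_⟩
        rw [a2, h0, MV1_lc, h6]
      · rw [if_neg hca] at h6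
        right
        refine ⟨?_, by rw [h0, h6]⟩
        rw [h2, a3]
        exact fun h => hca (cd_inj h)
  · intro c hc v hv
    simp only [List.mem_cons, List.not_mem_nil, or_false] at hv
    have t0 := MV1_len_head c.L
    have t1 := MV1_len_head c.W
    have t2 := MV1_plen_tail c.L
    rcases hv with rfl | rfl | rfl | rfl
    · rw [size_cd]; omega
    · rw [size_cdL]; omega
    · rw [size_cd, Cfg.w0]; omega
    · rw [size_cd, Cfg.w0]
      obtain ⟨φ, l, hl⟩ := List.exists_cons_of_ne_nil hc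
      simp only [len, hl, List.headD_cons, MV1_plen_cons]
      omega

end Pool.Agent.MycW
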