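import Pool.Agent.MycW.RFmla
import Pool.Agent.Myc.StdB
import Pool.Agent.Myc.Prv

set_option autoImplicit false

/-! # MODULE LST: lists -/

namespace Pool.Agent.MycW

open Pool.Agent.Myc Pool.Agent.Myc.Fm

/- `cd φ = codeS (encode φ)`, and `encode` of a compound formula is a concatenation, see
`Pool/Agent/Myc/Defs.lean`; `Cc_codeS u v z : Cc (codeS u) (codeS v) z ↔ z = codeS (u ++ v)`. The
number of bits of `codeS w` is `w.length + 1` (`RepC_size_codeS` in `Pool/Agent/Myc/RepC.lean`). -/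

theorem LST_cc_le {x y z : ℕ} (h : Cc x y z) : x ≤ z := by
  obtain ⟨q, ⟨k, rfl⟩, h1, h2, h3⟩ := h
  have h4 : x * 1 ≤ x * 2 ^ k := Nat.mul_le_mul_left _ (Nat.one_le_two_pow)
  omega

/-- concatenation of a formula and a list -/
theorem LST_cc_iff (φ : AFm) (l : List AFm) (z : ℕ) : Cc (cd φ) (cdL l) z ↔ z = cdL (φ :: l) := by
  rw [cdL_cons]
  exact Cc_codeS _ _ _

theorem LST_cc_iff' (φ : AFm) (l : List AFm) (z : ℕ) :
    Cc (cdL l) (cd φ) z ↔ z = cdL (l ++ [φ]) := by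
  rw [NatE_cdL_snoc]
  exact Cc_codeS _ _ _

/-- MODULE LST. HINT: recursion on the length of the list: `Cc x L' L` with a formula `x`.
Arithmetical by `sat_lstF`. -/
theorem sp_ls : SP 1 (fun e => LsR (e 0)) := by
  have hA : Ar 1 (fun e => LsR (e 0)) := ⟨lstF, StdB_lstF, fun e => sat_lstF e⟩
  have hS : SP (1 + 1) (fun e => ∃ x, FmR x ∧ Cc x (e 1) (e 0)) := by
    refine ((sp_fm.v (n := 3) [2] (by decide)).and (sp_cc.v (n := 3) [2, 1, 0] (by decide))).ex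
      1 ?_
    rintro e x ⟨-, h2⟩
    have h3 : Cc x (e 1) (e 0) := h2
    have h4 := (Nat.size_le_size (LST_cc_le h3)).trans (size_le_SzE (k := 2) (by norm_num) e)
    simp only [pow_one, one_mul]
    omega
  refine SP.rec1 hA (sp_const 1) hS ?_ ?_ (fun e => Nat.size (e 0)) 1 ?_ ?_
  · intro e he
    exact ⟨[], he⟩
  · rintro e e' ⟨x, ⟨φ, rfl⟩, h2⟩ ⟨l, hl⟩
    have h3 : Cc (cd φ) (e' 0) (e 0) := h2
    rw [hl] at h3
    exact ⟨φ :: l, (LST_cc_iff φ l _).1 h3⟩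
  · intro e _
    have := size_le_SzE (k := 1) (i := 0) (by norm_num) e
    simp only [pow_one, one_mul]
    omega
  · rintro e ⟨l, hl⟩
    rcases l with _ | ⟨φ, l⟩
    · exact Or.inl hl
    · have h1 : Nat.size (cdL l) < Nat.size (e 0) := by
        rw [hl, size_cdL, size_cdL, Prv_plen_cons]
        have := len_pos φ
        omega
      refine Or.inr ⟨fun _ => cdL l, ⟨l, rfl⟩, h1, ?_, ?_⟩
      · simp only [SzE, Finset.sum_range_one]
        exact h1.le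
      · refine ⟨cd φ, ⟨φ, rfl⟩, ?_⟩
        show Cc (cd φ) (cdL l) (e 0)
        exact (LST_cc_iff φ l _).2 hl

/-- MODULE LST. -/
theorem sp_lc : SP 3 (fun e => LcR (e 0) (e 1) (e 2)) := by
  refine ((sp_fm.v (n := 3) [0] (by decide)).and ((sp_ls.v (n := 3) [1] (by decide)).and
    (sp_cc.v (n := 3) [0, 1, 2] (by decide)))).iff fun e => ?_
  show (FmR (e 0) ∧ LsR (e 1) ∧ Cc (e 0) (e 1) (e 2)) ↔ LcR (e 0) (e 1) (e 2)
  constructor
  · rintro ⟨⟨φ, h1⟩, ⟨l, h2⟩, h3⟩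
    rw [h1, h2] at h3
    exact ⟨φ, l, h1, h2, (LST_cc_iff φ l _).1 h3⟩
  · rintro ⟨φ, l, h1, h2, h3⟩
    refine ⟨⟨φ, h1⟩, ⟨l, h2⟩, ?_⟩
    rw [h1, h2]
    exact (LST_cc_iff φ l _).2 h3

/-- MODULE LST. -/
theorem sp_sn : SP 3 (fun e => SnR (e 0) (e 1) (e 2)) := by
  refine ((sp_fm.v (n := 3) [1] (by decide)).and ((sp_ls.v (n := 3) [0] (by decide)).and
    (sp_cc.v (n := 3) [0, 1, 2] (by decide)))).iff fun e => ?_
  show (FmR (e 1) ∧ LsR (e 0) ∧ Cc (e 0) (e 1) (e 2)) ↔ SnR (e 0) (e 1) (e 2)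
  constructor
  · rintro ⟨⟨φ, h1⟩, ⟨l, h2⟩, h3⟩
    rw [h1, h2] at h3
    exact ⟨φ, l, h1, h2, (LST_cc_iff' φ l _).1 h3⟩
  · rintro ⟨φ, l, h1, h2, h3⟩
    refine ⟨⟨φ, h1⟩, ⟨l, h2⟩, ?_⟩
    rw [h1, h2]
    exact (LST_cc_iff' φ l _).2 h3

end Pool.Agent.MycW
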