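import Pool.Agent.MycW.REn

set_option autoImplicit false

/-! # MODULE NC: codes of instances -/

namespace Pool.Agent.MycW

open Pool.Agent.Myc Pool.Agent.Myc.Fm

theorem NC_Bx_congr (ψ : AFm) : ∀ (k : ℕ) (e e' : Env), (∀ i < k, e i = e' i) →
    Bx k e ψ = Bx k e' ψ
  | 0, _, _, _ => rfl
  | k + 1, e, e', h => by
    show ex (and (num (e k)) (Bx k e ψ)) = ex (and (num (e' k)) (Bx k e' ψ))
    rw [h k (Nat.lt_succ_self k), NC_Bx_congr ψ k e e' fun i hi => h i (Nat.lt_succ_of_lt hi)]

/-- MODULE NC. HINT: induction on `k`: `Bx (k + 1) e ψ = ex (and (num (e k)) (Bx k e ψ))`. -/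
theorem sp_nc (k : ℕ) : SP (k + 2) (NcR (k + 1)) := by
  induction k with
  | zero =>
    refine (sp_en.v (n := 2) [0, 0, 1] (by decide)).iff fun e => ?_
    constructor
    · rintro ⟨φ, h1, h2⟩
      exact ⟨φ, h1, h2⟩
    · rintro ⟨φ, h1, h2⟩
      exact ⟨φ, h1, h2⟩
  | succ k ih =>
    have hen : SP (k + 3 + 1) (fun e => EnR (e (k + 1)) (e (k + 3)) (e (k + 2))) :=
      sp_en.v (n := k + 3 + 1) [k + 1, k + 3, k + 2] (by
        intro i hi
        interval_cases i <;> simp)
    have hih := ih.map (n := k + 3 + 1) (fun i => if i ≤ k then i else k + 3) (by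
      intro i hi
      split_ifs <;> omega)
    refine ((hih.and hen).ex 1 ?_).iff fun e => ?_
    · rintro e x ⟨_, h2⟩
      have h2' : EnR (e (k + 1)) x (e (k + 2)) := by simpa [upd] using h2
      obtain ⟨φ, h3, h4⟩ := h2'
      have h5 : Nat.size x ≤ Nat.size (e (k + 2)) := by
        rw [h3, h4, size_cd, size_cd]
        have h6 : len (ex (and (num (e (k + 1))) φ)) =
            len (and (num (e (k + 1))) φ) + 20 := RepA_len_ex _
        have h7 : len (and (num (e (k + 1))) φ) = len (num (e (k + 1))) + len φ + 20 :=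
          RepA_len_and _ _
        omega
      have h8 := size_le_SzE (k := k + 3) (i := k + 2) (by omega) e
      simp only [pow_one, one_mul]
      omega
    · constructor
      · rintro ⟨x, h1, h2⟩
        have h2' : EnR (e (k + 1)) x (e (k + 2)) := by simpa [upd] using h2
        obtain ⟨φ, h3, h4⟩ := h2'
        obtain ⟨ψ, h5, h6⟩ := h1
        have h5' : e 0 = cd ψ := by simpa [upd] using h5
        have h7 : Bx (k + 1) (fun i => upd (k + 3) e x (if i ≤ k then i else k + 3)) ψ =
            Bx (k + 1) e ψ := by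
          refine NC_Bx_congr ψ _ _ _ fun i hi => ?_
          have h8 : i ≤ k := by omega
          have h9 : i ≠ k + 3 := by omega
          simp [h8, upd, h9]
        have h6' : x = cd (Bx (k + 1) e ψ) := by
          rw [← h7]
          simpa [upd] using h6
        have h10 : φ = Bx (k + 1) e ψ := cd_inj (h3.symm.trans h6')
        refine ⟨ψ, h5', ?_⟩
        rw [h4, h10]
        rfl
      · rintro ⟨ψ, h1, h2⟩
        refine ⟨cd (Bx (k + 1) e ψ), ⟨ψ, ?_, ?_⟩, ?_⟩
        · simpa [upd] using h1
        · have h7 : Bx (k + 1) (fun i => upd (k + 3) e (cd (Bx (k + 1) e ψ))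
              (if i ≤ k then i else k + 3)) ψ = Bx (k + 1) e ψ := by
            refine NC_Bx_congr ψ _ _ _ fun i hi => ?_
            have h8 : i ≤ k := by omega
            have h9 : i ≠ k + 3 := by omega
            simp [h8, upd, h9]
          rw [h7]
          simp [upd]
        · have : EnR (e (k + 1)) (cd (Bx (k + 1) e ψ)) (e (k + 2)) := ⟨_, rfl, h2⟩
          simpa [upd] using this

end Pool.Agent.MycW
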