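import Pool.Agent.MycW.Mach
import Pool.Agent.MycW.RLst
import Pool.Agent.MycW.RNc

set_option autoImplicit false

/-! # MODULE CHG: codes after a move -/

namespace Pool.Agent.MycW

open Pool.Agent.Myc Pool.Agent.Myc.Fm

/-- MODULE CHG. HINT: `∃ L' W' a' x' y' z', StR m (L, W, a, x, y, z, L', ...) ∧
NcR 9 (v, t, j, L', W', a', x', y', z', e 9)`; the new numbers are bounded by `e 9`
(`SzE_le_len_Bx`, `RepC_size_codeS`). Use `PP.ex`/`Ar.ex` with `n = 6`, or six times `SP.ex`. -/
theorem sp_ch_of (m : Mv) (h : SP 12 (StR m)) : SP 10 (ChR m) := by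
  have hR : SP (10 + 6) (fun e => StR m (fun i => e ([3, 4, 5, 6, 7, 8, 10, 11, 12, 13, 14, 15].getD i 0)) ∧
      NcR 9 (fun i => e ([0, 1, 2, 10, 11, 12, 13, 14, 15, 9].getD i 0))) :=
    (h.v [3, 4, 5, 6, 7, 8, 10, 11, 12, 13, 14, 15] (by decide)).and
      ((sp_nc 8).v [0, 1, 2, 10, 11, 12, 13, 14, 15, 9] (by decide))
  refine hR.of ?_ 1 ?_
  · rintro e w ⟨⟨c, hcL, hc1, hc2⟩, ψ, hψ, h9⟩
    have j0 : ∀ i, i < 10 → join 10 e w i = e i := fun i hi => by simp [join, hi]
    have j1 : ∀ i, join 10 e w (10 + i) = w i := fun i => by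
      unfold join
      rw [if_neg (by omega)]
      congr 1
      omega
    have hψ' : e 0 = cd ψ := hψ
    refine ⟨ψ, c, hcL, ?_, ?_⟩
    · intro i hi
      have c0 := hc1 0 (by norm_num)
      have c1 := hc1 1 (by norm_num)
      have c2 := hc1 2 (by norm_num)
      have c3 := hc1 3 (by norm_num)
      have c4 := hc1 4 (by norm_num)
      have c5 := hc1 5 (by norm_num)
      interval_cases i
      · exact hψ'
      · rfl
      · rfl
      · exact c0
      · exact c1
      · exact c2
      · exact c3
      · exact c4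
      · exact c5
    · have h9' : e 9 = cd (Bx 9 (fun i => join 10 e w ([0, 1, 2, 10, 11, 12, 13, 14, 15, 9].getD i 0)) ψ) := h9
      rw [h9']
      congr 1
      apply Bx_congr
      intro i hi
      have c0 := hc2 0 (by norm_num)
      have c1 := hc2 1 (by norm_num)
      have c2 := hc2 2 (by norm_num)
      have c3 := hc2 3 (by norm_num)
      have c4 := hc2 4 (by norm_num)
      have c5 := hc2 5 (by norm_num)
      interval_cases i
      · exact hψ'
      · rfl
      · rfl
      · exact c0
      · exact c1
      · exact c2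
      · exact c3
      · exact c4
      · exact c5
  · rintro e ⟨ψ, c, hcL, hc, h9⟩
    refine ⟨fun i => ccode (step m c) i, ⟨⟨c, hcL, ?_, ?_⟩, ψ, ?_, ?_⟩, ?_⟩
    · intro i hi
      have c0 := hc 3 (by norm_num)
      have c1 := hc 4 (by norm_num)
      have c2 := hc 5 (by norm_num)
      have c3 := hc 6 (by norm_num)
      have c4 := hc 7 (by norm_num)
      have c5 := hc 8 (by norm_num)
      interval_cases i
      · exact c0
      · exact c1
      · exact c2
      · exact c3
      · exact c4
      · exact c5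
    · intro i hi
      interval_cases i <;> rfl
    · exact hc 0 (by norm_num)
    · show e 9 = _
      rw [h9]
      congr 1
      apply Bx_congr
      intro i hi
      have c0 := hc 0 (by norm_num)
      interval_cases i
      · exact c0.symm
      all_goals rfl
    · intro i hi
      have h1 : Nat.size (ccode (step m c) i) ≤ SzE 9 (cenv (cd ψ) (e 1) (e 2) (step m c)) :=
        size_le_SzE (k := 9) (i := i + 3) (by omega) (cenv (cd ψ) (e 1) (e 2) (step m c))
      have h2 := SzE_le_len_Bx 9 (cenv (cd ψ) (e 1) (e 2) (step m c)) ψ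
      have h3 : Nat.size (e 9) = len (Bx 9 (cenv (cd ψ) (e 1) (e 2) (step m c)) ψ) + 1 := by
        rw [h9, size_cd]
      have h4 := size_le_SzE (k := 10) (i := 9) (by norm_num) e
      show Nat.size (ccode (step m c) i) ≤ _
      rw [pow_one, one_mul]
      omega

end Pool.Agent.MycW
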