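import Pool.Agent.MycW.Mv1
import Pool.Agent.MycW.Mv2
import Pool.Agent.MycW.Mv3
import Pool.Agent.MycW.Mv4
import Pool.Agent.MycW.Mv5
import Pool.Agent.MycW.Mv6
import Pool.Agent.MycW.Mv7
import Pool.Agent.MycW.Mv8
import Pool.Agent.MycW.MvG

set_option autoImplicit false

/-! # the moves -/

namespace Pool.Agent.MycW

open Pool.Agent.Myc Pool.Agent.Myc.Fm

theorem sp_ch (m : Mv) : SP 10 (ChR m) := by
  refine sp_ch_of m ?_
  cases m
  exacts [sp_st_incr, sp_st_shift, sp_st_mbot, sp_st_meq, sp_st_mzero, sp_st_msucc, sp_st_madd,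
    sp_st_mmul, sp_st_mimp, sp_st_mall, sp_st_axk, sp_st_axs, sp_st_axdn, sp_st_axin, sp_st_axdi,
    sp_st_axva, sp_st_axre, sp_st_axle, sp_st_gen, sp_st_rot, sp_st_ld, sp_st_mp]

end Pool.Agent.MycW
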