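import Pool.Agent.MycW.NodeK
import Pool.Agent.Myc.SemB

set_option autoImplicit false

/-! # MODULE NSOUND: true nodes -/

namespace Pool.Agent.MycW

open Pool.Agent.Myc Pool.Agent.Myc.Fm

/-- MODULE NSOUND. HINT: induction on `j`; the codes are injective (`cd_inj`, `cdL_inj`); the
theorems of `T₁` are true (`soundness`), apply this to the node after the first move. -/
theorem node_sound (T₁ : List AFm) (hT : ∀ ψ ∈ T₁, ∀ e, Sat NN ψ e) (j : ℕ) (c : Cfg)
    (h : NodeR (cenv (cd K) (cdL T₁) j c)) (ms : List Mv) (hms : ms.length ≤ j) :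
    (run ms c).L.headD bot ≠ bot := by
  induction j generalizing c ms with
  | zero =>
    obtain ⟨ψ, c', hL, hb, hc, -⟩ := h
    have hcc : c = c' := by
      apply NODEAR_inj
      intro i hi
      exact hc (i + 3) (by omega)
    have : ms = [] := List.length_eq_zero_iff.1 (by omega)
    subst this
    rw [hcc]
    exact hb
  | succ j ih =>
    obtain ⟨ψ, c', hL, hb, hc, hor⟩ := h
    have hcc : c = c' := by
      apply NODEAR_inj
      intro i hi
      exact hc (i + 3) (by omega)
    have hψ : K = ψ := cd_inj (hc 0 (by norm_num))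
    subst hcc
    subst hψ
    cases ms with
    | nil => exact hb
    | cons m ms =>
      rcases hor with h0 | ⟨j', hj', hm⟩
      · exact absurd (show j + 1 = 0 from h0) (Nat.succ_ne_zero j)
      · have hj : j = j' := Nat.succ.inj (show j + 1 = j' + 1 from hj')
        subst hj
        obtain ⟨T, φ, hT', hφ, hP⟩ := hm m
        have hTT : T₁ = T := cdL_inj (show cdL T₁ = cdL T from hT')
        subst hTT
        have hφ' := cd_inj hφ
        subst hφ'
        obtain ⟨l, hl⟩ := hP
        have hs := soundness NN (T := {ψ | ψ ∈ T₁}) (fun ψ hψ => hT ψ hψ) hl _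
          (List.mem_cons_self) (fun _ => 0)
        have hs2 := (sat_Bx K_fv _ _).1 hs
        have hs3 := (K_sat _).1 hs2
        exact ih (step m c) hs3 ms (by simpa using hms)

end Pool.Agent.MycW
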