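import Pool.Agent.MycW.RJs
import Pool.Agent.MycW.REqNe
import Pool.Agent.Myc.StdB
import Pool.Agent.Myc.NatF

set_option autoImplicit false

/-! # MODULE THM: provable formulas -/

namespace Pool.Agent.MycW

open Pool.Agent.Myc Pool.Agent.Myc.Fm

/-- MODULE THM. -/
theorem THM_pr : Ar 3 (fun e => PrR (e 0) (e 1) (e 2)) :=
  ⟨provF, StdB_provF, fun e => sat_provF e⟩

theorem THM_th_iff (t y : ℕ) : (∃ x, PrR t x y) ↔ ThR t y := by
  constructor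
  · rintro ⟨x, T, φ, h1, h2, l, h3, -⟩
    exact ⟨T, φ, h1, h2, l, h3⟩
  · rintro ⟨T, φ, h1, h2, l, h3⟩
    exact ⟨_, T, φ, h1, h2, l, h3, le_rfl⟩

/-- MODULE THM. HINT: `sat_provF`, `proves_iff`. -/
theorem Ar_th : Ar 2 (fun e => ThR (e 0) (e 1)) := by
  have h : Ar (2 + 1) (fun e => PrR (e 0) (e 2) (e 1)) :=
    THM_pr.map (fun i => [0, 2, 1].getD i 0) (by decide)
  exact h.ex1.congr fun e => THM_th_iff (e 0) (e 1)

theorem THM_mem {T : Set AFm} {l : List AFm} {φ : AFm} (hl : ∀ ψ ∈ l, Pvb T ψ)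
    (h : Just T l φ) : Pvb T φ := by
  cases h with
  | hyp h => exact ⟨[], .cons .nil (.hyp h)⟩
  | logic h => exact ⟨[], .cons .nil (.logic h)⟩
  | @mp α _ h1 h2 =>
    obtain ⟨l1, h3⟩ := hl _ h1
    obtain ⟨l2, h4⟩ := hl _ h2
    refine ⟨(α :: l1) ++ (imp α φ :: l2), .cons (h3.append h4) (.mp (φ := α) ?_ ?_)⟩
    · simp
    · simp
  | @gen α h =>
    obtain ⟨l1, h3⟩ := hl _ h
    exact ⟨α :: l1, .cons h3 (.gen List.mem_cons_self)⟩

theorem THM_tl_iff (t L : ℕ) : (LsR t ∧ LsR L ∧ ∀ x, MmR x L → ThR t x) ↔ TlR t L := by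
  constructor
  · rintro ⟨⟨T, rfl⟩, ⟨l, rfl⟩, h⟩
    refine ⟨T, l, rfl, rfl, fun φ hφ => ?_⟩
    obtain ⟨T', φ', h1, h2, h3⟩ := h (cd φ) ⟨φ, l, rfl, rfl, hφ⟩
    have e1 := cdL_inj h1
    have e2 := cd_inj h2
    subst e1 e2
    exact h3
  · rintro ⟨T, l, rfl, rfl, h⟩
    refine ⟨⟨T, rfl⟩, ⟨l, rfl⟩, ?_⟩
    rintro x ⟨φ, l', rfl, h1, h2⟩
    have e1 := cdL_inj h1
    subst e1
    exact ⟨T, φ, rfl, rfl, h φ h2⟩

/-- MODULE THM. -/
theorem Ar_tl : Ar 2 (fun e => TlR (e 0) (e 1)) := by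
  have h1 : Ar 2 (fun e => LsR (e 0)) := (sp_ls.v [0] (by decide)).ar
  have h2 : Ar 2 (fun e => LsR (e 1)) := (sp_ls.v [1] (by decide)).ar
  have h3 : Ar (2 + 1) (fun e => MmR (e 2) (e 1)) := (sp_mm.v [2, 1] (by decide)).ar
  have h4 : Ar (2 + 1) (fun e => ThR (e 0) (e 2)) :=
    Ar_th.map (fun i => [0, 2].getD i 0) (by decide)
  exact (h1.and (h2.and (h3.imp h4).all1)).congr fun e => THM_tl_iff (e 0) (e 1)

/-- MODULE THM. -/
theorem Ar_pr : Ar 3 (fun e => PrR (e 0) (e 1) (e 2)) := THM_pr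

/-- One line more. -/
theorem THM_step {t L x L' : ℕ} (h1 : JsR t L x) (h2 : LcR x L L') (h : TlR t L) : TlR t L' := by
  obtain ⟨T, l, φ, rfl, rfl, rfl, h3⟩ := h1
  obtain ⟨φ', l', h4, h5, rfl⟩ := h2
  obtain ⟨T', l'', h6, h7, h8⟩ := h
  have e1 := cd_inj h4
  have e2 := cdL_inj h5
  have e3 := cdL_inj h6
  have e4 := cdL_inj h7
  subst e1 e2 e3 e4
  refine ⟨T, φ :: l, rfl, rfl, fun ψ hψ => ?_⟩
  rcases List.mem_cons.1 hψ with rfl | hψ
  · exact THM_mem h8 h3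
  · exact h8 ψ hψ

/-- The side condition of the recursion. -/
def THM_S (t L t' L' : ℕ) : Prop := ∃ x, t = t' ∧ JsR t L' x ∧ LcR x L' L

theorem THM_spS : SP 4 (fun e => THM_S (e 0) (e 1) (e 2) (e 3)) := by
  have h : SP (4 + 1) (fun e => e 0 = e 2 ∧ JsR (e 0) (e 3) (e 4) ∧ LcR (e 4) (e 3) (e 1)) :=
    (sp_eq.v [0, 2] (by decide)).and ((sp_js.v [0, 3, 4] (by decide)).and
      (sp_lc.v [4, 3, 1] (by decide)))
  refine h.of ?_ 1 ?_
  · rintro e w ⟨h1, h2, h3⟩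
    exact ⟨w 0, h1, h2, h3⟩
  · rintro e ⟨x, h1, h2, h3⟩
    refine ⟨fun _ => x, ⟨h1, h2, h3⟩, fun i _ => ?_⟩
    have h4 := size_le_SzE (k := 4) (i := 1) (by norm_num) e
    obtain ⟨φ, l, rfl, h5, h6⟩ := h3
    have h7 : Nat.size (cd φ) ≤ Nat.size (cdL (φ :: l)) := JUST_size List.mem_cons_self
    rw [← h6] at h7
    simp only [pow_one, one_mul]
    omega

/-- The lists which are proofs. -/
theorem THM_tl : PP 2 (fun e => TlR (e 0) (e 1)) (fun e s => ∃ T l : List AFm,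
    e 0 = cdL T ∧ e 1 = cdL l ∧ IsProof {ψ | ψ ∈ T} l ∧ SzE 2 e ≤ s) := by
  have hB : SP 2 (fun e => LsR (e 0) ∧ e 1 = cdL []) :=
    (sp_ls.v [0] (by decide)).and ((sp_const (cdL [])).v [1] (by decide))
  have hB' : PP 2 (fun e => TlR (e 0) (e 1)) (Std 2 (fun e => LsR (e 0) ∧ e 1 = cdL [])) :=
    hB.pp.imp hB.ar fun e he => by
      obtain ⟨⟨T, h1⟩, h2⟩ := he
      exact ⟨T, [], h1, h2, by simp⟩
  have hS : SP (2 + 2) (fun e => THM_S (e 0) (e 1) (e 2) (e 3)) := THM_spS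
  have key := PP.rec1 (D := fun e s => ∃ T l : List AFm,
    e 0 = cdL T ∧ e 1 = cdL l ∧ IsProof {ψ | ψ ∈ T} l ∧ SzE 2 e ≤ s) Ar_tl hS.ar hB' hS.pp ?_
    (fun e => Nat.size (e 1)) ⟨2, ?_⟩
  · refine key.msr 1 ?_
    rintro e s ⟨T, l, h1, h2, h3, h4⟩
    have h5 := size_le_SzE (k := 2) (i := 1) (by norm_num) e
    simp only [pow_one, one_mul]
    exact ⟨⟨T, l, h1, h2, h3, by omega⟩, by omega⟩
  · rintro e e' ⟨x, h1, h2, h3⟩ h4
    have h1' : e 0 = e' 0 := h1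
    have h2' : JsR (e 0) (e' 1) x := h2
    have h3' : LcR x (e' 1) (e 1) := h3
    change TlR (e' 0) (e' 1) at h4
    rw [← h1'] at h4
    exact THM_step h2' h3' h4
  · rintro e s ⟨T, l, h1, h2, h3, h4⟩
    have h5 : s ≤ 2 * (s + 1) ^ 2 := by nlinarith
    have h6 : s + s ≤ 2 * (s + 1) ^ 2 := by nlinarith
    refine ⟨h4.trans h5, ?_⟩
    cases h3 with
    | nil => exact Or.inl ⟨⟨⟨T, h1⟩, h2⟩, h4.trans h5⟩
    | @cons l φ h3 hφ =>
      have h7 : Nat.size (cdL l) < Nat.size (cdL (φ :: l)) := by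
        rw [size_cdL, size_cdL, Prv_plen_cons]
        have := len_pos φ
        omega
      have h8 : SzE 2 (fun i => if i = 0 then cdL T else cdL l) ≤ SzE 2 e := by
        simp only [SzE, Finset.sum_range_succ, Finset.sum_range_zero, if_true, zero_add,
          one_ne_zero, if_false]
        rw [h1, h2]
        omega
      refine Or.inr ⟨fun i => if i = 0 then cdL T else cdL l,
        ⟨T, l, rfl, rfl, h3, h8.trans h4⟩, ?_, ?_, ?_⟩
      · change Nat.size (cdL l) < Nat.size (e 1)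
        rw [h2]
        exact h7
      · change THM_S (e 0) (e 1) (cdL T) (cdL l)
        exact ⟨cd φ, h1, ⟨T, l, φ, h1, rfl, rfl, hφ⟩, ⟨φ, l, rfl, rfl, h2⟩⟩
      · rw [SzE_join]
        omega

/-- MODULE THM. Provable formulas can be shown to be provable: the measure includes the length of a
proof. HINT: first `PP 2 (TlR) (D)`, where `D e s` says that `e 1` is the code of a list `l` with
`IsProof {ψ | ψ ∈ T} l`, `e 0 = cdL T` and `SzE 2 e ≤ s`: `PP.rec1` with rank the length of `l`, the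
side condition is `JsR t L' x ∧ LcR x L' L ∧ t' = t` (existential quantification over `x`). Then
`∃ L, TlR t L ∧ MmR y L`. -/
theorem PP_th : PP 2 (fun e => ThR (e 0) (e 1)) (fun e s => ∃ (T : List AFm) (φ : AFm),
    e 0 = cdL T ∧ e 1 = cd φ ∧ Pv {ψ | ψ ∈ T} s φ ∧ SzE 2 e ≤ s) := by
  -- the variables: `t`, `y`, `L`
  have h1 : PP (2 + 1) (fun e => TlR (e 0) (e 2)) _ :=
    PP.map (fun i => [0, 2].getD i 0) (by decide) Ar_tl THM_tl
  have h2 : SP (2 + 1) (fun e => MmR (e 1) (e 2)) := sp_mm.v [1, 2] (by decide)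
  have hA : Ar (2 + 1) (fun e => TlR (e 0) (e 2)) :=
    Ar_tl.map (fun i => [0, 2].getD i 0) (by decide)
  have h3 := PP.ex1 (hA.and h2.ar) (h1.and hA h2.ar h2.pp)
  refine (h3.iff fun e => ?_).msr 3 ?_
  · constructor
    · rintro ⟨L, ⟨T, l, h4, h5, h6⟩, ⟨φ, l', h7, h8, h9⟩⟩
      have h5' : L = cdL l := h5
      have h8' : L = cdL l' := h8
      have e1 : l = l' := cdL_inj (h5'.symm.trans h8')
      subst e1
      exact ⟨T, φ, h4, h7, h6 φ h9⟩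
    · rintro ⟨T, φ, h4, h5, l, h6⟩
      refine ⟨cdL (φ :: l), ⟨T, φ :: l, h4, rfl, fun ψ hψ => ?_⟩,
        ⟨φ, φ :: l, h5, rfl, List.mem_cons_self⟩⟩
      obtain ⟨l', h7, -⟩ := h6.of_mem hψ
      exact ⟨l', h7⟩
  · rintro e s ⟨T, φ, h4, h5, ⟨l, h6, h7⟩, h8⟩
    have h9 : 2 * s + 1 ≤ 3 * (s + 1) ^ 3 := by
      have : s + 1 ≤ (s + 1) ^ 3 := Nat.le_self_pow (by norm_num) _
      omega
    have h10 : Nat.size (cdL (φ :: l)) = plen (φ :: l) + 1 := size_cdL _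
    have h11 : SzE 3 (upd 2 e (cdL (φ :: l))) = SzE 2 e + Nat.size (cdL (φ :: l)) :=
      SzE_upd 2 e _
    have h12 : SzE 2 (fun i => upd 2 e (cdL (φ :: l)) ([0, 2].getD i 0)) ≤
        SzE 3 (upd 2 e (cdL (φ :: l))) := by
      simp only [SzE, Finset.sum_range_succ, Finset.sum_range_zero, zero_add]
      change Nat.size (e 0) + Nat.size (cdL (φ :: l)) ≤
        Nat.size (e 0) + Nat.size (e 1) + Nat.size (cdL (φ :: l))
      omega
    have h13 : SzE 3 (upd 2 e (cdL (φ :: l))) ≤ 3 * (s + 1) ^ 3 := by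
      omega
    refine ⟨cdL (φ :: l), ⟨⟨⟨T, φ :: l, h4, rfl, h6, h12.trans h13⟩, h13⟩, ⟨⟨φ, φ :: l, h5, rfl,
      List.mem_cons_self⟩, h13⟩⟩, h13⟩

end Pool.Agent.MycW
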