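import Pool.Agent.MycW.Moves
import Pool.Agent.MycW.RThm

set_option autoImplicit false

/-! # MODULE NODEAR: nodes are arithmetical -/

namespace Pool.Agent.MycW

open Pool.Agent.Myc Pool.Agent.Myc.Fm

/-- A configuration is determined by its numbers. -/
theorem NODEAR_inj {c c' : Cfg} (h : ∀ i < 6, ccode c i = ccode c' i) : c = c' := by
  have h0 : c.L = c'.L := cdL_inj (h 0 (by norm_num))
  have h1 : c.W = c'.W := cdL_inj (h 1 (by norm_num))
  have h2 : c.a = c'.a := cd_inj (h 2 (by norm_num))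
  have h3 : c.x = c'.x := h 3 (by norm_num)
  have h4 : c.y = c'.y := h 4 (by norm_num)
  have h5 : c.z = c'.z := h 5 (by norm_num)
  cases c
  cases c'
  simp only [Cfg.mk.injEq]
  exact ⟨h0, h1, h2, h3, h4, h5⟩

/-- The condition that `e 0`, `e 3, ..., e 8` are a formula and a configuration. -/
def NODEAR_cf (e : Env) : Prop := FmR (e 0) ∧ NbR (e 3) ∧ LsR (e 4) ∧ FmR (e 5)

theorem NODEAR_sp_cf : SP 9 NODEAR_cf :=
  (sp_fm.v [0] (by decide)).and ((sp_nb.v [3] (by decide)).and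
    ((sp_ls.v [4] (by decide)).and (sp_fm.v [5] (by decide))))

theorem NODEAR_cf_iff (e : Env) : NODEAR_cf e ↔ ∃ (ψ : AFm) (c : Cfg), c.L ≠ [] ∧
    c.L.headD bot ≠ bot ∧ (∀ i < 9, e i = cenv (cd ψ) (e 1) (e 2) c i) := by
  constructor
  · rintro ⟨⟨ψ, hψ⟩, ⟨φ, l, hL, hφ⟩, ⟨W, hW⟩, ⟨a, ha⟩⟩
    refine ⟨ψ, ⟨φ :: l, W, a, e 6, e 7, e 8⟩, by simp, by simpa using hφ, ?_⟩
    intro i hi
    interval_cases i
    · exact hψ
    · rfl
    · rfl
    · exact hL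
    · exact hW
    · exact ha
    all_goals rfl
  · rintro ⟨ψ, c, hL, hb, hc⟩
    refine ⟨⟨ψ, hc 0 (by norm_num)⟩, ?_, ⟨c.W, hc 4 (by norm_num)⟩, ⟨c.a, hc 5 (by norm_num)⟩⟩
    have h3 : e 3 = cdL c.L := hc 3 (by norm_num)
    cases hcL : c.L with
    | nil => exact absurd hcL hL
    | cons φ l =>
      rw [hcL] at hb h3
      exact ⟨φ, l, h3, by simpa using hb⟩

/-- The relation for one move, with `j = e 9` and `u = e 10`. -/
def NODEAR_mv (m : Mv) (e : Env) : Prop :=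
  ChR m (fun i => e ([0, 1, 9, 3, 4, 5, 6, 7, 8, 10].getD i 0)) ∧ ThR (e 1) (e 10)

theorem NODEAR_mv_iff {m : Mv} {e : Env} {ψ : AFm} {c : Cfg} (hL : c.L ≠ [])
    (hc : ∀ i < 9, e i = cenv (cd ψ) (e 1) (e 2) c i) :
    NODEAR_mv m e ↔ e 10 = cd (Bx 9 (cenv (cd ψ) (e 1) (e 9) (step m c)) ψ) ∧
      ThR (e 1) (e 10) := by
  constructor
  · rintro ⟨⟨ψ', c', hL', hc', hu⟩, hT⟩
    refine ⟨?_, hT⟩
    have h0 : e 0 = cd ψ' := hc' 0 (by norm_num)
    have h0' : e 0 = cd ψ := hc 0 (by norm_num)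
    have hψ : ψ' = ψ := cd_inj (h0.symm.trans h0')
    have hcc : c' = c := by
      apply NODEAR_inj
      intro i hi
      have a1 := hc (i + 3) (by omega)
      have a2 := hc' (i + 3) (by omega)
      interval_cases i
      all_goals exact a2.symm.trans a1
    subst hψ
    subst hcc
    exact hu
  · rintro ⟨hu, hT⟩
    refine ⟨⟨ψ, c, hL, ?_, hu⟩, hT⟩
    intro i hi
    have a := hc i hi
    interval_cases i
    · exact a
    · rfl
    · rfl
    all_goals exact a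

theorem NODEAR_iff (e : Env) : NodeR e ↔ NODEAR_cf e ∧ (e 2 = 0 ∨
    ∃ j, (upd 9 e j) 9 + 1 = (upd 9 e j) 2 ∧
      ∀ m, ∃ u, NODEAR_mv m (upd 10 (upd 9 e j) u)) := by
  constructor
  · rintro ⟨ψ, c, hL, hb, hc, hor⟩
    refine ⟨(NODEAR_cf_iff e).2 ⟨ψ, c, hL, hb, hc⟩, hor.imp id ?_⟩
    rintro ⟨j, hj, hm⟩
    refine ⟨j, hj.symm, fun m => ⟨cd (Bx 9 (cenv (cd ψ) (e 1) j (step m c)) ψ), ?_⟩⟩
    have hc2 : ∀ i < 9, (upd 10 (upd 9 e j) (cd (Bx 9 (cenv (cd ψ) (e 1) j (step m c)) ψ))) i =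
        cenv (cd ψ) (e 1) (e 2) c i := by
      intro i hi
      have : upd 10 (upd 9 e j) (cd (Bx 9 (cenv (cd ψ) (e 1) j (step m c)) ψ)) i = e i := by
        unfold upd
        rw [if_neg (by omega), if_neg (by omega)]
      rw [this]
      exact hc i hi
    exact (NODEAR_mv_iff hL hc2).2 ⟨rfl, hm m⟩
  · rintro ⟨hcf, hor⟩
    obtain ⟨ψ, c, hL, hb, hc⟩ := (NODEAR_cf_iff e).1 hcf
    refine ⟨ψ, c, hL, hb, hc, hor.imp id ?_⟩
    rintro ⟨j, hj, hm⟩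
    refine ⟨j, hj.symm, fun m => ?_⟩
    obtain ⟨u, hu⟩ := hm m
    have hc2 : ∀ i < 9, (upd 10 (upd 9 e j) u) i = cenv (cd ψ) (e 1) (e 2) c i := by
      intro i hi
      have : upd 10 (upd 9 e j) u i = e i := by
        unfold upd
        rw [if_neg (by omega), if_neg (by omega)]
      rw [this]
      exact hc i hi
    obtain ⟨h1, h2⟩ := (NODEAR_mv_iff hL hc2).1 hu
    have h1' : u = cd (Bx 9 (cenv (cd ψ) (e 1) j (step m c)) ψ) := h1
    have h2' : ThR (e 1) u := h2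
    rwa [h1'] at h2'

/-- MODULE NODEAR. HINT: `Ar.forallFin`; for every move `∃ u, ChR m (v, t, j, L, ..., z, u) ∧
ThR t u` with `j + 1 = e 2`; the condition on the list is `NbR (e 3)`. -/
theorem Ar_node : Ar 9 NodeR := by
  have h1 : ∀ m : Mv, Ar 11 (NODEAR_mv m) := fun m =>
    ((sp_ch m).ar.map (fun i => [0, 1, 9, 3, 4, 5, 6, 7, 8, 10].getD i 0) (by decide)).and
      (Ar_th.map (fun i => [1, 10].getD i 0) (by decide))
  have h2 : ∀ m : Mv, Ar 10 (fun e => ∃ u : ℕ, NODEAR_mv m (upd 10 e u)) := fun m => (h1 m).ex1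
  have h3 : Ar 10 (fun e => ∀ m : Mv, ∃ u : ℕ, NODEAR_mv m (upd 10 e u)) := Ar.forallFin h2
  have h4 : Ar 9 (fun e => ∃ j : ℕ, (upd 9 e j) 9 + 1 = (upd 9 e j) 2 ∧
      ∀ m : Mv, ∃ u : ℕ, NODEAR_mv m (upd 10 (upd 9 e j) u)) :=
    ((ar_succ (k := 10) 9 2 (by norm_num) (by norm_num)).and h3).ex1
  exact (NODEAR_sp_cf.ar.and ((ar_eqc 2 0 (by norm_num)).or h4)).congr fun e => (NODEAR_iff e).symm

end Pool.Agent.MycW
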