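import Pool.Agent.MycW.ClosP

set_option autoImplicit false

/-! # The successor relation -/

namespace Pool.Agent.MycW

open Pool.Agent.Myc Pool.Agent.Myc.Fm

/-- `x₀ + 1 = x₁`. -/
theorem sp_suc : SP 2 (fun e => e 0 + 1 = e 1) := by
  have hB : SP 2 (fun e => ∃ m, e 0 = 2 * m ∧ e 1 = 2 * m + 1) := by
    refine ((sp_dbl.v (n := 3) [2, 0] (by decide)).and
      (sp_dbl1.v (n := 3) [2, 1] (by decide))).ex 1 ?_
    rintro e x ⟨h4, h5⟩
    have h6 : e 0 = 2 * x := h4
    have h8 := (Nat.size_le_size (show x ≤ e 0 by omega)).trans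
      (size_le_SzE (k := 2) (by norm_num) e)
    simp only [pow_one, one_mul]
    omega
  have hS : SP (2 + 2) (fun e => e 0 = 2 * e 2 + 1 ∧ e 1 = 2 * e 3) :=
    (sp_dbl1.v (n := 4) [2, 0] (by decide)).and (sp_dbl.v (n := 4) [3, 1] (by decide))
  refine SP.rec1 (ar_succ 0 1 (by norm_num) (by norm_num)) hB hS ?_ ?_
    (fun e => Nat.size (e 0)) 1 ?_ ?_
  · rintro e ⟨m, h1, h2⟩
    omega
  · intro e e' h1 h2
    simp [join] at h1
    omega
  · intro e _
    have := size_le_SzE (k := 2) (i := 0) (by norm_num) e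
    simp only [pow_one, one_mul]
    omega
  · intro e he
    rcases Nat.even_or_odd' (e 0) with ⟨m, hm | hm⟩
    · exact Or.inl ⟨m, hm, by omega⟩
    · refine Or.inr ⟨fun i => if i = 0 then m else m + 1, ?_, ?_, ?_, ?_⟩
      · simp
      · simp only [↓reduceIte]
        rw [hm]
        have h1 : Nat.size (2 * m + 1) = Nat.size m + 1 := by
          have := Nat.size_bit (b := true) (n := m) (by simp [Nat.bit])
          simpa [Nat.bit] using this
        omega
      · simp [SzE, Finset.sum_range_succ]
        have h1 : Nat.size m ≤ Nat.size (e 0) := Nat.size_le_size (by omega)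
        have h2 : Nat.size (m + 1) ≤ Nat.size (e 1) := Nat.size_le_size (by omega)
        omega
      · simp [join]
        omega

end Pool.Agent.MycW
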