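import Pool.Agent.MycW.Moves
import Pool.Agent.MycW.RThm
import Pool.Agent.MycW.NodeAr
import Pool.Agent.MycW.RSuc

set_option autoImplicit false

/-! # MODULE NODEPP: nodes have short proofs -/

namespace Pool.Agent.MycW

open Pool.Agent.Myc Pool.Agent.Myc.Fm

/-- finite conjunctions over a list -/
theorem NODEPP_list {k : ℕ} {ι : Type} (R : ι → Env → Prop) (D : ι → Env → ℕ → Prop)
    (hA : ∀ m, Ar k (R m)) (h : ∀ m, PP k (R m) (D m)) (l : List ι) :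
    Ar k (fun e => ∀ m ∈ l, R m e) ∧
    PP k (fun e => ∀ m ∈ l, R m e) (fun e s => (∀ m ∈ l, D m e s) ∧ SzE k e ≤ s) := by
  induction l with
  | nil =>
    refine ⟨(Ar.top (k := k)).congr fun e => by simp, ?_⟩
    exact (PP.always (k := k) (R := fun e => ∀ m ∈ ([] : List ι), R m e)
      (fun e => by simp)).sub fun e s hs => hs.2
  | cons a l ih =>
    refine ⟨((hA a).and ih.1).congr fun e => by simp, ?_⟩
    refine ((PP.and (hA a) ih.1 (h a) ih.2).iff fun e => by simp).sub ?_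
    rintro e s ⟨h1, h2⟩
    exact ⟨h1 a (by simp), fun m hm => h1 m (by simp [hm]), h2⟩

/-- MODULE NODEPP. HINT: `PP` form of the proof of `Ar_node`, with `PP_th` for `ThR`; the finite
conjunction over the moves by induction on a list of moves (`PP.and`). The length of a proof bounds
the length of the formula (`Pv.len_le`), hence the number of bits of its code. -/
theorem PP_node : PP 9 NodeR (fun e s => ∃ (ψ : AFm) (c : Cfg) (T : List AFm), c.L ≠ [] ∧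
    c.L.headD bot ≠ bot ∧ (∀ i < 9, e i = cenv (cd ψ) (cdL T) (e 2) c i) ∧
    (e 2 = 0 ∨ ∃ j, e 2 = j + 1 ∧ ∀ m : Mv,
      Pv {χ | χ ∈ T} s (Bx 9 (cenv (cd ψ) (cdL T) j (step m c)) ψ)) ∧ SzE 9 e ≤ s) := by
  classical
  -- the arithmetical relations
  have a1 : ∀ m : Mv, Ar 11 (NODEAR_mv m) := fun m =>
    ((sp_ch m).ar.map (fun i => [0, 1, 9, 3, 4, 5, 6, 7, 8, 10].getD i 0) (by decide)).and
      (Ar_th.map (fun i => [1, 10].getD i 0) (by decide))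
  have p1 : ∀ m : Mv, PP 11 (NODEAR_mv m) (fun e s =>
      Std 11 (fun e => ChR m (fun i => e ([0, 1, 9, 3, 4, 5, 6, 7, 8, 10].getD i 0))) e s ∧
      ((∃ (T : List AFm) (φ : AFm), e 1 = cdL T ∧ e 10 = cd φ ∧ Pv {ψ | ψ ∈ T} s φ ∧
        SzE 2 (fun i => e ([1, 10].getD i 0)) ≤ s) ∧ SzE 11 e ≤ s)) := fun m =>
    PP.and ((sp_ch m).ar.map (fun i => [0, 1, 9, 3, 4, 5, 6, 7, 8, 10].getD i 0) (by decide))
      (Ar_th.map (fun i => [1, 10].getD i 0) (by decide))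
      ((sp_ch m).pp.map (sp_ch m).ar (fun i => [0, 1, 9, 3, 4, 5, 6, 7, 8, 10].getD i 0)
        (by decide))
      (PP.map (fun i => [1, 10].getD i 0) (by decide) Ar_th PP_th)
  have a2 : ∀ m : Mv, Ar 10 (fun e => ∃ u : ℕ, NODEAR_mv m (upd 10 e u)) := fun m => (a1 m).ex1
  have p2 := fun m : Mv => PP.ex1 (a1 m) (p1 m)
  have p3 := NODEPP_list _ _ a2 p2 (Finset.univ : Finset Mv).toList
  have a4 : Ar 10 (fun e => e 9 + 1 = e 2) := ar_succ (k := 10) 9 2 (by norm_num) (by norm_num)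
  have p4 : PP 10 (fun e => e 9 + 1 = e 2) (Std 10 (fun e => e 9 + 1 = e 2)) :=
    (sp_suc.v (n := 10) [9, 2] (by decide)).pp
  have p5 := PP.ex1 (k := 9) (a4.and p3.1) (PP.and a4 p3.1 p4 p3.2)
  have a5 := (a4.and p3.1).ex1
  -- the configuration
  have pc : PP 9 NODEAR_cf (Std 9 NODEAR_cf) := NODEAR_sp_cf.pp
  -- the two cases
  have hA : PP 9 NodeR (Std 9 (fun e => NODEAR_cf e ∧ e 2 = 0)) := by
    refine PP.imp (NODEAR_sp_cf.and ((sp_const 0).v [2] (by decide))).ar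
      (NODEAR_sp_cf.and ((sp_const 0).v [2] (by decide))).pp ?_
    rintro e ⟨h1, h2⟩
    exact (NODEAR_iff e).2 ⟨h1, Or.inl h2⟩
  have hB := PP.imp (R' := NodeR) (NODEAR_sp_cf.ar.and a5) (PP.and NODEAR_sp_cf.ar a5 pc p5) (by
    rintro e ⟨h1, j, h2, h3⟩
    exact (NODEAR_iff e).2 ⟨h1, Or.inr ⟨j, h2, fun m => h3 m (by simp)⟩⟩)
  refine (PP.or hA hB).msr 4 ?_
  rintro e s ⟨ψ, c, T, hL, hb, hc, hor, hsz⟩
  have hS1 : 4 * (s + 1) ≤ 4 * (s + 1) ^ 4 :=
    Nat.mul_le_mul_left _ (Nat.le_self_pow (by norm_num) _)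
  have h1 : e 1 = cdL T := hc 1 (by norm_num)
  have hc' : ∀ i < 9, e i = cenv (cd ψ) (e 1) (e 2) c i := by
    rw [h1]
    exact hc
  have hcf : NODEAR_cf e := (NODEAR_cf_iff e).2 ⟨ψ, c, hL, hb, hc'⟩
  have hsz4 : SzE 9 e ≤ 4 * (s + 1) ^ 4 := by omega
  rcases hor with h0 | ⟨j, hj, hm⟩
  · exact Or.inl ⟨⟨hcf, h0⟩, hsz4⟩
  · right
    have hjs : Nat.size j ≤ s := by
      have h2 := size_le_SzE (k := 9) (i := 2) (by norm_num) e
      have h3 : Nat.size j ≤ Nat.size (e 2) := Nat.size_le_size (by omega)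
      omega
    have hsz10 : SzE 10 (upd 9 e j) ≤ 4 * (s + 1) ^ 4 := by
      rw [SzE_upd]
      omega
    refine ⟨⟨hcf, hsz4⟩, j, ⟨⟨hj.symm, hsz10⟩, fun m _ => ?_, hsz10⟩, hsz10⟩
    set φ := Bx 9 (cenv (cd ψ) (cdL T) j (step m c)) ψ with hφ
    have hlen : len φ ≤ s := (hm m).len_le
    have hu : Nat.size (cd φ) ≤ s + 1 := by
      rw [size_cd]
      omega
    have hsz11 : SzE 11 (upd 10 (upd 9 e j) (cd φ)) ≤ 4 * (s + 1) ^ 4 := by
      rw [SzE_upd, SzE_upd]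
      omega
    have hc2 : ∀ i < 9, (upd 10 (upd 9 e j) (cd φ)) i = cenv (cd ψ) (e 1) (e 2) c i := by
      intro i hi
      have : upd 10 (upd 9 e j) (cd φ) i = e i := by
        unfold upd
        rw [if_neg (by omega), if_neg (by omega)]
      rw [this]
      exact hc' i hi
    have hφ1 : cd φ = cd (Bx 9 (cenv (cd ψ) (e 1) j (step m c)) ψ) := by
      rw [h1]
    have hth : ThR (e 1) (cd φ) := ⟨T, φ, h1, rfl, Pvb_iff.2 ⟨s, hm m⟩⟩
    have hmv : NODEAR_mv m (upd 10 (upd 9 e j) (cd φ)) := (NODEAR_mv_iff hL hc2).2 ⟨hφ1, hth⟩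
    refine ⟨cd φ, ⟨⟨hmv.1, hsz11⟩, ⟨T, φ, h1, rfl, (hm m).mono (by omega), ?_⟩, hsz11⟩, hsz11⟩
    have h3 : SzE 2 (fun i => (upd 10 (upd 9 e j) (cd φ)) ([1, 10].getD i 0)) =
        Nat.size (e 1) + Nat.size (cd φ) := by
      simp [SzE, Finset.sum_range_succ, upd]
    rw [h3]
    have h4 := size_le_SzE (k := 9) (i := 1) (by norm_num) e
    omega

end Pool.Agent.MycW
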