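import Pool.Agent.MycW.NodeK
import Pool.Agent.MycW.NodePP

set_option autoImplicit false

/-! # MODULE NODE: nodes -/

namespace Pool.Agent.MycW

open Pool.Agent.Myc Pool.Agent.Myc.Fm

/-- MODULE NODE. HINT: `PP_node` for `K`, then `bx_of_gd` and `ex_num`. -/
theorem node_pv : ∃ Ax : List AFm, TrueL Ax ∧ ∃ C : ℕ, ∀ T : Set AFm, (∀ ψ ∈ Ax, ψ ∈ T) →
    ∀ (T₁ : List AFm) (c : Cfg) (j s : ℕ), c.L ≠ [] → c.L.headD bot ≠ bot →
      (j = 0 ∨ ∃ i, j = i + 1 ∧ ∀ m : Mv, Pv {ψ | ψ ∈ T₁} s (Nd (cdL T₁) i (step m c))) →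
      SzE 9 (cenv (cd K) (cdL T₁) j c) ≤ s →
      Pv T (C * (s + 1) ^ C) (Nd (cdL T₁) j c) := by
  obtain ⟨Ax1, hAx1, c1, h1⟩ := PP_node K K_fv K_sat
  obtain ⟨Ax2, hAx2, c2, h2⟩ := ex_num
  obtain ⟨C3, h3⟩ := bx_of_gd 9 K K_fv
  refine ⟨Ax1 ++ Ax2, ⟨?_, ?_⟩, c1 + 9 * c2 + C3 + 1, ?_⟩
  · intro ψ hψ
    rcases List.mem_append.1 hψ with h | h
    · exact hAx1.1 ψ h
    · exact hAx2.1 ψ h
  · intro ψ hψ
    rcases List.mem_append.1 hψ with h | h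
    · exact hAx1.2 ψ h
    · exact hAx2.2 ψ h
  · intro T hT T₁ c j s hL hb hor hsz
    have hT1 : ∀ ψ ∈ Ax1, ψ ∈ T := fun ψ h => hT ψ (List.mem_append.2 (Or.inl h))
    have hT2 : ∀ ψ ∈ Ax2, ψ ∈ T := fun ψ h => hT ψ (List.mem_append.2 (Or.inr h))
    have g1 : Pv T (c1 * (s + 1) ^ c1) (Gd 9 (cenv (cd K) (cdL T₁) j c) K) := by
      refine h1 T hT1 _ s ⟨K, c, T₁, hL, hb, ?_, ?_, hsz⟩
      · intro i hi
        interval_cases i <;> rfl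
      · exact hor
    have g2 : ∀ i < 9, Pv T (c2 * (s + 1) ^ c2) (ex (num (cenv (cd K) (cdL T₁) j c i))) :=
      fun i hi => h2 T hT2 _ s ((size_le_SzE hi _).trans hsz)
    have g3 := h3 T (cenv (cd K) (cdL T₁) j c) _ (fun _ => c2 * (s + 1) ^ c2) g1 g2
    refine g3.mono ?_
    rw [Finset.sum_const, Finset.card_range, smul_eq_mul]
    set N := c1 + 9 * c2 + C3 + 1 with hN
    have e1 : (s + 1) ^ c1 ≤ (s + 1) ^ N := Nat.pow_le_pow_right (Nat.succ_pos s) (by omega)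
    have e2 : (s + 1) ^ c2 ≤ (s + 1) ^ N := Nat.pow_le_pow_right (Nat.succ_pos s) (by omega)
    have e3 : s + 1 ≤ (s + 1) ^ N := Nat.le_self_pow (by omega) _
    calc c1 * (s + 1) ^ c1 + 9 * (c2 * (s + 1) ^ c2) + C3 * (1 + SzE 9 (cenv (cd K) (cdL T₁) j c))
        ≤ c1 * (s + 1) ^ N + 9 * (c2 * (s + 1) ^ N) + C3 * (s + 1) ^ N := by
          refine Nat.add_le_add (Nat.add_le_add (Nat.mul_le_mul_left _ e1)
            (Nat.mul_le_mul_left _ (Nat.mul_le_mul_left _ e2))) (Nat.mul_le_mul_left _ ?_)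
          omega
      _ = (c1 + 9 * c2 + C3) * (s + 1) ^ N := by ring
      _ ≤ N * (s + 1) ^ N := Nat.mul_le_mul_right _ (by omega)

end Pool.Agent.MycW
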