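import Pool.Agent.MycW.NodeAr

set_option autoImplicit false

/-! # the formula for nodes -/

namespace Pool.Agent.MycW

open Pool.Agent.Myc Pool.Agent.Myc.Fm

/-- The formula for nodes. -/
noncomputable def K : AFm := Classical.choose Ar_node

theorem K_fv : FVs (fun i => i < 9) K := (Classical.choose_spec Ar_node).1

theorem K_sat (e : Env) : Sat NN K e ↔ NodeR e := (Classical.choose_spec Ar_node).2 e

/-- The node for the theory with the number `t`, the depth `j` and the configuration `c`. -/
noncomputable def Nd (t j : ℕ) (c : Cfg) : AFm := Bx 9 (cenv (cd K) t j c) K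

theorem closed_Nd (t j : ℕ) (c : Cfg) : Closed (Nd t j c) := closed_Bx K_fv _

theorem sat_Nd (t j : ℕ) (c : Cfg) (e : Env) :
    Sat NN (Nd t j c) e ↔ NodeR (cenv (cd K) t j c) := (sat_Bx K_fv _ _).trans (K_sat _)

end Pool.Agent.MycW
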