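import Pool.Agent.MycW.StepC
import Pool.Agent.Myc.SigA

set_option autoImplicit false

/-! # MODULE NUMA: existence and uniqueness of numbers -/

namespace Pool.Agent.MycW

open Pool.Agent.Myc Pool.Agent.Myc.Fm

/-! ### The auxiliary language: `N` (for `num m`), `A` (addition), `S` (successor), `P` (binary) -/

inductive NUMA_R : Type
  | N | A | S | P
  deriving DecidableEq

instance NUMA_fintype : Fintype NUMA_R :=
  ⟨{NUMA_R.N, NUMA_R.A, NUMA_R.S, NUMA_R.P}, by intro x; cases x <;> simp⟩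

theorem NUMA_sum (f : NUMA_R → ℕ) :
    ∑ r, f r = f .N + (f .A + (f .S + f .P)) := by
  show Finset.sum {NUMA_R.N, NUMA_R.A, NUMA_R.S, NUMA_R.P} f = _
  rw [Finset.sum_insert (by decide), Finset.sum_insert (by decide),
    Finset.sum_insert (by decide), Finset.sum_singleton]

def NUMA_ar : NUMA_R → ℕ
  | .N => 1
  | .A => 3
  | .S => 2
  | .P => 2

abbrev NUMA_F : Type := Fm NUMA_R NUMA_ar

def NUMA_n (x : ℕ) : NUMA_F := rel .N ![x]
def NUMA_a (x y z : ℕ) : NUMA_F := rel .A ![x, y, z]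
def NUMA_s (x y : ℕ) : NUMA_F := rel .S ![x, y]
def NUMA_p (x y : ℕ) : NUMA_F := rel .P ![x, y]

/-- The substitution. -/
def NUMA_tau (m : ℕ) (ρ : AFm) : NUMA_R → AFm
  | .N => num m
  | .A => addA 0 1 2
  | .S => succA 0 1
  | .P => ρ

theorem NUMA_good (m : ℕ) {ρ : AFm} (h : FVs (fun i => i < 2) ρ) :
    Good NUMA_ar (NUMA_tau m ρ) := by
  intro r
  cases r with
  | N => exact FVs_num m
  | A =>
    show ∀ k : Fin 3, (![0, 1, 2] k : ℕ) < 3
    intro k
    fin_cases k <;> simp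
  | S =>
    show ∀ k : Fin 2, (![0, 1] k : ℕ) < 2
    intro k
    fin_cases k <;> simp
  | P => exact h

theorem NUMA_len (m : ℕ) (ρ : AFm) :
    ∑ r, len (NUMA_tau m ρ r) ≤ 200 * (Nat.size m + 1) + 30 + len ρ := by
  rw [NUMA_sum]
  have h := len_num m
  have h1 : len (NUMA_tau m ρ .A) = 13 := rfl
  have h2 : len (NUMA_tau m ρ .S) = 9 := rfl
  have h3 : len (NUMA_tau m ρ .N) = len (num m) := rfl
  have h4 : len (NUMA_tau m ρ .P) = len ρ := rfl
  omega

/-! ### Satisfaction of the atomic formulas -/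

section sat

variable {M : Type} (S : Str NUMA_R NUMA_ar M)

theorem NUMA_sat_n (x : ℕ) (e : ℕ → M) : Sat S (NUMA_n x) e ↔ S.rel .N ![e x] := by
  exact iff_of_eq (congrArg (S.rel NUMA_R.N) (comp_vec1 e x))

theorem NUMA_sat_a (x y z : ℕ) (e : ℕ → M) :
    Sat S (NUMA_a x y z) e ↔ S.rel .A ![e x, e y, e z] := by
  exact iff_of_eq (congrArg (S.rel NUMA_R.A) (comp_vec3 e x y z))

theorem NUMA_sat_s (x y : ℕ) (e : ℕ → M) :
    Sat S (NUMA_s x y) e ↔ S.rel .S ![e x, e y] := by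
  exact iff_of_eq (congrArg (S.rel NUMA_R.S) (comp_vec2 e x y))

theorem NUMA_sat_p (x y : ℕ) (e : ℕ → M) :
    Sat S (NUMA_p x y) e ↔ S.rel .P ![e x, e y] := by
  exact iff_of_eq (congrArg (S.rel NUMA_R.P) (comp_vec2 e x y))

end sat

/-! ### Substitution in the atomic formulas -/

theorem NUMA_sub_n (m : ℕ) (ρ : AFm) : subst (NUMA_tau m ρ) (NUMA_n 0) = num m := by
  show rename (ext ![0]) (num m) = num m
  conv_rhs => rw [← rename_id (num m)]
  refine rename_congr (FVs_num m) fun i hi => ?_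
  have : i = 0 := by omega
  subst this
  simp [ext]

theorem NUMA_sub_a (m : ℕ) (ρ : AFm) (x y z : ℕ) :
    subst (NUMA_tau m ρ) (NUMA_a x y z) = addA x y z := by
  show (rel AR.add (fun k => ext ![x, y, z] (![0, 1, 2] k)) : AFm) = rel AR.add ![x, y, z]
  congr 1
  funext k
  have h : ∀ k : Fin 3, ext ![x, y, z] (![0, 1, 2] k) = (![x, y, z] : Fin 3 → ℕ) k := by
    intro k
    fin_cases k <;> simp [ext]
  exact h k

theorem NUMA_sub_s (m : ℕ) (ρ : AFm) (x y : ℕ) :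
    subst (NUMA_tau m ρ) (NUMA_s x y) = succA x y := by
  show (rel AR.succ (fun k => ext ![x, y] (![0, 1] k)) : AFm) = rel AR.succ ![x, y]
  congr 1
  funext k
  have h : ∀ k : Fin 2, ext ![x, y] (![0, 1] k) = (![x, y] : Fin 2 → ℕ) k := by
    intro k
    fin_cases k <;> simp [ext]
  exact h k

theorem NUMA_sub_p (m : ℕ) {ρ : AFm} (h : FVs (fun i => i < 2) ρ) :
    subst (NUMA_tau m ρ) (NUMA_p 0 1) = ρ := by
  show rename (ext ![0, 1]) ρ = ρ
  conv_rhs => rw [← rename_id ρ]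
  refine rename_congr h fun i hi => ?_
  have : i = 0 ∨ i = 1 := by omega
  rcases this with rfl | rfl <;> simp [ext]

/-- `∃ y (N y ∧ y + y = x)`. -/
def NUMA_E : NUMA_F := ex (and (NUMA_n 0) (NUMA_a 0 0 1))

/-- `∃ z y (N y ∧ y + y = z ∧ z + 1 = x)`. -/
def NUMA_O : NUMA_F := ex (ex (and (NUMA_n 0) (and (NUMA_a 0 0 1) (NUMA_s 1 2))))

theorem NUMA_sub_E {m : ℕ} (hm : 0 < m) (ρ : AFm) :
    subst (NUMA_tau m ρ) NUMA_E = num (2 * m) := by
  rw [num_even hm, NUMA_E, subst_ex, subst_and, NUMA_sub_n, NUMA_sub_a]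

theorem NUMA_sub_O (m : ℕ) (ρ : AFm) :
    subst (NUMA_tau m ρ) NUMA_O = num (2 * m + 1) := by
  rw [num_odd, NUMA_O, subst_ex, subst_ex, subst_and, subst_and, NUMA_sub_n, NUMA_sub_a,
    NUMA_sub_s]

section sat

variable {M : Type} (S : Str NUMA_R NUMA_ar M)

theorem NUMA_sat_E (e : ℕ → M) :
    Sat S NUMA_E e ↔ ∃ y, S.rel .N ![y] ∧ S.rel .A ![y, y, e 0] := by
  rw [NUMA_E, sat_ex]
  refine exists_congr fun y => ?_
  rw [sat_and, NUMA_sat_n, NUMA_sat_a]
  exact Iff.rfl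

theorem NUMA_sat_O (e : ℕ → M) :
    Sat S NUMA_O e ↔ ∃ z y, S.rel .N ![y] ∧ S.rel .A ![y, y, z] ∧ S.rel .S ![z, e 0] := by
  rw [NUMA_O, sat_ex]
  refine exists_congr fun z => ?_
  rw [sat_ex]
  refine exists_congr fun y => ?_
  rw [sat_and, sat_and, NUMA_sat_n, NUMA_sat_a, NUMA_sat_s]
  exact Iff.rfl

end sat

theorem NUMA_len_ex (φ : AFm) : len (ex φ) = len φ + 20 := by
  simp only [Fm.ex, Fm.neg, len]

theorem NUMA_size_dbl {m n : ℕ} (h : n ≤ 2 * m + 1) : Nat.size n ≤ Nat.size m + 1 := by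
  rw [Nat.size_le]
  have h2 : m < 2 ^ Nat.size m := Nat.lt_size_self m
  have h4 : 2 ^ (Nat.size m + 1) = 2 * 2 ^ Nat.size m := by ring
  omega

theorem NUMA_size_half {k : ℕ} (hk : 0 < k) : Nat.size (k / 2) + 1 ≤ Nat.size k := by
  have h1 : Nat.size (k / 2) ≤ Nat.size k - 1 := by
    rw [Nat.size_le]
    have h2 : k < 2 ^ Nat.size k := Nat.lt_size_self k
    have h3 : 0 < Nat.size k := Nat.size_pos.2 hk
    have h4 : 2 ^ Nat.size k = 2 * 2 ^ (Nat.size k - 1) := by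
      rw [← pow_succ']; congr 1; omega
    omega
  have h3 : 0 < Nat.size k := Nat.size_pos.2 hk
  omega

theorem NUMA_fv_bot : FVs (fun i => i < 2) (bot : AFm) := trivial

/-! ### Existence -/

/-- `∀ x ∃ y, x + x = y` and `∀ x ∃ y, x + 1 = y`. -/
def NUMA_xA : AFm := all (ex (addA 1 1 0))
def NUMA_xS : AFm := all (ex (succA 1 0))

theorem NUMA_ex_even : ∃ C : ℕ, ∀ (m : ℕ) (T : Set AFm) (a : ℕ), 0 < m → NUMA_xA ∈ T →
    Pv T a (ex (num m)) → Pv T (a + C * (Nat.size m + 1)) (ex (num (2 * m))) := by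
  obtain ⟨C, hC⟩ := cutS (R := NUMA_R) (ar := NUMA_ar) [ex (NUMA_n 0)]
    (by
      intro γ hγ
      simp only [List.mem_singleton] at hγ
      subst hγ
      show FVs _ (ex (NUMA_n 0))
      rw [FVs_ex]
      show ∀ k : Fin 1, (![0] k : ℕ) = 0 ∨ _
      intro k
      fin_cases k
      simp)
    (imp (all (ex (NUMA_a 1 1 0))) (ex NUMA_E))
    (by
      intro M _ S hΓ e
      have h1 := hΓ (ex (NUMA_n 0)) (by simp) e
      rw [sat_ex] at h1
      obtain ⟨y, hy⟩ := h1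
      rw [NUMA_sat_n] at hy
      rw [sat_imp, sat_all, sat_ex]
      intro h2
      have h3 := h2 y
      rw [sat_ex] at h3
      obtain ⟨x, hx⟩ := h3
      rw [NUMA_sat_a] at hx
      exact ⟨x, (NUMA_sat_E S _).2 ⟨y, hy, hx⟩⟩)
  refine ⟨1000 + 300 * C, fun m T a hm hT h => ?_⟩
  have h1 := hC (NUMA_tau m bot) (NUMA_good m NUMA_fv_bot) T (fun _ => a) (by
    intro γ hγ
    simp only [List.mem_singleton] at hγ
    subst hγ
    rw [subst_ex, NUMA_sub_n]
    exact h)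
  have h2 : subst (NUMA_tau m bot) (imp (all (ex (NUMA_a 1 1 0))) (ex NUMA_E)) =
      imp NUMA_xA (ex (num (2 * m))) := by
    show imp (all (subst _ (ex (NUMA_a 1 1 0)))) (subst _ (ex NUMA_E)) = _
    rw [subst_ex, subst_ex, NUMA_sub_a, NUMA_sub_E hm]
    rfl
  rw [h2] at h1
  refine (h1.mp (Pv.hyp hT)).mono ?_
  have h3 : len NUMA_xA = 36 := rfl
  have h4 := NUMA_len m bot
  have h5 : len (bot : AFm) = 4 := rfl
  have h6 := len_num (2 * m)
  have h7 := NUMA_size_dbl (m := m) (n := 2 * m) (by omega)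
  rw [NUMA_len_ex, h3]
  simp only [List.map_cons, List.map_nil, List.sum_cons, List.sum_nil]
  have h8 : C * (1 + ∑ r, len (NUMA_tau m bot r)) ≤ C * (300 * (Nat.size m + 1)) :=
    Nat.mul_le_mul_left _ (by omega)
  have h9 : (1000 + 300 * C) * (Nat.size m + 1) =
      1000 * (Nat.size m + 1) + C * (300 * (Nat.size m + 1)) := by ring
  rw [h9]
  omega

theorem NUMA_ex_odd : ∃ C : ℕ, ∀ (m : ℕ) (T : Set AFm) (a : ℕ), NUMA_xA ∈ T → NUMA_xS ∈ T →
    Pv T a (ex (num m)) → Pv T (a + C * (Nat.size m + 1)) (ex (num (2 * m + 1))) := by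
  obtain ⟨C, hC⟩ := cutS (R := NUMA_R) (ar := NUMA_ar) [ex (NUMA_n 0)]
    (by
      intro γ hγ
      simp only [List.mem_singleton] at hγ
      subst hγ
      show FVs _ (ex (NUMA_n 0))
      rw [FVs_ex]
      show ∀ k : Fin 1, (![0] k : ℕ) = 0 ∨ _
      intro k
      fin_cases k
      simp)
    (imp (all (ex (NUMA_a 1 1 0))) (imp (all (ex (NUMA_s 1 0))) (ex NUMA_O)))
    (by
      intro M _ S hΓ e
      have h1 := hΓ (ex (NUMA_n 0)) (by simp) e
      rw [sat_ex] at h1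
      obtain ⟨y, hy⟩ := h1
      rw [NUMA_sat_n] at hy
      rw [sat_imp, sat_imp, sat_all, sat_all, sat_ex]
      intro h2 h4
      have h3 := h2 y
      rw [sat_ex] at h3
      obtain ⟨z, hz⟩ := h3
      rw [NUMA_sat_a] at hz
      have h5 := h4 z
      rw [sat_ex] at h5
      obtain ⟨x, hx⟩ := h5
      rw [NUMA_sat_s] at hx
      exact ⟨x, (NUMA_sat_O S _).2 ⟨z, y, hy, hz, hx⟩⟩)
  refine ⟨2000 + 300 * C, fun m T a hT hT' h => ?_⟩
  have h1 := hC (NUMA_tau m bot) (NUMA_good m NUMA_fv_bot) T (fun _ => a) (by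
    intro γ hγ
    simp only [List.mem_singleton] at hγ
    subst hγ
    rw [subst_ex, NUMA_sub_n]
    exact h)
  have h2 : subst (NUMA_tau m bot)
      (imp (all (ex (NUMA_a 1 1 0))) (imp (all (ex (NUMA_s 1 0))) (ex NUMA_O))) =
      imp NUMA_xA (imp NUMA_xS (ex (num (2 * m + 1)))) := by
    show imp (all (subst _ (ex (NUMA_a 1 1 0)))) (imp (all (subst _ (ex (NUMA_s 1 0))))
      (subst _ (ex NUMA_O))) = _
    rw [subst_ex, subst_ex, subst_ex, NUMA_sub_a, NUMA_sub_s, NUMA_sub_O]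
    rfl
  rw [h2] at h1
  refine ((h1.mp (Pv.hyp hT)).mp (Pv.hyp hT')).mono ?_
  have h3 : len NUMA_xA = 36 := rfl
  have h3' : len NUMA_xS = 33 := rfl
  have h4 := NUMA_len m bot
  have h5 : len (bot : AFm) = 4 := rfl
  have h6 := len_num (2 * m + 1)
  have h7 := NUMA_size_dbl (m := m) (n := 2 * m + 1) (by omega)
  have h10 : len (imp NUMA_xS (ex (num (2 * m + 1)))) = 33 + len (num (2 * m + 1)) + 24 := by
    simp only [len, h3', NUMA_len_ex]
    omega
  rw [NUMA_len_ex, h3, h3', h10]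
  simp only [List.map_cons, List.map_nil, List.sum_cons, List.sum_nil]
  have h8 : C * (1 + ∑ r, len (NUMA_tau m bot r)) ≤ C * (300 * (Nat.size m + 1)) :=
    Nat.mul_le_mul_left _ (by omega)
  have h9 : (2000 + 300 * C) * (Nat.size m + 1) =
      2000 * (Nat.size m + 1) + C * (300 * (Nat.size m + 1)) := by ring
  rw [h9]
  omega

/-- The induction on the number of digits. -/
theorem NUMA_induct {Φ : ℕ → AFm} {T : Set AFm} {a C₁ C₂ : ℕ} (h0 : Pv T a (Φ 0))
    (h1 : ∀ m b : ℕ, 0 < m → Pv T b (Φ m) → Pv T (b + C₁ * (Nat.size m + 1)) (Φ (2 * m)))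
    (h2 : ∀ m b : ℕ, Pv T b (Φ m) → Pv T (b + C₂ * (Nat.size m + 1)) (Φ (2 * m + 1))) (n : ℕ) :
    Pv T ((a + C₁ + C₂) * (Nat.size n + 1) ^ 2) (Φ n) := by
  induction n using Nat.strong_induction_on with
  | _ n ih =>
    rcases Nat.eq_zero_or_pos n with rfl | hn
    · refine h0.mono ?_
      simp only [Nat.size_zero]
      omega
    · have h3 := NUMA_size_half hn
      have h4 : n / 2 < n := Nat.div_lt_self hn (by norm_num)
      have ih' := ih (n / 2) h4
      have h5 : (a + C₁ + C₂) * (Nat.size (n / 2) + 1) ^ 2 +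
          (C₁ + C₂) * (Nat.size (n / 2) + 1) ≤ (a + C₁ + C₂) * (Nat.size n + 1) ^ 2 := by
        obtain ⟨q, hq⟩ : ∃ q, Nat.size n = Nat.size (n / 2) + 1 + q :=
          ⟨Nat.size n - (Nat.size (n / 2) + 1), by omega⟩
        rw [hq]
        have h6 : (Nat.size (n / 2) + 1) ^ 2 + (Nat.size (n / 2) + 1) ≤
            (Nat.size (n / 2) + 1 + q + 1) ^ 2 := by nlinarith
        calc (a + C₁ + C₂) * (Nat.size (n / 2) + 1) ^ 2 + (C₁ + C₂) * (Nat.size (n / 2) + 1)
            ≤ (a + C₁ + C₂) * (Nat.size (n / 2) + 1) ^ 2 +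
              (a + C₁ + C₂) * (Nat.size (n / 2) + 1) :=
              Nat.add_le_add_left (Nat.mul_le_mul_right _ (by omega)) _
          _ = (a + C₁ + C₂) * ((Nat.size (n / 2) + 1) ^ 2 + (Nat.size (n / 2) + 1)) := by ring
          _ ≤ _ := Nat.mul_le_mul_left _ h6
      rcases Nat.even_or_odd' n with ⟨m, hm | hm⟩
      · have h6 : n / 2 = m := by omega
        rw [h6] at ih' h5
        have h7 := h1 m _ (by omega) ih'
        rw [← hm] at h7
        refine h7.mono ?_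
        have h8 : C₁ * (Nat.size m + 1) ≤ (C₁ + C₂) * (Nat.size m + 1) :=
          Nat.mul_le_mul_right _ (by omega)
        omega
      · have h6 : n / 2 = m := by omega
        rw [h6] at ih' h5
        have h7 := h2 m _ ih'
        rw [← hm] at h7
        refine h7.mono ?_
        have h8 : C₂ * (Nat.size m + 1) ≤ (C₁ + C₂) * (Nat.size m + 1) :=
          Nat.mul_le_mul_right _ (by omega)
        omega

theorem NUMA_poly {K n s : ℕ} (h : Nat.size n ≤ s) :
    K * (Nat.size n + 1) ^ 2 ≤ (K + 2) * (s + 1) ^ (K + 2) :=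
  Nat.mul_le_mul (by omega) ((Nat.pow_le_pow_left (by omega) 2).trans
    (Nat.pow_le_pow_right (by omega) (by omega)))

/-- Numbers exist. HINT: the axioms are `Q` (all totality axioms); induction on `n` with `num_even`,
`num_odd` and `cutS` (language `AR ⊕ Unit` or: the fixed atomic formulas as predicates), the
constant increases by a linear amount at each of the `Nat.size n` steps. -/
theorem ex_num : ∃ Ax : List AFm, TrueL Ax ∧ ∃ c : ℕ, ∀ T : Set AFm, (∀ ψ ∈ Ax, ψ ∈ T) →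
    ∀ n s : ℕ, Nat.size n ≤ s → Pv T (c * (s + 1) ^ c) (ex (num n)) := by
  obtain ⟨C₁, h1⟩ := NUMA_ex_even
  obtain ⟨C₂, h2⟩ := NUMA_ex_odd
  refine ⟨[ex (zeroA 0), NUMA_xA, NUMA_xS], ⟨?_, ?_⟩, (len (ex (zeroA 0)) + C₁ + C₂) + 2,
    fun T hT n s hs => ?_⟩
  · intro ψ hψ
    simp only [List.mem_cons, List.not_mem_nil, or_false] at hψ
    rcases hψ with rfl | rfl | rfl
    · show FVs _ (ex (zeroA 0))
      rw [FVs_ex]
      show ∀ k : Fin 1, (![0] k : ℕ) = 0 ∨ _
      intro k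
      fin_cases k
      simp
    · show FVs _ (ex (addA 1 1 0))
      rw [FVs_ex]
      show ∀ k : Fin 3, (![1, 1, 0] k : ℕ) = 0 ∨ _
      intro k
      fin_cases k <;> simp
    · show FVs _ (ex (succA 1 0))
      rw [FVs_ex]
      show ∀ k : Fin 2, (![1, 0] k : ℕ) = 0 ∨ _
      intro k
      fin_cases k <;> simp
  · intro ψ hψ e
    simp only [List.mem_cons, List.not_mem_nil, or_false] at hψ
    rcases hψ with rfl | rfl | rfl
    · rw [sat_ex]
      exact ⟨0, rfl⟩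
    · rw [NUMA_xA, sat_all]
      intro x
      rw [sat_ex]
      exact ⟨x + x, rfl⟩
    · rw [NUMA_xS, sat_all]
      intro x
      rw [sat_ex]
      exact ⟨x + 1, rfl⟩
  · have t0 : ex (zeroA 0) ∈ T := hT _ (by simp)
    have t1 : NUMA_xA ∈ T := hT _ (by simp)
    have t2 : NUMA_xS ∈ T := hT _ (by simp)
    have hz : num 0 = zeroA 0 := by rw [num]
    have h0 : Pv T (len (ex (zeroA 0))) (ex (num 0)) := by
      rw [hz]
      exact Pv.hyp t0
    exact (NUMA_induct (Φ := fun n => ex (num n)) h0 (fun m b hm h => h1 m T b hm t1 h)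
      (fun m b h => h2 m T b t1 t2 h) n).mono (NUMA_poly hs)

/-! ### Uniqueness -/

/-- There is at most one `x` with `φ`. -/
def NUMA_U {R : Type} {ar : R → ℕ} (φ : Fm R ar) : Fm R ar :=
  all (all (imp (rename (fun _ => 1) φ) (imp (rename (fun _ => 0) φ) (eq 1 0))))

theorem NUMA_sub_U (m : ℕ) {ρ : AFm} (h : FVs (fun i => i < 2) ρ) (φ : NUMA_F) :
    subst (NUMA_tau m ρ) (NUMA_U φ) = NUMA_U (subst (NUMA_tau m ρ) φ) := by
  show all (all (imp (subst _ (rename (fun _ => 1) φ)) (imp (subst _ (rename (fun _ => 0) φ))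
    (eq 1 0)))) = _
  rw [subst_rename (NUMA_good m h), subst_rename (NUMA_good m h)]
  rfl

theorem NUMA_U_num (n : ℕ) : NUMA_U (num n) = UNq n := rfl

theorem NUMA_sat_U {R : Type} {ar : R → ℕ} {M : Type} (S : Str R ar M) (φ : Fm R ar)
    (e : ℕ → M) : Sat S (NUMA_U φ) e ↔ ∀ a b, Sat S φ (fun _ => a) → Sat S φ (fun _ => b) →
      a = b := by
  rw [NUMA_U, sat_all]
  refine forall_congr' fun a => ?_
  rw [sat_all]
  refine forall_congr' fun b => ?_
  rw [sat_imp, sat_imp, sat_rename, sat_rename]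
  exact Iff.rfl

theorem NUMA_closed_U {R : Type} {ar : R → ℕ} {φ : Fm R ar} (h : FVs (fun i => i < 1) φ) :
    Closed (NUMA_U φ) := by
  show FVs _ (imp (rename (fun _ => 1) φ) (imp (rename (fun _ => 0) φ) (eq 1 0)))
  refine ⟨?_, ?_, ?_, ?_⟩
  · rw [FVs_rename]
    exact h.mono fun i _ => Or.inr ⟨0, rfl, Or.inl rfl⟩
  · rw [FVs_rename]
    exact h.mono fun i _ => Or.inl rfl
  · exact Or.inr ⟨0, rfl, Or.inl rfl⟩
  · exact Or.inl rfl

theorem NUMA_len_UNq (n : ℕ) : len (UNq n) ≤ 3 * len (num n) + 30 := by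
  have h1 := len_rename_le (ρ := fun _ => 1) (B := 1) (fun i => by omega) (num n)
  have h2 := len_rename_le (ρ := fun _ => 0) (B := 0) (fun i => by omega) (num n)
  have h3 : len (UNq n) = len (rename (fun _ => 1) (num n)) +
      (len (rename (fun _ => 0) (num n)) + (1 + 2 + (0 + 2) + 4) + 4) + 4 + 4 + 4 := rfl
  omega

/-- `x + x = y` and `x + x = z` imply `y = z`; the same for the successor. -/
def NUMA_uA : AFm := all (all (all (imp (addA 2 2 1) (imp (addA 2 2 0) (eq 1 0)))))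
def NUMA_uS : AFm := all (all (all (imp (succA 2 1) (imp (succA 2 0) (eq 1 0)))))

theorem NUMA_closed_n : Closed (NUMA_U (NUMA_n 0)) := by
  refine NUMA_closed_U ?_
  show ∀ k : Fin 1, (![0] k : ℕ) < 1
  intro k
  fin_cases k
  simp

theorem NUMA_un_even : ∃ C : ℕ, ∀ (m : ℕ) (T : Set AFm) (a : ℕ), 0 < m → NUMA_uA ∈ T →
    Pv T a (UNq m) → Pv T (a + C * (Nat.size m + 1)) (UNq (2 * m)) := by
  obtain ⟨C, hC⟩ := cutS (R := NUMA_R) (ar := NUMA_ar) [NUMA_U (NUMA_n 0)]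
    (by
      intro γ hγ
      simp only [List.mem_singleton] at hγ
      subst hγ
      exact NUMA_closed_n)
    (imp (all (all (all (imp (NUMA_a 2 2 1) (imp (NUMA_a 2 2 0) (eq 1 0)))))) (NUMA_U NUMA_E))
    (by
      intro M _ S hΓ e
      have h1 := hΓ (NUMA_U (NUMA_n 0)) (by simp) e
      rw [NUMA_sat_U] at h1
      rw [sat_imp]
      intro h2
      have h3 : ∀ x y z : M, S.rel .A ![x, x, y] → S.rel .A ![x, x, z] → y = z := by
        intro x y z hy hz
        have h4 := h2 x y z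
        rw [sat_imp, sat_imp, NUMA_sat_a, NUMA_sat_a] at h4
        exact h4 hy hz
      rw [NUMA_sat_U]
      intro a b ha hb
      rw [NUMA_sat_E] at ha hb
      obtain ⟨y, hy, hy'⟩ := ha
      obtain ⟨z, hz, hz'⟩ := hb
      have h5 : y = z := h1 y z ((NUMA_sat_n S _ _).2 hy) ((NUMA_sat_n S _ _).2 hz)
      subst h5
      exact h3 y a b hy' hz')
  refine ⟨3000 + 300 * C, fun m T a hm hT h => ?_⟩
  have h1 := hC (NUMA_tau m bot) (NUMA_good m NUMA_fv_bot) T (fun _ => a) (by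
    intro γ hγ
    simp only [List.mem_singleton] at hγ
    subst hγ
    rw [NUMA_sub_U m NUMA_fv_bot, NUMA_sub_n]
    exact h)
  have h2 : subst (NUMA_tau m bot)
      (imp (all (all (all (imp (NUMA_a 2 2 1) (imp (NUMA_a 2 2 0) (eq 1 0))))))
        (NUMA_U NUMA_E)) = imp NUMA_uA (UNq (2 * m)) := by
    show imp (all (all (all (imp (subst _ (NUMA_a 2 2 1)) (imp (subst _ (NUMA_a 2 2 0))
      (eq 1 0)))))) (subst _ (NUMA_U NUMA_E)) = _
    rw [NUMA_sub_U m NUMA_fv_bot, NUMA_sub_a, NUMA_sub_a, NUMA_sub_E hm]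
    rfl
  rw [h2] at h1
  refine (h1.mp (Pv.hyp hT)).mono ?_
  have h3 : len NUMA_uA ≤ 100 := by
    show len (all (all (all (imp (addA 2 2 1) (imp (addA 2 2 0) (eq 1 0)))))) ≤ 100
    decide
  have h4 := NUMA_len m bot
  have h5 : len (bot : AFm) = 4 := rfl
  have h6 := len_num (2 * m)
  have h7 := NUMA_size_dbl (m := m) (n := 2 * m) (by omega)
  have h10 := NUMA_len_UNq (2 * m)
  simp only [List.map_cons, List.map_nil, List.sum_cons, List.sum_nil]
  have h8 : C * (1 + ∑ r, len (NUMA_tau m bot r)) ≤ C * (300 * (Nat.size m + 1)) :=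
    Nat.mul_le_mul_left _ (by omega)
  have h9 : (3000 + 300 * C) * (Nat.size m + 1) =
      3000 * (Nat.size m + 1) + C * (300 * (Nat.size m + 1)) := by ring
  rw [h9]
  omega

theorem NUMA_un_odd : ∃ C : ℕ, ∀ (m : ℕ) (T : Set AFm) (a : ℕ), NUMA_uA ∈ T → NUMA_uS ∈ T →
    Pv T a (UNq m) → Pv T (a + C * (Nat.size m + 1)) (UNq (2 * m + 1)) := by
  obtain ⟨C, hC⟩ := cutS (R := NUMA_R) (ar := NUMA_ar) [NUMA_U (NUMA_n 0)]
    (by
      intro γ hγ
      simp only [List.mem_singleton] at hγ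
      subst hγ
      exact NUMA_closed_n)
    (imp (all (all (all (imp (NUMA_a 2 2 1) (imp (NUMA_a 2 2 0) (eq 1 0))))))
      (imp (all (all (all (imp (NUMA_s 2 1) (imp (NUMA_s 2 0) (eq 1 0)))))) (NUMA_U NUMA_O)))
    (by
      intro M _ S hΓ e
      have h1 := hΓ (NUMA_U (NUMA_n 0)) (by simp) e
      rw [NUMA_sat_U] at h1
      rw [sat_imp, sat_imp]
      intro h2 h2'
      have h3 : ∀ x y z : M, S.rel .A ![x, x, y] → S.rel .A ![x, x, z] → y = z := by
        intro x y z hy hz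
        have h4 := h2 x y z
        rw [sat_imp, sat_imp, NUMA_sat_a, NUMA_sat_a] at h4
        exact h4 hy hz
      have h3' : ∀ x y z : M, S.rel .S ![x, y] → S.rel .S ![x, z] → y = z := by
        intro x y z hy hz
        have h4 := h2' x y z
        rw [sat_imp, sat_imp, NUMA_sat_s, NUMA_sat_s] at h4
        exact h4 hy hz
      rw [NUMA_sat_U]
      intro a b ha hb
      rw [NUMA_sat_O] at ha hb
      obtain ⟨u, y, hy, hy', hu⟩ := ha
      obtain ⟨v, z, hz, hz', hv⟩ := hb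
      have h5 : y = z := h1 y z ((NUMA_sat_n S _ _).2 hy) ((NUMA_sat_n S _ _).2 hz)
      subst h5
      have h6 : u = v := h3 y u v hy' hz'
      subst h6
      exact h3' u a b hu hv)
  refine ⟨6000 + 300 * C, fun m T a hT hT' h => ?_⟩
  have h1 := hC (NUMA_tau m bot) (NUMA_good m NUMA_fv_bot) T (fun _ => a) (by
    intro γ hγ
    simp only [List.mem_singleton] at hγ
    subst hγ
    rw [NUMA_sub_U m NUMA_fv_bot, NUMA_sub_n]
    exact h)
  have h2 : subst (NUMA_tau m bot)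
      (imp (all (all (all (imp (NUMA_a 2 2 1) (imp (NUMA_a 2 2 0) (eq 1 0))))))
      (imp (all (all (all (imp (NUMA_s 2 1) (imp (NUMA_s 2 0) (eq 1 0)))))) (NUMA_U NUMA_O))) =
      imp NUMA_uA (imp NUMA_uS (UNq (2 * m + 1))) := by
    show imp (all (all (all (imp (subst _ (NUMA_a 2 2 1)) (imp (subst _ (NUMA_a 2 2 0))
      (eq 1 0)))))) (imp (all (all (all (imp (subst _ (NUMA_s 2 1)) (imp (subst _ (NUMA_s 2 0))
      (eq 1 0)))))) (subst _ (NUMA_U NUMA_O))) = _
    rw [NUMA_sub_U m NUMA_fv_bot, NUMA_sub_a, NUMA_sub_a, NUMA_sub_s, NUMA_sub_s, NUMA_sub_O]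
    rfl
  rw [h2] at h1
  refine ((h1.mp (Pv.hyp hT)).mp (Pv.hyp hT')).mono ?_
  have h3 : len NUMA_uA ≤ 100 := by
    show len (all (all (all (imp (addA 2 2 1) (imp (addA 2 2 0) (eq 1 0)))))) ≤ 100
    decide
  have h3' : len NUMA_uS ≤ 100 := by
    show len (all (all (all (imp (succA 2 1) (imp (succA 2 0) (eq 1 0)))))) ≤ 100
    decide
  have h4 := NUMA_len m bot
  have h5 : len (bot : AFm) = 4 := rfl
  have h6 := len_num (2 * m + 1)
  have h7 := NUMA_size_dbl (m := m) (n := 2 * m + 1) (by omega)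
  have h10 := NUMA_len_UNq (2 * m + 1)
  have h11 : len (imp NUMA_uS (UNq (2 * m + 1))) = len NUMA_uS + len (UNq (2 * m + 1)) + 4 :=
    rfl
  simp only [List.map_cons, List.map_nil, List.sum_cons, List.sum_nil]
  have h8 : C * (1 + ∑ r, len (NUMA_tau m bot r)) ≤ C * (300 * (Nat.size m + 1)) :=
    Nat.mul_le_mul_left _ (by omega)
  have h9 : (6000 + 300 * C) * (Nat.size m + 1) =
      6000 * (Nat.size m + 1) + C * (300 * (Nat.size m + 1)) := by ring
  rw [h9]
  omega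

/-- Numbers are unique. -/
theorem un_num : ∃ Ax : List AFm, TrueL Ax ∧ ∃ c : ℕ, ∀ T : Set AFm, (∀ ψ ∈ Ax, ψ ∈ T) →
    ∀ n s : ℕ, Nat.size n ≤ s → Pv T (c * (s + 1) ^ c) (UNq n) := by
  obtain ⟨C₁, h1⟩ := NUMA_un_even
  obtain ⟨C₂, h2⟩ := NUMA_un_odd
  have hz : num 0 = zeroA 0 := by rw [num]
  refine ⟨[UNq 0, NUMA_uA, NUMA_uS], ⟨?_, ?_⟩, (len (UNq 0) + C₁ + C₂) + 2,
    fun T hT n s hs => ?_⟩
  · intro ψ hψ
    simp only [List.mem_cons, List.not_mem_nil, or_false] at hψ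
    rcases hψ with rfl | rfl | rfl
    · exact NUMA_closed_U (FVs_num 0)
    · show FVs _ (imp (addA 2 2 1) (imp (addA 2 2 0) (eq 1 0)))
      refine ⟨?_, ?_, ?_, ?_⟩
      · show ∀ k : Fin 3, (fun i => i = 0 ∨ _) (![2, 2, 1] k : ℕ)
        intro k
        fin_cases k <;> simp
      · show ∀ k : Fin 3, (fun i => i = 0 ∨ _) (![2, 2, 0] k : ℕ)
        intro k
        fin_cases k <;> simp
      · simp
      · simp
    · show FVs _ (imp (succA 2 1) (imp (succA 2 0) (eq 1 0)))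
      refine ⟨?_, ?_, ?_, ?_⟩
      · show ∀ k : Fin 2, (fun i => i = 0 ∨ _) (![2, 1] k : ℕ)
        intro k
        fin_cases k <;> simp
      · show ∀ k : Fin 2, (fun i => i = 0 ∨ _) (![2, 0] k : ℕ)
        intro k
        fin_cases k <;> simp
      · simp
      · simp
  · intro ψ hψ e
    simp only [List.mem_cons, List.not_mem_nil, or_false] at hψ
    rcases hψ with rfl | rfl | rfl
    · rw [← NUMA_U_num, NUMA_sat_U, hz]
      intro a b ha hb
      have ha' : a = 0 := ha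
      have hb' : b = 0 := hb
      rw [ha', hb']
    · intro x y z hy hz'
      have h3 : x + x = y := hy
      have h4 : x + x = z := hz'
      show y = z
      omega
    · intro x y z hy hz'
      have h3 : x + 1 = y := hy
      have h4 : x + 1 = z := hz'
      show y = z
      omega
  · have t0 : UNq 0 ∈ T := hT _ (by simp)
    have t1 : NUMA_uA ∈ T := hT _ (by simp)
    have t2 : NUMA_uS ∈ T := hT _ (by simp)
    have h0 : Pv T (len (UNq 0)) (UNq 0) := Pv.hyp t0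
    exact (NUMA_induct (Φ := fun n => UNq n) h0 (fun m b hm h => h1 m T b hm t1 h)
      (fun m b h => h2 m T b t1 t2 h) n).mono (NUMA_poly hs)

end Pool.Agent.MycW
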