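import Pool.Agent.MycW.Cut
import Pool.Agent.MycW.GdSem
import Pool.Agent.Myc.SemB

set_option autoImplicit false

/-! # MODULE STEPA: single steps with guarded sentences, I -/

namespace Pool.Agent.MycW

open Pool.Agent.Myc Pool.Agent.Myc.Fm

/- HINT: `cutS` with the language with a unary predicate `N i` for every guard (`i : Fin n`), and a
predicate of arity `n` (or `k`) for every fixed formula (as `subst τ (rel P v) = rename (ext v) (τ P)`,
take `v = fun i => i`; `rename (ext v) q = q` by `rename_congr` because the free variables of `q` are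
`< n`). The semantic hypothesis is easy, because `alls n φ` says that `φ` holds for all assignments
(`sat_alls`). Sum over the language: the fixed formulas give a constant, the guards
`∑ len (num (e i)) ≤ C * (1 + SzE n e)` by `len_num`. -/

/-! ### The language with a unary predicate for every guard -/

/-- `cutS` with a list of lengths instead of a function. -/
theorem StepA_cut {R : Type} [Fintype R] {ar : R → ℕ} (Γ : List (Fm R ar))
    (hΓ : ∀ γ ∈ Γ, Closed γ) (φ : Fm R ar)
    (h : ∀ (M : Type) [Nonempty M] (S : Str R ar M), (∀ γ ∈ Γ, ∀ e, Sat S γ e) →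
      ∀ e, Sat S φ e) :
    ∃ C : ℕ, ∀ (τ : (r : R) → AFm), Good ar τ → ∀ (T : Set AFm) (b : List ℕ),
      List.Forall₂ (fun γ m => Pv T m (subst τ γ)) Γ b →
      Pv T (b.sum + C * (1 + ∑ r, len (τ r))) (subst τ φ) := by
  classical
  obtain ⟨C, hC⟩ := cutS Γ hΓ φ h
  refine ⟨C, fun τ hτ T b hb => ?_⟩
  let a : Fm R ar → ℕ := fun γ => if hh : ∃ m, Pv T m (subst τ γ) then Nat.find hh else 0
  have ha : ∀ γ m, Pv T m (subst τ γ) → Pv T (a γ) (subst τ γ) ∧ a γ ≤ m := by
    intro γ m hm
    have hh : ∃ m, Pv T m (subst τ γ) := ⟨m, hm⟩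
    have e1 : a γ = Nat.find hh := dif_pos hh
    rw [e1]
    exact ⟨Nat.find_spec hh, Nat.find_min' hh hm⟩
  have key : (∀ γ ∈ Γ, Pv T (a γ) (subst τ γ)) ∧ (Γ.map a).sum ≤ b.sum := by
    clear hC h hΓ
    induction hb with
    | nil => exact ⟨fun γ hγ => by simp at hγ, le_rfl⟩
    | @cons γ m Γ b h1 h2 ih =>
      obtain ⟨h3, h4⟩ := ha γ m h1
      refine ⟨fun γ' hγ' => ?_, ?_⟩
      · rcases List.mem_cons.1 hγ' with rfl | hγ'
        · exact h3
        · exact ih.1 γ' hγ'
      · simp only [List.map_cons, List.sum_cons]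
        exact Nat.add_le_add h4 ih.2
  exact (hC τ hτ T a key.1).mono (Nat.add_le_add_right key.2 _)

/-- The arities: the predicates of the guards are unary. -/
abbrev StepA_ar (G J : Type) (m : ℕ) : G ⊕ J → ℕ := Sum.elim (fun _ => 1) (fun _ => m)

section lang

variable {G J : Type} {m : ℕ}

/-- The guard with index `x` for the variable `i`. -/
def StepA_N (J : Type) (m : ℕ) (x : G) (i : ℕ) : Fm (G ⊕ J) (StepA_ar G J m) :=
  rel (Sum.inl x) (fun _ => i)

/-- The fixed formula with index `j`. -/
def StepA_Q (G : Type) (m : ℕ) (j : J) : Fm (G ⊕ J) (StepA_ar G J m) :=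
  rel (Sum.inr j) (fun i => (i : Fin m).val)

/-- Guarded formulas: the variable `i < k` has the guard `g i`. -/
def StepA_gds (g : ℕ → G) : ℕ → Fm (G ⊕ J) (StepA_ar G J m) → Fm (G ⊕ J) (StepA_ar G J m)
  | 0, φ => φ
  | k + 1, φ => StepA_gds g k (imp (StepA_N J m (g k) k) φ)

/-- Guarded sentences. -/
def StepA_Gd (g : ℕ → G) (k : ℕ) (φ : Fm (G ⊕ J) (StepA_ar G J m)) :
    Fm (G ⊕ J) (StepA_ar G J m) := alls k (StepA_gds g k φ)

/-- The existential form. -/
def StepA_Bx (g : ℕ → G) : ℕ → Fm (G ⊕ J) (StepA_ar G J m) → Fm (G ⊕ J) (StepA_ar G J m)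
  | 0, φ => φ
  | k + 1, φ => ex (and (StepA_N J m (g k) 0) (StepA_Bx g k φ))

/-- The substitution. -/
def StepA_tau (c : G → ℕ) (p : J → AFm) : G ⊕ J → AFm :=
  Sum.elim (fun x => num (c x)) p

theorem StepA_good (c : G → ℕ) {p : J → AFm} (hp : ∀ j, FVs (fun i => i < m) (p j)) :
    Good (StepA_ar G J m) (StepA_tau c p) := by
  rintro (x | j)
  · exact FVs_num _
  · exact hp j

theorem StepA_subst_N (c : G → ℕ) (p : J → AFm) (x : G) (i : ℕ) :
    subst (StepA_tau c p) (StepA_N J m x i) = rename (fun _ => i) (num (c x)) := by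
  show rename (ext (fun _ => i)) (num (c x)) = _
  refine rename_congr (FVs_num _) fun j hj => ?_
  rw [SynB_ext_lt _ (by exact hj)]

theorem StepA_subst_N0 (c : G → ℕ) (p : J → AFm) (x : G) :
    subst (StepA_tau c p) (StepA_N J m x 0) = num (c x) := by
  rw [StepA_subst_N]
  have : rename (fun _ => 0) (num (c x)) = rename id (num (c x)) :=
    rename_congr (FVs_num _) fun j hj => by
      have : j = 0 := by omega
      simp [this]
  rw [this, rename_id]

theorem StepA_subst_Q (c : G → ℕ) {p : J → AFm} (hp : ∀ j, FVs (fun i => i < m) (p j)) (j : J) :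
    subst (StepA_tau c p) (StepA_Q G m j) = p j := by
  show rename (ext (fun i : Fin m => i.val)) (p j) = _
  have : rename (ext (fun i : Fin m => i.val)) (p j) = rename id (p j) :=
    rename_congr (hp j) fun i hi => by
      rw [SynB_ext_lt _ hi]
      rfl
  rw [this, rename_id]

theorem StepA_subst_gds (c : G → ℕ) (p : J → AFm) (g : ℕ → G) (k : ℕ)
    (φ : Fm (G ⊕ J) (StepA_ar G J m)) :
    subst (StepA_tau c p) (StepA_gds g k φ) =
      gds k (fun i => c (g i)) (subst (StepA_tau c p) φ) := by
  induction k generalizing φ with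
  | zero => rfl
  | succ k ih =>
    show subst _ (StepA_gds g k _) = gds k _ (imp _ _)
    rw [ih]
    congr 1
    show imp (subst _ _) _ = _
    rw [StepA_subst_N]

theorem StepA_subst_Gd (c : G → ℕ) (p : J → AFm) (g : ℕ → G) (k : ℕ)
    (φ : Fm (G ⊕ J) (StepA_ar G J m)) :
    subst (StepA_tau c p) (StepA_Gd g k φ) =
      Gd k (fun i => c (g i)) (subst (StepA_tau c p) φ) := by
  rw [StepA_Gd, Gd, subst_alls, StepA_subst_gds]

theorem StepA_subst_Bx (c : G → ℕ) (p : J → AFm) (g : ℕ → G) (k : ℕ)
    (φ : Fm (G ⊕ J) (StepA_ar G J m)) :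
    subst (StepA_tau c p) (StepA_Bx g k φ) =
      Bx k (fun i => c (g i)) (subst (StepA_tau c p) φ) := by
  induction k generalizing φ with
  | zero => rfl
  | succ k ih =>
    show subst _ (ex (and (StepA_N J m (g k) 0) (StepA_Bx g k φ))) = ex (and _ (Bx k _ _))
    rw [subst_ex, subst_and, ih, StepA_subst_N0]

theorem StepA_FVs_N {P : ℕ → Prop} (x : G) {i : ℕ} (h : P i) : FVs P (StepA_N J m x i) :=
  fun _ => h

theorem StepA_FVs_Q {P : ℕ → Prop} (h : ∀ i < m, P i) (j : J) : FVs P (StepA_Q G m j) :=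
  fun i => h _ (i : Fin m).isLt

theorem StepA_FVs_gds {n : ℕ} {g : ℕ → G} {k : ℕ} (hk : k ≤ n)
    {φ : Fm (G ⊕ J) (StepA_ar G J m)} (h : FVs (fun i => i < n) φ) :
    FVs (fun i => i < n) (StepA_gds g k φ) := by
  induction k generalizing φ with
  | zero => exact h
  | succ k ih => exact ih (by omega) ⟨StepA_FVs_N _ (by omega), h⟩

theorem StepA_closed_Gd {g : ℕ → G} {k : ℕ} {φ : Fm (G ⊕ J) (StepA_ar G J m)}
    (h : FVs (fun i => i < k) φ) : Closed (StepA_Gd g k φ) :=
  closed_alls (StepA_FVs_gds le_rfl h)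

theorem StepA_FVs_Bx {P : ℕ → Prop} {g : ℕ → G} {k : ℕ} {φ : Fm (G ⊕ J) (StepA_ar G J m)}
    (h : FVs (fun i => i < k ∨ ∃ j, i = j + k ∧ P j) φ) : FVs P (StepA_Bx g k φ) := by
  induction k generalizing P with
  | zero =>
    refine h.mono fun i hi => ?_
    rcases hi with hi | ⟨j, rfl, hj⟩
    · omega
    · exact hj
  | succ k ih =>
    show FVs P (ex (and (StepA_N J m (g k) 0) (StepA_Bx g k φ)))
    rw [FVs_ex, FVs_and]
    refine ⟨StepA_FVs_N _ (Or.inl rfl), ih (h.mono fun i hi => ?_)⟩
    rcases hi with hi | ⟨j, rfl, hj⟩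
    · by_cases h' : i < k
      · exact Or.inl h'
      · exact Or.inr ⟨0, by omega, Or.inl rfl⟩
    · exact Or.inr ⟨j + 1, by omega, Or.inr ⟨j, rfl, hj⟩⟩

theorem StepA_closed_Bx {g : ℕ → G} {k : ℕ} {φ : Fm (G ⊕ J) (StepA_ar G J m)}
    (h : FVs (fun i => i < k) φ) : Closed (StepA_Bx g k φ) :=
  StepA_FVs_Bx (h.mono fun _ hi => Or.inl hi)

variable {M : Type}

/-- The meaning of the guard `x`. -/
def StepA_gN (S : Str (G ⊕ J) (StepA_ar G J m) M) (x : G) (a : M) : Prop :=
  S.rel (Sum.inl x) (fun _ => a)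

/-- The meaning of the fixed formula `j`. -/
def StepA_gQ (S : Str (G ⊕ J) (StepA_ar G J m) M) (j : J) (e : ℕ → M) : Prop :=
  S.rel (Sum.inr j) (fun i => e (i : Fin m).val)

theorem StepA_gQ_congr (S : Str (G ⊕ J) (StepA_ar G J m) M) (j : J) {e e' : ℕ → M}
    (h : ∀ i < m, e i = e' i) : StepA_gQ S j e ↔ StepA_gQ S j e' := by
  unfold StepA_gQ
  have : (fun i => e (i : Fin m).val) = fun i => e' (i : Fin m).val := by
    funext i
    exact h _ i.isLt
  exact iff_of_eq (congrArg (S.rel (Sum.inr j)) this)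

theorem StepA_sat_N (S : Str (G ⊕ J) (StepA_ar G J m) M) (x : G) (i : ℕ) (e : ℕ → M) :
    Sat S (StepA_N J m x i) e ↔ StepA_gN S x (e i) := Iff.rfl

theorem StepA_sat_Q (S : Str (G ⊕ J) (StepA_ar G J m) M) (j : J) (e : ℕ → M) :
    Sat S (StepA_Q G m j) e ↔ StepA_gQ S j e := Iff.rfl

theorem StepA_sat_gds (S : Str (G ⊕ J) (StepA_ar G J m) M) (g : ℕ → G) (k : ℕ)
    (φ : Fm (G ⊕ J) (StepA_ar G J m)) (e : ℕ → M) :
    Sat S (StepA_gds g k φ) e ↔ ((∀ i < k, StepA_gN S (g i) (e i)) → Sat S φ e) := by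
  induction k generalizing φ with
  | zero => simp [StepA_gds]
  | succ k ih =>
    rw [StepA_gds, ih, sat_imp, StepA_sat_N]
    constructor
    · intro h h1
      exact h (fun i hi => h1 i (by omega)) (h1 k (by omega))
    · intro h h1 h2
      refine h fun i hi => ?_
      by_cases h3 : i < k
      · exact h1 i h3
      · have : i = k := by omega
        rw [this]
        exact h2

theorem StepA_sat_Gd (S : Str (G ⊕ J) (StepA_ar G J m) M) [Nonempty M] (g : ℕ → G) (k : ℕ)
    (φ : Fm (G ⊕ J) (StepA_ar G J m)) :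
    (∀ e, Sat S (StepA_Gd g k φ) e) ↔
      ∀ e : ℕ → M, (∀ i < k, StepA_gN S (g i) (e i)) → Sat S φ e := by
  rw [StepA_Gd, sat_alls]
  exact forall_congr' fun e => StepA_sat_gds S g k φ e

/-- The entries `i < k` of `w`, followed by `e`. -/
def StepA_jn (k : ℕ) (w e : ℕ → M) : ℕ → M := fun i => if i < k then w i else e (i - k)

theorem StepA_sat_Bx (S : Str (G ⊕ J) (StepA_ar G J m) M) [Nonempty M] (g : ℕ → G) (k : ℕ)
    (φ : Fm (G ⊕ J) (StepA_ar G J m)) (e : ℕ → M) :
    Sat S (StepA_Bx g k φ) e ↔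
      ∃ w : ℕ → M, (∀ i < k, StepA_gN S (g i) (w i)) ∧ Sat S φ (StepA_jn k w e) := by
  induction k generalizing e with
  | zero =>
    have e1 : ∀ w : ℕ → M, StepA_jn 0 w e = e := fun w => by
      funext i
      simp [StepA_jn]
    constructor
    · intro h
      exact ⟨fun _ => Classical.arbitrary M, fun i hi => absurd hi (Nat.not_lt_zero i), by
        rw [e1]
        exact h⟩
    · rintro ⟨w, -, h⟩
      rw [e1] at h
      exact h
  | succ k ih =>
    rw [StepA_Bx, sat_ex]
    constructor
    · rintro ⟨a, h⟩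
      rw [sat_and, ih, StepA_sat_N] at h
      obtain ⟨h1, w, h2, h3⟩ := h
      refine ⟨fun i => if i < k then w i else a, fun i hi => ?_, ?_⟩
      · by_cases h4 : i < k
        · simp only [h4, if_true]
          exact h2 i h4
        · have : i = k := by omega
          simp only [this, lt_irrefl, if_false]
          exact h1
      · have : StepA_jn (k + 1) (fun i => if i < k then w i else a) e =
            StepA_jn k w (scons a e) := by
          funext i
          unfold StepA_jn
          by_cases h4 : i < k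
          · simp only [h4, if_true, Nat.lt_succ_of_lt h4]
          · by_cases h5 : i = k
            · subst h5
              simp [scons]
            · obtain ⟨d, rfl⟩ : ∃ d, i = k + 1 + d := ⟨i - (k + 1), by omega⟩
              have h6 : ¬ (k + 1 + d < k + 1) := by omega
              have h7 : k + 1 + d - k = d + 1 := by omega
              have h8 : k + 1 + d - (k + 1) = d := by omega
              simp only [h4, h6, if_false, h7, h8]
              rfl
        rw [this]
        exact h3
    · rintro ⟨w, h1, h2⟩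
      refine ⟨w k, ?_⟩
      rw [sat_and, ih, StepA_sat_N]
      refine ⟨h1 k (by omega), w, fun i hi => h1 i (by omega), ?_⟩
      have : StepA_jn (k + 1) w e = StepA_jn k w (scons (w k) e) := by
        funext i
        unfold StepA_jn
        by_cases h4 : i < k
        · simp only [h4, if_true, Nat.lt_succ_of_lt h4]
        · by_cases h5 : i = k
          · subst h5
            simp [scons]
          · obtain ⟨d, rfl⟩ : ∃ d, i = k + 1 + d := ⟨i - (k + 1), by omega⟩
            have h6 : ¬ (k + 1 + d < k + 1) := by omega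
            have h7 : k + 1 + d - k = d + 1 := by omega
            have h8 : k + 1 + d - (k + 1) = d := by omega
            simp only [h4, h6, if_false, h7, h8]
            rfl
      rw [← this]
      exact h2

theorem StepA_sat_foldr (S : Str (G ⊕ J) (StepA_ar G J m) M)
    (ps : List (Fm (G ⊕ J) (StepA_ar G J m))) (q : Fm (G ⊕ J) (StepA_ar G J m)) (e : ℕ → M) :
    Sat S (ps.foldr imp q) e ↔ ((∀ p ∈ ps, Sat S p e) → Sat S q e) := by
  induction ps with
  | nil => simp
  | cons p ps ih =>
    rw [List.foldr_cons, sat_imp, ih]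
    simp only [List.mem_cons, forall_eq_or_imp]
    tauto

theorem StepA_subst_foldr (c : G → ℕ) (p : J → AFm)
    (ps : List (Fm (G ⊕ J) (StepA_ar G J m))) (q : Fm (G ⊕ J) (StepA_ar G J m)) :
    subst (StepA_tau c p) (ps.foldr imp q) =
      (ps.map (subst (StepA_tau c p))).foldr imp (subst (StepA_tau c p) q) := by
  induction ps with
  | nil => rfl
  | cons p' ps ih =>
    rw [List.foldr_cons, List.map_cons, List.foldr_cons, ← ih]
    rfl

end lang

/-- Closedness of implications. -/
theorem StepA_FVs_foldr {R : Type} {ar : R → ℕ} {P : ℕ → Prop} {ps : List (Fm R ar)}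
    {q : Fm R ar} (h : ∀ p ∈ ps, FVs P p) (hq : FVs P q) : FVs P (ps.foldr imp q) := by
  induction ps with
  | nil => exact hq
  | cons p ps ih =>
    exact ⟨h p List.mem_cons_self, ih fun p' hp' => h p' (List.mem_cons_of_mem _ hp')⟩

/-! ### The guards `num (e i)` -/

/-- The index of the guard of the variable `i`. -/
def StepA_g (n : ℕ) (i : ℕ) : Fin (n + 1) := ⟨min i n, by omega⟩

/-- The values of the guards: `e i` for `i < n`, and zero. -/
def StepA_c (n : ℕ) (e : Env) (x : Fin (n + 1)) : ℕ := if x.val < n then e x.val else 0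

theorem StepA_c_g {n i : ℕ} (e : Env) (h : i < n) : StepA_c n e (StepA_g n i) = e i := by
  have : min i n = i := by omega
  simp [StepA_c, StepA_g, this, h]

/-- The sum of the lengths. -/
theorem StepA_sum (n : ℕ) {J : Type} [Fintype J] (p : J → AFm) :
    ∃ C : ℕ, ∀ e : Env, 1 + ∑ r, len (StepA_tau (StepA_c n e) p r) ≤ C * (1 + SzE n e) := by
  refine ⟨1 + 200 * (n + 1) + (∑ j, len (p j)) + 200, fun e => ?_⟩
  rw [Fintype.sum_sum_type]
  have h1 : ∑ x : Fin (n + 1), len (StepA_tau (StepA_c n e) p (Sum.inl x)) ≤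
      200 * (SzE n e) + 200 * (n + 1) := by
    calc ∑ x : Fin (n + 1), len (StepA_tau (StepA_c n e) p (Sum.inl x))
        ≤ ∑ x : Fin (n + 1), 200 * (Nat.size (StepA_c n e x) + 1) :=
          Finset.sum_le_sum fun x _ => len_num _
      _ = 200 * (∑ x : Fin (n + 1), Nat.size (StepA_c n e x)) + 200 * (n + 1) := by
          rw [← Finset.mul_sum, Finset.sum_add_distrib]
          simp [mul_add]
      _ = 200 * (SzE n e) + 200 * (n + 1) := by
          congr 2
          rw [Fin.sum_univ_castSucc]
          have h2 : StepA_c n e (Fin.last n) = 0 := by simp [StepA_c]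
          rw [h2, Nat.size_zero, add_zero]
          unfold SzE
          rw [Finset.sum_range]
          refine Finset.sum_congr rfl fun i _ => ?_
          simp [StepA_c]
  have h2 : ∑ j, len (StepA_tau (StepA_c n e) p (Sum.inr j)) = ∑ j, len (p j) := rfl
  rw [h2]
  nlinarith [Nat.zero_le (SzE n e), Nat.zero_le (∑ j, len (p j)),
    Nat.zero_le ((∑ j, len (p j)) * SzE n e), Nat.zero_le (n * SzE n e)]

/-! ### The theorems -/

/-- Apply a universally quantified axiom `ps → q`. -/
theorem hstep (n : ℕ) (ps : List AFm) (q : AFm) (hps : ∀ p ∈ ps, FVs (fun i => i < n) p)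
    (hq : FVs (fun i => i < n) q) :
    ∃ C : ℕ, ∀ (T : Set AFm) (e : Env) (a : AFm → ℕ), alls n (ps.foldr imp q) ∈ T →
      (∀ p ∈ ps, Pv T (a p) (Gd n e p)) →
      Pv T ((ps.map a).sum + C * (1 + SzE n e)) (Gd n e q) := by
  classical
  -- the fixed formulas
  let p : Option (Fin ps.length) → AFm := fun j => match j with
    | none => q
    | some j => ps.get j
  have hp : ∀ j, FVs (fun i => i < n) (p j) := by
    rintro (_ | j)
    · exact hq
    · exact hps _ (List.get_mem _ _)
  let Q : Option (Fin ps.length) →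
      Fm (Fin (n + 1) ⊕ Option (Fin ps.length)) (StepA_ar (Fin (n + 1)) (Option (Fin ps.length)) n) :=
    fun j => StepA_Q (Fin (n + 1)) n j
  have hQ : ∀ j, FVs (fun i => i < n) (Q j) := fun j => StepA_FVs_Q (fun i hi => hi) j
  let Ps := (List.finRange ps.length).map fun j => Q (some j)
  have hPs : ∀ P ∈ Ps, FVs (fun i => i < n) P := by
    intro P hP
    obtain ⟨j, -, rfl⟩ := List.mem_map.1 hP
    exact hQ _
  obtain ⟨C, hC⟩ := StepA_cut
    (alls n (Ps.foldr imp (Q none)) :: (List.finRange ps.length).map fun j =>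
      StepA_Gd (StepA_g n) n (Q (some j)))
    (by
      intro γ hγ
      rcases List.mem_cons.1 hγ with rfl | hγ
      · exact closed_alls (StepA_FVs_foldr hPs (hQ _))
      · obtain ⟨j, -, rfl⟩ := List.mem_map.1 hγ
        exact StepA_closed_Gd (hQ _))
    (StepA_Gd (StepA_g n) n (Q none))
    (by
      intro M _ S hS
      rw [StepA_sat_Gd]
      intro e he
      have h1 := hS _ List.mem_cons_self
      rw [sat_alls] at h1
      have h2 := h1 e
      rw [StepA_sat_foldr] at h2
      apply h2
      intro P hP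
      obtain ⟨j, hj, rfl⟩ := List.mem_map.1 hP
      have h3 := hS (StepA_Gd (StepA_g n) n (Q (some j)))
        (List.mem_cons_of_mem _ (List.mem_map.2 ⟨j, hj, rfl⟩))
      rw [StepA_sat_Gd] at h3
      exact h3 e he)
  obtain ⟨D, hD⟩ := StepA_sum n p
  refine ⟨len (alls n (ps.foldr imp q)) + C * D, fun T e a hT ha => ?_⟩
  have hgood := StepA_good (StepA_c n e) hp
  have eGd : ∀ j, subst (StepA_tau (StepA_c n e) p) (StepA_Gd (StepA_g n) n (Q j)) =
      Gd n e (p j) := by
    intro j
    rw [StepA_subst_Gd, StepA_subst_Q _ hp]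
    exact Gd_congr (fun i hi => StepA_c_g e hi) _
  have eAx : subst (StepA_tau (StepA_c n e) p) (alls n (Ps.foldr imp (Q none))) =
      alls n (ps.foldr imp q) := by
    rw [subst_alls, StepA_subst_foldr, StepA_subst_Q _ hp]
    congr 2
    rw [List.map_map]
    have : (subst (StepA_tau (StepA_c n e) p) ∘ fun j => Q (some j)) = fun j => ps.get j := by
      funext j
      exact StepA_subst_Q _ hp _
    rw [this]
    exact List.map_get_finRange ps
  have key := hC _ hgood T (len (alls n (ps.foldr imp q)) ::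
    (List.finRange ps.length).map fun j => a (ps.get j)) (by
      refine List.Forall₂.cons ?_ ?_
      · rw [eAx]
        exact Pv.hyp hT
      · rw [List.forall₂_map_left_iff, List.forall₂_map_right_iff, List.forall₂_same]
        intro j _
        rw [eGd]
        exact ha _ (List.get_mem _ _))
  rw [eGd] at key
  refine key.mono ?_
  rw [List.sum_cons]
  have h1 : ((List.finRange ps.length).map fun j => a (ps.get j)) = ps.map a := by
    conv_rhs => rw [← List.map_get_finRange ps]
    rw [List.map_map]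
    rfl
  rw [h1]
  have h2 := Nat.mul_le_mul_left C (hD e)
  nlinarith [Nat.zero_le (SzE n e), Nat.zero_le (len (alls n (ps.foldr imp q)) * SzE n e)]

/-- Substitution of variables, and additional guards. -/
theorem hmap (k n : ℕ) (f : ℕ → ℕ) (hf : ∀ i < k, f i < n) (q : AFm)
    (hq : FVs (fun i => i < k) q) :
    ∃ C : ℕ, ∀ (T : Set AFm) (e : Env) (a : ℕ), Pv T a (Gd k (fun i => e (f i)) q) →
      Pv T (a + C * (1 + SzE n e)) (Gd n e (rename f q)) := by
  let p : Unit → AFm := fun _ => q
  have hp : ∀ j, FVs (fun i => i < k) (p j) := fun _ => hq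
  let Q : Fm (Fin (n + 1) ⊕ Unit) (StepA_ar (Fin (n + 1)) Unit k) := StepA_Q (Fin (n + 1)) k ()
  have hQ : FVs (fun i => i < k) Q := StepA_FVs_Q (fun i hi => hi) ()
  obtain ⟨C, hC⟩ := StepA_cut [StepA_Gd (fun i => StepA_g n (f i)) k Q]
    (by
      intro γ hγ
      rw [List.mem_singleton] at hγ
      subst hγ
      exact StepA_closed_Gd hQ)
    (StepA_Gd (StepA_g n) n (rename f Q))
    (by
      intro M _ S hS
      rw [StepA_sat_Gd]
      intro e he
      have h1 := hS _ (List.mem_singleton.2 rfl)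
      rw [StepA_sat_Gd] at h1
      rw [sat_rename]
      exact h1 _ fun i hi => he _ (hf i hi))
  obtain ⟨D, hD⟩ := StepA_sum n p
  refine ⟨C * D, fun T e a ha => ?_⟩
  have hgood := StepA_good (StepA_c n e) hp
  have e1 : subst (StepA_tau (StepA_c n e) p) (StepA_Gd (fun i => StepA_g n (f i)) k Q) =
      Gd k (fun i => e (f i)) q := by
    rw [StepA_subst_Gd, StepA_subst_Q _ hp]
    exact Gd_congr (fun i hi => StepA_c_g e (hf i hi)) _
  have e2 : subst (StepA_tau (StepA_c n e) p) (StepA_Gd (StepA_g n) n (rename f Q)) =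
      Gd n e (rename f q) := by
    rw [StepA_subst_Gd, subst_rename hgood, StepA_subst_Q _ hp]
    exact Gd_congr (fun i hi => StepA_c_g e hi) _
  have key := hC _ hgood T [a] (List.Forall₂.cons (by rw [e1]; exact ha) List.Forall₂.nil)
  rw [e2] at key
  refine key.mono ?_
  have h2 := Nat.mul_le_mul_left C (hD e)
  simp only [List.sum_cons, List.sum_nil]
  nlinarith

end Pool.Agent.MycW
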