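import Pool.Agent.MycW.Cut
import Pool.Agent.MycW.GdSem
import Pool.Agent.MycW.StepA
import Pool.Agent.Myc.SemB

set_option autoImplicit false

/-! # MODULE STEPB: single steps with guarded sentences, II -/

namespace Pool.Agent.MycW

open Pool.Agent.Myc Pool.Agent.Myc.Fm

/- HINT: `cutS` with the language with a unary predicate `N i` for every guard (`i : Fin n`), and a
predicate of arity `n` (or `k`) for every fixed formula (as `subst τ (rel P v) = rename (ext v) (τ P)`,
take `v = fun i => i`; `rename (ext v) q = q` by `rename_congr` because the free variables of `q` are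
`< n`). The semantic hypothesis is easy, because `alls n φ` says that `φ` holds for all assignments
(`sat_alls`). Sum over the language: the fixed formulas give a constant, the guards
`∑ len (num (e i)) ≤ C * (1 + SzE n e)` by `len_num`. -/

/-- Sums over a range as sums of lists. -/
theorem StepB_sum (n : ℕ) (b : ℕ → ℕ) : ((List.range n).map b).sum = ∑ i ∈ Finset.range n, b i :=
  rfl

/-- Drop the guards of variables which do not occur, by the existence of these numbers. -/
theorem hdrop (k n : ℕ) (hk : k ≤ n) (q : AFm) (hq : FVs (fun i => i < k) q) :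
    ∃ C : ℕ, ∀ (T : Set AFm) (e : Env) (a : ℕ) (b : ℕ → ℕ), Pv T a (Gd n e q) →
      (∀ i, k ≤ i → i < n → Pv T (b i) (ex (num (e i)))) →
      Pv T (a + ∑ i ∈ Finset.Ico k n, b i + C * (1 + SzE n e)) (Gd k e q) := by
  let p : Unit → AFm := fun _ => q
  have hp : ∀ j, FVs (fun i => i < k) (p j) := fun _ => hq
  let Q : Fm (Fin (n + 1) ⊕ Unit) (StepA_ar (Fin (n + 1)) Unit k) := StepA_Q (Fin (n + 1)) k ()
  have hQ : ∀ m, k ≤ m → FVs (fun i => i < m) Q := fun m hm =>
    StepA_FVs_Q (fun i hi => by omega) ()
  let E : ℕ → Fm (Fin (n + 1) ⊕ Unit) (StepA_ar (Fin (n + 1)) Unit k) := fun i =>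
    ex (StepA_N Unit k (StepA_g n (k + i)) 0)
  obtain ⟨C, hC⟩ := StepA_cut (StepA_Gd (StepA_g n) n Q :: (List.range (n - k)).map E)
    (by
      intro γ hγ
      rcases List.mem_cons.1 hγ with rfl | hγ
      · exact StepA_closed_Gd (hQ _ hk)
      · obtain ⟨j, -, rfl⟩ := List.mem_map.1 hγ
        show FVs _ (ex _)
        rw [FVs_ex]
        exact StepA_FVs_N _ (Or.inl rfl))
    (StepA_Gd (StepA_g n) k Q)
    (by
      intro M _ S hS
      rw [StepA_sat_Gd]
      intro e he
      have h1 := hS _ List.mem_cons_self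
      rw [StepA_sat_Gd] at h1
      have h2 : ∀ i, k ≤ i → i < n → ∃ a, StepA_gN S (StepA_g n i) a := by
        intro i h3 h4
        have h5 := hS (E (i - k)) (List.mem_cons_of_mem _ (List.mem_map.2
          ⟨i - k, List.mem_range.2 (by omega), rfl⟩)) e
        rw [sat_ex] at h5
        obtain ⟨a, ha⟩ := h5
        rw [StepA_sat_N] at ha
        have h6 : k + (i - k) = i := by omega
        rw [h6] at ha
        exact ⟨a, ha⟩
      choose! w hw using h2
      have h3 := h1 (fun i => if i < k then e i else w i) (by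
        intro i hi
        by_cases h4 : i < k
        · simp only [h4, if_true]
          exact he i h4
        · simp only [h4, if_false]
          exact hw i (by omega) hi)
      rw [StepA_sat_Q] at h3 ⊢
      refine (StepA_gQ_congr S () fun i hi => ?_).1 h3
      simp only [hi, if_true])
  obtain ⟨D, hD⟩ := StepA_sum n p
  refine ⟨C * D, fun T e a b ha hb => ?_⟩
  have hgood := StepA_good (StepA_c n e) hp
  have e1 : ∀ m ≤ n, subst (StepA_tau (StepA_c n e) p) (StepA_Gd (StepA_g n) m Q) =
      Gd m e q := by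
    intro m hm
    rw [StepA_subst_Gd, StepA_subst_Q _ hp]
    exact Gd_congr (fun i hi => StepA_c_g e (by omega)) _
  have e2 : ∀ i < n - k, subst (StepA_tau (StepA_c n e) p) (E i) = ex (num (e (k + i))) := by
    intro i hi
    rw [subst_ex, StepA_subst_N0, StepA_c_g e (by omega)]
  have key := hC _ hgood T (a :: (List.range (n - k)).map fun i => b (k + i)) (by
    refine List.Forall₂.cons ?_ ?_
    · rw [e1 n le_rfl]
      exact ha
    · rw [List.forall₂_map_left_iff, List.forall₂_map_right_iff, List.forall₂_same]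
      intro i hi
      have hi' := List.mem_range.1 hi
      rw [e2 i hi']
      exact hb _ (by omega) (by omega))
  rw [e1 k hk] at key
  refine key.mono ?_
  have h2 := Nat.mul_le_mul_left C (hD e)
  rw [List.sum_cons, StepB_sum, Finset.sum_Ico_eq_sum_range]
  nlinarith

/-- From the universal form to the existential form. -/
theorem bx_of_gd (k : ℕ) (q : AFm) (hq : FVs (fun i => i < k) q) :
    ∃ C : ℕ, ∀ (T : Set AFm) (e : Env) (a : ℕ) (b : ℕ → ℕ), Pv T a (Gd k e q) →
      (∀ i < k, Pv T (b i) (ex (num (e i)))) →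
      Pv T (a + ∑ i ∈ Finset.range k, b i + C * (1 + SzE k e)) (Bx k e q) := by
  let p : Unit → AFm := fun _ => q
  have hp : ∀ j, FVs (fun i => i < k) (p j) := fun _ => hq
  let Q : Fm (Fin (k + 1) ⊕ Unit) (StepA_ar (Fin (k + 1)) Unit k) := StepA_Q (Fin (k + 1)) k ()
  have hQ : FVs (fun i => i < k) Q := StepA_FVs_Q (fun i hi => hi) ()
  let E : ℕ → Fm (Fin (k + 1) ⊕ Unit) (StepA_ar (Fin (k + 1)) Unit k) := fun i =>
    ex (StepA_N Unit k (StepA_g k i) 0)
  obtain ⟨C, hC⟩ := StepA_cut (StepA_Gd (StepA_g k) k Q :: (List.range k).map E)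
    (by
      intro γ hγ
      rcases List.mem_cons.1 hγ with rfl | hγ
      · exact StepA_closed_Gd hQ
      · obtain ⟨j, -, rfl⟩ := List.mem_map.1 hγ
        show FVs _ (ex _)
        rw [FVs_ex]
        exact StepA_FVs_N _ (Or.inl rfl))
    (StepA_Bx (StepA_g k) k Q)
    (by
      intro M _ S hS e
      rw [StepA_sat_Bx]
      have h1 := hS _ List.mem_cons_self
      rw [StepA_sat_Gd] at h1
      have h2 : ∀ i, i < k → ∃ a, StepA_gN S (StepA_g k i) a := by
        intro i h4
        have h5 := hS (E i) (List.mem_cons_of_mem _ (List.mem_map.2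
          ⟨i, List.mem_range.2 h4, rfl⟩)) e
        rw [sat_ex] at h5
        exact h5
      choose! w hw using h2
      refine ⟨w, hw, ?_⟩
      have h3 := h1 w hw
      rw [StepA_sat_Q] at h3 ⊢
      refine (StepA_gQ_congr S () fun i hi => ?_).1 h3
      simp only [StepA_jn, hi, if_true])
  obtain ⟨D, hD⟩ := StepA_sum k p
  refine ⟨C * D, fun T e a b ha hb => ?_⟩
  have hgood := StepA_good (StepA_c k e) hp
  have e1 : subst (StepA_tau (StepA_c k e) p) (StepA_Gd (StepA_g k) k Q) = Gd k e q := by
    rw [StepA_subst_Gd, StepA_subst_Q _ hp]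
    exact Gd_congr (fun i hi => StepA_c_g e hi) _
  have e3 : subst (StepA_tau (StepA_c k e) p) (StepA_Bx (StepA_g k) k Q) = Bx k e q := by
    rw [StepA_subst_Bx, StepA_subst_Q _ hp]
    exact Bx_congr (fun i hi => StepA_c_g e hi) _
  have e2 : ∀ i < k, subst (StepA_tau (StepA_c k e) p) (E i) = ex (num (e i)) := by
    intro i hi
    rw [subst_ex, StepA_subst_N0, StepA_c_g e hi]
  have key := hC _ hgood T (a :: (List.range k).map fun i => b i) (by
    refine List.Forall₂.cons ?_ ?_
    · rw [e1]
      exact ha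
    · rw [List.forall₂_map_left_iff, List.forall₂_map_right_iff, List.forall₂_same]
      intro i hi
      have hi' := List.mem_range.1 hi
      rw [e2 i hi']
      exact hb _ hi')
  rw [e3] at key
  refine key.mono ?_
  have h2 := Nat.mul_le_mul_left C (hD e)
  rw [List.sum_cons, StepB_sum]
  nlinarith

end Pool.Agent.MycW
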