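import Pool.Agent.MycW.NumA
import Pool.Agent.MycW.StepA
import Pool.Agent.MycW.StepB

set_option autoImplicit false

/-! # MODULE NUMB: doubling -/

namespace Pool.Agent.MycW

open Pool.Agent.Myc Pool.Agent.Myc.Fm

theorem NUMB_Gd (e : Env) (ρ : AFm) : Gd 2 e ρ =
    all (all (imp (rename (fun _ => 0) (num (e 0))) (imp (rename (fun _ => 1) (num (e 1))) ρ))) :=
  rfl

/-- The schema for even numbers. -/
theorem NUMB_even : ∃ C : ℕ, ∀ (m : ℕ) (ρ : AFm) (T : Set AFm) (a : ℕ), 0 < m →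
    FVs (fun i => i < 2) ρ → Pv T a (UNq m) →
    Pv T (a + C * (Nat.size m + len ρ + 1)) (imp (all (all (imp (addA 0 0 1) ρ)))
      (all (all (imp (rename (fun _ => 0) (num m))
        (imp (rename (fun _ => 1) (num (2 * m))) ρ))))) := by
  obtain ⟨C, hC⟩ := cutS (R := NUMA_R) (ar := NUMA_ar) [NUMA_U (NUMA_n 0)]
    (by
      intro γ hγ
      simp only [List.mem_singleton] at hγ
      subst hγ
      exact NUMA_closed_n)
    (imp (all (all (imp (NUMA_a 0 0 1) (NUMA_p 0 1))))
      (all (all (imp (rename (fun _ => 0) (NUMA_n 0))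
        (imp (rename (fun _ => 1) NUMA_E) (NUMA_p 0 1))))))
    (by
      intro M _ S hΓ e
      have h1 := hΓ (NUMA_U (NUMA_n 0)) (by simp) e
      rw [NUMA_sat_U] at h1
      rw [sat_imp]
      intro h2
      have h3 : ∀ x y : M, S.rel .A ![x, x, y] → S.rel .P ![x, y] := by
        intro x y hy
        have h4 := h2 y x
        rw [sat_imp, NUMA_sat_a, NUMA_sat_p] at h4
        exact h4 hy
      rw [sat_all]
      intro y
      rw [sat_all]
      intro x
      rw [sat_imp, sat_imp, sat_rename, sat_rename, NUMA_sat_p, NUMA_sat_n, NUMA_sat_E]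
      intro h4 h5
      obtain ⟨z, hz, hz'⟩ := h5
      have h6 : x = z := h1 x z ((NUMA_sat_n S _ _).2 h4) ((NUMA_sat_n S _ _).2 hz)
      subst h6
      exact h3 x y hz')
  refine ⟨300 * C, fun m ρ T a hm hρ h => ?_⟩
  have h1 := hC (NUMA_tau m ρ) (NUMA_good m hρ) T (fun _ => a) (by
    intro γ hγ
    simp only [List.mem_singleton] at hγ
    subst hγ
    rw [NUMA_sub_U m hρ, NUMA_sub_n]
    exact h)
  have h2 : subst (NUMA_tau m ρ) (imp (all (all (imp (NUMA_a 0 0 1) (NUMA_p 0 1))))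
      (all (all (imp (rename (fun _ => 0) (NUMA_n 0))
        (imp (rename (fun _ => 1) NUMA_E) (NUMA_p 0 1)))))) =
      imp (all (all (imp (addA 0 0 1) ρ)))
      (all (all (imp (rename (fun _ => 0) (num m))
        (imp (rename (fun _ => 1) (num (2 * m))) ρ)))) := by
    show imp (all (all (imp (subst _ (NUMA_a 0 0 1)) (subst _ (NUMA_p 0 1)))))
      (all (all (imp (subst _ (rename (fun _ => 0) (NUMA_n 0)))
        (imp (subst _ (rename (fun _ => 1) NUMA_E)) (subst _ (NUMA_p 0 1)))))) = _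
    rw [subst_rename (NUMA_good m hρ), subst_rename (NUMA_good m hρ), NUMA_sub_a,
      NUMA_sub_p m hρ, NUMA_sub_n, NUMA_sub_E hm]
  rw [h2] at h1
  refine h1.mono ?_
  have h4 := NUMA_len m ρ
  simp only [List.map_cons, List.map_nil, List.sum_cons, List.sum_nil]
  have h8 : C * (1 + ∑ r, len (NUMA_tau m ρ r)) ≤ C * (300 * (Nat.size m + len ρ + 1)) :=
    Nat.mul_le_mul_left _ (by omega)
  have h9 : 300 * C * (Nat.size m + len ρ + 1) = C * (300 * (Nat.size m + len ρ + 1)) := by ring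
  rw [h9]
  omega

/-- The schema for odd numbers. -/
theorem NUMB_odd : ∃ C : ℕ, ∀ (m : ℕ) (ρ : AFm) (T : Set AFm) (a : ℕ),
    FVs (fun i => i < 2) ρ → Pv T a (UNq m) →
    Pv T (a + C * (Nat.size m + len ρ + 1))
      (imp (all (all (all (imp (addA 1 1 0) (imp (succA 0 2) (rename Nat.succ ρ))))))
      (all (all (imp (rename (fun _ => 0) (num m))
        (imp (rename (fun _ => 1) (num (2 * m + 1))) ρ))))) := by
  obtain ⟨C, hC⟩ := cutS (R := NUMA_R) (ar := NUMA_ar) [NUMA_U (NUMA_n 0)]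
    (by
      intro γ hγ
      simp only [List.mem_singleton] at hγ
      subst hγ
      exact NUMA_closed_n)
    (imp (all (all (all (imp (NUMA_a 1 1 0) (imp (NUMA_s 0 2) (rename Nat.succ (NUMA_p 0 1)))))))
      (all (all (imp (rename (fun _ => 0) (NUMA_n 0))
        (imp (rename (fun _ => 1) NUMA_O) (NUMA_p 0 1))))))
    (by
      intro M _ S hΓ e
      have h1 := hΓ (NUMA_U (NUMA_n 0)) (by simp) e
      rw [NUMA_sat_U] at h1
      rw [sat_imp]
      intro h2
      have h3 : ∀ x y z : M, S.rel .A ![x, x, z] → S.rel .S ![z, y] → S.rel .P ![x, y] := by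
        intro x y z hy hz
        have h4 := h2 y x z
        rw [sat_imp, sat_imp, sat_rename, NUMA_sat_a, NUMA_sat_s, NUMA_sat_p] at h4
        exact h4 hy hz
      rw [sat_all]
      intro y
      rw [sat_all]
      intro x
      rw [sat_imp, sat_imp, sat_rename, sat_rename, NUMA_sat_p, NUMA_sat_n, NUMA_sat_O]
      intro h4 h5
      obtain ⟨w, z, hz, hz', hw⟩ := h5
      have h6 : x = z := h1 x z ((NUMA_sat_n S _ _).2 h4) ((NUMA_sat_n S _ _).2 hz)
      subst h6
      exact h3 x y w hz' hw)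
  refine ⟨300 * C, fun m ρ T a hρ h => ?_⟩
  have h1 := hC (NUMA_tau m ρ) (NUMA_good m hρ) T (fun _ => a) (by
    intro γ hγ
    simp only [List.mem_singleton] at hγ
    subst hγ
    rw [NUMA_sub_U m hρ, NUMA_sub_n]
    exact h)
  have h2 : subst (NUMA_tau m ρ)
      (imp (all (all (all (imp (NUMA_a 1 1 0) (imp (NUMA_s 0 2) (rename Nat.succ (NUMA_p 0 1)))))))
      (all (all (imp (rename (fun _ => 0) (NUMA_n 0))
        (imp (rename (fun _ => 1) NUMA_O) (NUMA_p 0 1)))))) =
      imp (all (all (all (imp (addA 1 1 0) (imp (succA 0 2) (rename Nat.succ ρ))))))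
      (all (all (imp (rename (fun _ => 0) (num m))
        (imp (rename (fun _ => 1) (num (2 * m + 1))) ρ)))) := by
    show imp (all (all (all (imp (subst _ (NUMA_a 1 1 0)) (imp (subst _ (NUMA_s 0 2))
        (subst _ (rename Nat.succ (NUMA_p 0 1))))))))
      (all (all (imp (subst _ (rename (fun _ => 0) (NUMA_n 0)))
        (imp (subst _ (rename (fun _ => 1) NUMA_O)) (subst _ (NUMA_p 0 1)))))) = _
    rw [subst_rename (NUMA_good m hρ), subst_rename (NUMA_good m hρ),
      subst_rename (NUMA_good m hρ), NUMA_sub_a, NUMA_sub_s,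
      NUMA_sub_p m hρ, NUMA_sub_n, NUMA_sub_O]
  rw [h2] at h1
  refine h1.mono ?_
  have h4 := NUMA_len m ρ
  simp only [List.map_cons, List.map_nil, List.sum_cons, List.sum_nil]
  have h8 : C * (1 + ∑ r, len (NUMA_tau m ρ r)) ≤ C * (300 * (Nat.size m + len ρ + 1)) :=
    Nat.mul_le_mul_left _ (by omega)
  have h9 : 300 * C * (Nat.size m + len ρ + 1) = C * (300 * (Nat.size m + len ρ + 1)) := by ring
  rw [h9]
  omega

theorem NUMB_len_Gd (e : Env) (ρ : AFm) :
    len (Gd 2 e ρ) ≤ 2 * len (num (e 0)) + 2 * len (num (e 1)) + len ρ + 20 := by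
  rw [NUMB_Gd]
  have h1 := len_rename_le (ρ := fun _ => 1) (B := 1) (fun i => by omega) (num (e 1))
  have h2 := len_rename_le (ρ := fun _ => 0) (B := 0) (fun i => by omega) (num (e 0))
  simp only [len]
  omega

theorem NUMB_size {e : Env} {s : ℕ} (h : SzE 2 e ≤ s) : Nat.size (e 0) ≤ s ∧
    Nat.size (e 1) ≤ s := by
  have h1 : SzE 2 e = Nat.size (e 0) + Nat.size (e 1) := by
    simp [SzE, Finset.sum_range_succ]
  omega

theorem NUMB_bound (c C L K s : ℕ) :
    c * (s + 1) ^ c + C * (s + L + 1) + K * (s + 1) ≤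
      (c + C * (L + 1) + K + 1) * (s + 1) ^ (c + C * (L + 1) + K + 1) := by
  have h1 : (s + 1) ^ c ≤ (s + 1) ^ (c + C * (L + 1) + K + 1) :=
    Nat.pow_le_pow_right (Nat.succ_pos s) (by omega)
  have h2 : s + 1 ≤ (s + 1) ^ (c + C * (L + 1) + K + 1) := Nat.le_self_pow (by omega) _
  have h3 : C * (s + L + 1) ≤ C * ((L + 1) * (s + 1)) := Nat.mul_le_mul_left _ (by nlinarith)
  calc c * (s + 1) ^ c + C * (s + L + 1) + K * (s + 1)
      ≤ c * (s + 1) ^ (c + C * (L + 1) + K + 1) +
        C * ((L + 1) * (s + 1) ^ (c + C * (L + 1) + K + 1)) +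
        K * (s + 1) ^ (c + C * (L + 1) + K + 1) :=
        Nat.add_le_add (Nat.add_le_add (Nat.mul_le_mul_left _ h1)
          (h3.trans (Nat.mul_le_mul_left _ (Nat.mul_le_mul_left _ h2))))
          (Nat.mul_le_mul_left _ h2)
    _ = (c + C * (L + 1) + K) * (s + 1) ^ (c + C * (L + 1) + K + 1) := by ring
    _ ≤ _ := Nat.mul_le_mul_right _ (by omega)

/-- `x₁ = 2 x₀`. HINT: for `n = 0` add the sentence `Gd 2 (fun _ => 0) ρ` to `Ax`; for `n > 0` use
`num_even`, `un_num` and the true axiom `∀ x y, x + x = y → ρ (x, y)`. -/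
theorem P_dbl : P0 2 (fun e => e 1 = 2 * e 0) := by
  intro ρ hρ hR
  obtain ⟨Ax, hAx, c, hc⟩ := un_num
  obtain ⟨C, hC⟩ := NUMB_even
  obtain ⟨B, hB⟩ : ∃ B : AFm, B = all (all (imp (addA 0 0 1) ρ)) := ⟨_, rfl⟩
  refine ⟨Gd 2 (fun _ => 0) ρ :: B :: Ax, ⟨?_, ?_⟩,
    c + C * (len ρ + 1) + (len B + len ρ + 2000) + 1, ?_⟩
  · intro ψ hψ
    simp only [List.mem_cons] at hψ
    rcases hψ with rfl | rfl | hψ
    · exact closed_Gd hρ _
    · rw [hB]
      show FVs _ (imp (addA 0 0 1) ρ)
      refine ⟨?_, hρ.mono fun i hi => ?_⟩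
      · show ∀ k : Fin 3, (fun i => i = 0 ∨ _) (![0, 0, 1] k : ℕ)
        intro k
        fin_cases k <;> simp
      · have : i = 0 ∨ i = 1 := by omega
        rcases this with rfl | rfl <;> simp
    · exact hAx.1 ψ hψ
  · intro ψ hψ e
    simp only [List.mem_cons] at hψ
    rcases hψ with rfl | rfl | hψ
    · rw [sat_Gd hρ, hR]
      rfl
    · rw [hB]
      intro y x hxy
      have h3 : x + x = y := hxy
      rw [hR]
      show y = 2 * x
      omega
    · exact hAx.2 ψ hψ e
  · rintro T hT e s ⟨he, hs⟩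
    obtain ⟨hs0, hs1⟩ := NUMB_size hs
    have hlen := NUMB_len_Gd e ρ
    have hn0 := len_num (e 0)
    have hn1 := len_num (e 1)
    have hle : len (Gd 2 e ρ) ≤ (len ρ + 1000) * (s + 1) := by
      have h1 : (len ρ + 1000) * (s + 1) = len ρ * s + len ρ + 1000 * s + 1000 := by ring
      have h2 : 0 ≤ len ρ * s := Nat.zero_le _
      omega
    rcases Nat.eq_zero_or_pos (e 0) with h0 | h0
    · have hG : Gd 2 (fun _ => 0) ρ = Gd 2 e ρ := by
        refine Gd_congr (fun i hi => ?_) ρ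
        have : i = 0 ∨ i = 1 := by omega
        rcases this with rfl | rfl
        · exact h0.symm
        · show 0 = e 1
          omega
      have hm : Gd 2 e ρ ∈ T := by
        rw [← hG]
        exact hT _ (by simp)
      refine (Pv.hyp hm).mono ?_
      refine le_trans ?_ (NUMB_bound c C (len ρ) (len B + len ρ + 2000) s)
      have h5 : (len ρ + 1000) * (s + 1) ≤ (len B + len ρ + 2000) * (s + 1) :=
        Nat.mul_le_mul_right _ (by omega)
      exact hle.trans (h5.trans (Nat.le_add_left _ _))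
    · have hu := hc T (fun ψ hψ => hT ψ (by simp [hψ])) (e 0) s hs0
      have h1 := hC (e 0) ρ T _ h0 hρ hu
      have h2 : all (all (imp (rename (fun _ => 0) (num (e 0)))
          (imp (rename (fun _ => 1) (num (2 * e 0))) ρ))) = Gd 2 e ρ := by
        rw [NUMB_Gd, he]
      rw [← hB, h2] at h1
      have hBT : B ∈ T := hT _ (by simp)
      refine (h1.mp (Pv.hyp hBT)).mono ?_
      refine le_trans ?_ (NUMB_bound c C (len ρ) (len B + len ρ + 2000) s)
      have h5 : (len ρ + 1000) * (s + 1) + len B ≤ (len B + len ρ + 2000) * (s + 1) := by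
        have e1 : (len B + len ρ + 2000) * (s + 1) =
          (len ρ + 1000) * (s + 1) + len B + (len B * s + 1000 * (s + 1)) := by ring
        omega
      have h6 : C * (Nat.size (e 0) + len ρ + 1) ≤ C * (s + len ρ + 1) :=
        Nat.mul_le_mul_left _ (by omega)
      omega

/-- `x₁ = 2 x₀ + 1`. -/
theorem P_dbl1 : P0 2 (fun e => e 1 = 2 * e 0 + 1) := by
  intro ρ hρ hR
  obtain ⟨Ax, hAx, c, hc⟩ := un_num
  obtain ⟨C, hC⟩ := NUMB_odd
  obtain ⟨B, hB⟩ : ∃ B : AFm, B =
    all (all (all (imp (addA 1 1 0) (imp (succA 0 2) (rename Nat.succ ρ))))) := ⟨_, rfl⟩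
  refine ⟨B :: Ax, ⟨?_, ?_⟩, c + C * (len ρ + 1) + (len B + len ρ + 2000) + 1, ?_⟩
  · intro ψ hψ
    simp only [List.mem_cons] at hψ
    rcases hψ with rfl | hψ
    · rw [hB]
      show FVs _ (imp (addA 1 1 0) (imp (succA 0 2) (rename Nat.succ ρ)))
      refine ⟨?_, ?_, ?_⟩
      · show ∀ k : Fin 3, (fun i => i = 0 ∨ _) (![1, 1, 0] k : ℕ)
        intro k
        fin_cases k <;> simp
      · show ∀ k : Fin 2, (fun i => i = 0 ∨ _) (![0, 2] k : ℕ)
        intro k
        fin_cases k <;> simp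
      · rw [FVs_rename]
        refine hρ.mono fun i hi => ?_
        have : i = 0 ∨ i = 1 := by omega
        rcases this with rfl | rfl <;> simp
    · exact hAx.1 ψ hψ
  · intro ψ hψ e
    simp only [List.mem_cons] at hψ
    rcases hψ with rfl | hψ
    · rw [hB]
      intro y x z hxz hzy
      have h3 : x + x = z := hxz
      have h4 : z + 1 = y := hzy
      rw [sat_rename, hR]
      show y = 2 * x + 1
      omega
    · exact hAx.2 ψ hψ e
  · rintro T hT e s ⟨he, hs⟩
    obtain ⟨hs0, hs1⟩ := NUMB_size hs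
    have hlen := NUMB_len_Gd e ρ
    have hn0 := len_num (e 0)
    have hn1 := len_num (e 1)
    have hle : len (Gd 2 e ρ) ≤ (len ρ + 1000) * (s + 1) := by
      have h1 : (len ρ + 1000) * (s + 1) = len ρ * s + len ρ + 1000 * s + 1000 := by ring
      have h2 : 0 ≤ len ρ * s := Nat.zero_le _
      omega
    have hu := hc T (fun ψ hψ => hT ψ (by simp [hψ])) (e 0) s hs0
    have h1 := hC (e 0) ρ T _ hρ hu
    have h2 : all (all (imp (rename (fun _ => 0) (num (e 0)))
        (imp (rename (fun _ => 1) (num (2 * e 0 + 1))) ρ))) = Gd 2 e ρ := by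
      rw [NUMB_Gd, he]
    rw [← hB, h2] at h1
    have hBT : B ∈ T := hT _ (by simp)
    refine (h1.mp (Pv.hyp hBT)).mono ?_
    refine le_trans ?_ (NUMB_bound c C (len ρ) (len B + len ρ + 2000) s)
    have h5 : (len ρ + 1000) * (s + 1) + len B ≤ (len B + len ρ + 2000) * (s + 1) := by
      have e1 : (len B + len ρ + 2000) * (s + 1) =
        (len ρ + 1000) * (s + 1) + len B + (len B * s + 1000 * (s + 1)) := by ring
      omega
    have h6 : C * (Nat.size (e 0) + len ρ + 1) ≤ C * (s + len ρ + 1) :=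
      Nat.mul_le_mul_left _ (by omega)
    omega

end Pool.Agent.MycW
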