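import Pool.Agent.MycW.RSuc

set_option autoImplicit false

/-! # MODULE ADD: addition -/

namespace Pool.Agent.MycW

open Pool.Agent.Myc Pool.Agent.Myc.Fm

theorem ADD_size1 (m : ℕ) : Nat.size (2 * m + 1) = Nat.size m + 1 := by
  have := Nat.size_bit (b := true) (n := m) (by simp [Nat.bit])
  simpa [Nat.bit] using this

theorem ADD_size0 {m : ℕ} (h : m ≠ 0) : Nat.size (2 * m) = Nat.size m + 1 := by
  have := Nat.size_bit (b := false) (n := m) (by simp [Nat.bit]; exact h)
  simpa [Nat.bit] using this

theorem ADD_size_le (m : ℕ) : Nat.size m ≤ Nat.size (2 * m) := Nat.size_le_size (by omega)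

/-- MODULE ADD. HINT: `(2 a + 1) + (2 b + 1) = 2 (a + (b + 1))`, use `sp_suc`; or treat addition
with a carry. -/
theorem sp_add : SP 3 (fun e => e 0 + e 1 = e 2) := by
  have hB : SP 3 (fun e => e 0 = 0 ∧ e 1 = 0 ∧ e 2 = 0) :=
    ((sp_const 0).v (n := 3) [0] (by decide)).and
      (((sp_const 0).v (n := 3) [1] (by decide)).and ((sp_const 0).v (n := 3) [2] (by decide)))
  have hT : SP 2 (fun e => e 0 + 1 = 2 * e 1) := by
    refine ((sp_suc.v (n := 3) [0, 2] (by decide)).and
      (sp_dbl.v (n := 3) [1, 2] (by decide))).ex 2 ?_ |>.iff ?_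
    · rintro e x ⟨h4, h5⟩
      have h6 : e 0 + 1 = x := h4
      have h7 : Nat.size x ≤ Nat.size (e 0) + 1 := by
        rw [← h6, Nat.size_le]
        have := Nat.lt_size_self (e 0)
        rw [pow_succ]
        omega
      have h8 := size_le_SzE (k := 2) (i := 0) (by norm_num) e
      nlinarith
    · intro e
      constructor
      · rintro ⟨x, h4, h5⟩
        have h6 : e 0 + 1 = x := h4
        have h7 : x = 2 * e 1 := h5
        omega
      · intro h
        exact ⟨e 0 + 1, show e 0 + 1 = e 0 + 1 from rfl, show e 0 + 1 = 2 * e 1 from h⟩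
  have hS : SP (3 + 3) (fun e => (e 0 = 2 * e 3 ∧ e 1 = 2 * e 4 ∧ e 2 = 2 * e 5) ∨
      (e 0 = 2 * e 3 + 1 ∧ e 1 = 2 * e 4 ∧ e 2 = 2 * e 5 + 1) ∨
      (e 0 = 2 * e 3 ∧ e 1 = 2 * e 4 + 1 ∧ e 2 = 2 * e 5 + 1) ∨
      (e 0 = 2 * e 3 + 1 ∧ e 1 + 1 = 2 * e 4 ∧ e 2 = 2 * e 5)) :=
    ((sp_dbl.v (n := 6) [3, 0] (by decide)).and ((sp_dbl.v (n := 6) [4, 1] (by decide)).and
      (sp_dbl.v (n := 6) [5, 2] (by decide)))).or
    (((sp_dbl1.v (n := 6) [3, 0] (by decide)).and ((sp_dbl.v (n := 6) [4, 1] (by decide)).and
      (sp_dbl1.v (n := 6) [5, 2] (by decide)))).or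
    (((sp_dbl.v (n := 6) [3, 0] (by decide)).and ((sp_dbl1.v (n := 6) [4, 1] (by decide)).and
      (sp_dbl1.v (n := 6) [5, 2] (by decide)))).or
    ((sp_dbl1.v (n := 6) [3, 0] (by decide)).and ((hT.v (n := 6) [1, 4] (by decide)).and
      (sp_dbl.v (n := 6) [5, 2] (by decide))))))
  refine SP.rec1 (ar_add 0 1 2 (by norm_num) (by norm_num) (by norm_num)) hB hS ?_ ?_
    (fun e => Nat.size (e 0) + Nat.size (e 1)) 1 ?_ ?_
  · rintro e ⟨h1, h2, h3⟩
    omega
  · intro e e' h1 h2
    simp [join] at h1
    omega
  · intro e _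
    simp [SzE, Finset.sum_range_succ]
    omega
  · intro e he
    have he' : e 0 + e 1 = e 2 := he
    rcases Nat.even_or_odd' (e 0) with ⟨a, ha | ha⟩ <;>
      rcases Nat.even_or_odd' (e 1) with ⟨b, hb | hb⟩
    · by_cases h0 : e 0 = 0 ∧ e 1 = 0
      · exact Or.inl ⟨h0.1, h0.2, by omega⟩
      · refine Or.inr ⟨fun i => if i = 0 then a else if i = 1 then b else a + b, ?_, ?_, ?_, ?_⟩
        · simp
        · simp only [↓reduceIte, one_ne_zero]
          rw [ha, hb]
          by_cases ha0 : a = 0
          · have hb0 : b ≠ 0 := by omega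
            rw [ADD_size0 hb0]
            have := ADD_size_le a
            omega
          · rw [ADD_size0 ha0]
            have := ADD_size_le b
            omega
        · simp [SzE, Finset.sum_range_succ]
          have h1 : Nat.size a ≤ Nat.size (e 0) := Nat.size_le_size (by omega)
          have h2 : Nat.size b ≤ Nat.size (e 1) := Nat.size_le_size (by omega)
          have h3 : Nat.size (a + b) ≤ Nat.size (e 2) := Nat.size_le_size (by omega)
          omega
        · simp [join]
          omega
    · refine Or.inr ⟨fun i => if i = 0 then a else if i = 1 then b else a + b, ?_, ?_, ?_, ?_⟩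
      · simp
      · simp only [↓reduceIte, one_ne_zero]
        rw [ha, hb, ADD_size1]
        have := ADD_size_le a
        omega
      · simp [SzE, Finset.sum_range_succ]
        have h1 : Nat.size a ≤ Nat.size (e 0) := Nat.size_le_size (by omega)
        have h2 : Nat.size b ≤ Nat.size (e 1) := Nat.size_le_size (by omega)
        have h3 : Nat.size (a + b) ≤ Nat.size (e 2) := Nat.size_le_size (by omega)
        omega
      · simp [join]
        omega
    · refine Or.inr ⟨fun i => if i = 0 then a else if i = 1 then b else a + b, ?_, ?_, ?_, ?_⟩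
      · simp
      · simp only [↓reduceIte, one_ne_zero]
        rw [ha, hb, ADD_size1]
        have := ADD_size_le b
        omega
      · simp [SzE, Finset.sum_range_succ]
        have h1 : Nat.size a ≤ Nat.size (e 0) := Nat.size_le_size (by omega)
        have h2 : Nat.size b ≤ Nat.size (e 1) := Nat.size_le_size (by omega)
        have h3 : Nat.size (a + b) ≤ Nat.size (e 2) := Nat.size_le_size (by omega)
        omega
      · simp [join]
        omega
    · refine Or.inr ⟨fun i => if i = 0 then a else if i = 1 then b + 1 else a + b + 1, ?_, ?_, ?_, ?_⟩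
      · simp
        omega
      · simp only [↓reduceIte, one_ne_zero]
        rw [ha, ADD_size1]
        have h2 : Nat.size (b + 1) ≤ Nat.size (e 1) := Nat.size_le_size (by omega)
        omega
      · simp [SzE, Finset.sum_range_succ]
        have h1 : Nat.size a ≤ Nat.size (e 0) := Nat.size_le_size (by omega)
        have h2 : Nat.size (b + 1) ≤ Nat.size (e 1) := Nat.size_le_size (by omega)
        have h3 : Nat.size (a + b + 1) ≤ Nat.size (e 2) := Nat.size_le_size (by omega)
        omega
      · simp [join]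
        omega

end Pool.Agent.MycW
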