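import Pool.Agent.MycW.Defs
import Pool.Agent.Myc.NatC
import Pool.Agent.Myc.RepC
import Pool.Agent.Myc.SynC

set_option autoImplicit false

/-! # The relations between numbers -/

namespace Pool.Agent.MycW

open Pool.Agent.Myc Pool.Agent.Myc.Fm

/-- The number of bits of the number of a formula. -/
theorem size_cd (φ : AFm) : Nat.size (cd φ) = len φ + 1 := by
  rw [cd, RepC_size_codeS, length_encode]

/-- The number of bits of the number of a list. -/
theorem size_cdL (l : List AFm) : Nat.size (cdL l) = plen l + 1 := by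
  rw [cdL, RepC_size_codeS, length_encodeL, plen]

/-- The number of bits of a variable. -/
theorem size_tk (i : ℕ) : Nat.size (tk i) = i + 3 := by
  rw [tk, RepC_size_codeS]
  simp [tok]

theorem cdL_nil : cdL [] = 1 := rfl

theorem cdL_cons (φ : AFm) (l : List AFm) : cdL (φ :: l) = codeS (encode φ ++ encodeL l) := by
  simp [cdL, encodeL]

theorem cdL_append (l l' : List AFm) : cdL (l ++ l') = codeS (encodeL l ++ encodeL l') := by
  simp [cdL, encodeL]

/-- `x` is a formula. -/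
def FmR (x : ℕ) : Prop := ∃ φ : AFm, x = cd φ

/-- `x` is a list of formulas. -/
def LsR (x : ℕ) : Prop := ∃ l : List AFm, x = cdL l

/-- `z` is the implication from `x` to `y`. -/
def ImR (x y z : ℕ) : Prop := ∃ φ ψ : AFm, x = cd φ ∧ y = cd ψ ∧ z = cd (imp φ ψ)

/-- `y` is the universal quantification of `x`. -/
def AlR (x y : ℕ) : Prop := ∃ φ : AFm, x = cd φ ∧ y = cd (all φ)

/-- `y` is the negation of `x`. -/
def NgR (x y : ℕ) : Prop := ∃ φ : AFm, x = cd φ ∧ y = cd (neg φ)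

/-- `L' = x :: L`. -/
def LcR (x L L' : ℕ) : Prop := ∃ (φ : AFm) (l : List AFm), x = cd φ ∧ L = cdL l ∧ L' = cdL (φ :: l)

/-- `L' = L ++ [x]`. -/
def SnR (L x L' : ℕ) : Prop :=
  ∃ (φ : AFm) (l : List AFm), x = cd φ ∧ L = cdL l ∧ L' = cdL (l ++ [φ])

/-- `x` is the head of `L` (falsum, if `L` is empty) and `L'` is its tail. -/
def PopR (L x L' : ℕ) : Prop :=
  ∃ l : List AFm, L = cdL l ∧ x = cd (l.headD bot) ∧ L' = cdL l.tail

/-- `L` is not empty and `L'` is `L` with its head moved to the end. -/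
def RotR (L L' : ℕ) : Prop :=
  ∃ (φ : AFm) (l : List AFm), L = cdL (φ :: l) ∧ L' = cdL (l ++ [φ])

/-- `L` is a list whose head is not falsum. -/
def NbR (L : ℕ) : Prop := ∃ (φ : AFm) (l : List AFm), L = cdL (φ :: l) ∧ φ ≠ bot

/-- `x` is an element of `L`. -/
def MmR (x L : ℕ) : Prop := ∃ (φ : AFm) (l : List AFm), x = cd φ ∧ L = cdL l ∧ φ ∈ l

/-- The renamings with parameters: `pn 0` is `k ↦ k + 1`, `pn (j + 1)` is `instMap j`. -/
def pn : ℕ → ℕ → ℕ
  | 0 => Nat.succ
  | j + 1 => instMap j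

/-- `y` is the image of `x` under the renaming with the parameter `p` under `d` quantifiers. -/
def RnR (p d x y : ℕ) : Prop := ∃ φ : AFm, x = cd φ ∧ y = cd (rename (up^[d] (pn p)) φ)

/-- `y` is `x` with all variables increased by one. -/
def LfR (x y : ℕ) : Prop := ∃ φ : AFm, x = cd φ ∧ y = cd (rename Nat.succ φ)

/-- `y` is `x` with the variable `j` for its variable `0`. -/
def InR (j x y : ℕ) : Prop := ∃ φ : AFm, x = cd φ ∧ y = cd (rename (instMap j) φ)

/-- The schemas of the logical axioms, with their parameters. -/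
def AxK (x y r : ℕ) : Prop := ∃ φ ψ : AFm, x = cd φ ∧ y = cd ψ ∧ r = cd (imp φ (imp ψ φ))
def AxS (x y z r : ℕ) : Prop := ∃ φ ψ χ : AFm, x = cd φ ∧ y = cd ψ ∧ z = cd χ ∧
  r = cd (imp (imp φ (imp ψ χ)) (imp (imp φ ψ) (imp φ χ)))
def AxDn (x r : ℕ) : Prop := ∃ φ : AFm, x = cd φ ∧ r = cd (imp (neg (neg φ)) φ)
def AxIn (j x r : ℕ) : Prop := ∃ φ : AFm, x = cd φ ∧
  r = cd (imp (all φ) (rename (instMap j) φ))
def AxDi (x y r : ℕ) : Prop := ∃ φ ψ : AFm, x = cd φ ∧ y = cd ψ ∧
  r = cd (imp (all (imp φ ψ)) (imp (all φ) (all ψ)))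
def AxVa (x r : ℕ) : Prop := ∃ φ : AFm, x = cd φ ∧ r = cd (imp φ (all (rename Nat.succ φ)))
def AxRe (i r : ℕ) : Prop := r = cd (eq i i : AFm)
def AxLe (i j x r : ℕ) : Prop := ∃ φ : AFm, x = cd φ ∧
  r = cd (imp (eq i j) (imp (rename (instMap i) φ) (rename (instMap j) φ)))

/-- `x` is a logical axiom. -/
def LxR (x : ℕ) : Prop := ∃ φ : AFm, LogAx φ ∧ x = cd φ

/-- The formula `x` may be added to the proof `L` from the axioms `t`. -/
def JsR (t L x : ℕ) : Prop := ∃ (T l : List AFm) (φ : AFm), t = cdL T ∧ L = cdL l ∧ x = cd φ ∧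
  Just {ψ | ψ ∈ T} l φ

/-- All elements of `L` are provable from the axioms `t`. -/
def TlR (t L : ℕ) : Prop := ∃ T l : List AFm, t = cdL T ∧ L = cdL l ∧
  ∀ φ ∈ l, Pvb {ψ | ψ ∈ T} φ

/-- `y` is provable from the axioms `t`. -/
def ThR (t y : ℕ) : Prop := ∃ (T : List AFm) (φ : AFm), t = cdL T ∧ y = cd φ ∧
  Pvb {ψ | ψ ∈ T} φ

/-- `y` has a proof of length at most `x` from the axioms `a` (the meaning of `provF`). -/
def PrR (a x y : ℕ) : Prop := ∃ (T : List AFm) (φ : AFm), a = cdL T ∧ y = cd φ ∧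
  Proves {ψ | ψ ∈ T} x φ

/-- `z` is the numeral of `x`. -/
def NuR (x z : ℕ) : Prop := z = cd (num x)

/-- `z` is the code of `ex (and (num x) φ)`, if `y` is the code of `φ`. -/
def EnR (x y z : ℕ) : Prop := ∃ φ : AFm, y = cd φ ∧ z = cd (ex (and (num x) φ))

/-- The entry `k` is the code of `Bx k e ψ`, if the entry `0` is the code of `ψ`. -/
def NcR (k : ℕ) (e : Env) : Prop := ∃ ψ : AFm, e 0 = cd ψ ∧ e k = cd (Bx k e ψ)

/-- `z` is the code of `Con T q`, if `b` is the code of `T`. -/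
def CnR (b q z : ℕ) : Prop := ∃ T : List AFm, b = cdL T ∧ z = cd (Con T q)

/-- `b'` is the code of `T + Con T q`, if `b` is the code of `T`. -/
def ClR (b q b' : ℕ) : Prop := ∃ T : List AFm, b = cdL T ∧ b' = cdL (Con T q :: T)

/-- `L` is a list with `n` elements. -/
def LnR (n L : ℕ) : Prop := ∃ l : List AFm, L = cdL l ∧ l.length = n

end Pool.Agent.MycW
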