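import Pool.Agent.MycW.RTok
import Pool.Agent.MycW.RCcPow
import Pool.Agent.MycW.Rel

set_option autoImplicit false

/-! # MODULE ATOM: atomic formulas, I -/

namespace Pool.Agent.MycW

open Pool.Agent.Myc Pool.Agent.Myc.Fm

/- `cd φ = codeS (encode φ)`, and `encode` of a compound formula is a concatenation, see
`Pool/Agent/Myc/Defs.lean`; `Cc_codeS u v z : Cc (codeS u) (codeS v) z ↔ z = codeS (u ++ v)`. The
number of bits of `codeS w` is `w.length + 1` (`RepC_size_codeS` in `Pool/Agent/Myc/RepC.lean`). -/

/-- Done, as an example. HINT: two tokens, `sp_cc`, a constant. All witnesses are shorter than the code. -/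
theorem sp_aeq : SP 3 (fun e => e 2 = cd (Fm.eq (e 0) (e 1) : AFm)) := by
  have h : SP (3 + 4) (fun e => e 3 = tk (e 0) ∧ e 4 = tk (e 1) ∧ Cc (e 3) (e 4) (e 5) ∧
      e 6 = 17 ∧ Cc (e 5) (e 6) (e 2)) :=
    (sp_tok.v [0, 3] (by decide)).and ((sp_tok.v [1, 4] (by decide)).and
      ((sp_cc.v [3, 4, 5] (by decide)).and (((sp_const 17).v [6] (by decide)).and
        (sp_cc.v [5, 6, 2] (by decide)))))
  have key : ∀ i j : ℕ, cd (Fm.eq i j : AFm) =
      codeS (tok i ++ tok j ++ [false, false, false, true]) := fun i j => rfl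
  refine h.of ?_ 5 ?_
  · intro e w hw
    simp only [join] at hw
    norm_num at hw
    obtain ⟨h1, h2, h3, h4, h5⟩ := hw
    rw [h1, h2] at h3
    have h6 := (Cc_codeS _ _ _).1 h3
    rw [h6, h4] at h5
    rw [key]
    exact (Cc_codeS _ [false, false, false, true] _).1 h5
  · intro e he
    refine ⟨fun i => [tk (e 0), tk (e 1), codeS (tok (e 0) ++ tok (e 1)), 17].getD i 0, ?_, ?_⟩
    · simp only [join]
      norm_num
      refine ⟨(Cc_codeS _ _ _).2 rfl, ?_⟩
      rw [he, key]
      exact (Cc_codeS _ [false, false, false, true] _).2 rfl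
    · have h1 : Nat.size (e 2) = (e 0) + (e 1) + 9 := by
        rw [he, size_cd]
        simp [len]
        ring
      have h2 := size_le_SzE (k := 3) (i := 2) (by norm_num) e
      have h3 : SzE 3 e + 1 ≤ (SzE 3 e + 1) ^ 5 := Nat.le_self_pow (by norm_num) _
      have h4 : Nat.size 17 = 5 := by decide
      intro i hi
      have : i = 0 ∨ i = 1 ∨ i = 2 ∨ i = 3 := by omega
      rcases this with rfl | rfl | rfl | rfl
      · simp [size_tk]; omega
      · simp [size_tk]; omega
      · simp only [List.getD_cons_succ, List.getD_cons_zero]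
        rw [RepC_size_codeS]
        simp [tok]
        omega
      · simp only [List.getD_cons_succ, List.getD_cons_zero]
        omega

/-- MODULE ATOM. -/
theorem sp_azero : SP 2 (fun e => e 1 = cd (zeroA (e 0))) := by
  have h : SP (2 + 2) (fun e => e 2 = tk (e 0) ∧ e 3 = 18 ∧ Cc (e 2) (e 3) (e 1)) :=
    (sp_tok.v [0, 2] (by decide)).and (((sp_const 18).v [3] (by decide)).and
      (sp_cc.v [2, 3, 1] (by decide)))
  have key : ∀ i : ℕ, cd (zeroA i) = codeS (tok i ++ [false, false, true, false]) := by
    intro i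
    simp [cd, encode, zeroA, tag, List.ofFn_succ, arA]
  refine h.of ?_ 5 ?_
  · intro e w hw
    simp only [join] at hw
    norm_num at hw
    obtain ⟨h1, h2, h3⟩ := hw
    rw [h1, h2] at h3
    rw [key]
    exact (Cc_codeS _ [false, false, true, false] _).1 h3
  · intro e he
    refine ⟨fun i => [tk (e 0), 18].getD i 0, ?_, ?_⟩
    · simp only [join]
      norm_num
      rw [he, key]
      exact (Cc_codeS _ [false, false, true, false] _).2 rfl
    · have h1 : Nat.size (e 1) = (e 0) + 7 := by
        rw [he, key, RepC_size_codeS]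
        simp [tok]
      have h2 := size_le_SzE (k := 2) (i := 1) (by norm_num) e
      have h3 : SzE 2 e + 1 ≤ (SzE 2 e + 1) ^ 5 := Nat.le_self_pow (by norm_num) _
      have h4 : Nat.size 18 = 5 := by decide
      intro i hi
      have : i = 0 ∨ i = 1 := by omega
      rcases this with rfl | rfl
      · simp [size_tk]; omega
      · simp only [List.getD_cons_succ, List.getD_cons_zero]
        omega

/-- MODULE ATOM. -/
theorem sp_asucc : SP 3 (fun e => e 2 = cd (succA (e 0) (e 1))) := by
  have h : SP (3 + 4) (fun e => e 3 = tk (e 0) ∧ e 4 = tk (e 1) ∧ Cc (e 3) (e 4) (e 5) ∧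
      e 6 = 19 ∧ Cc (e 5) (e 6) (e 2)) :=
    (sp_tok.v [0, 3] (by decide)).and ((sp_tok.v [1, 4] (by decide)).and
      ((sp_cc.v [3, 4, 5] (by decide)).and (((sp_const 19).v [6] (by decide)).and
        (sp_cc.v [5, 6, 2] (by decide)))))
  have key : ∀ i j : ℕ, cd (succA i j) =
      codeS (tok i ++ tok j ++ [false, false, true, true]) := by
    intro i j
    simp [cd, encode, succA, tag, List.ofFn_succ, arA]
  refine h.of ?_ 5 ?_
  · intro e w hw
    simp only [join] at hw
    norm_num at hw
    obtain ⟨h1, h2, h3, h4, h5⟩ := hw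
    rw [h1, h2] at h3
    have h6 := (Cc_codeS _ _ _).1 h3
    rw [h6, h4] at h5
    rw [key]
    exact (Cc_codeS _ [false, false, true, true] _).1 h5
  · intro e he
    refine ⟨fun i => [tk (e 0), tk (e 1), codeS (tok (e 0) ++ tok (e 1)), 19].getD i 0, ?_, ?_⟩
    · simp only [join]
      norm_num
      refine ⟨(Cc_codeS _ _ _).2 rfl, ?_⟩
      rw [he, key]
      exact (Cc_codeS _ [false, false, true, true] _).2 rfl
    · have h1 : Nat.size (e 2) = (e 0) + (e 1) + 9 := by
        rw [he, key, RepC_size_codeS]
        simp [tok]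
        ring
      have h2 := size_le_SzE (k := 3) (i := 2) (by norm_num) e
      have h3 : SzE 3 e + 1 ≤ (SzE 3 e + 1) ^ 5 := Nat.le_self_pow (by norm_num) _
      have h4 : Nat.size 19 = 5 := by decide
      intro i hi
      have : i = 0 ∨ i = 1 ∨ i = 2 ∨ i = 3 := by omega
      rcases this with rfl | rfl | rfl | rfl
      · simp [size_tk]; omega
      · simp [size_tk]; omega
      · simp only [List.getD_cons_succ, List.getD_cons_zero]
        rw [RepC_size_codeS]
        simp [tok]
        omega
      · simp only [List.getD_cons_succ, List.getD_cons_zero]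
        omega

end Pool.Agent.MycW
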