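import Pool.Agent.MycW.RTok
import Pool.Agent.MycW.RCcPow
import Pool.Agent.MycW.Rel

set_option autoImplicit false

/-! # MODULE ATOM3: atomic formulas, II -/

namespace Pool.Agent.MycW

open Pool.Agent.Myc Pool.Agent.Myc.Fm

/- `cd φ = codeS (encode φ)`, and `encode` of a compound formula is a concatenation, see
`Pool/Agent/Myc/Defs.lean`; `Cc_codeS u v z : Cc (codeS u) (codeS v) z ↔ z = codeS (u ++ v)`. The
number of bits of `codeS w` is `w.length + 1` (`RepC_size_codeS` in `Pool/Agent/Myc/RepC.lean`). -/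

/-- MODULE ATOM3. -/
theorem sp_aadd : SP 4 (fun e => e 3 = cd (addA (e 0) (e 1) (e 2))) := by
  have h : SP (4 + 6) (fun e => e 4 = tk (e 0) ∧ e 5 = tk (e 1) ∧ e 6 = tk (e 2) ∧
      Cc (e 4) (e 5) (e 7) ∧ Cc (e 7) (e 6) (e 8) ∧ e 9 = 20 ∧ Cc (e 8) (e 9) (e 3)) :=
    (sp_tok.v [0, 4] (by decide)).and ((sp_tok.v [1, 5] (by decide)).and
      ((sp_tok.v [2, 6] (by decide)).and ((sp_cc.v [4, 5, 7] (by decide)).and
        ((sp_cc.v [7, 6, 8] (by decide)).and (((sp_const 20).v [9] (by decide)).and
          (sp_cc.v [8, 9, 3] (by decide)))))))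
  have key : ∀ i j k : ℕ, cd (addA i j k) =
      codeS ((tok i ++ tok j) ++ tok k ++ [false, true, false, false]) := by
    intro i j k
    simp [cd, encode, addA, tag, List.ofFn_succ, arA]
  refine h.of ?_ 5 ?_
  · intro e w hw
    simp only [join] at hw
    norm_num at hw
    obtain ⟨h1, h2, h3, h4, h5, h6, h7⟩ := hw
    rw [h1, h2] at h4
    have h8 := (Cc_codeS _ _ _).1 h4
    rw [h8, h3] at h5
    have h9 := (Cc_codeS _ _ _).1 h5
    rw [h9, h6] at h7
    rw [key]
    exact (Cc_codeS _ [false, true, false, false] _).1 h7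
  · intro e he
    refine ⟨fun i => [tk (e 0), tk (e 1), tk (e 2), codeS (tok (e 0) ++ tok (e 1)),
      codeS ((tok (e 0) ++ tok (e 1)) ++ tok (e 2)), 20].getD i 0, ?_, ?_⟩
    · simp only [join]
      norm_num
      refine ⟨(Cc_codeS _ _ _).2 rfl, ?_, ?_⟩
      · have := (Cc_codeS (tok (e 0) ++ tok (e 1)) (tok (e 2)) _).2 rfl
        simpa [tk] using this
      · rw [he, key]
        have := (Cc_codeS ((tok (e 0) ++ tok (e 1)) ++ tok (e 2)) [false, true, false, false] _).2 rfl
        have h20 : codeS [false, true, false, false] = 20 := rfl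
        rw [h20] at this
        simpa using this
    · have h1 : Nat.size (e 3) = (e 0) + (e 1) + (e 2) + 11 := by
        rw [he, key, RepC_size_codeS]
        simp [tok]
        ring
      have h2 := size_le_SzE (k := 4) (i := 3) (by norm_num) e
      have h3 : SzE 4 e + 1 ≤ (SzE 4 e + 1) ^ 5 := Nat.le_self_pow (by norm_num) _
      have h4 : Nat.size 20 = 5 := by decide
      intro i hi
      have : i = 0 ∨ i = 1 ∨ i = 2 ∨ i = 3 ∨ i = 4 ∨ i = 5 := by omega
      rcases this with rfl | rfl | rfl | rfl | rfl | rfl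
      · simp [size_tk]; omega
      · simp [size_tk]; omega
      · simp [size_tk]; omega
      · simp only [List.getD_cons_succ, List.getD_cons_zero]
        rw [RepC_size_codeS]
        simp [tok]
        omega
      · simp only [List.getD_cons_succ, List.getD_cons_zero]
        rw [RepC_size_codeS]
        simp [tok]
        omega
      · simp only [List.getD_cons_succ, List.getD_cons_zero]
        omega

/-- MODULE ATOM3. -/
theorem sp_amul : SP 4 (fun e => e 3 = cd (mulA (e 0) (e 1) (e 2))) := by
  have h : SP (4 + 6) (fun e => e 4 = tk (e 0) ∧ e 5 = tk (e 1) ∧ e 6 = tk (e 2) ∧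
      Cc (e 4) (e 5) (e 7) ∧ Cc (e 7) (e 6) (e 8) ∧ e 9 = 21 ∧ Cc (e 8) (e 9) (e 3)) :=
    (sp_tok.v [0, 4] (by decide)).and ((sp_tok.v [1, 5] (by decide)).and
      ((sp_tok.v [2, 6] (by decide)).and ((sp_cc.v [4, 5, 7] (by decide)).and
        ((sp_cc.v [7, 6, 8] (by decide)).and (((sp_const 21).v [9] (by decide)).and
          (sp_cc.v [8, 9, 3] (by decide)))))))
  have key : ∀ i j k : ℕ, cd (mulA i j k) =
      codeS ((tok i ++ tok j) ++ tok k ++ [false, true, false, true]) := by
    intro i j k
    simp [cd, encode, mulA, tag, List.ofFn_succ, arA]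
  refine h.of ?_ 5 ?_
  · intro e w hw
    simp only [join] at hw
    norm_num at hw
    obtain ⟨h1, h2, h3, h4, h5, h6, h7⟩ := hw
    rw [h1, h2] at h4
    have h8 := (Cc_codeS _ _ _).1 h4
    rw [h8, h3] at h5
    have h9 := (Cc_codeS _ _ _).1 h5
    rw [h9, h6] at h7
    rw [key]
    exact (Cc_codeS _ [false, true, false, true] _).1 h7
  · intro e he
    refine ⟨fun i => [tk (e 0), tk (e 1), tk (e 2), codeS (tok (e 0) ++ tok (e 1)),
      codeS ((tok (e 0) ++ tok (e 1)) ++ tok (e 2)), 21].getD i 0, ?_, ?_⟩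
    · simp only [join]
      norm_num
      refine ⟨(Cc_codeS _ _ _).2 rfl, ?_, ?_⟩
      · have := (Cc_codeS (tok (e 0) ++ tok (e 1)) (tok (e 2)) _).2 rfl
        simpa [tk] using this
      · rw [he, key]
        have := (Cc_codeS ((tok (e 0) ++ tok (e 1)) ++ tok (e 2)) [false, true, false, true] _).2 rfl
        have h20 : codeS [false, true, false, true] = 21 := rfl
        rw [h20] at this
        simpa using this
    · have h1 : Nat.size (e 3) = (e 0) + (e 1) + (e 2) + 11 := by
        rw [he, key, RepC_size_codeS]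
        simp [tok]
        ring
      have h2 := size_le_SzE (k := 4) (i := 3) (by norm_num) e
      have h3 : SzE 4 e + 1 ≤ (SzE 4 e + 1) ^ 5 := Nat.le_self_pow (by norm_num) _
      have h4 : Nat.size 21 = 5 := by decide
      intro i hi
      have : i = 0 ∨ i = 1 ∨ i = 2 ∨ i = 3 ∨ i = 4 ∨ i = 5 := by omega
      rcases this with rfl | rfl | rfl | rfl | rfl | rfl
      · simp [size_tk]; omega
      · simp [size_tk]; omega
      · simp [size_tk]; omega
      · simp only [List.getD_cons_succ, List.getD_cons_zero]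
        rw [RepC_size_codeS]
        simp [tok]
        omega
      · simp only [List.getD_cons_succ, List.getD_cons_zero]
        rw [RepC_size_codeS]
        simp [tok]
        omega
      · simp only [List.getD_cons_succ, List.getD_cons_zero]
        omega

end Pool.Agent.MycW
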