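import Pool.Agent.MycW.REn
import Pool.Agent.MycW.RLst

set_option autoImplicit false

/-! # MODULE CNCL: codes of consistency statements -/

namespace Pool.Agent.MycW

open Pool.Agent.Myc Pool.Agent.Myc.Fm

theorem CNCL_len_le (a φ : AFm) : len φ ≤ len (ex (Fm.and a φ)) := by
  simp only [ex, Fm.and, neg, len]
  omega

theorem CNCL_gen (F : AFm) : SP 3 (fun e => ∃ T : List AFm, e 0 = cdL T ∧
    e 2 = cd (ex (Fm.and (num (e 1)) (ex (Fm.and (num (cdL T)) (ex (Fm.and (num 16) F))))))) := by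
  have h : SP (3 + 4) (fun e => e 3 = 16 ∧ e 4 = cd F ∧
      EnR (e 3) (e 4) (e 5) ∧ EnR (e 0) (e 5) (e 6) ∧ EnR (e 1) (e 6) (e 2) ∧ LsR (e 0)) :=
    ((sp_const 16).v (n := 7) [3] (by decide)).and
      (((sp_const (cd F)).v (n := 7) [4] (by decide)).and
        ((sp_en.v (n := 7) [3, 4, 5] (by decide)).and ((sp_en.v (n := 7) [0, 5, 6] (by decide)).and
          ((sp_en.v (n := 7) [1, 6, 2] (by decide)).and (sp_ls.v (n := 7) [0] (by decide))))))
  refine h.of ?_ 5 ?_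
  · intro e w hw
    have hw' : w 0 = 16 ∧ w 1 = cd F ∧
      EnR (w 0) (w 1) (w 2) ∧ EnR (e 0) (w 2) (w 3) ∧ EnR (e 1) (w 3) (e 2) ∧ LsR (e 0) := hw
    obtain ⟨h1, h2, ⟨φ1, h3, h4⟩, ⟨φ2, h5, h6⟩, ⟨φ3, h7, h8⟩, ⟨T, h9⟩⟩ := hw'
    refine ⟨T, h9, ?_⟩
    have h10 := cd_inj (h3.symm.trans h2)
    have h11 := cd_inj (h5.symm.trans h4)
    have h12 := cd_inj (h7.symm.trans h6)
    rw [h8, h12, h11, h10, h1, h9]
  · rintro e ⟨T, h1, h2⟩
    refine ⟨fun i => [16, cd F, cd (ex (Fm.and (num 16) F)),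
      cd (ex (Fm.and (num (cdL T)) (ex (Fm.and (num 16) F))))].getD i 0, ?_, ?_⟩
    · show 16 = 16 ∧ cd F = cd F ∧ EnR 16 (cd F) (cd (ex (Fm.and (num 16) F))) ∧
        EnR (e 0) (cd (ex (Fm.and (num 16) F)))
          (cd (ex (Fm.and (num (cdL T)) (ex (Fm.and (num 16) F))))) ∧
        EnR (e 1) (cd (ex (Fm.and (num (cdL T)) (ex (Fm.and (num 16) F))))) (e 2) ∧ LsR (e 0)
      refine ⟨rfl, rfl, ⟨_, rfl, rfl⟩, ⟨_, rfl, ?_⟩, ⟨_, rfl, ?_⟩, ⟨T, h1⟩⟩
      · rw [h1]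
      · rw [h2]
    · have h3 := size_le_SzE (k := 3) (i := 2) (by norm_num) e
      rw [h2, size_cd] at h3
      have h4 : SzE 3 e + 1 ≤ (SzE 3 e + 1) ^ 5 := Nat.le_self_pow (by norm_num) _
      have h5 : Nat.size 16 = 5 := by decide
      have g1 := CNCL_len_le (num 16) F
      have g2 := CNCL_len_le (num (cdL T)) (ex (Fm.and (num 16) F))
      have g3 := CNCL_len_le (num (e 1)) (ex (Fm.and (num (cdL T)) (ex (Fm.and (num 16) F))))
      intro i hi
      have : i = 0 ∨ i = 1 ∨ i = 2 ∨ i = 3 := by omega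
      rcases this with rfl | rfl | rfl | rfl
      · show Nat.size 16 ≤ _
        rw [h5]
        omega
      · show Nat.size (cd F) ≤ _
        rw [size_cd]
        omega
      · show Nat.size (cd (ex (Fm.and (num 16) F))) ≤ _
        rw [size_cd]
        omega
      · show Nat.size (cd (ex (Fm.and (num (cdL T)) (ex (Fm.and (num 16) F))))) ≤ _
        rw [size_cd]
        omega

theorem CNCL_key (T : List AFm) (q : ℕ) : Pool.Agent.Myc.Con T q =
    ex (Fm.and (num q) (ex (Fm.and (num (cdL T))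
      (ex (Fm.and (num 16) (neg (ap provF [1, 2, 0]))))))) := by
  have h16 : codeS (encode bot) = 16 := rfl
  rw [← h16]
  rfl

/-- MODULE CNCL. HINT: `Con T q = Bx 3 ![16, cdL T, q] (neg (ap provF [1, 2, 0]))`, so three times
`sp_en`, starting from a constant; and `LsR b`. -/
theorem sp_cn : SP 3 (fun e => CnR (e 0) (e 1) (e 2)) := by
  refine (CNCL_gen (neg (ap provF [1, 2, 0]))).iff fun e => ?_
  constructor
  · rintro ⟨T, h1, h2⟩
    exact ⟨T, h1, h2.trans (congrArg cd (CNCL_key T (e 1)).symm)⟩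
  · rintro ⟨T, h1, h2⟩
    exact ⟨T, h1, h2.trans (congrArg cd (CNCL_key T (e 1)))⟩

/-- MODULE CNCL. -/
theorem sp_cl : SP 3 (fun e => ClR (e 0) (e 1) (e 2)) := by
  have h : SP (3 + 1) (fun e => CnR (e 0) (e 1) (e 3) ∧ LcR (e 3) (e 0) (e 2)) :=
    (sp_cn.v (n := 4) [0, 1, 3] (by decide)).and (sp_lc.v (n := 4) [3, 0, 2] (by decide))
  refine h.of ?_ 1 ?_
  · intro e w hw
    have hw' : CnR (e 0) (e 1) (w 0) ∧ LcR (w 0) (e 0) (e 2) := hw
    obtain ⟨⟨T, h1, h2⟩, ⟨φ, l, h3, h4, h5⟩⟩ := hw'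
    have h6 := cd_inj (h3.symm.trans h2)
    have h7 := cdL_inj (h4.symm.trans h1)
    exact ⟨T, h1, by rw [h5, h6, h7]⟩
  · rintro e ⟨T, h1, h2⟩
    refine ⟨fun _ => cd (Con T (e 1)), ?_, ?_⟩
    · show CnR (e 0) (e 1) (cd (Con T (e 1))) ∧ LcR (cd (Con T (e 1))) (e 0) (e 2)
      exact ⟨⟨T, h1, rfl⟩, ⟨_, T, rfl, h1, h2⟩⟩
    · have h3 := size_le_SzE (k := 3) (i := 2) (by norm_num) e
      rw [h2, size_cdL, Prv_plen_cons] at h3
      intro i _
      simp only [pow_one, one_mul]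
      rw [size_cd]
      omega

end Pool.Agent.MycW
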