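import Pool.Agent.MycW.RNume

set_option autoImplicit false

/-! # MODULE EN: instances -/

namespace Pool.Agent.MycW

open Pool.Agent.Myc Pool.Agent.Myc.Fm

/-- The constant end of the string of `ex (and (num x) φ)`. -/
def EN_t : List Bool :=
  encode bot ++ [false, true, true, false] ++ [false, true, true, false] ++
    encode bot ++ [false, true, true, false] ++ exS

theorem EN_encode (x : ℕ) (φ : AFm) :
    encode (ex (and (num x) φ)) = (encode (num x) ++ encode φ) ++ EN_t := by
  rw [encode_ex, encode_and, andS, EN_t]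
  simp only [List.append_assoc]

/-- The relation with the auxiliary numbers `n`, `c`, `u`. -/
theorem EN_iff {x y z n c u : ℕ} (h1 : FmR y) (h2 : NuR x n) (h3 : c = codeS EN_t)
    (h4 : Cc n y u) (h5 : Cc u c z) : EnR x y z := by
  obtain ⟨φ, rfl⟩ := h1
  unfold NuR at h2
  subst h2 h3
  rw [cd, cd, Cc_codeS] at h4
  subst h4
  rw [Cc_codeS, ← EN_encode] at h5
  exact ⟨φ, rfl, h5⟩

/-- MODULE EN. HINT: `encode (ex (and (num x) φ)) = encode (num x) ++ andS φ ++ exS`, and `andS φ`
is the concatenation of `encode φ` and constants. -/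
theorem sp_en : SP 3 (fun e => EnR (e 0) (e 1) (e 2)) := by
  have h : SP (3 + 3) (fun e => FmR (e 1) ∧ NuR (e 0) (e 3) ∧ e 4 = codeS EN_t ∧
      Cc (e 3) (e 1) (e 5) ∧ Cc (e 5) (e 4) (e 2)) :=
    (sp_fm.v [1] (by decide)).and ((sp_nu.v [0, 3] (by decide)).and
      (((sp_const (codeS EN_t)).v [4] (by decide)).and ((sp_cc.v [3, 1, 5] (by decide)).and
        (sp_cc.v [5, 4, 2] (by decide)))))
  refine h.of ?_ (Nat.size (codeS EN_t) + 1) ?_
  · rintro e w ⟨h1, h2, h3, h4, h5⟩
    exact EN_iff (x := e 0) (y := e 1) (z := e 2) (n := w 0) (c := w 1) (u := w 2) h1 h2 h3 h4 h5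
  · rintro e ⟨φ, h1, h2⟩
    refine ⟨fun i => if i = 0 then cd (num (e 0)) else if i = 1 then codeS EN_t else
      codeS (encode (num (e 0)) ++ encode φ), ⟨⟨φ, h1⟩, rfl, rfl, ?_, ?_⟩, ?_⟩
    · change Cc (cd (num (e 0))) (e 1) (codeS (encode (num (e 0)) ++ encode φ))
      rw [h1, cd, cd, Cc_codeS]
    · change Cc (codeS (encode (num (e 0)) ++ encode φ)) (codeS EN_t) (e 2)
      rw [h2, cd, Cc_codeS, EN_encode]
    · have h3 := size_le_SzE (k := 3) (i := 2) (by norm_num) e
      have h4 : Nat.size (e 2) = (encode (num (e 0))).length + (encode φ).length +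
          EN_t.length + 1 := by
        rw [h2, cd, RepC_size_codeS, EN_encode, List.length_append, List.length_append]
      have h5 : (Nat.size (codeS EN_t) + 1) * (SzE 3 e + 1) ≤
          (Nat.size (codeS EN_t) + 1) * (SzE 3 e + 1) ^ (Nat.size (codeS EN_t) + 1) :=
        Nat.mul_le_mul_left _ (Nat.le_self_pow (Nat.succ_ne_zero _) _)
      have h6 : SzE 3 e + 1 ≤ (Nat.size (codeS EN_t) + 1) * (SzE 3 e + 1) :=
        Nat.le_mul_of_pos_left _ (Nat.succ_pos _)
      have h7 : Nat.size (codeS EN_t) ≤ (Nat.size (codeS EN_t) + 1) * (SzE 3 e + 1) :=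
        (Nat.le_succ _).trans (Nat.le_mul_of_pos_right _ (Nat.succ_pos _))
      intro i _
      refine le_trans ?_ h5
      by_cases hi : i = 0
      · simp only [hi, if_true]
        rw [cd, RepC_size_codeS]
        omega
      · by_cases hi1 : i = 1
        · simp only [hi1, one_ne_zero, if_false, if_true]
          exact h7
        · simp only [hi, hi1, if_false]
          rw [RepC_size_codeS, List.length_append]
          omega

end Pool.Agent.MycW
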