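import Pool.Agent.MycW.RAtom
import Pool.Agent.MycW.RAtom3
import Pool.Agent.Myc.NatE
import Pool.Agent.Myc.StdB

set_option autoImplicit false

/-! # MODULE FM: formulas -/

namespace Pool.Agent.MycW

open Pool.Agent.Myc Pool.Agent.Myc.Fm

/- `cd φ = codeS (encode φ)`, and `encode` of a compound formula is a concatenation, see
`Pool/Agent/Myc/Defs.lean`; `Cc_codeS u v z : Cc (codeS u) (codeS v) z ↔ z = codeS (u ++ v)`. The
number of bits of `codeS w` is `w.length + 1` (`RepC_size_codeS` in `Pool/Agent/Myc/RepC.lean`). -/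

/-- Every formula is falsum, atomic, an implication or a quantification. -/
theorem FM_cases (φ : AFm) : φ = bot ∨ (∃ i j, φ = Fm.eq i j) ∨ (∃ i, φ = zeroA i) ∨
    (∃ i j, φ = succA i j) ∨ (∃ i j k, φ = addA i j k) ∨ (∃ i j k, φ = mulA i j k) ∨
    (∃ ψ χ, φ = imp ψ χ) ∨ ∃ ψ, φ = all ψ := by
  cases φ with
  | bot => exact Or.inl rfl
  | eq i j => exact Or.inr (Or.inl ⟨i, j, rfl⟩)
  | imp ψ χ => exact Or.inr (Or.inr (Or.inr (Or.inr (Or.inr (Or.inr (Or.inl ⟨ψ, χ, rfl⟩))))))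
  | all ψ => exact Or.inr (Or.inr (Or.inr (Or.inr (Or.inr (Or.inr (Or.inr ⟨ψ, rfl⟩))))))
  | rel r v =>
    cases r with
    | zero =>
      refine Or.inr (Or.inr (Or.inl ⟨v (0 : Fin 1), ?_⟩))
      unfold zeroA
      congr 1
      funext k
      change Fin 1 at k
      fin_cases k
      rfl
    | succ =>
      refine Or.inr (Or.inr (Or.inr (Or.inl ⟨v (0 : Fin 2), v (1 : Fin 2), ?_⟩)))
      unfold succA
      congr 1
      funext k
      change Fin 2 at k
      fin_cases k <;> rfl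
    | add =>
      refine Or.inr (Or.inr (Or.inr (Or.inr (Or.inl ⟨v (0 : Fin 3), v (1 : Fin 3),
        v (2 : Fin 3), ?_⟩))))
      unfold addA
      congr 1
      funext k
      change Fin 3 at k
      fin_cases k <;> rfl
    | mul =>
      refine Or.inr (Or.inr (Or.inr (Or.inr (Or.inr (Or.inl ⟨v (0 : Fin 3), v (1 : Fin 3),
        v (2 : Fin 3), ?_⟩)))))
      unfold mulA
      congr 1
      funext k
      change Fin 3 at k
      fin_cases k <;> rfl

theorem FM_len_eq (i j : ℕ) : len (Fm.eq i j : AFm) = i + j + 8 := by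
  simp only [len]
  omega

theorem FM_len_zero (i : ℕ) : len (zeroA i) = i + 6 := by
  have : len (zeroA i) = (∑ k : Fin 1, ((![i] : Fin 1 → ℕ) k + 2)) + 4 := rfl
  rw [this]
  simp

theorem FM_len_succ (i j : ℕ) : len (succA i j) = i + j + 8 := by
  have : len (succA i j) = (∑ k : Fin 2, ((![i, j] : Fin 2 → ℕ) k + 2)) + 4 := rfl
  rw [this]
  simp [Fin.sum_univ_succ]
  omega

theorem FM_len_add (i j l : ℕ) : len (addA i j l) = i + j + l + 10 := by
  have : len (addA i j l) = (∑ k : Fin 3, ((![i, j, l] : Fin 3 → ℕ) k + 2)) + 4 := rfl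
  rw [this]
  simp [Fin.sum_univ_succ]
  omega

theorem FM_len_mul (i j l : ℕ) : len (mulA i j l) = i + j + l + 10 := by
  have : len (mulA i j l) = (∑ k : Fin 3, ((![i, j, l] : Fin 3 → ℕ) k + 2)) + 4 := rfl
  rw [this]
  simp [Fin.sum_univ_succ]
  omega

theorem FM_size_le (i : ℕ) : Nat.size i ≤ i := Nat.size_le.2 Nat.lt_two_pow_self

theorem FM_Cc_le {x y z : ℕ} (h : Cc x y z) : x ≤ z := by
  obtain ⟨q, ⟨k, rfl⟩, h1, _, h3⟩ := h
  have h4 : 1 ≤ 2 ^ k := Nat.one_le_two_pow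
  nlinarith [Nat.mul_le_mul_left x h4]

/-- A relation of the form `∃ i j, e 0 = cd (F i j)` for a family of atomic formulas. -/
private theorem FM_two {F : ℕ → ℕ → AFm} (h : SP 3 (fun e => e 2 = cd (F (e 0) (e 1))))
    (hl : ∀ i j, i ≤ len (F i j) ∧ j ≤ len (F i j)) :
    SP 1 (fun e => ∃ i j, e 0 = cd (F i j)) := by
  have h' : SP (1 + 2) (fun e => e 0 = cd (F (e 1) (e 2))) := h.v [1, 2, 0] (by decide)
  refine h'.of ?_ 1 ?_
  · intro e w hw
    exact ⟨w 0, w 1, hw⟩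
  · rintro e ⟨i, j, he⟩
    refine ⟨fun l => [i, j].getD l 0, he, ?_⟩
    have s1 := congrArg Nat.size he
    rw [size_cd] at s1
    have t1 := size_le_SzE (k := 1) (i := 0) (by norm_num) e
    obtain ⟨h1, h2⟩ := hl i j
    have u1 := FM_size_le i
    have u2 := FM_size_le j
    intro l hl
    rw [one_mul, pow_one]
    have : l = 0 ∨ l = 1 := by omega
    rcases this with rfl | rfl <;>
    simp only [List.getD_cons_succ, List.getD_cons_zero] <;> omega

private theorem FM_one {F : ℕ → AFm} (h : SP 2 (fun e => e 1 = cd (F (e 0))))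
    (hl : ∀ i, i ≤ len (F i)) : SP 1 (fun e => ∃ i, e 0 = cd (F i)) := by
  have h' : SP (1 + 1) (fun e => e 0 = cd (F (e 1))) := h.v [1, 0] (by decide)
  refine h'.of ?_ 1 ?_
  · intro e w hw
    exact ⟨w 0, hw⟩
  · rintro e ⟨i, he⟩
    refine ⟨fun _ => i, he, ?_⟩
    have s1 := congrArg Nat.size he
    rw [size_cd] at s1
    have t1 := size_le_SzE (k := 1) (i := 0) (by norm_num) e
    have h1 := hl i
    have u1 := FM_size_le i
    intro l hl
    rw [one_mul, pow_one]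
    change Nat.size i ≤ _
    omega

private theorem FM_three {F : ℕ → ℕ → ℕ → AFm}
    (h : SP 4 (fun e => e 3 = cd (F (e 0) (e 1) (e 2))))
    (hl : ∀ i j k, i ≤ len (F i j k) ∧ j ≤ len (F i j k) ∧ k ≤ len (F i j k)) :
    SP 1 (fun e => ∃ i j k, e 0 = cd (F i j k)) := by
  have h' : SP (1 + 3) (fun e => e 0 = cd (F (e 1) (e 2) (e 3))) := h.v [1, 2, 3, 0] (by decide)
  refine h'.of ?_ 1 ?_
  · intro e w hw
    exact ⟨w 0, w 1, w 2, hw⟩
  · rintro e ⟨i, j, k, he⟩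
    refine ⟨fun l => [i, j, k].getD l 0, he, ?_⟩
    have s1 := congrArg Nat.size he
    rw [size_cd] at s1
    have t1 := size_le_SzE (k := 1) (i := 0) (by norm_num) e
    obtain ⟨h1, h2, h3⟩ := hl i j k
    have u1 := FM_size_le i
    have u2 := FM_size_le j
    have u3 := FM_size_le k
    intro l hl
    rw [one_mul, pow_one]
    have : l = 0 ∨ l = 1 ∨ l = 2 := by omega
    rcases this with rfl | rfl | rfl <;>
    simp only [List.getD_cons_succ, List.getD_cons_zero] <;> omega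

private theorem FM_S1 : SP (1 + 1) (fun e => Cc (e 1) 23 (e 0)) := by
  have h : SP (2 + 1) (fun e => e 2 = 23 ∧ Cc (e 1) (e 2) (e 0)) :=
    ((sp_const 23).v [2] (by decide)).and (sp_cc.v [1, 2, 0] (by decide))
  refine h.of ?_ 5 ?_
  · rintro e w ⟨h1, h2⟩
    change w 0 = 23 at h1
    change Cc (e 1) (w 0) (e 0) at h2
    rwa [h1] at h2
  · intro e he
    refine ⟨fun _ => 23, ⟨rfl, he⟩, fun i _ => ?_⟩
    have h1 : Nat.size 23 = 5 := by decide
    have h2 : 1 ≤ (SzE 2 e + 1) ^ 5 := Nat.one_le_pow _ _ (Nat.succ_pos _)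
    rw [h1]
    omega

private theorem FM_S2 : SP (1 + 1 + 1) (fun e => ∃ u, Cc (e 1) (e 2) u ∧ Cc u 22 (e 0)) := by
  have h : SP (3 + 2) (fun e => e 4 = 22 ∧ Cc (e 1) (e 2) (e 3) ∧ Cc (e 3) (e 4) (e 0)) :=
    ((sp_const 22).v [4] (by decide)).and ((sp_cc.v [1, 2, 3] (by decide)).and
      (sp_cc.v [3, 4, 0] (by decide)))
  refine h.of ?_ 5 ?_
  · rintro e w ⟨h1, h2, h3⟩
    change w 1 = 22 at h1
    change Cc (e 1) (e 2) (w 0) at h2
    change Cc (w 0) (w 1) (e 0) at h3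
    rw [h1] at h3
    exact ⟨w 0, h2, h3⟩
  · rintro e ⟨u, h2, h3⟩
    refine ⟨fun i => [u, 22].getD i 0, ⟨rfl, h2, h3⟩, fun i hi => ?_⟩
    have h1 : Nat.size 22 = 5 := by decide
    have h4 : 1 ≤ (SzE 3 e + 1) ^ 5 := Nat.one_le_pow _ _ (Nat.succ_pos _)
    have h5 : SzE 3 e + 1 ≤ (SzE 3 e + 1) ^ 5 := Nat.le_self_pow (by norm_num) _
    have h6 := Nat.size_le_size (FM_Cc_le h3)
    have h7 := size_le_SzE (k := 3) (i := 0) (by norm_num) e
    have : i = 0 ∨ i = 1 := by omega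
    rcases this with rfl | rfl
    · change Nat.size u ≤ _
      omega
    · change Nat.size 22 ≤ _
      omega

/-- MODULE FM. HINT: `SP.rec2`; base: falsum (a constant) and the five kinds of atoms
(`∃ i j k, ...`); one premise: `Cc x' 23 x`; two premises: `∃ u, Cc x' x'' u ∧ Cc u 22 x`. Here
`23 = codeS [false, true, true, true]` and `22 = codeS [false, true, true, false]`. Arithmetical by
`sat_formF`. -/
theorem sp_fm : SP 1 (fun e => FmR (e 0)) := by
  have hB : SP 1 (fun e => e 0 = 16 ∨ (∃ i j, e 0 = cd (Fm.eq i j : AFm)) ∨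
      (∃ i, e 0 = cd (zeroA i)) ∨ (∃ i j, e 0 = cd (succA i j)) ∨
      (∃ i j k, e 0 = cd (addA i j k)) ∨ (∃ i j k, e 0 = cd (mulA i j k))) := by
    refine (sp_const 16).or ((FM_two sp_aeq fun i j => ?_).or ((FM_one sp_azero fun i => ?_).or
      ((FM_two sp_asucc fun i j => ?_).or ((FM_three sp_aadd fun i j k => ?_).or
        (FM_three sp_amul fun i j k => ?_)))))
    · rw [FM_len_eq]; omega
    · rw [FM_len_zero]; omega
    · rw [FM_len_succ]; omega
    · rw [FM_len_add]; omega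
    · rw [FM_len_mul]; omega
  have hA : Ar 1 (fun e => FmR (e 0)) := ⟨formF, StdB_formF, fun e => sat_formF e⟩
  refine SP.rec2 hA hB FM_S1 FM_S2 ?_ ?_ ?_ (fun e => Nat.size (e 0)) 1 ?_ ?_
  · rintro e (h | ⟨i, j, h⟩ | ⟨i, h⟩ | ⟨i, j, h⟩ | ⟨i, j, k, h⟩ | ⟨i, j, k, h⟩)
    · exact ⟨bot, h.trans cd_bot.symm⟩
    · exact ⟨_, h⟩
    · exact ⟨_, h⟩
    · exact ⟨_, h⟩
    · exact ⟨_, h⟩
    · exact ⟨_, h⟩
  · rintro e e' h1 ⟨φ, h2⟩
    change Cc (e' 0) 23 (e 0) at h1
    rw [h2] at h1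
    exact ⟨all φ, (Cc_codeS _ [false, true, true, true] _).1 h1⟩
  · rintro e e' e'' ⟨u, h1, h2⟩ ⟨φ, h3⟩ ⟨ψ, h4⟩
    change Cc (e' 0) (e'' 0) u at h1
    change Cc u 22 (e 0) at h2
    rw [h3, h4] at h1
    rw [(Cc_codeS _ _ _).1 h1] at h2
    exact ⟨imp φ ψ, (Cc_codeS _ [false, true, true, false] _).1 h2⟩
  · intro e _
    have := size_le_SzE (k := 1) (i := 0) (by norm_num) e
    rw [one_mul, pow_one]
    omega
  · rintro e ⟨φ, h⟩
    have hs := congrArg Nat.size h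
    rw [size_cd] at hs
    have hz : SzE 1 e = Nat.size (e 0) := by simp [SzE]
    rcases FM_cases φ with rfl | ⟨i, j, rfl⟩ | ⟨i, rfl⟩ | ⟨i, j, rfl⟩ | ⟨i, j, k, rfl⟩ |
      ⟨i, j, k, rfl⟩ | ⟨ψ, χ, rfl⟩ | ⟨ψ, rfl⟩
    · exact Or.inl (Or.inl (h.trans cd_bot))
    · exact Or.inl (Or.inr (Or.inl ⟨i, j, h⟩))
    · exact Or.inl (Or.inr (Or.inr (Or.inl ⟨i, h⟩)))
    · exact Or.inl (Or.inr (Or.inr (Or.inr (Or.inl ⟨i, j, h⟩))))
    · exact Or.inl (Or.inr (Or.inr (Or.inr (Or.inr (Or.inl ⟨i, j, k, h⟩)))))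
    · exact Or.inl (Or.inr (Or.inr (Or.inr (Or.inr (Or.inr ⟨i, j, k, h⟩)))))
    · refine Or.inr (Or.inr ⟨fun _ => cd ψ, fun _ => cd χ, ⟨ψ, rfl⟩, ⟨χ, rfl⟩, ?_, ?_, ?_,
        codeS (encode ψ ++ encode χ), ?_, ?_⟩)
      · change Nat.size (cd ψ) + Nat.size (cd χ) < Nat.size (e 0)
        rw [size_cd, size_cd, hs]
        simp only [len]
        omega
      · have : SzE 1 (fun _ => cd ψ) = len ψ + 1 := by simp [SzE, size_cd]
        rw [this, hz, hs]
        simp only [len]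
        omega
      · have : SzE 1 (fun _ => cd χ) = len χ + 1 := by simp [SzE, size_cd]
        rw [this, hz, hs]
        simp only [len]
        omega
      · exact (Cc_codeS _ _ _).2 rfl
      · change Cc _ 22 (e 0)
        rw [h]
        exact (Cc_codeS _ [false, true, true, false] _).2 rfl
    · refine Or.inr (Or.inl ⟨fun _ => cd ψ, ⟨ψ, rfl⟩, ?_, ?_, ?_⟩)
      · change Nat.size (cd ψ) < Nat.size (e 0)
        rw [size_cd, hs]
        simp only [len]
        omega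
      · have : SzE 1 (fun _ => cd ψ) = len ψ + 1 := by simp [SzE, size_cd]
        rw [this, hz, hs]
        simp only [len]
        omega
      · change Cc (cd ψ) 23 (e 0)
        rw [h]
        exact (Cc_codeS _ [false, true, true, true] _).2 rfl

end Pool.Agent.MycW
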