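import Pool.Agent.MycW.RLx
import Pool.Agent.MycW.RLstC
import Pool.Agent.MycW.RImAl

set_option autoImplicit false

/-! # MODULE JUST: lines of proofs -/

namespace Pool.Agent.MycW

open Pool.Agent.Myc Pool.Agent.Myc.Fm

/-- Elements of a list are shorter than the list. -/
theorem JUST_size {φ : AFm} {l : List AFm} (h : φ ∈ l) :
    Nat.size (cd φ) ≤ Nat.size (cdL l) := by
  rw [size_cd, size_cdL]
  have h1 : len φ ≤ plen l :=
    List.single_le_sum (fun _ _ => Nat.zero_le _) _ (List.mem_map_of_mem h)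
  omega

theorem JUST_mm_size {a L : ℕ} (h : MmR a L) : Nat.size a ≤ Nat.size L := by
  obtain ⟨φ, l, rfl, rfl, hm⟩ := h
  exact JUST_size hm

theorem JUST_mm_ls {a L : ℕ} (h : MmR a L) : LsR L := by
  obtain ⟨φ, l, rfl, rfl, hm⟩ := h
  exact ⟨l, rfl⟩

/-- The four cases. -/
theorem JUST_iff (t L x : ℕ) : JsR t L x ↔
    (((MmR x t ∧ LsR L) ∨ (LxR x ∧ LsR t ∧ LsR L)) ∨
      ((∃ a b, LsR t ∧ MmR a L ∧ MmR b L ∧ ImR a x b) ∨
        (∃ a, LsR t ∧ MmR a L ∧ AlR a x))) := by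
  constructor
  · rintro ⟨T, l, φ, rfl, rfl, rfl, h⟩
    cases h with
    | hyp h => exact Or.inl (Or.inl ⟨⟨φ, T, rfl, rfl, h⟩, ⟨l, rfl⟩⟩)
    | logic h => exact Or.inl (Or.inr ⟨⟨φ, h, rfl⟩, ⟨T, rfl⟩, ⟨l, rfl⟩⟩)
    | @mp α _ h1 h2 =>
      exact Or.inr (Or.inl ⟨cd α, cd (imp α φ), ⟨T, rfl⟩, ⟨α, l, rfl, rfl, h1⟩,
        ⟨imp α φ, l, rfl, rfl, h2⟩, ⟨α, φ, rfl, rfl, rfl⟩⟩)
    | @gen α h =>
      exact Or.inr (Or.inr ⟨cd α, ⟨T, rfl⟩, ⟨α, l, rfl, rfl, h⟩, ⟨α, rfl, rfl⟩⟩)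
  · rintro ((⟨⟨φ, T, rfl, rfl, h⟩, ⟨l, rfl⟩⟩ | ⟨⟨φ, h, rfl⟩, ⟨T, rfl⟩, ⟨l, rfl⟩⟩) |
      (⟨a, b, ⟨T, rfl⟩, ⟨α, l, h1, rfl, h2⟩, ⟨β, l', h3, h4, h5⟩, ⟨γ, δ, h6, h7, h8⟩⟩ |
        ⟨a, ⟨T, rfl⟩, ⟨α, l, h1, rfl, h2⟩, ⟨γ, h6, h7⟩⟩))
    · exact ⟨T, l, φ, rfl, rfl, rfl, Just.hyp h⟩
    · exact ⟨T, l, φ, rfl, rfl, rfl, Just.logic h⟩
    · have e1 : l = l' := cdL_inj h4
      have e2 : α = γ := cd_inj (h1.symm.trans h6)
      have e3 : β = imp γ δ := cd_inj (h3.symm.trans h8)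
      subst e1 e2 e3
      exact ⟨T, l, δ, rfl, rfl, h7, Just.mp h2 h5⟩
    · have e2 : α = γ := cd_inj (h1.symm.trans h6)
      subst e2
      exact ⟨T, l, all α, rfl, rfl, h7, Just.gen h2⟩

/-- MODULE JUST. HINT: the four cases; arithmetical by `NatF_just`, `NatF_J` (only the set of the
elements of the list matters). -/
theorem sp_js : SP 3 (fun e => JsR (e 0) (e 1) (e 2)) := by
  have h1 : SP 3 (fun e => MmR (e 2) (e 0) ∧ LsR (e 1)) :=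
    (sp_mm.v [2, 0] (by decide)).and (sp_ls.v [1] (by decide))
  have h2 : SP 3 (fun e => LxR (e 2) ∧ LsR (e 0) ∧ LsR (e 1)) :=
    (sp_lx.v [2] (by decide)).and ((sp_ls.v [0] (by decide)).and (sp_ls.v [1] (by decide)))
  have h3 : SP 3 (fun e => ∃ a b, LsR (e 0) ∧ MmR a (e 1) ∧ MmR b (e 1) ∧ ImR a (e 2) b) := by
    have h : SP (3 + 2) (fun e => LsR (e 0) ∧ MmR (e 3) (e 1) ∧ MmR (e 4) (e 1) ∧
        ImR (e 3) (e 2) (e 4)) :=
      (sp_ls.v [0] (by decide)).and ((sp_mm.v [3, 1] (by decide)).and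
        ((sp_mm.v [4, 1] (by decide)).and (sp_im.v [3, 2, 4] (by decide))))
    refine h.of ?_ 1 ?_
    · intro e w hw
      exact ⟨w 0, w 1, hw⟩
    · rintro e ⟨a, b, h0, h1, h2, h3⟩
      refine ⟨fun i => if i = 0 then a else b, ⟨h0, h1, h2, h3⟩, ?_⟩
      have h4 := size_le_SzE (k := 3) (i := 1) (by norm_num) e
      have h5 := JUST_mm_size h1
      have h6 := JUST_mm_size h2
      intro i _
      by_cases hi : i = 0
      · simp only [hi, if_true, pow_one, one_mul]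
        omega
      · simp only [hi, if_false, pow_one, one_mul]
        omega
  have h4 : SP 3 (fun e => ∃ a, LsR (e 0) ∧ MmR a (e 1) ∧ AlR a (e 2)) := by
    have h : SP (3 + 1) (fun e => LsR (e 0) ∧ MmR (e 3) (e 1) ∧ AlR (e 3) (e 2)) :=
      (sp_ls.v [0] (by decide)).and ((sp_mm.v [3, 1] (by decide)).and
        (sp_al.v [3, 2] (by decide)))
    refine h.of ?_ 1 ?_
    · intro e w hw
      exact ⟨w 0, hw⟩
    · rintro e ⟨a, h0, h1, h3⟩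
      refine ⟨fun _ => a, ⟨h0, h1, h3⟩, ?_⟩
      have h4 := size_le_SzE (k := 3) (i := 1) (by norm_num) e
      have h5 := JUST_mm_size h1
      intro i _
      simp only [pow_one, one_mul]
      omega
  exact ((h1.or h2).or (h3.or h4)).iff fun e => (JUST_iff (e 0) (e 1) (e 2)).symm

end Pool.Agent.MycW
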