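import Pool.Agent.MycW.RAxA
import Pool.Agent.MycW.RAxB
import Pool.Agent.MycW.RAxC

set_option autoImplicit false

/-! # MODULE LOGAX: logical axioms -/

namespace Pool.Agent.MycW

open Pool.Agent.Myc Pool.Agent.Myc.Fm

private theorem LX_it (j : ℕ) : ∀ d i : ℕ, (up^[d] (instMap j)) i =
    if i < d then i else if i = d then j + d else i - 1
  | 0, 0 => by simp [instMap]
  | 0, i + 1 => by simp [instMap]
  | d + 1, 0 => by
      rw [Function.iterate_succ_apply']
      simp [up]
  | d + 1, i + 1 => by
      rw [Function.iterate_succ_apply']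
      simp only [up]
      rw [LX_it j d i]
      split_ifs <;> omega

private theorem LX_small (j : ℕ) (φ : AFm) : ∀ d : ℕ,
    rename (up^[d] (instMap j)) φ = rename (up^[d] (instMap 0)) φ ∨
      j ≤ len (rename (up^[d] (instMap j)) φ) := by
  induction φ with
  | bot =>
    intro d
    left
    rfl
  | eq a b =>
    intro d
    by_cases h : a = d ∨ b = d
    · right
      simp only [rename, len]
      rw [LX_it, LX_it]
      rcases h with rfl | rfl <;> simp <;> omega
    · left
      push Not at h
      simp only [rename]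
      rw [LX_it, LX_it, LX_it, LX_it]
      simp [h.1, h.2]
  | rel r v =>
    intro d
    by_cases h : ∃ k, v k = d
    · right
      obtain ⟨k, hk⟩ := h
      simp only [rename, len]
      have h1 : (up^[d] (instMap j)) (v k) = j + d := by
        rw [LX_it]
        simp [hk]
      have h2 := Finset.single_le_sum (f := fun k => (up^[d] (instMap j)) (v k) + 2)
        (fun _ _ => Nat.zero_le _) (Finset.mem_univ k)
      simp only [h1] at h2
      omega
    · left
      simp only [rename]
      congr 1
      funext k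
      have h1 : v k ≠ d := fun hk => h ⟨k, hk⟩
      rw [LX_it, LX_it]
      simp [h1]
  | imp φ ψ ih1 ih2 =>
    intro d
    simp only [rename, len]
    rcases ih1 d with h1 | h1
    · rcases ih2 d with h2 | h2
      · left
        rw [h1, h2]
      · right
        omega
    · right
      omega
  | all φ ih =>
    intro d
    simp only [rename, len]
    have h := ih (d + 1)
    rw [Function.iterate_succ_apply', Function.iterate_succ_apply'] at h
    rcases h with h | h
    · left
      rw [h]
    · right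
      omega

private theorem LX_len (j : ℕ) (φ : AFm) : ∀ d : ℕ,
    len φ ≤ 2 * len (rename (up^[d] (instMap j)) φ) := by
  have key : ∀ d v : ℕ, v + 2 ≤ 2 * ((up^[d] (instMap j)) v + 2) := by
    intro d v
    rw [LX_it]
    split_ifs <;> omega
  induction φ with
  | bot =>
    intro d
    simp only [rename, len]
    omega
  | eq a b =>
    intro d
    have h1 := key d a
    have h2 := key d b
    simp only [rename, len]
    omega
  | rel r v =>
    intro d
    simp only [rename, len]
    have h1 : ∑ k, (v k + 2) ≤ ∑ k, 2 * ((up^[d] (instMap j)) (v k) + 2) :=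
      Finset.sum_le_sum (fun k _ => key d (v k))
    rw [← Finset.mul_sum] at h1
    omega
  | imp φ ψ ih1 ih2 =>
    intro d
    have h1 := ih1 d
    have h2 := ih2 d
    simp only [rename, len]
    omega
  | all φ ih =>
    intro d
    have h := ih (d + 1)
    rw [Function.iterate_succ_apply'] at h
    simp only [rename, len]
    omega

private theorem LX_K : SP 1 (fun e => ∃ x y, AxK x y (e 0)) := by
  have h : SP (1 + 2) (fun e => AxK (e 1) (e 2) (e 0)) := sp_axK.v [1, 2, 0] (by decide)
  refine h.of ?_ 1 ?_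
  · intro e w hw
    simp only [join] at hw
    norm_num at hw
    exact ⟨_, _, hw⟩
  · rintro e ⟨x, y, φ, ψ, h1, h2, h3⟩
    refine ⟨fun i => [x, y].getD i 0, ?_, ?_⟩
    · simp only [join]
      norm_num
      exact ⟨φ, ψ, h1, h2, h3⟩
    · intro i hi
      have : i = 0 ∨ i = 1 := by omega
      rcases this with rfl | rfl <;>
        simp only [List.getD_cons_succ, List.getD_cons_zero, h1, h2] <;>
        refine AXA_sz (r := 0) (by norm_num) h3 ?_ <;>
        simp only [len] <;>
        omega

private theorem LX_S : SP 1 (fun e => ∃ x y z, AxS x y z (e 0)) := by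
  have h : SP (1 + 3) (fun e => AxS (e 1) (e 2) (e 3) (e 0)) := sp_axS.v [1, 2, 3, 0] (by decide)
  refine h.of ?_ 1 ?_
  · intro e w hw
    simp only [join] at hw
    norm_num at hw
    exact ⟨_, _, _, hw⟩
  · rintro e ⟨x, y, z, φ, ψ, χ, h1, h2, h3, h4⟩
    refine ⟨fun i => [x, y, z].getD i 0, ?_, ?_⟩
    · simp only [join]
      norm_num
      exact ⟨φ, ψ, χ, h1, h2, h3, h4⟩
    · intro i hi
      have : i = 0 ∨ i = 1 ∨ i = 2 := by omega
      rcases this with rfl | rfl | rfl <;>
        simp only [List.getD_cons_succ, List.getD_cons_zero, h1, h2, h3] <;>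
        refine AXA_sz (r := 0) (by norm_num) h4 ?_ <;>
        simp only [len] <;>
        omega

private theorem LX_Dn : SP 1 (fun e => ∃ x, AxDn x (e 0)) := by
  have h : SP (1 + 1) (fun e => AxDn (e 1) (e 0)) := sp_axDn.v [1, 0] (by decide)
  refine h.of ?_ 1 ?_
  · intro e w hw
    simp only [join] at hw
    norm_num at hw
    exact ⟨_, hw⟩
  · rintro e ⟨x, φ, h1, h2⟩
    refine ⟨fun _ => x, ?_, ?_⟩
    · simp only [join]
      norm_num
      exact ⟨φ, h1, h2⟩
    · intro i _
      simp only [h1]
      refine AXA_sz (r := 0) (by norm_num) h2 ?_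
      simp only [len]
      omega

private theorem LX_In : SP 1 (fun e => ∃ j x, AxIn j x (e 0)) := by
  have h : SP (1 + 2) (fun e => AxIn (e 1) (e 2) (e 0)) := sp_axIn.v [1, 2, 0] (by decide)
  refine h.of ?_ 1 ?_
  · intro e w hw
    simp only [join] at hw
    norm_num at hw
    exact ⟨_, _, hw⟩
  · rintro e ⟨j, x, φ, h1, h2⟩
    have key : ∃ j', e 0 = cd (imp (all φ) (rename (instMap j') φ)) ∧
        Nat.size j' ≤ 1 * (SzE 1 e + 1) ^ 1 := by
      rcases LX_small j φ 0 with h3 | h3
      · simp only [Function.iterate_zero, id_eq] at h3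
        rw [h3] at h2
        exact ⟨0, h2, by simp⟩
      · simp only [Function.iterate_zero, id_eq] at h3
        refine ⟨j, h2, ?_⟩
        have h4 := size_le_SzE (k := 1) (i := 0) (by norm_num) e
        rw [h2, size_cd] at h4
        simp only [len] at h4
        have h5 : Nat.size j ≤ j := Nat.size_le.2 Nat.lt_two_pow_self
        rw [pow_one, one_mul]
        omega
    obtain ⟨j', h3, h4⟩ := key
    refine ⟨fun i => [j', x].getD i 0, ?_, ?_⟩
    · simp only [join]
      norm_num
      exact ⟨φ, h1, h3⟩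
    · intro i hi
      have : i = 0 ∨ i = 1 := by omega
      rcases this with rfl | rfl
      · simp only [List.getD_cons_zero]
        exact h4
      · simp only [List.getD_cons_succ, List.getD_cons_zero, h1]
        refine AXA_sz (r := 0) (by norm_num) h3 ?_
        simp only [len]
        omega

private theorem LX_Di : SP 1 (fun e => ∃ x y, AxDi x y (e 0)) := by
  have h : SP (1 + 2) (fun e => AxDi (e 1) (e 2) (e 0)) := sp_axDi.v [1, 2, 0] (by decide)
  refine h.of ?_ 1 ?_
  · intro e w hw
    simp only [join] at hw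
    norm_num at hw
    exact ⟨_, _, hw⟩
  · rintro e ⟨x, y, φ, ψ, h1, h2, h3⟩
    refine ⟨fun i => [x, y].getD i 0, ?_, ?_⟩
    · simp only [join]
      norm_num
      exact ⟨φ, ψ, h1, h2, h3⟩
    · intro i hi
      have : i = 0 ∨ i = 1 := by omega
      rcases this with rfl | rfl <;>
        simp only [List.getD_cons_succ, List.getD_cons_zero, h1, h2] <;>
        refine AXA_sz (r := 0) (by norm_num) h3 ?_ <;>
        simp only [len] <;>
        omega

private theorem LX_Va : SP 1 (fun e => ∃ x, AxVa x (e 0)) := by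
  have h : SP (1 + 1) (fun e => AxVa (e 1) (e 0)) := sp_axVa.v [1, 0] (by decide)
  refine h.of ?_ 1 ?_
  · intro e w hw
    simp only [join] at hw
    norm_num at hw
    exact ⟨_, hw⟩
  · rintro e ⟨x, φ, h1, h2⟩
    refine ⟨fun _ => x, ?_, ?_⟩
    · simp only [join]
      norm_num
      exact ⟨φ, h1, h2⟩
    · intro i _
      simp only [h1]
      refine AXA_sz (r := 0) (by norm_num) h2 ?_
      simp only [len]
      omega

private theorem LX_Re : SP 1 (fun e => ∃ i, AxRe i (e 0)) := by
  have h : SP (1 + 1) (fun e => AxRe (e 1) (e 0)) := sp_axRe.v [1, 0] (by decide)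
  refine h.of ?_ 1 ?_
  · intro e w hw
    simp only [join] at hw
    norm_num at hw
    exact ⟨_, hw⟩
  · rintro e ⟨j, h1⟩
    refine ⟨fun _ => j, ?_, ?_⟩
    · simp only [join]
      norm_num
      exact h1
    · intro i _
      have h4 := size_le_SzE (k := 1) (i := 0) (by norm_num) e
      rw [AxRe] at h1
      rw [h1, size_cd] at h4
      simp only [len] at h4
      have h5 : Nat.size j ≤ j := Nat.size_le.2 Nat.lt_two_pow_self
      rw [pow_one, one_mul]
      show Nat.size j ≤ SzE 1 e + 1
      omega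

private theorem LX_Le : SP 1 (fun e => ∃ i j x, AxLe i j x (e 0)) := by
  have h : SP (1 + 3) (fun e => AxLe (e 1) (e 2) (e 3) (e 0)) := sp_axLe.v [1, 2, 3, 0] (by decide)
  refine h.of ?_ 2 ?_
  · intro e w hw
    simp only [join] at hw
    norm_num at hw
    exact ⟨_, _, _, hw⟩
  · rintro e ⟨a, b, x, φ, h1, h2⟩
    refine ⟨fun i => [a, b, x].getD i 0, ?_, ?_⟩
    · simp only [join]
      norm_num
      exact ⟨φ, h1, h2⟩
    · have h4 := size_le_SzE (k := 1) (i := 0) (by norm_num) e
      rw [h2, size_cd] at h4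
      simp only [len] at h4
      have h5 : Nat.size a ≤ a := Nat.size_le.2 Nat.lt_two_pow_self
      have h6 : Nat.size b ≤ b := Nat.size_le.2 Nat.lt_two_pow_self
      have h7 := LX_len a φ 0
      simp only [Function.iterate_zero, id_eq] at h7
      have h8 : SzE 1 e + 1 ≤ (SzE 1 e + 1) ^ 2 := Nat.le_self_pow (by norm_num) _
      have h9 : Nat.size x = len φ + 1 := by rw [h1, size_cd]
      intro i hi
      have : i = 0 ∨ i = 1 ∨ i = 2 := by omega
      rcases this with rfl | rfl | rfl
      · simp only [List.getD_cons_zero]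
        omega
      · simp only [List.getD_cons_succ, List.getD_cons_zero]
        omega
      · simp only [List.getD_cons_succ, List.getD_cons_zero]
        omega

/-- MODULE LOGAX. HINT: union of the eight schemas with existential quantification over the
parameters. In `AxIn` the variable `j` is not bounded by the formula if the variable `0` does not
occur in `φ`; then take `j = 0` (lemma: `rename (instMap j) φ = rename (instMap 0) φ` or
`j ≤ len (rename (instMap j) φ)`; `SP.ex1` asks only for one small witness). -/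
theorem sp_lx : SP 1 (fun e => LxR (e 0)) := by
  refine (LX_K.or (LX_S.or (LX_Dn.or (LX_In.or (LX_Di.or (LX_Va.or (LX_Re.or LX_Le))))))).iff ?_
  intro e
  constructor
  · rintro (⟨x, y, φ, ψ, _, _, h⟩ | ⟨x, y, z, φ, ψ, χ, _, _, _, h⟩ | ⟨x, φ, _, h⟩ |
      ⟨j, x, φ, _, h⟩ | ⟨x, y, φ, ψ, _, _, h⟩ | ⟨x, φ, _, h⟩ | ⟨i, h⟩ | ⟨i, j, x, φ, _, h⟩)
    exacts [⟨_, .k φ ψ, h⟩, ⟨_, .s φ ψ χ, h⟩, ⟨_, .dn φ, h⟩, ⟨_, .inst j φ, h⟩,
      ⟨_, .dist φ ψ, h⟩, ⟨_, .vac φ, h⟩, ⟨_, .refl i, h⟩, ⟨_, .leib i j φ, h⟩]
  · rintro ⟨χ, h1, h2⟩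
    cases h1 with
    | k φ ψ => exact Or.inl ⟨_, _, φ, ψ, rfl, rfl, h2⟩
    | s φ ψ χ => exact Or.inr (Or.inl ⟨_, _, _, φ, ψ, χ, rfl, rfl, rfl, h2⟩)
    | dn φ => exact Or.inr (Or.inr (Or.inl ⟨_, φ, rfl, h2⟩))
    | inst j φ => exact Or.inr (Or.inr (Or.inr (Or.inl ⟨j, _, φ, rfl, h2⟩)))
    | dist φ ψ => exact Or.inr (Or.inr (Or.inr (Or.inr (Or.inl ⟨_, _, φ, ψ, rfl, rfl, h2⟩))))
    | vac φ => exact Or.inr (Or.inr (Or.inr (Or.inr (Or.inr (Or.inl ⟨_, φ, rfl, h2⟩)))))
    | refl i => exact Or.inr (Or.inr (Or.inr (Or.inr (Or.inr (Or.inr (Or.inl ⟨i, h2⟩))))))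
    | leib i j φ => exact Or.inr (Or.inr (Or.inr (Or.inr (Or.inr (Or.inr (Or.inr
        ⟨i, j, _, φ, rfl, h2⟩))))))

end Pool.Agent.MycW
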