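import Pool.Agent.MycW.RFmla
import Pool.Agent.MycW.RSuc
import Pool.Agent.MycW.RCcPow
import Pool.Agent.Myc.SigA
import Pool.Agent.Myc.StdB

set_option autoImplicit false

/-! # MODULE NUME: numerals -/

namespace Pool.Agent.MycW

open Pool.Agent.Myc Pool.Agent.Myc.Fm

theorem NUME_ar : Ar 2 (fun e => NuR (e 0) (e 1)) :=
  ⟨nuF, StdB_nuF, fun e => StdA_sat_nuF e⟩

theorem NUME_pos : SP 1 (fun e => 0 < e 0) := by
  have h : SP (1 + 1) (fun e => e 1 + 1 = e 0) := sp_suc.v [1, 0] (by decide)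
  refine h.of ?_ 1 ?_
  · intro e w hw
    have hw' : w 0 + 1 = e 0 := hw
    omega
  · intro e he
    refine ⟨fun _ => e 0 - 1, ?_, ?_⟩
    · change e 0 - 1 + 1 = e 0
      omega
    · intro i _
      have h1 := size_le_SzE (k := 1) (i := 0) (by norm_num) e
      have h2 : Nat.size (e 0 - 1) ≤ Nat.size (e 0) := Nat.size_le_size (Nat.sub_le _ _)
      simp only [pow_one, one_mul]
      omega

/-- The steps. -/
def NUME_S (x z x' z' : ℕ) : Prop :=
  (x = 2 * x' ∧ 0 < x' ∧ Cc z' (codeS suf0) z) ∨ (x = 2 * x' + 1 ∧ Cc z' (codeS suf1) z)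

theorem NUME_sound {x z x' z' : ℕ} (h : NUME_S x z x' z') (h' : NuR x' z') : NuR x z := by
  unfold NuR at h'
  subst h'
  rcases h with ⟨rfl, h1, h2⟩ | ⟨rfl, h2⟩
  · rw [cd, Cc_codeS, ← encode_num_even h1] at h2
    exact h2
  · rw [cd, Cc_codeS, ← encode_num_odd] at h2
    exact h2

theorem NUME_compl (x : ℕ) (hx : x ≠ 0) : ∃ x', Nat.size x' < Nat.size x ∧
    NUME_S x (cd (num x)) x' (cd (num x')) ∧ Nat.size (cd (num x')) ≤ Nat.size (cd (num x)) := by
  have hs : Nat.size (x / 2) < Nat.size x := by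
    have h1 : Nat.size (x / 2) ≤ Nat.size x - 1 := by
      rw [Nat.size_le]
      have h2 : x < 2 ^ Nat.size x := Nat.lt_size_self x
      have h3 : 0 < Nat.size x := Nat.size_pos.2 (Nat.pos_of_ne_zero hx)
      have h4 : 2 ^ Nat.size x = 2 * 2 ^ (Nat.size x - 1) := by
        rw [← pow_succ']
        congr 1
        omega
      omega
    have h3 : 0 < Nat.size x := Nat.size_pos.2 (Nat.pos_of_ne_zero hx)
    omega
  rcases Nat.even_or_odd' x with ⟨m, hm | hm⟩
  · have hmp : 0 < m := by omega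
    have h5 : x / 2 = m := by omega
    rw [h5] at hs
    refine ⟨m, hs, Or.inl ⟨hm, hmp, ?_⟩, ?_⟩
    · rw [hm, cd, cd, Cc_codeS, ← encode_num_even hmp]
    · rw [hm, cd, cd, RepC_size_codeS, RepC_size_codeS, encode_num_even hmp, List.length_append]
      omega
  · have h5 : x / 2 = m := by omega
    rw [h5] at hs
    refine ⟨m, hs, Or.inr ⟨hm, ?_⟩, ?_⟩
    · rw [hm, cd, cd, Cc_codeS, ← encode_num_odd]
    · rw [hm, cd, cd, RepC_size_codeS, RepC_size_codeS, encode_num_odd, List.length_append]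
      omega

theorem NUME_spS : SP 4 (fun e => NUME_S (e 0) (e 1) (e 2) (e 3)) := by
  have h0 : SP (4 + 1) (fun e => e 0 = 2 * e 2 ∧ 0 < e 2 ∧ e 4 = codeS suf0 ∧
      Cc (e 3) (e 4) (e 1)) :=
    (sp_dbl.v [2, 0] (by decide)).and ((NUME_pos.v [2] (by decide)).and
      (((sp_const (codeS suf0)).v [4] (by decide)).and (sp_cc.v [3, 4, 1] (by decide))))
  have h1 : SP (4 + 1) (fun e => e 0 = 2 * e 2 + 1 ∧ e 4 = codeS suf1 ∧
      Cc (e 3) (e 4) (e 1)) :=
    (sp_dbl1.v [2, 0] (by decide)).and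
      (((sp_const (codeS suf1)).v [4] (by decide)).and (sp_cc.v [3, 4, 1] (by decide)))
  have g0 : SP 4 (fun e => e 0 = 2 * e 2 ∧ 0 < e 2 ∧ Cc (e 3) (codeS suf0) (e 1)) := by
    refine h0.of ?_ (Nat.size (codeS suf0)) ?_
    · rintro e w ⟨h2, h3, h4, h5⟩
      have h4' : w 0 = codeS suf0 := h4
      have h5' : Cc (e 3) (w 0) (e 1) := h5
      rw [h4'] at h5'
      exact ⟨h2, h3, h5'⟩
    · rintro e ⟨h2, h3, h4⟩
      refine ⟨fun _ => codeS suf0, ⟨h2, h3, rfl, h4⟩, fun i _ => ?_⟩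
      exact Nat.le_mul_of_pos_right _ (Nat.pow_pos (Nat.succ_pos _))
  have g1 : SP 4 (fun e => e 0 = 2 * e 2 + 1 ∧ Cc (e 3) (codeS suf1) (e 1)) := by
    refine h1.of ?_ (Nat.size (codeS suf1)) ?_
    · rintro e w ⟨h2, h4, h5⟩
      have h4' : w 0 = codeS suf1 := h4
      have h5' : Cc (e 3) (w 0) (e 1) := h5
      rw [h4'] at h5'
      exact ⟨h2, h5'⟩
    · rintro e ⟨h2, h4⟩
      refine ⟨fun _ => codeS suf1, ⟨h2, rfl, h4⟩, fun i _ => ?_⟩
      exact Nat.le_mul_of_pos_right _ (Nat.pow_pos (Nat.succ_pos _))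
  exact g0.or g1

/-- MODULE NUME. HINT: arithmetical: `Lfp` on pairs (`sat_lfpF`). Short proofs: recursion on the
binary digits, `encode_num_even`, `encode_num_odd`: `NuR (2 x) z'` if `x > 0`, `NuR x z` and
`Cc z (codeS suf0) z'`. -/
theorem sp_nu : SP 2 (fun e => NuR (e 0) (e 1)) := by
  have hB : SP 2 (fun e => e 0 = 0 ∧ e 1 = cd (num 0)) :=
    ((sp_const 0).v [0] (by decide)).and ((sp_const (cd (num 0))).v [1] (by decide))
  have hS : SP (2 + 2) (fun e => NUME_S (e 0) (e 1) (e 2) (e 3)) := NUME_spS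
  refine SP.rec1 NUME_ar hB hS ?_ ?_ (fun e => Nat.size (e 0)) 1 ?_ ?_
  · rintro e ⟨h1, h2⟩
    change e 1 = cd (num (e 0))
    rw [h1, h2]
  · intro e e' h1 h2
    exact NUME_sound (x := e 0) (z := e 1) (x' := e' 0) (z' := e' 1) h1 h2
  · intro e _
    have := size_le_SzE (k := 2) (i := 0) (by norm_num) e
    simp only [pow_one, one_mul]
    omega
  · intro e he
    have he' : e 1 = cd (num (e 0)) := he
    by_cases h0 : e 0 = 0
    · exact Or.inl ⟨h0, by rw [he', h0]⟩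
    · obtain ⟨x', h1, h2, h3⟩ := NUME_compl (e 0) h0
      refine Or.inr ⟨fun i => if i = 0 then x' else cd (num x'), ?_, h1, ?_, ?_⟩
      · change cd (num x') = cd (num x')
        rfl
      · simp only [SzE, Finset.sum_range_succ, Finset.sum_range_zero, if_true, zero_add,
          one_ne_zero, if_false]
        rw [he']
        omega
      · change NUME_S (e 0) (e 1) x' (cd (num x'))
        rw [he']
        exact h2

end Pool.Agent.MycW
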