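import Pool.Agent.MycW.RVm
import Pool.Agent.MycW.RImAl
import Pool.Agent.Myc.NatF
import Pool.Agent.Myc.StdB

set_option autoImplicit false

/-! # MODULE REN: renaming -/

namespace Pool.Agent.MycW

open Pool.Agent.Myc Pool.Agent.Myc.Fm

/-- The renaming with the parameter `p` under `d` quantifiers. -/
private abbrev REN_r (p d : ℕ) : ℕ → ℕ := up^[d] (pn p)

private theorem REN_ar : Ar 4 (fun e => RnR (e 0) (e 1) (e 2) (e 3)) := by
  have ht : Ar (4 + 3) (fun e => ((e 0 = 0 ∧ e 4 = 0) ∨ (e 6 + 1 = e 0 ∧ e 4 = tk (e 6))) ∧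
      e 5 = tk (e 1) ∧ ∃ (p : Option ℕ) (d : ℕ) (φ : AFm),
        e 4 = ptk p ∧ e 5 = tk d ∧ e 2 = cd φ ∧ e 3 = cd (rename (up^[d] (pren p)) φ)) := by
    have h0 : Ar 4 (fun e => ∃ (p : Option ℕ) (d : ℕ) (φ : AFm),
        e 0 = ptk p ∧ e 1 = tk d ∧ e 2 = cd φ ∧ e 3 = cd (rename (up^[d] (pren p)) φ)) :=
      ⟨renF, StdB_renF, fun e => sat_renF e⟩
    exact (((ar_eqc 0 0 (by norm_num)).and (ar_eqc 4 0 (by norm_num))).or
      ((ar_succ 6 0 (by norm_num) (by norm_num)).and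
        (sp_tok.v (n := 7) [6, 4] (by decide)).ar)).and
      ((sp_tok.v (n := 7) [1, 5] (by decide)).ar.and
        (h0.map (n := 7) (fun i => [4, 5, 2, 3].getD i 0) (by decide)))
  refine (Ar.ex ht).congr fun e => ?_
  constructor
  · rintro ⟨w, h1, h2, p, d, φ, h3, h4, h5, h6⟩
    change (e 0 = 0 ∧ w 0 = 0) ∨ (w 2 + 1 = e 0 ∧ w 0 = tk (w 2)) at h1
    change w 1 = tk (e 1) at h2
    change w 0 = ptk p at h3
    change w 1 = tk d at h4
    change e 2 = cd φ at h5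
    change e 3 = cd (rename (up^[d] (pren p)) φ) at h6
    have hd : d = e 1 := tk_inj (h4.symm.trans h2)
    subst hd
    refine ⟨φ, h5, ?_⟩
    rw [h6]
    rcases h1 with ⟨h7, h8⟩ | ⟨h7, h8⟩
    · rw [h7]
      have : p = none := by
        cases p with
        | none => rfl
        | some j => exact absurd (h3.symm.trans h8) (tk_pos j)
      subst this
      rfl
    · rw [← h7]
      have : p = some (w 2) := by
        cases p with
        | none => exact absurd (h8.symm.trans h3) (tk_pos _)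
        | some j =>
          have h9 : tk j = tk (w 2) := h3.symm.trans h8
          rw [tk_inj h9]
      subst this
      rfl
  · rintro ⟨φ, h1, h2⟩
    rcases Nat.eq_zero_or_pos (e 0) with h0 | h0
    · refine ⟨fun i => [0, tk (e 1), 0].getD i 0, Or.inl ⟨h0, rfl⟩, rfl, none, e 1, φ, rfl, rfl,
        h1, ?_⟩
      change e 3 = _
      rw [h2, h0]
      rfl
    · obtain ⟨j, hj⟩ := Nat.exists_eq_succ_of_ne_zero h0.ne'
      refine ⟨fun i => [tk j, tk (e 1), j].getD i 0, Or.inr ⟨hj.symm, rfl⟩, rfl, some j, e 1, φ,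
        rfl, rfl, h1, ?_⟩
      change e 3 = _
      rw [h2, hj]
      rfl

private theorem REN_rn_zero (ρ : ℕ → ℕ) (i : ℕ) : rename ρ (zeroA i) = zeroA (ρ i) := by
  refine congrArg (fun w => Fm.rel AR.zero w) ?_
  funext k
  fin_cases k
  rfl
private theorem REN_rn_succ (ρ : ℕ → ℕ) (i j : ℕ) :
    rename ρ (succA i j) = succA (ρ i) (ρ j) := by
  refine congrArg (fun w => Fm.rel AR.succ w) ?_
  funext k
  fin_cases k <;> rfl
private theorem REN_rn_add (ρ : ℕ → ℕ) (i j l : ℕ) :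
    rename ρ (addA i j l) = addA (ρ i) (ρ j) (ρ l) := by
  refine congrArg (fun w => Fm.rel AR.add w) ?_
  funext k
  fin_cases k <;> rfl
private theorem REN_rn_mul (ρ : ℕ → ℕ) (i j l : ℕ) :
    rename ρ (mulA i j l) = mulA (ρ i) (ρ j) (ρ l) := by
  refine congrArg (fun w => Fm.rel AR.mul w) ?_
  funext k
  fin_cases k <;> rfl

/-- Atomic formulas with two variables. -/
private theorem REN_two {F : ℕ → ℕ → AFm} (h : SP 3 (fun e => e 2 = cd (F (e 0) (e 1))))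
    (hl : ∀ i j, i ≤ len (F i j) ∧ j ≤ len (F i j)) :
    SP 4 (fun e => ∃ i j : ℕ, e 2 = cd (F i j) ∧
      e 3 = cd (F (REN_r (e 0) (e 1) i) (REN_r (e 0) (e 1) j))) := by
  have h' : SP (4 + 4) (fun e => e 2 = cd (F (e 4) (e 5)) ∧
      e 3 = cd (F (e 6) (e 7)) ∧ e 6 = up^[e 1] (pn (e 0)) (e 4) ∧
      e 7 = up^[e 1] (pn (e 0)) (e 5)) :=
    (h.v [4, 5, 2] (by decide)).and ((h.v [6, 7, 3] (by decide)).and
      ((sp_vm.v [0, 1, 4, 6] (by decide)).and (sp_vm.v [0, 1, 5, 7] (by decide))))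
  refine h'.of ?_ 1 ?_
  · rintro e w ⟨h1, h2, h3, h4⟩
    change e 2 = cd (F (w 0) (w 1)) at h1
    change e 3 = cd (F (w 2) (w 3)) at h2
    change w 2 = REN_r (e 0) (e 1) (w 0) at h3
    change w 3 = REN_r (e 0) (e 1) (w 1) at h4
    exact ⟨w 0, w 1, h1, by rw [h2, h3, h4]⟩
  · rintro e ⟨i, j, h1, h2⟩
    refine ⟨fun l => [i, j, REN_r (e 0) (e 1) i, REN_r (e 0) (e 1) j].getD l 0,
      ⟨h1, h2, rfl, rfl⟩, ?_⟩
    have s1 := congrArg Nat.size h1
    have s2 := congrArg Nat.size h2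
    rw [size_cd] at s1 s2
    have t1 := size_le_SzE (k := 4) (i := 2) (by norm_num) e
    have t2 := size_le_SzE (k := 4) (i := 3) (by norm_num) e
    obtain ⟨v1, v2⟩ := hl i j
    obtain ⟨v3, v4⟩ := hl (REN_r (e 0) (e 1) i) (REN_r (e 0) (e 1) j)
    have u1 := FM_size_le i
    have u2 := FM_size_le j
    have u3 := FM_size_le (REN_r (e 0) (e 1) i)
    have u4 := FM_size_le (REN_r (e 0) (e 1) j)
    intro l hl
    rw [one_mul, pow_one]
    have : l = 0 ∨ l = 1 ∨ l = 2 ∨ l = 3 := by omega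
    rcases this with rfl | rfl | rfl | rfl <;>
    simp only [List.getD_cons_succ, List.getD_cons_zero] <;> omega

private theorem REN_one {F : ℕ → AFm} (h : SP 2 (fun e => e 1 = cd (F (e 0))))
    (hl : ∀ i, i ≤ len (F i)) :
    SP 4 (fun e => ∃ i : ℕ, e 2 = cd (F i) ∧ e 3 = cd (F (REN_r (e 0) (e 1) i))) := by
  have h' : SP (4 + 2) (fun e => e 2 = cd (F (e 4)) ∧ e 3 = cd (F (e 5)) ∧
      e 5 = up^[e 1] (pn (e 0)) (e 4)) :=
    (h.v [4, 2] (by decide)).and ((h.v [5, 3] (by decide)).and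
      (sp_vm.v [0, 1, 4, 5] (by decide)))
  refine h'.of ?_ 1 ?_
  · rintro e w ⟨h1, h2, h3⟩
    change e 2 = cd (F (w 0)) at h1
    change e 3 = cd (F (w 1)) at h2
    change w 1 = REN_r (e 0) (e 1) (w 0) at h3
    exact ⟨w 0, h1, by rw [h2, h3]⟩
  · rintro e ⟨i, h1, h2⟩
    refine ⟨fun l => [i, REN_r (e 0) (e 1) i].getD l 0, ⟨h1, h2, rfl⟩, ?_⟩
    have s1 := congrArg Nat.size h1
    have s2 := congrArg Nat.size h2
    rw [size_cd] at s1 s2
    have t1 := size_le_SzE (k := 4) (i := 2) (by norm_num) e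
    have t2 := size_le_SzE (k := 4) (i := 3) (by norm_num) e
    have v1 := hl i
    have v3 := hl (REN_r (e 0) (e 1) i)
    have u1 := FM_size_le i
    have u3 := FM_size_le (REN_r (e 0) (e 1) i)
    intro l hl
    rw [one_mul, pow_one]
    have : l = 0 ∨ l = 1 := by omega
    rcases this with rfl | rfl <;>
    simp only [List.getD_cons_succ, List.getD_cons_zero] <;> omega

private theorem REN_three {F : ℕ → ℕ → ℕ → AFm}
    (h : SP 4 (fun e => e 3 = cd (F (e 0) (e 1) (e 2))))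
    (hl : ∀ i j k, i ≤ len (F i j k) ∧ j ≤ len (F i j k) ∧ k ≤ len (F i j k)) :
    SP 4 (fun e => ∃ i j k : ℕ, e 2 = cd (F i j k) ∧
      e 3 = cd (F (REN_r (e 0) (e 1) i) (REN_r (e 0) (e 1) j) (REN_r (e 0) (e 1) k))) := by
  have h' : SP (4 + 6) (fun e => e 2 = cd (F (e 4) (e 5) (e 6)) ∧
      e 3 = cd (F (e 7) (e 8) (e 9)) ∧ e 7 = up^[e 1] (pn (e 0)) (e 4) ∧
      e 8 = up^[e 1] (pn (e 0)) (e 5) ∧ e 9 = up^[e 1] (pn (e 0)) (e 6)) :=
    (h.v [4, 5, 6, 2] (by decide)).and ((h.v [7, 8, 9, 3] (by decide)).and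
      ((sp_vm.v [0, 1, 4, 7] (by decide)).and ((sp_vm.v [0, 1, 5, 8] (by decide)).and
        (sp_vm.v [0, 1, 6, 9] (by decide)))))
  refine h'.of ?_ 1 ?_
  · rintro e w ⟨h1, h2, h3, h4, h5⟩
    change e 2 = cd (F (w 0) (w 1) (w 2)) at h1
    change e 3 = cd (F (w 3) (w 4) (w 5)) at h2
    change w 3 = REN_r (e 0) (e 1) (w 0) at h3
    change w 4 = REN_r (e 0) (e 1) (w 1) at h4
    change w 5 = REN_r (e 0) (e 1) (w 2) at h5
    exact ⟨w 0, w 1, w 2, h1, by rw [h2, h3, h4, h5]⟩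
  · rintro e ⟨i, j, k, h1, h2⟩
    refine ⟨fun l => [i, j, k, REN_r (e 0) (e 1) i, REN_r (e 0) (e 1) j,
      REN_r (e 0) (e 1) k].getD l 0, ⟨h1, h2, rfl, rfl, rfl⟩, ?_⟩
    have s1 := congrArg Nat.size h1
    have s2 := congrArg Nat.size h2
    rw [size_cd] at s1 s2
    have t1 := size_le_SzE (k := 4) (i := 2) (by norm_num) e
    have t2 := size_le_SzE (k := 4) (i := 3) (by norm_num) e
    obtain ⟨v1, v2, v3⟩ := hl i j k
    obtain ⟨v4, v5, v6⟩ := hl (REN_r (e 0) (e 1) i) (REN_r (e 0) (e 1) j) (REN_r (e 0) (e 1) k)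
    have u1 := FM_size_le i
    have u2 := FM_size_le j
    have u3 := FM_size_le k
    have u4 := FM_size_le (REN_r (e 0) (e 1) i)
    have u5 := FM_size_le (REN_r (e 0) (e 1) j)
    have u6 := FM_size_le (REN_r (e 0) (e 1) k)
    intro l hl
    rw [one_mul, pow_one]
    have : l = 0 ∨ l = 1 ∨ l = 2 ∨ l = 3 ∨ l = 4 ∨ l = 5 := by omega
    rcases this with rfl | rfl | rfl | rfl | rfl | rfl <;>
    simp only [List.getD_cons_succ, List.getD_cons_zero] <;> omega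

private theorem REN_Sz4 (e : Env) :
    SzE 4 e = Nat.size (e 0) + Nat.size (e 1) + Nat.size (e 2) + Nat.size (e 3) := by
  simp [SzE, Finset.sum_range_succ]

/-- MODULE REN. HINT: `SP.rec2` on `(p, d, x, y)` with rank `Nat.size x`: base: falsum and atoms
(`sp_vm` for every variable); one premise `(p, d + 1, x', y')` with `AlR x' x`, `AlR y' y`; two
premises with `ImR`. Under `all` the size of `d` may increase by one, but `x` and `y` lose four
bits. Arithmetical by `sat_renF` (parameters `ptk`, `tk` there), or `Ar` from `Lfp`. -/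
theorem sp_rn : SP 4 (fun e => RnR (e 0) (e 1) (e 2) (e 3)) := by
  have hB : SP 4 (fun e => (e 2 = 16 ∧ e 3 = 16) ∨
      (∃ i j : ℕ, e 2 = cd (Fm.eq i j : AFm) ∧
        e 3 = cd (Fm.eq (REN_r (e 0) (e 1) i) (REN_r (e 0) (e 1) j) : AFm)) ∨
      (∃ i : ℕ, e 2 = cd (zeroA i) ∧ e 3 = cd (zeroA (REN_r (e 0) (e 1) i))) ∨
      (∃ i j : ℕ, e 2 = cd (succA i j) ∧
        e 3 = cd (succA (REN_r (e 0) (e 1) i) (REN_r (e 0) (e 1) j))) ∨
      (∃ i j k : ℕ, e 2 = cd (addA i j k) ∧ e 3 = cd (addA (REN_r (e 0) (e 1) i)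
        (REN_r (e 0) (e 1) j) (REN_r (e 0) (e 1) k))) ∨
      (∃ i j k : ℕ, e 2 = cd (mulA i j k) ∧ e 3 = cd (mulA (REN_r (e 0) (e 1) i)
        (REN_r (e 0) (e 1) j) (REN_r (e 0) (e 1) k)))) := by
    refine (((sp_const 16).v [2] (by decide)).and ((sp_const 16).v [3] (by decide))).or
      ((REN_two sp_aeq fun i j => ?_).or ((REN_one sp_azero fun i => ?_).or
      ((REN_two sp_asucc fun i j => ?_).or ((REN_three sp_aadd fun i j k => ?_).or
        (REN_three sp_amul fun i j k => ?_)))))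
    · rw [FM_len_eq]; omega
    · rw [FM_len_zero]; omega
    · rw [FM_len_succ]; omega
    · rw [FM_len_add]; omega
    · rw [FM_len_mul]; omega
  have h₁ : SP (4 + 4) (fun e => e 0 = e 4 ∧ e 1 + 1 = e 5 ∧ AlR (e 6) (e 2) ∧
      AlR (e 7) (e 3)) :=
    (sp_eq.v [0, 4] (by decide)).and ((sp_suc.v [1, 5] (by decide)).and
      ((sp_al.v [6, 2] (by decide)).and (sp_al.v [7, 3] (by decide))))
  have h₂ : SP (4 + 4 + 4) (fun e => e 0 = e 4 ∧ e 1 = e 5 ∧ e 0 = e 8 ∧ e 1 = e 9 ∧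
      ImR (e 6) (e 10) (e 2) ∧ ImR (e 7) (e 11) (e 3)) :=
    (sp_eq.v [0, 4] (by decide)).and ((sp_eq.v [1, 5] (by decide)).and
      ((sp_eq.v [0, 8] (by decide)).and ((sp_eq.v [1, 9] (by decide)).and
        ((sp_im.v [6, 10, 2] (by decide)).and (sp_im.v [7, 11, 3] (by decide))))))
  refine SP.rec2 REN_ar hB h₁ h₂ ?_ ?_ ?_ (fun e => Nat.size (e 2)) 1 ?_ ?_
  · rintro e (⟨h, h'⟩ | ⟨i, j, h, h'⟩ | ⟨i, h, h'⟩ | ⟨i, j, h, h'⟩ | ⟨i, j, k, h, h'⟩ |
      ⟨i, j, k, h, h'⟩)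
    · exact ⟨bot, h.trans cd_bot.symm, h'.trans cd_bot.symm⟩
    · exact ⟨_, h, h'⟩
    · exact ⟨_, h, by rw [REN_rn_zero]; exact h'⟩
    · exact ⟨_, h, by rw [REN_rn_succ]; exact h'⟩
    · exact ⟨_, h, by rw [REN_rn_add]; exact h'⟩
    · exact ⟨_, h, by rw [REN_rn_mul]; exact h'⟩
  · rintro e e' ⟨h1, h2, ⟨φ, h3, h4⟩, ⟨ψ, h5, h6⟩⟩ ⟨χ, h7, h8⟩
    change e 0 = e' 0 at h1
    change e 1 + 1 = e' 1 at h2
    change e' 2 = cd φ at h3
    change e 2 = cd (all φ) at h4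
    change e' 3 = cd ψ at h5
    change e 3 = cd (all ψ) at h6
    have h9 : φ = χ := cd_inj (h3.symm.trans h7)
    subst h9
    refine ⟨all φ, h4, ?_⟩
    have h10 : ψ = rename (up^[e' 1] (pn (e' 0))) φ := cd_inj (h5.symm.trans h8)
    rw [h6, h10, ← h1, ← h2, Function.iterate_succ_apply']
    rfl
  · rintro e e' e'' ⟨h1, h2, h3, h4, ⟨φ, ψ, h5, h6, h7⟩, ⟨φ', ψ', h8, h9, h10⟩⟩ ⟨χ, h11, h12⟩
      ⟨χ', h13, h14⟩
    change e 0 = e' 0 at h1
    change e 1 = e' 1 at h2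
    change e 0 = e'' 0 at h3
    change e 1 = e'' 1 at h4
    change e' 2 = cd φ at h5
    change e'' 2 = cd ψ at h6
    change e 2 = cd (imp φ ψ) at h7
    change e' 3 = cd φ' at h8
    change e'' 3 = cd ψ' at h9
    change e 3 = cd (imp φ' ψ') at h10
    have h15 : φ = χ := cd_inj (h5.symm.trans h11)
    have h16 : ψ = χ' := cd_inj (h6.symm.trans h13)
    subst h15 h16
    refine ⟨imp φ ψ, h7, ?_⟩
    have h17 : φ' = rename (up^[e' 1] (pn (e' 0))) φ := cd_inj (h8.symm.trans h12)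
    have h18 : ψ' = rename (up^[e'' 1] (pn (e'' 0))) ψ := cd_inj (h9.symm.trans h14)
    rw [h10, h17, h18, ← h1, ← h2, ← h3, ← h4]
    rfl
  · intro e _
    have := size_le_SzE (k := 4) (i := 2) (by norm_num) e
    rw [one_mul, pow_one]
    omega
  · rintro e ⟨φ, h, h'⟩
    have hs := congrArg Nat.size h
    have hs' := congrArg Nat.size h'
    rw [size_cd] at hs hs'
    rcases FM_cases φ with rfl | ⟨i, j, rfl⟩ | ⟨i, rfl⟩ | ⟨i, j, rfl⟩ | ⟨i, j, k, rfl⟩ |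
      ⟨i, j, k, rfl⟩ | ⟨ψ, χ, rfl⟩ | ⟨ψ, rfl⟩
    · exact Or.inl (Or.inl ⟨h.trans cd_bot, h'.trans cd_bot⟩)
    · exact Or.inl (Or.inr (Or.inl ⟨i, j, h, h'⟩))
    · rw [REN_rn_zero] at h'
      exact Or.inl (Or.inr (Or.inr (Or.inl ⟨i, h, h'⟩)))
    · rw [REN_rn_succ] at h'
      exact Or.inl (Or.inr (Or.inr (Or.inr (Or.inl ⟨i, j, h, h'⟩))))
    · rw [REN_rn_add] at h'
      exact Or.inl (Or.inr (Or.inr (Or.inr (Or.inr (Or.inl ⟨i, j, k, h, h'⟩)))))
    · rw [REN_rn_mul] at h'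
      exact Or.inl (Or.inr (Or.inr (Or.inr (Or.inr (Or.inr ⟨i, j, k, h, h'⟩)))))
    · set ψ' : AFm := rename (REN_r (e 0) (e 1)) ψ with hψ'
      set χ' : AFm := rename (REN_r (e 0) (e 1)) χ with hχ'
      have h1 : e 3 = cd (imp ψ' χ') := h'
      have l1 : len (imp ψ χ) = len ψ + len χ + 4 := rfl
      have l2 : len (rename (up^[e 1] (pn (e 0))) (imp ψ χ)) = len ψ' + len χ' + 4 := rfl
      rw [l1] at hs
      rw [l2] at hs'
      refine Or.inr (Or.inr ⟨fun i => [e 0, e 1, cd ψ, cd ψ'].getD i 0,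
        fun i => [e 0, e 1, cd χ, cd χ'].getD i 0, ⟨ψ, rfl, rfl⟩, ⟨χ, rfl, rfl⟩, ?_, ?_, ?_,
        rfl, rfl, rfl, rfl, ⟨ψ, χ, rfl, rfl, h⟩, ⟨ψ', χ', rfl, rfl, h1⟩⟩)
      · change Nat.size (cd ψ) + Nat.size (cd χ) < Nat.size (e 2)
        rw [size_cd, size_cd, hs]
        omega
      · rw [REN_Sz4, REN_Sz4]
        change Nat.size (e 0) + Nat.size (e 1) + Nat.size (cd ψ) + Nat.size (cd ψ') ≤ _
        rw [size_cd, size_cd]
        omega
      · rw [REN_Sz4, REN_Sz4]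
        change Nat.size (e 0) + Nat.size (e 1) + Nat.size (cd χ) + Nat.size (cd χ') ≤ _
        rw [size_cd, size_cd]
        omega
    · set ψ' : AFm := rename (REN_r (e 0) (e 1 + 1)) ψ with hψ'
      have l1 : len (all ψ) = len ψ + 4 := rfl
      have l3 : rename (up^[e 1] (pn (e 0))) (all ψ) = all ψ' := by
        rw [hψ', REN_r, Function.iterate_succ_apply']
        rfl
      rw [l3] at h' hs'
      have l2 : len (all ψ') = len ψ' + 4 := rfl
      rw [l1] at hs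
      rw [l2] at hs'
      refine Or.inr (Or.inl ⟨fun i => [e 0, e 1 + 1, cd ψ, cd ψ'].getD i 0,
        ⟨ψ, rfl, rfl⟩, ?_, ?_, rfl, rfl, ⟨ψ, rfl, h⟩, ⟨ψ', rfl, h'⟩⟩)
      · change Nat.size (cd ψ) < Nat.size (e 2)
        rw [size_cd, hs]
        omega
      · rw [REN_Sz4, REN_Sz4]
        change Nat.size (e 0) + Nat.size (e 1 + 1) + Nat.size (cd ψ) + Nat.size (cd ψ') ≤ _
        rw [size_cd, size_cd]
        have h9 : Nat.size (e 1 + 1) ≤ Nat.size (e 1) + 1 := by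
          rw [Nat.size_le]
          have := Nat.lt_size_self (e 1)
          rw [pow_succ]
          omega
        omega

end Pool.Agent.MycW
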