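import Pool.Agent.MycW.RSuc
import Pool.Agent.Myc.NatC
import Pool.Agent.Myc.RepC

set_option autoImplicit false

/-! # MODULE TOK: tokens -/

namespace Pool.Agent.MycW

open Pool.Agent.Myc Pool.Agent.Myc.Fm

/- HINT: see `RSuc.lean` for a complete example. The recursion is on the binary digits: `e'` has the
halves of the entries of `e`; the side condition `S` says `e i = 2 * e (k + i)` or
`e i = 2 * e (k + i) + 1`. -/

theorem Tok_size (i : ℕ) : Nat.size (tk i) = i + 3 := by
  rw [tk, RepC_size_codeS]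
  simp [tok]

theorem Tok_ar : Ar 2 (fun e => e 1 = tk (e 0)) := by
  have h : Ar (2 + 5) (fun e => e 0 + 1 = e 2 ∧ e 2 + 1 = e 3 ∧ e 3 + 1 = e 4 ∧ e 1 + 1 = e 5 ∧
      e 5 + 1 = e 6 ∧ e 6 = 2 ^ (e 4)) :=
    (ar_succ 0 2 (by norm_num) (by norm_num)).and
      ((ar_succ 2 3 (by norm_num) (by norm_num)).and
      ((ar_succ 3 4 (by norm_num) (by norm_num)).and
      ((ar_succ 1 5 (by norm_num) (by norm_num)).and
      ((ar_succ 5 6 (by norm_num) (by norm_num)).and
      (ar_two_pow 4 6 (by norm_num) (by norm_num))))))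
  refine (Ar.ex h).congr fun e => ?_
  have hk := tk_eq (e 0)
  constructor
  · rintro ⟨w, h1, h2, h3, h4, h5, h6⟩
    simp only [join] at h1 h2 h3 h4 h5 h6
    norm_num at h1 h2 h3 h4 h5 h6
    have h7 : w 2 = e 0 + 3 := by omega
    rw [h7] at h6
    omega
  · intro h1
    refine ⟨fun i => if i = 0 then e 0 + 1 else if i = 1 then e 0 + 2 else if i = 2 then e 0 + 3
      else if i = 3 then e 1 + 1 else e 1 + 2, ?_⟩
    simp only [join]
    norm_num
    omega

/-- MODULE TOK. HINT: `tk 0 = 6`, `next_tk`, unary recursion; arithmetical by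
`tk_eq : tk i + 2 = 2 ^ (i + 3)`. -/
theorem sp_tok : SP 2 (fun e => e 1 = tk (e 0)) := by
  have hB : SP 2 (fun e => e 0 = 0 ∧ e 1 = 6) :=
    ((sp_const 0).v (n := 2) [0] (by decide)).and ((sp_const 6).v (n := 2) [1] (by decide))
  have hS : SP (2 + 2) (fun e => e 2 + 1 = e 0 ∧ ∃ x, x = 2 * e 3 + 1 ∧ x + 1 = e 1) := by
    refine (sp_suc.v (n := 4) [2, 0] (by decide)).and ?_
    have h := ((sp_dbl1.v (n := 5) [3, 4] (by decide)).and
      (sp_suc.v (n := 5) [4, 1] (by decide)))
    refine (h.ex 1 ?_ : SP 4 _)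
    rintro e x ⟨h4, h5⟩
    have h6 : x + 1 = e 1 := h5
    have h8 := (Nat.size_le_size (show x ≤ e 1 by omega)).trans
      (size_le_SzE (k := 4) (by norm_num) e)
    simp only [pow_one, one_mul]
    omega
  refine SP.rec1 Tok_ar hB hS ?_ ?_ (fun e => e 0) 1 ?_ ?_
  · rintro e ⟨h1, h2⟩
    show e 1 = tk (e 0)
    rw [h1, h2]
    rfl
  · rintro e e' ⟨h1, x, h2, h3⟩ h4
    simp only [join] at h1 h2 h3
    norm_num at h1 h2 h3
    show e 1 = tk (e 0)
    rw [← h1, next_tk, ← h4]
    omega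
  · intro e h1
    have h2 := size_le_SzE (k := 2) (i := 1) (by norm_num) e
    have h3 := Tok_size (e 0)
    have h4 : e 1 = tk (e 0) := h1
    rw [h4] at h2
    simp only [pow_one, one_mul]
    omega
  · intro e he
    have h4 : e 1 = tk (e 0) := he
    rcases Nat.eq_zero_or_pos (e 0) with h0 | h0
    · refine Or.inl ⟨h0, ?_⟩
      show e 1 = 6
      rw [h4, h0]
      rfl
    · obtain ⟨m, hm⟩ : ∃ m, e 0 = m + 1 := ⟨e 0 - 1, by omega⟩
      have h5 := next_tk m
      refine Or.inr ⟨fun i => if i = 0 then m else tk m, ?_, ?_, ?_, ?_, ?_⟩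
      · simp
      · simp [hm]
      · simp only [SzE, Finset.sum_range_succ, Finset.sum_range_zero]
        have h6 : Nat.size m ≤ Nat.size (e 0) := Nat.size_le_size (by omega)
        have h7 : Nat.size (tk m) ≤ Nat.size (e 1) := Nat.size_le_size (by rw [h4, hm]; omega)
        simp
        omega
      · simp [join, hm]
      · refine ⟨2 * tk m + 1, ?_, ?_⟩
        · simp [join]
        · simp [join, h4, hm, h5]

end Pool.Agent.MycW
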