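import Pool.Agent.MycW.REqNe
import Pool.Agent.MycW.RLtLe
import Pool.Agent.MycW.RAdd
import Pool.Agent.MycW.Rel

set_option autoImplicit false

/-! # MODULE VMAP: renaming of variables -/

namespace Pool.Agent.MycW

open Pool.Agent.Myc Pool.Agent.Myc.Fm

theorem VMAP_up (d : ℕ) (ρ : ℕ → ℕ) (i : ℕ) :
    up^[d] ρ i = if i < d then i else ρ (i - d) + d := by
  induction d generalizing i with
  | zero => simp
  | succ d ih =>
    rw [Function.iterate_succ_apply']
    cases i with
    | zero => simp [up]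
    | succ i =>
      rw [up, ih]
      by_cases h : i < d
      · rw [if_pos h, if_pos (by omega)]
      · rw [if_neg h, if_neg (by omega)]
        have h1 : i + 1 - (d + 1) = i - d := by omega
        rw [h1]
        omega

theorem VMAP_iff (p d i i' : ℕ) : i' = up^[d] (pn p) i ↔
    ((i < d ∧ i' = i) ∨ (d ≤ i ∧ p = 0 ∧ i + 1 = i')) ∨
      ((i = d ∧ p - 1 + 1 = p ∧ p - 1 + d = i') ∨ (d < i ∧ p - 1 + 1 = p ∧ i' + 1 = i)) := by
  rw [VMAP_up]
  by_cases h : i < d
  · rw [if_pos h]
    omega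
  · rw [if_neg h]
    cases p with
    | zero =>
      have h0 : pn 0 (i - d) = i - d + 1 := rfl
      rw [h0]
      omega
    | succ j =>
      have h0 : ∀ m, pn (j + 1) m = instMap j m := fun m => rfl
      rw [h0]
      rcases Nat.eq_or_lt_of_le (not_lt.1 h) with h1 | h1
      · rw [← h1, Nat.sub_self, instMap]
        omega
      · obtain ⟨m, hm⟩ : ∃ m, i - d = m + 1 := ⟨i - d - 1, by omega⟩
        rw [hm, instMap]
        omega

/-- MODULE VMAP. The renaming with the parameter `e 0` under `e 1` quantifiers sends the variable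
`e 2` to `e 3`. HINT: no recursion. By cases (prove first a lemma by induction on `d`):
`i < d`, `i' = i`; `d ≤ i`, `p = 0`, `i' = i + 1`; `i = d`, `p = j + 1`, `i' = j + d`;
`d < i`, `p ≠ 0`, `i' + 1 = i`. -/
theorem sp_vm : SP 4 (fun e => e 3 = up^[e 1] (pn (e 0)) (e 2)) := by
  have h1 : SP (4 + 1) (fun e => ((e 2 < e 1 ∧ e 3 = e 2) ∨ (e 1 ≤ e 2 ∧ e 0 = 0 ∧ e 2 + 1 = e 3)) ∨
      ((e 2 = e 1 ∧ e 4 + 1 = e 0 ∧ e 4 + e 1 = e 3) ∨ (e 1 < e 2 ∧ e 4 + 1 = e 0 ∧ e 3 + 1 = e 2))) :=
    (((sp_lt.v (n := 5) [2, 1] (by decide)).and (sp_eq.v (n := 5) [3, 2] (by decide))).or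
      ((sp_le.v (n := 5) [1, 2] (by decide)).and (((sp_const 0).v (n := 5) [0] (by decide)).and
        (sp_suc.v (n := 5) [2, 3] (by decide))))).or
    (((sp_eq.v (n := 5) [2, 1] (by decide)).and ((sp_suc.v (n := 5) [4, 0] (by decide)).and
      (sp_add.v (n := 5) [4, 1, 3] (by decide)))).or
      ((sp_lt.v (n := 5) [1, 2] (by decide)).and ((sp_suc.v (n := 5) [4, 0] (by decide)).and
        (sp_suc.v (n := 5) [3, 2] (by decide)))))
  refine h1.of ?_ 1 ?_
  · intro e w h
    simp only [join] at h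
    norm_num at h
    rw [VMAP_iff]
    omega
  · intro e h
    rw [VMAP_iff] at h
    refine ⟨fun _ => e 0 - 1, ?_, ?_⟩
    · simp only [join]
      norm_num
      omega
    · intro i _
      have h2 : Nat.size (e 0 - 1) ≤ Nat.size (e 0) := Nat.size_le_size (by omega)
      have h3 := size_le_SzE (k := 4) (i := 0) (by norm_num) e
      simp only [pow_one, one_mul]
      omega

end Pool.Agent.MycW
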