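import Pool.Agent.MycW.NodeK
import Pool.Agent.MycW.RCnCl
import Pool.Agent.MycW.RNc

set_option autoImplicit false

/-! # MODULE BR: the theory with a safe sentence -/

namespace Pool.Agent.MycW

open Pool.Agent.Myc Pool.Agent.Myc.Fm

/-- `b` is the theory with the number `e 12` together with the sentence given by the formula with
the number `e 0` and the numbers `e 0, ..., e 12`. -/
def BrR (e : Env) (b : ℕ) : Prop := ∃ (ψ : AFm) (T : List AFm), e 0 = cd ψ ∧ e 12 = cdL T ∧
  b = cdL (Bx 13 e ψ :: T)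

theorem BR_congr {e e' : Env} (h : ∀ i < 13, e i = e' i) (b : ℕ) (hb : BrR e b) : BrR e' b := by
  obtain ⟨ψ, T, h1, h2, h3⟩ := hb
  refine ⟨ψ, T, (h 0 (by norm_num)).symm.trans h1, (h 12 (by norm_num)).symm.trans h2, ?_⟩
  rw [← Bx_congr h]
  exact h3

/-- MODULE BR. HINT: `∃ u, NcR 13 (e 0, ..., e 12, u) ∧ LcR u (e 12) (e 13)`. -/
theorem sp_br : SP 14 (fun e => BrR e (e 13)) := by
  have h : SP (14 + 1) (fun e => NcR 13 (fun i => e (if i < 13 then i else 14)) ∧
      LcR (e 14) (e 12) (e 13)) :=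
    ((sp_nc 12).map (n := 15) (fun i => if i < 13 then i else 14) (by
      intro i _
      show (if i < 13 then i else 14) < 15
      split <;> omega)).and (sp_lc.v (n := 15) [14, 12, 13] (by decide))
  have hc : ∀ (e w : Env), ∀ i < 13,
      (fun i => join 14 e w (if i < 13 then i else 14)) i = e i := by
    intro e w i hi
    show join 14 e w (if i < 13 then i else 14) = e i
    rw [if_pos hi]
    unfold join
    rw [if_pos (by omega)]
  refine h.of ?_ 1 ?_
  · intro e w hw
    obtain ⟨⟨ψ, h1, h2⟩, h3⟩ := hw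
    have h1' : e 0 = cd ψ := h1
    have h2' : w 0 = cd (Bx 13 (fun i => join 14 e w (if i < 13 then i else 14)) ψ) := h2
    rw [Bx_congr (hc e w)] at h2'
    have h3' : LcR (w 0) (e 12) (e 13) := h3
    obtain ⟨φ, l, h4, h5, h6⟩ := h3'
    have h7 := cd_inj (h4.symm.trans h2')
    exact ⟨ψ, l, h1', h5, by rw [h6, h7]⟩
  · rintro e ⟨ψ, T, h1, h2, h3⟩
    refine ⟨fun _ => cd (Bx 13 e ψ), ⟨⟨ψ, h1, ?_⟩, ?_⟩, ?_⟩
    · show cd (Bx 13 e ψ) = cd (Bx 13 (fun i => join 14 e (fun _ => cd (Bx 13 e ψ))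
        (if i < 13 then i else 14)) ψ)
      rw [Bx_congr (hc e fun _ => cd (Bx 13 e ψ))]
    · show LcR (cd (Bx 13 e ψ)) (e 12) (e 13)
      exact ⟨_, T, rfl, h2, h3⟩
    · have h4 := size_le_SzE (k := 14) (i := 13) (by norm_num) e
      rw [h3, size_cdL, Prv_plen_cons] at h4
      intro i _
      simp only [pow_one, one_mul]
      rw [size_cd]
      omega

end Pool.Agent.MycW
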