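import Pool.Agent.MycW.SigA
import Pool.Agent.Myc.NatF

set_option autoImplicit false

/-! # MODULE SIGAR: safe sentences -/

namespace Pool.Agent.MycW

open Pool.Agent.Myc Pool.Agent.Myc.Fm

/-- If the node is true then the theory `b' = b + Con_b (2 ^ N)` does not prove falsum in length
`M`, where `b` is given by `BrR`. -/
def SigR (e : Env) : Prop := NodeR (fun i => e (i + 1)) → ∀ q b b' : ℕ, q = 2 ^ (e 10) →
  BrR e b → ClR b q b' → ¬ PrR b' (e 11) 16

theorem SIGAR_pr : Ar 3 (fun e => PrR (e 0) (e 1) (e 2)) :=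
  ⟨provF, StdB_provF, fun e => by
    rw [sat_provF]
    rfl⟩

theorem SIGAR_pr16 : Ar 2 (fun e => PrR (e 0) (e 1) 16) := by
  have h := (SIGAR_pr.and (ar_eqc (k := 3) 2 16 (by norm_num))).ex1
  refine h.congr fun e => ?_
  constructor
  · rintro ⟨x, h1, h2⟩
    have h1' : PrR (e 0) (e 1) x := h1
    have h2' : x = 16 := h2
    rw [h2'] at h1'
    exact h1'
  · intro h1
    exact ⟨16, h1, rfl⟩

/-- MODULE SIGAR. -/
theorem Ar_sig : Ar 13 SigR := by
  have h1 : Ar 13 (fun e => NodeR (fun i => e (i + 1))) :=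
    Ar_node.map (fun i => i + 1) (by intro i hi; omega)
  have h2 : Ar (13 + 3) (fun e => e 13 = 2 ^ (e 10)) :=
    ar_two_pow 10 13 (by norm_num) (by norm_num)
  have h3 : Ar (13 + 3) (fun e => BrR (fun i => e (if i < 13 then i else 14)) (e 14)) :=
    sp_br.ar.map (n := 16) (fun i => if i < 13 then i else 14) (by
      intro i _
      show (if i < 13 then i else 14) < 16
      split <;> omega)
  have h4 : Ar (13 + 3) (fun e => ClR (e 14) (e 13) (e 15)) :=
    sp_cl.ar.map (n := 16) (fun i => [14, 13, 15].getD i 0) (by decide)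
  have h5 : Ar (13 + 3) (fun e => PrR (e 15) (e 11) 16) :=
    SIGAR_pr16.map (n := 16) (fun i => [15, 11].getD i 0) (by decide)
  refine (h1.imp (Ar.all (h2.imp (h3.imp (h4.imp h5.not))))).congr fun e => ?_
  unfold SigR
  have hc : ∀ (w : Env), ∀ i < 13,
      (fun i => join 13 e w (if i < 13 then i else 14)) i = e i := by
    intro w i hi
    show join 13 e w (if i < 13 then i else 14) = e i
    rw [if_pos hi]
    unfold join
    rw [if_pos hi]
  refine imp_congr Iff.rfl ?_
  constructor
  · intro H q b b' hq hb hcl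
    have := H (fun i => if i = 0 then q else if i = 1 then b else b')
    exact this hq (BR_congr (fun i hi => (hc _ i hi).symm) b hb) hcl
  · intro H w hq hb hcl
    exact H (w 0) (w 1) (w 2) hq (BR_congr (hc w) (w 1) hb) hcl

/-- The formula for safe sentences. -/
noncomputable def Ks : AFm := Classical.choose Ar_sig

theorem Ks_fv : FVs (fun i => i < 13) Ks := (Classical.choose_spec Ar_sig).1

theorem Ks_sat (e : Env) : Sat NN Ks e ↔ SigR e := (Classical.choose_spec Ar_sig).2 e

/-- The numbers of a safe sentence. -/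
noncomputable def senv (t j : ℕ) (c : Cfg) (N M r : ℕ) : Env := fun i =>
  if i = 0 then cd Ks else if i < 10 then cenv (cd K) t j c (i - 1)
  else if i = 10 then N else if i = 11 then M else r

/-- The safe sentences. -/
noncomputable def Sg (t j : ℕ) (c : Cfg) (N M r : ℕ) : AFm := Bx 13 (senv t j c N M r) Ks

theorem closed_Sg (t j : ℕ) (c : Cfg) (N M r : ℕ) : Closed (Sg t j c N M r) :=
  closed_Bx Ks_fv _

theorem sat_Sg (t j : ℕ) (c : Cfg) (N M r : ℕ) (e : Env) :
    Sat NN (Sg t j c N M r) e ↔ SigR (senv t j c N M r) := (sat_Bx Ks_fv _ _).trans (Ks_sat _)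

end Pool.Agent.MycW
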