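import Pool.Agent.MycW.Cut
import Pool.Agent.MycW.GdSem
import Pool.Agent.MycW.StepA
import Pool.Agent.Myc.SemB

set_option autoImplicit false

/-! # MODULE STEPC: single steps with guarded sentences, III -/

namespace Pool.Agent.MycW

open Pool.Agent.Myc Pool.Agent.Myc.Fm

/- HINT: `cutS` with the language with a unary predicate `N i` for every guard (`i : Fin n`), and a
predicate of arity `n` (or `k`) for every fixed formula (as `subst τ (rel P v) = rename (ext v) (τ P)`,
take `v = fun i => i`; `rename (ext v) q = q` by `rename_congr` because the free variables of `q` are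
`< n`). The semantic hypothesis is easy, because `alls n φ` says that `φ` holds for all assignments
(`sat_alls`). Sum over the language: the fixed formulas give a constant, the guards
`∑ len (num (e i)) ≤ C * (1 + SzE n e)` by `len_num`. -/

/-- The sentence saying that there is at most one `x` with `num n x`. -/
def UNq (n : ℕ) : AFm :=
  all (all (imp (rename (fun _ => 1) (num n)) (imp (rename (fun _ => 0) (num n)) (eq 1 0))))

/-- From the existential form to the universal form. -/
theorem gd_of_bx (k : ℕ) (q : AFm) (hq : FVs (fun i => i < k) q) :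
    ∃ C : ℕ, ∀ (T : Set AFm) (e : Env) (a : ℕ) (b : ℕ → ℕ), Pv T a (Bx k e q) →
      (∀ i < k, Pv T (b i) (UNq (e i))) →
      Pv T (a + ∑ i ∈ Finset.range k, b i + C * (1 + SzE k e)) (Gd k e q) := by
  let p : Unit → AFm := fun _ => q
  have hp : ∀ j, FVs (fun i => i < k) (p j) := fun _ => hq
  let Q : Fm (Fin (k + 1) ⊕ Unit) (StepA_ar (Fin (k + 1)) Unit k) := StepA_Q (Fin (k + 1)) k ()
  have hQ : FVs (fun i => i < k) Q := StepA_FVs_Q (fun i hi => hi) ()
  let E : ℕ → Fm (Fin (k + 1) ⊕ Unit) (StepA_ar (Fin (k + 1)) Unit k) := fun i =>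
    all (all (imp (StepA_N Unit k (StepA_g k i) 1) (imp (StepA_N Unit k (StepA_g k i) 0) (eq 1 0))))
  obtain ⟨C, hC⟩ := StepA_cut (StepA_Bx (StepA_g k) k Q :: (List.range k).map E)
    (by
      intro γ hγ
      rcases List.mem_cons.1 hγ with rfl | hγ
      · exact StepA_closed_Bx hQ
      · obtain ⟨j, -, rfl⟩ := List.mem_map.1 hγ
        have h0 : (fun i => i = 0 ∨ ∃ k, i = k + 1 ∧ (fun i => i = 0 ∨ ∃ k : ℕ, i = k + 1 ∧
          (fun _ => False) k) k) 0 := Or.inl rfl
        have h1 : (fun i => i = 0 ∨ ∃ k, i = k + 1 ∧ (fun i => i = 0 ∨ ∃ k : ℕ, i = k + 1 ∧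
          (fun _ => False) k) k) 1 := Or.inr ⟨0, rfl, Or.inl rfl⟩
        exact ⟨StepA_FVs_N _ h1, StepA_FVs_N _ h0, h1, h0⟩)
    (StepA_Gd (StepA_g k) k Q)
    (by
      intro M _ S hS
      rw [StepA_sat_Gd]
      intro e he
      have h1 := hS _ List.mem_cons_self e
      rw [StepA_sat_Bx] at h1
      obtain ⟨w, hw, h2⟩ := h1
      rw [StepA_sat_Q] at h2 ⊢
      refine (StepA_gQ_congr S () fun i hi => ?_).1 h2
      simp only [StepA_jn, hi, if_true]
      have h5 := hS (E i) (List.mem_cons_of_mem _ (List.mem_map.2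
          ⟨i, List.mem_range.2 hi, rfl⟩)) e
      exact h5 (w i) (e i) (hw i hi) (he i hi))
  obtain ⟨D, hD⟩ := StepA_sum k p
  refine ⟨C * D, fun T e a b ha hb => ?_⟩
  have hgood := StepA_good (StepA_c k e) hp
  have e1 : subst (StepA_tau (StepA_c k e) p) (StepA_Gd (StepA_g k) k Q) = Gd k e q := by
    rw [StepA_subst_Gd, StepA_subst_Q _ hp]
    exact Gd_congr (fun i hi => StepA_c_g e hi) _
  have e3 : subst (StepA_tau (StepA_c k e) p) (StepA_Bx (StepA_g k) k Q) = Bx k e q := by
    rw [StepA_subst_Bx, StepA_subst_Q _ hp]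
    exact Bx_congr (fun i hi => StepA_c_g e hi) _
  have e2 : ∀ i < k, subst (StepA_tau (StepA_c k e) p) (E i) = UNq (e i) := by
    intro i hi
    show all (all (imp (subst _ (StepA_N Unit k (StepA_g k i) 1))
      (imp (subst _ (StepA_N Unit k (StepA_g k i) 0)) (eq 1 0)))) = _
    rw [StepA_subst_N, StepA_subst_N, StepA_c_g e hi]
    rfl
  have key := hC _ hgood T (a :: (List.range k).map fun i => b i) (by
    refine List.Forall₂.cons ?_ ?_
    · rw [e3]
      exact ha
    · rw [List.forall₂_map_left_iff, List.forall₂_map_right_iff, List.forall₂_same]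
      intro i hi
      have hi' := List.mem_range.1 hi
      rw [e2 i hi']
      exact hb _ hi')
  rw [e1] at key
  refine key.mono ?_
  have h2 := Nat.mul_le_mul_left C (hD e)
  have h3 : ((List.range k).map b).sum = ∑ i ∈ Finset.range k, b i := rfl
  rw [List.sum_cons, h3]
  nlinarith

/-- From the negation of the existential form to the universal form of the negation. -/
theorem gd_of_neg_bx (k : ℕ) (q : AFm) (hq : FVs (fun i => i < k) q) :
    ∃ C : ℕ, ∀ (T : Set AFm) (e : Env) (a : ℕ), Pv T a (neg (Bx k e q)) →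
      Pv T (a + C * (1 + SzE k e)) (Gd k e (neg q)) := by
  let p : Unit → AFm := fun _ => q
  have hp : ∀ j, FVs (fun i => i < k) (p j) := fun _ => hq
  let Q : Fm (Fin (k + 1) ⊕ Unit) (StepA_ar (Fin (k + 1)) Unit k) := StepA_Q (Fin (k + 1)) k ()
  have hQ : FVs (fun i => i < k) Q := StepA_FVs_Q (fun i hi => hi) ()
  obtain ⟨C, hC⟩ := StepA_cut [neg (StepA_Bx (StepA_g k) k Q)]
    (by
      intro γ hγ
      rw [List.mem_singleton] at hγ
      subst hγ
      exact ⟨StepA_closed_Bx hQ, trivial⟩)
    (StepA_Gd (StepA_g k) k (neg Q))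
    (by
      intro M _ S hS
      rw [StepA_sat_Gd]
      intro e he
      have h1 := hS _ (List.mem_singleton.2 rfl) e
      rw [sat_neg, StepA_sat_Bx] at h1
      rw [sat_neg]
      intro h2
      refine h1 ⟨e, he, ?_⟩
      rw [StepA_sat_Q] at h2 ⊢
      refine (StepA_gQ_congr S () fun i hi => ?_).1 h2
      simp only [StepA_jn, hi, if_true])
  obtain ⟨D, hD⟩ := StepA_sum k p
  refine ⟨C * D, fun T e a ha => ?_⟩
  have hgood := StepA_good (StepA_c k e) hp
  have e1 : subst (StepA_tau (StepA_c k e) p) (StepA_Gd (StepA_g k) k (neg Q)) =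
      Gd k e (neg q) := by
    rw [StepA_subst_Gd, subst_neg, StepA_subst_Q _ hp]
    exact Gd_congr (fun i hi => StepA_c_g e hi) _
  have e3 : subst (StepA_tau (StepA_c k e) p) (neg (StepA_Bx (StepA_g k) k Q)) =
      neg (Bx k e q) := by
    rw [subst_neg, StepA_subst_Bx, StepA_subst_Q _ hp]
    congr 1
    exact Bx_congr (fun i hi => StepA_c_g e hi) _
  have key := hC _ hgood T [a] (List.Forall₂.cons (by rw [e3]; exact ha) List.Forall₂.nil)
  rw [e1] at key
  refine key.mono ?_
  have h2 := Nat.mul_le_mul_left C (hD e)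
  simp only [List.sum_cons, List.sum_nil]
  nlinarith

end Pool.Agent.MycW
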