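import Pool.Agent.MycW.SigB
import Pool.Agent.MycW.Conj
import Pool.Agent.Myc.SemB
import Pool.Agent.MycW.ClosP
import Pool.Agent.Myc.StdB
import Pool.Agent.Myc.NatF

set_option autoImplicit false

/-! # MODULE XI: the sentence for a theory -/

namespace Pool.Agent.MycW

open Pool.Agent.Myc Pool.Agent.Myc.Fm

/-! ### Polynomial bounds -/

private def XiP (f : ℕ → ℕ) : Prop := ∃ C : ℕ, ∀ s, f s ≤ C * (s + 1) ^ C

private theorem XiP_of {f : ℕ → ℕ} (a b : ℕ) (h : ∀ s, f s ≤ a * (s + 1) ^ b) : XiP f := by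
  refine ⟨a + b, fun s => (h s).trans ?_⟩
  exact Nat.mul_le_mul (Nat.le_add_right _ _) (Nat.pow_le_pow_right (Nat.succ_pos s)
    (Nat.le_add_left _ _))

private theorem XiP_const (c : ℕ) : XiP (fun _ => c) :=
  XiP_of c 0 fun s => by simp

private theorem XiP_id : XiP (fun s => s) :=
  XiP_of 1 1 fun s => by simp

private theorem XiP_add {f g : ℕ → ℕ} (hf : XiP f) (hg : XiP g) : XiP (fun s => f s + g s) := by
  obtain ⟨C, hC⟩ := hf
  obtain ⟨D, hD⟩ := hg
  refine XiP_of (C + D) (C + D) fun s => ?_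
  have h1 : C * (s + 1) ^ C ≤ C * (s + 1) ^ (C + D) :=
    Nat.mul_le_mul_left _ (Nat.pow_le_pow_right (Nat.succ_pos s) (Nat.le_add_right _ _))
  have h2 : D * (s + 1) ^ D ≤ D * (s + 1) ^ (C + D) :=
    Nat.mul_le_mul_left _ (Nat.pow_le_pow_right (Nat.succ_pos s) (Nat.le_add_left _ _))
  calc f s + g s ≤ C * (s + 1) ^ (C + D) + D * (s + 1) ^ (C + D) :=
        Nat.add_le_add ((hC s).trans h1) ((hD s).trans h2)
    _ = (C + D) * (s + 1) ^ (C + D) := by ring

private theorem XiP_mul {f g : ℕ → ℕ} (hf : XiP f) (hg : XiP g) : XiP (fun s => f s * g s) := by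
  obtain ⟨C, hC⟩ := hf
  obtain ⟨D, hD⟩ := hg
  refine XiP_of (C * D) (C + D) fun s => ?_
  calc f s * g s ≤ (C * (s + 1) ^ C) * (D * (s + 1) ^ D) := Nat.mul_le_mul (hC s) (hD s)
    _ = (C * D) * (s + 1) ^ (C + D) := by ring

private theorem XiP_pow {f : ℕ → ℕ} (hf : XiP f) (k : ℕ) : XiP (fun s => f s ^ k) := by
  induction k with
  | zero => simpa using XiP_const 1
  | succ k ih =>
    have := XiP_mul ih hf
    simpa [pow_succ] using this

private theorem XiP_comp {f : ℕ → ℕ} (hf : XiP f) (c : ℕ) :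
    XiP (fun s => c * (f s + 1) ^ c) :=
  XiP_mul (XiP_const c) (XiP_pow (XiP_add hf (XiP_const 1)) c)

/-- The key step: from a proof of `p` for the numbers `e` and a true implication. -/
private theorem Xi_key (n k : ℕ) (hk : k ≤ n) {R : Env → Prop} (hR : SP n R) (p q : AFm)
    (hp : FVs (fun i => i < n) p) (hq : FVs (fun i => i < k) q)
    (ht : ∀ e, Sat NN p e → R e → Sat NN q e) :
    ∃ Ax : List AFm, TrueL Ax ∧ ∃ C : ℕ, ∀ T : Set AFm, (∀ ψ ∈ Ax, ψ ∈ T) →
      ∀ (e : Env) (s : ℕ), R e → SzE n e ≤ s → Pv T s (Gd n e p) →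
        Pv T (C * (s + 1) ^ C) (Bx k e q) := by
  obtain ⟨ρ, hρ, hρR⟩ := hR.ar
  obtain ⟨Ax1, h1, c1, hc1⟩ := hR.pp ρ hρ hρR
  have hq' : FVs (fun i => i < n) q := hq.mono fun i hi => lt_of_lt_of_le hi hk
  obtain ⟨C2, hC2⟩ := hstep n [p, ρ] q (by
    intro x hx
    simp only [List.mem_cons, List.not_mem_nil, or_false] at hx
    rcases hx with rfl | rfl
    · exact hp
    · exact hρ) hq'
  obtain ⟨C3, hC3⟩ := hdrop k n hk q hq
  obtain ⟨C4, hC4⟩ := bx_of_gd k q hq
  obtain ⟨Ax5, h5, c5, hc5⟩ := ex_num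
  have hF : ∀ x ∈ [p, ρ], FVs (fun i => i < n) x := by
    intro x hx
    simp only [List.mem_cons, List.not_mem_nil, or_false] at hx
    rcases hx with rfl | rfl
    · exact hp
    · exact hρ
  refine ⟨alls n ([p, ρ].foldr imp q) :: (Ax1 ++ Ax5), ⟨?_, ?_⟩, ?_⟩
  · intro ψ hψ
    simp only [List.mem_cons, List.mem_append] at hψ
    rcases hψ with rfl | hψ | hψ
    · exact closed_alls ⟨hp, hρ, hq'⟩
    · exact h1.1 ψ hψ
    · exact h5.1 ψ hψ
  · intro ψ hψ
    simp only [List.mem_cons, List.mem_append] at hψ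
    rcases hψ with rfl | hψ | hψ
    · refine (sat_alls NN n _).2 fun e => ?_
      intro h3 h4
      exact ht e h3 ((hρR e).1 h4)
    · exact h1.2 ψ hψ
    · exact h5.2 ψ hψ
  · -- the bound
    have hPB : XiP (fun s => (((s + c1 * (s + 1) ^ c1) + (s + c1 * (s + 1) ^ c1)) +
        C2 * (1 + s) + n * (c5 * (s + 1) ^ c5) + C3 * (1 + s)) + k * (c5 * (s + 1) ^ c5) +
        C4 * (1 + s)) := by
      have e1 := XiP_comp XiP_id c1
      have e5 := XiP_comp XiP_id c5
      have es := XiP_add (XiP_const 1) XiP_id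
      have ea := XiP_add XiP_id e1
      exact XiP_add (XiP_add (XiP_add (XiP_add (XiP_add (XiP_add ea ea)
        (XiP_mul (XiP_const C2) es)) (XiP_mul (XiP_const n) e5)) (XiP_mul (XiP_const C3) es))
        (XiP_mul (XiP_const k) e5)) (XiP_mul (XiP_const C4) es)
    obtain ⟨C, hC⟩ := hPB
    refine ⟨C, fun T hT e s hRe hs hp' => (?_ : Pv T _ _).mono (hC s)⟩
    have hT0 : alls n ([p, ρ].foldr imp q) ∈ T := hT _ (by simp)
    have hT1 : ∀ ψ ∈ Ax1, ψ ∈ T := fun ψ h => hT ψ (by simp [h])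
    have hT5 : ∀ ψ ∈ Ax5, ψ ∈ T := fun ψ h => hT ψ (by simp [h])
    have k1 : Pv T (c1 * (s + 1) ^ c1) (Gd n e ρ) := hc1 T hT1 e s ⟨hRe, hs⟩
    have k2 := hC2 T e (fun _ => s + c1 * (s + 1) ^ c1) hT0 (by
      intro x hx
      simp only [List.mem_cons, List.not_mem_nil, or_false] at hx
      rcases hx with rfl | rfl
      · exact hp'.mono (Nat.le_add_right _ _)
      · exact k1.mono (Nat.le_add_left _ _))
    have k3 := hC3 T e _ (fun _ => c5 * (s + 1) ^ c5) k2 (fun i _ hi =>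
      hc5 T hT5 (e i) s ((size_le_SzE hi e).trans hs))
    have k4 := hC4 T e _ (fun _ => c5 * (s + 1) ^ c5) k3 (fun i hi =>
      hc5 T hT5 (e i) s ((size_le_SzE (lt_of_lt_of_le hi hk) e).trans hs))
    refine k4.mono ?_
    have hs' : SzE k e ≤ SzE n e := by
      unfold SzE
      exact Finset.sum_le_sum_of_subset (Finset.range_mono hk)
    have m1 : C2 * (1 + SzE n e) ≤ C2 * (1 + s) := Nat.mul_le_mul_left _ (by omega)
    have m2 : C3 * (1 + SzE n e) ≤ C3 * (1 + s) := Nat.mul_le_mul_left _ (by omega)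
    have m3 : C4 * (1 + SzE k e) ≤ C4 * (1 + s) := Nat.mul_le_mul_left _ (by omega)
    have m4 : (∑ i ∈ Finset.Ico k n, c5 * (s + 1) ^ c5) ≤ n * (c5 * (s + 1) ^ c5) := by
      rw [Finset.sum_const, Nat.card_Ico, smul_eq_mul]
      exact Nat.mul_le_mul_right _ (Nat.sub_le _ _)
    have m5 : (∑ i ∈ Finset.range k, c5 * (s + 1) ^ c5) = k * (c5 * (s + 1) ^ c5) := by
      rw [Finset.sum_const, Finset.card_range, smul_eq_mul]
    simp only [List.map_cons, List.map_nil, List.sum_cons, List.sum_nil, Nat.add_zero]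
    rw [m5]
    omega

/-- The relation between the numbers. -/
private def XiR (T : List AFm) (e : Env) : Prop :=
  BrR (fun i => e (i + 3)) (e 1) ∧ e 0 = 16 ∧ e 3 = cd Ks ∧ e 15 = cdL T

private theorem Xi_BrR_congr {e e' : Env} (h : ∀ i < 13, e i = e' i) {b b' : ℕ} (hb : b = b') :
    BrR e b ↔ BrR e' b' := by
  subst hb
  unfold BrR
  rw [h 0 (by norm_num), h 12 (by norm_num)]
  refine exists_congr fun ψ => exists_congr fun T => ?_
  rw [Bx_congr h]

private theorem sp_XiR (T : List AFm) : SP 16 (XiR T) := by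
  have h1 : SP 16 (fun e => BrR (fun i => e (i + 3)) (e 1)) := by
    have h := sp_br.v (n := 16) [3, 4, 5, 6, 7, 8, 9, 10, 11, 12, 13, 14, 15, 1] (by decide)
    refine h.iff fun e => Xi_BrR_congr (fun i hi => ?_) rfl
    interval_cases i <;> rfl
  have h2 : SP 16 (fun e => e 0 = 16) := (sp_const 16).v (n := 16) [0] (by decide)
  have h3 : SP 16 (fun e => e 3 = cd Ks) := (sp_const (cd Ks)).v (n := 16) [3] (by decide)
  have h4 : SP 16 (fun e => e 15 = cdL T) := (sp_const (cdL T)).v (n := 16) [15] (by decide)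
  exact h1.and (h2.and (h3.and h4))

/-- The numbers for the axiom. -/
private def XiE (b q : ℕ) (w : Env) : Env := fun i => match i with
  | 0 => 16
  | 1 => b
  | 2 => q
  | i + 3 => w i

private theorem SzE_XiE (b q : ℕ) (w : Env) :
    SzE 16 (XiE b q w) = 5 + Nat.size b + Nat.size q + SzE 13 w := by
  have h : SzE 16 (XiE b q w) = SzE 13 w + Nat.size q + Nat.size b + Nat.size 16 := by
    unfold SzE
    rw [Finset.sum_range_succ', Finset.sum_range_succ', Finset.sum_range_succ']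
    rfl
  have h16 : Nat.size 16 = 5 := by decide
  omega

private theorem SzE_shift1 (k n : ℕ) (hk : k + 1 ≤ n) (w : Env) :
    SzE k (fun i => w (i + 1)) ≤ SzE n w := by
  have h1 : SzE k (fun i => w (i + 1)) ≤ SzE (k + 1) w := by
    unfold SzE
    rw [Finset.sum_range_succ' _ k]
    exact Nat.le_add_right _ _
  refine h1.trans ?_
  unfold SzE
  exact Finset.sum_le_sum_of_subset (Finset.range_mono hk)

/-- MODULE XI. The sentence `Ξ` for the theory `T`: if the node is false then the theory `b` given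
by `BrR` is consistent. HINT: the sentence is the conjunction (`conj_ax`) of finitely many axioms
for the relations and of `alls 16 (ps.foldr imp q)` with `ps = [¬ K (x₁, ..., x₉),
BrR (x₀, ..., x₁₃) [a formula for it], x₀ = cd Ks, x₁₂ = cdL T, x₁₅ = 16]` and
`q = ¬ provF (x₁₃, x₁₄, x₁₅)`; it is true because `Sg ...` is true if the node is false (even for
arbitrary numbers `x₁, ..., x₁₁`); then `hstep`, `hmap`, `hdrop`, `bx_of_gd`, `gd_of_neg_bx`,
`ex_num`, `sp_br`, and `Con B q = Bx 3 ![16, cdL B, q] (neg (ap provF [1, 2, 0]))`. -/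
theorem xi_exists (T : List AFm) (hT : TrueL T) : ∃ Xi : AFm, Closed Xi ∧
    (∀ e, Sat NN Xi e) ∧ ∃ C : ℕ, ∀ T' : Set AFm, Xi ∈ T' →
      ∀ (t j : ℕ) (c : Cfg) (N M q s : ℕ),
        SzE 13 (senv t j c N M (cdL T)) + Nat.size q ≤ s → neg (Nd t j c) ∈ T' →
        Pv T' (C * (s + 1) ^ C) (Con (Sg t j c N M (cdL T) :: T) q) := by
  have hp : FVs (fun i => i < 16) (rename (fun i => i + 4) (neg K) : AFm) := by
    rw [FVs_rename]
    exact ((FVs_neg _ K).2 K_fv).mono fun i hi => by omega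
  have hq : FVs (fun i => i < 3) (neg (ap provF [1, 2, 0]) : AFm) := by
    rw [FVs_neg]
    exact FVs_ap StdB_provF _ _ rfl (by simp)
  have ht : ∀ e, Sat NN (rename (fun i => i + 4) (neg K) : AFm) e → XiR T e →
      Sat NN (neg (ap provF [1, 2, 0])) e := by
    rintro e hp ⟨⟨ψ, T0, h1, h2, h3⟩, h4, h5, h6⟩ hpr
    rw [sat_rename, sat_neg, K_sat] at hp
    have e1 : ψ = Ks := cd_inj (h1.symm.trans h5)
    have e2 : T0 = T := cdL_inj (h2.symm.trans h6)
    rw [e1, e2] at h3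
    rw [sat_ap, sat_provF] at hpr
    obtain ⟨T', φ, g1, g2, g3⟩ := hpr
    have e3 : T' = Bx 13 (fun i => e (i + 3)) Ks :: T := cdL_inj (g1.symm.trans h3)
    have e4 : φ = bot := cd_inj (g2.symm.trans (h4.trans cd_bot.symm))
    rw [e3, e4] at g3
    obtain ⟨l, hl, -⟩ := g3
    refine soundness NN ?_ hl bot List.mem_cons_self (fun _ => 0)
    intro χ hχ e'
    rcases List.mem_cons.1 hχ with rfl | hχ
    · rw [sat_Bx Ks_fv, Ks_sat]
      intro hn
      exact absurd hn hp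
    · exact hT.2 χ hχ e'
  obtain ⟨Ax, hAx, C1, hC1⟩ := Xi_key 16 3 (by norm_num) (sp_XiR T) _ _ hp hq ht
  obtain ⟨Xi, h1, h2, C2, hC2⟩ := conj_ax Ax hAx
  obtain ⟨C3, hC3⟩ := gd_of_neg_bx 9 K K_fv
  obtain ⟨C4, hC4⟩ := hmap 9 16 (fun i => i + 4) (fun i hi => show i + 4 < 16 by omega) (neg K)
    ((FVs_neg _ _).2 K_fv)
  obtain ⟨C5, hC5⟩ := len_Bx 13 Ks
  obtain ⟨C6, hC6⟩ := len_Bx 9 K
  have hPB : XiP (fun s => C1 * (((5 + (C5 * (s + 1) + s) + s) +
      ((C6 * (s + 1) + 8 + C3 * (1 + s)) + C4 * (1 + (5 + (C5 * (s + 1) + s) + s)))) + 1) ^ C1 +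
      C2) := by
    have es := XiP_add XiP_id (XiP_const 1)
    have es' := XiP_add (XiP_const 1) XiP_id
    have eB := XiP_add (XiP_add (XiP_const 5) (XiP_add (XiP_mul (XiP_const C5) es) XiP_id)) XiP_id
    exact XiP_add (XiP_comp (XiP_add eB (XiP_add (XiP_add (XiP_add (XiP_mul (XiP_const C6) es)
      (XiP_const 8)) (XiP_mul (XiP_const C3) es')) (XiP_mul (XiP_const C4)
        (XiP_add (XiP_const 1) eB)))) C1) (XiP_const C2)
  obtain ⟨C, hC⟩ := hPB
  refine ⟨Xi, h1, h2, C, fun T' hXi t j c N M q s hs hneg => ?_⟩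
  set w : Env := senv t j c N M (cdL T) with hw
  set b : ℕ := cdL (Sg t j c N M (cdL T) :: T) with hb
  set e : Env := XiE b q w with he
  have hs13 : SzE 13 w ≤ s := by omega
  have hsq : Nat.size q ≤ s := by omega
  have hw12 : w 12 = cdL T := by simp [hw, senv]
  have hlT : plen T + 1 ≤ s := by
    rw [← size_cdL, ← hw12]
    exact (size_le_SzE (by norm_num) w).trans hs13
  have hlS : len (Sg t j c N M (cdL T)) ≤ C5 * (s + 1) :=
    (hC5 w).trans (Nat.mul_le_mul_left _ (by omega))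
  have hsb : Nat.size b ≤ C5 * (s + 1) + s := by
    rw [hb, size_cdL]
    have : plen (Sg t j c N M (cdL T) :: T) = len (Sg t j c N M (cdL T)) + plen T := by
      simp [plen]
    omega
  have hse : SzE 16 e ≤ 5 + (C5 * (s + 1) + s) + s := by
    rw [he, SzE_XiE]
    omega
  have hcw : ∀ i < 9, cenv (cd K) t j c i = w (i + 1) := by
    intro i hi
    have h10 : i + 1 < 10 := by omega
    simp [hw, senv, h10]
  have hse9 : SzE 9 (cenv (cd K) t j c) ≤ s := by
    rw [SzE_congr hcw]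
    exact (SzE_shift1 9 13 (by norm_num) w).trans hs13
  -- the proof
  set T'' : Set AFm := T' ∪ {ψ | ψ ∈ Ax} with hT''
  have k1 : Pv T'' (C6 * (s + 1) + 8) (neg (Nd t j c)) := by
    refine (Pv.hyp (T := T'') (Or.inl hneg)).mono ?_
    have h3 : len (neg (Nd t j c)) = len (Nd t j c) + 8 := by
      simp [neg, len]
    have h4 : len (Nd t j c) ≤ C6 * (s + 1) :=
      (hC6 _).trans (Nat.mul_le_mul_left _ (by omega))
    omega
  have k2 := hC3 T'' (cenv (cd K) t j c) _ k1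
  rw [Gd_congr (e' := fun i => e (i + 4)) (fun i hi => hcw i hi)] at k2
  have k3 := hC4 T'' e _ k2
  have hR : XiR T e := by
    refine ⟨⟨Ks, T, ?_, ?_, rfl⟩, rfl, ?_, hw12⟩ <;> rfl
  have k4 := hC1 T'' (fun ψ h => Or.inr h) e ((5 + (C5 * (s + 1) + s) + s) +
      ((C6 * (s + 1) + 8 + C3 * (1 + s)) + C4 * (1 + (5 + (C5 * (s + 1) + s) + s)))) hR
      (by omega) (k3.mono (by
        have m1 : C3 * (1 + SzE 9 (cenv (cd K) t j c)) ≤ C3 * (1 + s) :=
          Nat.mul_le_mul_left _ (by omega)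
        have m2 : C4 * (1 + SzE 16 e) ≤ C4 * (1 + (5 + (C5 * (s + 1) + s) + s)) :=
          Nat.mul_le_mul_left _ (by omega)
        omega))
  have k5 := hC2 T' hXi _ _ k4
  exact k5.mono (hC s)

end Pool.Agent.MycW
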